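import Pool.Agent.H898.HH.Chain

/-!
# Balls of the chain metric, and rough geodesics
-/

set_option autoImplicit false

namespace Pool.Agent.H898.HH

namespace HHG

variable {G : Type} [Group G] {X : HHG G} {m : ℝ}

variable (X) in
/-- the error for positions -/
noncomputable def qe (c : ℝ) : ℝ := |c| + 3 * |X.hhs.ξ| + |X.hhs.δ|

variable (X) in
theorem qe_nonneg (c : ℝ) : 0 ≤ X.qe c := by
  unfold qe; positivity

variable (X) in
theorem qe_le (c : ℝ) : c / 2 + 3 * X.hhs.ξ + X.hhs.δ ≤ X.qe c := by
  unfold qe
  have h1 := le_abs_self c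
  have h2 := le_abs_self X.hhs.ξ
  have h3 := le_abs_self X.hhs.δ
  have h4 := abs_nonneg c
  linarith

/-- the domain of a piece, before the translation -/
def Piece.dom (P : X.Piece m) : X.hhs.Idx := X.actI P.g⁻¹ P.w

theorem Piece.bt_dom (P : X.Piece m) {c : ℝ} {x z y : G}
    (h : Bt c (X.pt P.dom x) (X.pt P.dom z) (X.pt P.dom y)) :
    Bt (c + 6 * X.hhs.ξ) (X.pt P.w (P.g * x)) (X.pt P.w (P.g * z)) (X.pt P.w (P.g * y)) := by
  have := X.bt_act P.g h
  unfold Piece.dom at this
  rwa [actI_self_inv] at this

theorem Piece.pos_max' (P : X.Piece m) {c : ℝ} {x z y : G}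
    (h : Bt c (X.pt P.dom x) (X.pt P.dom z) (X.pt P.dom y)) :
    P.pos z ≤ max (P.pos x) (P.pos y) + X.qe c := by
  have := gp_max (X.hyp P.w) P.a P.b (P.bt_dom h)
  have := X.qe_le c
  unfold Piece.pos
  linarith

theorem Piece.pos_min' (P : X.Piece m) {c : ℝ} {x z y : G}
    (h : Bt c (X.pt P.dom x) (X.pt P.dom z) (X.pt P.dom y)) :
    min (P.pos x) (P.pos y) ≤ P.pos z + X.qe c := by
  have := gp_min (X.hyp P.w) P.a P.b (P.bt_dom h)
  have := X.qe_le c
  unfold Piece.pos
  linarith

theorem Piece.h_mono (P : X.Piece m) {z y : G} {q : ℝ} (hq : 0 ≤ q) (h : P.pos z ≤ P.pos y + q) :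
    P.h z ≤ P.h y + q := by
  unfold Piece.h
  apply max_le
  · have := le_max_left 0 (min P.c (P.pos y - P.s))
    linarith
  · rcases le_total P.c (P.pos y - P.s) with h1 | h1
    · rw [min_eq_left h1]
      have := le_max_right 0 P.c
      have := min_le_left P.c (P.pos z - P.s)
      linarith
    · rw [min_eq_right h1]
      have := le_max_right 0 (P.pos y - P.s)
      have := min_le_right P.c (P.pos z - P.s)
      linarith

theorem hull_aux (hm0 : 0 < m) {q : ℝ} (q0 : 0 ≤ q) (hq : q < m) {B : Set G} {z : G}
    (hz : ∀ P : X.Piece m, ∃ y ∈ B, P.pos z ≤ P.pos y + q) (l : List (X.Piece m)) (hl : IsCh l) :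
    val l z ≤ q ∨ ∃ y ∈ B, (∃ Q ∈ l, 0 < Q.h y) ∧ val l z ≤ val l y + 2 * q := by
  induction l with
  | nil => left; simpa using q0
  | cons P l ih =>
    have hl' : IsCh l := (List.pairwise_cons.1 hl).2
    rcases ih hl' with h1 | ⟨y, hy, ⟨Q, hQ, hQ'⟩, h1⟩
    · by_cases h2 : P.h z ≤ q
      · left
        have h3 : P.h z ≠ P.c := by
          have := P.hc
          intro h
          linarith
        rw [val_cons, val_tail hl h3]
        linarith
      · right
        push Not at h2
        obtain ⟨y, hy, h3⟩ := hz P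
        have h4 := P.h_mono q0 h3
        refine ⟨y, hy, ⟨P, List.mem_cons_self, by linarith⟩, ?_⟩
        rw [val_cons, val_cons]
        have := val_nonneg l y
        linarith
    · right
      refine ⟨y, hy, ⟨Q, List.mem_cons_of_mem _ hQ, hQ'⟩, ?_⟩
      have h2 := (List.pairwise_cons.1 hl).1 Q hQ y hQ'
      have h3 := P.h_le hm0 z
      rw [val_cons, val_cons]
      linarith

/-- balls are closed under hulls -/
theorem ball_hull (hm : X.e1 < m) {c : ℝ} (hc : X.qe c < m) {x z : G} {r : ℝ}
    (h : ∀ w, ∃ y₁ y₂, X.sig m x y₁ ≤ r ∧ X.sig m x y₂ ≤ r ∧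
      Bt c (X.pt w y₁) (X.pt w z) (X.pt w y₂)) (hr : 0 ≤ r) : X.sig m x z ≤ r + 2 * X.qe c := by
  have hm0 : 0 < m := lt_of_le_of_lt (by unfold e1; positivity) hm
  have q0 := X.qe_nonneg c
  apply sig_le
  intro l hl
  rcases hull_aux hm0 q0 hc (B := {y | X.sig m x y ≤ r}) (z := z) (by
    intro P
    obtain ⟨y₁, y₂, h1, h2, h3⟩ := h P.dom
    have h4 := P.pos_max' h3
    rcases le_total (P.pos y₁) (P.pos y₂) with h5 | h5
    · rw [max_eq_right h5] at h4
      exact ⟨y₂, h2, h4⟩
    · rw [max_eq_left h5] at h4
      exact ⟨y₁, h1, h4⟩) l hl with h1 | ⟨y, hy, _, h1⟩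
  · have := val_nonneg l x
    linarith
  · have h2 := le_sig hm hl x y
    have h3 : X.sig m x y ≤ r := hy
    linarith

/-- cutting the first piece of a chain at the position `t` -/
theorem cut (hm0 : 0 < m) {P : X.Piece m} {l : List (X.Piece m)} (hl : IsCh (P :: l)) {t : ℝ}
    (h1 : P.s ≤ t) (h2 : t ≤ P.s + P.c) : ∃ l' : List (X.Piece m), IsCh l' ∧
      (∀ w, ∀ Q ∈ l', 0 < Q.h w → t ≤ P.pos w) ∧
      ∀ y, P.h y + val l y ≤ val l' y + (t - P.s) + m := by
  have hl' : IsCh l := (List.pairwise_cons.1 hl).2
  have hPl := (List.pairwise_cons.1 hl).1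
  have hsep : ∀ w, ∀ Q ∈ l, 0 < Q.h w → P.s + P.c ≤ P.pos w := by
    intro w Q hQ hw
    exact (P.h_full_iff hm0 w).1 (hPl Q hQ w hw)
  by_cases hc : m ≤ P.s + P.c - t
  · let P' : X.Piece m := { P with s := t, c := P.s + P.c - t, hc := hc }
    have hpos : ∀ w, P'.pos w = P.pos w := fun w => rfl
    refine ⟨P' :: l, ?_, ?_, ?_⟩
    · refine List.pairwise_cons.2 ⟨?_, hl'⟩
      intro Q hQ w hw
      refine (P'.h_full_iff hm0 w).2 ?_
      have h3 : P'.s = t := rfl
      have h4 : P'.c = P.s + P.c - t := rfl
      have := hsep w Q hQ hw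
      rw [hpos, h3, h4]
      linarith
    · intro w Q hQ hw
      rcases List.mem_cons.1 hQ with rfl | hQ
      · exact ((P'.h_pos_iff hm0 w).1 hw).le
      · have := hsep w Q hQ hw
        linarith
    · intro y
      have h5 : P.h y ≤ P'.h y + (t - P.s) := by
        have h3 : P'.s = t := rfl
        have h4 : P'.c = P.s + P.c - t := rfl
        unfold Piece.h
        rw [hpos, h3, h4]
        apply max_le
        · have := le_max_left 0 (min (P.s + P.c - t) (P.pos y - t))
          linarith
        · rcases le_total P.c (P.pos y - P.s) with h6 | h6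
          · rw [min_eq_left h6]
            have := le_max_right 0 (min (P.s + P.c - t) (P.pos y - t))
            rw [min_eq_left (by linarith)] at this ⊢
            linarith
          · rw [min_eq_right h6]
            have := le_max_right 0 (min (P.s + P.c - t) (P.pos y - t))
            rw [min_eq_right (by linarith)] at this ⊢
            linarith
      rw [val_cons]
      linarith
  · push Not at hc
    refine ⟨l, hl', ?_, ?_⟩
    · intro w Q hQ hw
      have := hsep w Q hQ hw
      linarith
    · intro y
      have := P.h_le hm0 y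
      linarith

/-- trimming a chain at its beginning: the part of the chain after `z`, with a half space which
separates it from `z` -/
theorem trim (hm0 : 0 < m) {e : ℝ} (e0 : 0 < e) (he : e < m) (l : List (X.Piece m)) (hl : IsCh l)
    (z y : G) : val l y - val l z ≤ 2 * (m + e) ∨ ∃ (S : X.Piece m) (t : ℝ) (l' : List (X.Piece m)),
      IsCh l' ∧ S.pos z + e ≤ t ∧ t ≤ S.pos y ∧
      (∀ w, ∀ Q ∈ l', 0 < Q.h w → t ≤ S.pos w) ∧
      val l y - val l z ≤ val l' y + 2 * (m + e) := by
  induction l with
  | nil => left; simp; linarith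
  | cons P l ih =>
    have hl' : IsCh l := (List.pairwise_cons.1 hl).2
    have hPl := (List.pairwise_cons.1 hl).1
    have hPc := P.hc
    by_cases hPz : P.h z = P.c
    · -- `P` is full at `z`
      have h1 : val (P :: l) y - val (P :: l) z ≤ val l y - val l z := by
        rw [val_cons, val_cons, hPz]
        have := P.h_le hm0 y
        linarith
      rcases ih hl' with h2 | ⟨S, t, l', h2, h3, h4, h5, h6⟩
      · left; linarith
      · exact Or.inr ⟨S, t, l', h2, h3, h4, h5, h1.trans h6⟩
    · -- `P` is not full at `z`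
      have hlz : val l z = 0 := val_tail hl hPz
      have hPz' : P.pos z < P.s + P.c := by
        by_contra h
        exact hPz ((P.h_full_iff hm0 z).2 (not_lt.1 h))
      have hz0 := P.h_nonneg z
      have hhz : P.pos z - P.s ≤ P.h z := by
        unfold Piece.h
        rw [min_eq_right (by linarith)]
        exact le_max_right _ _
      have hup : ∀ (Q : X.Piece m) (t : ℝ), Q.s ≤ t → t < Q.s + Q.c → Q.pos y < t →
          Q.h y ≤ t - Q.s ∧ Q.h y ≠ Q.c := by
        intro Q t h1 h2 h3
        constructor
        · unfold Piece.h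
          apply max_le (by linarith)
          exact (min_le_right _ _).trans (by linarith)
        · intro h4
          have := (Q.h_full_iff hm0 y).1 h4
          linarith
      by_cases hcase : P.pos z + e < P.s + P.c
      · -- cut `P`
        have ht1 : P.s ≤ max P.s (P.pos z + e) := le_max_left _ _
        have ht2 : max P.s (P.pos z + e) < P.s + P.c := max_lt (by linarith) hcase
        have ht3 : max P.s (P.pos z + e) - P.s ≤ P.h z + e := by
          rcases le_total P.s (P.pos z + e) with h | h
          · rw [max_eq_right h]; linarith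
          · rw [max_eq_left h]; linarith
        obtain ⟨l', c1, c2, c3⟩ := cut hm0 hl ht1 ht2.le
        by_cases hty : max P.s (P.pos z + e) ≤ P.pos y
        · right
          refine ⟨P, _, l', c1, le_max_right _ _, hty, c2, ?_⟩
          have := c3 y
          rw [val_cons, val_cons, hlz]
          linarith
        · left
          obtain ⟨h1, h2⟩ := hup P _ ht1 ht2 (not_le.1 hty)
          rw [val_cons, val_cons, hlz, val_tail hl h2]
          linarith
      · -- `P` is nearly full at `z`
        push Not at hcase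
        have hnear : P.h y - P.h z ≤ e := by
          have := P.h_le hm0 y
          linarith
        rcases l with _ | ⟨Q, l⟩
        · left
          rw [val_cons, val_cons]
          simp only [val_nil]
          linarith
        · have hQz : Q.h z = 0 := by
            rw [val_cons] at hlz
            have := Q.h_nonneg z
            have := val_nonneg l z
            linarith
          have hQz' : Q.pos z ≤ Q.s := by
            by_contra h
            have := (Q.h_pos_iff hm0 z).2 (not_le.1 h)
            linarith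
          have hQc := Q.hc
          obtain ⟨l', c1, c2, c3⟩ := cut hm0 hl' (t := Q.s + e) (by linarith) (by linarith)
          by_cases hty : Q.s + e ≤ Q.pos y
          · right
            refine ⟨Q, _, l', c1, by linarith, hty, c2, ?_⟩
            have := c3 y
            rw [val_cons, val_cons P (Q :: l) z, hlz, val_cons]
            linarith
          · left
            obtain ⟨h1, h2⟩ := hup Q (Q.s + e) (by linarith) (by linarith) (not_le.1 hty)
            rw [val_cons, val_cons P (Q :: l) z, hlz, val_cons, val_tail hl' h2]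
            linarith

theorem revl_mem {l : List (X.Piece m)} {P : X.Piece m} (h : P ∈ revl l) :
    ∃ Q ∈ l, P = Q.rev := by
  unfold revl at h
  rw [List.mem_reverse, List.mem_map] at h
  obtain ⟨Q, hQ, rfl⟩ := h
  exact ⟨Q, hQ, rfl⟩

/-- the chain metric is roughly geodesic -/
theorem rough {c : ℝ} (hg : ∀ (x : G) (Y : Set G), Y.Nonempty → ∃ g, X.Gate c x Y g)
    (hm : X.e1 < m) (hc : 3 * X.qe c + 1 < m) {x y : G} {r : ℝ} (hr : 0 ≤ r)
    (hr2 : r ≤ X.sig m x y) : ∃ z, X.sig m x z ≤ r + (10 * m) ∧
      X.sig m z y ≤ X.sig m x y - r + 10 * m := by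
  have hm0 : 0 < m := lt_of_le_of_lt (by unfold e1; positivity) hm
  set q := X.qe c with hq
  have q0 : 0 ≤ q := X.qe_nonneg c
  set e := 3 * q + 1 with he
  obtain ⟨z, hz⟩ := hg y {v | X.sig m x v ≤ r} ⟨x, by
    show X.sig m x x ≤ r
    rw [sig_self hm]; exact hr⟩
  have hxz : X.sig m x z ≤ r + 2 * q := by
    apply ball_hull hm (by linarith) _ hr
    intro w
    obtain ⟨v₁, h1, v₂, h2, h3⟩ := (hz w).2
    exact ⟨v₁, v₂, h1, h2, h3⟩
  refine ⟨z, by linarith, ?_⟩
  apply sig_le
  intro l hl
  rcases trim hm0 (e := e) (by linarith) (by linarith) l hl z y with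
    h1 | ⟨S, t, l', h1, h2, h3, h4, h5⟩
  · linarith
  · have hB : ∀ v, X.sig m x v ≤ r → S.pos v ≤ S.pos z + q := by
      intro v hv
      have h6 := S.pos_min' ((hz S.dom).1 v hv)
      rcases min_le_iff.1 h6 with h7 | h7
      · linarith
      · exact h7
    obtain ⟨w₀, hw₀⟩ := hg x {w | t ≤ S.pos w} ⟨y, h3⟩
    have h6 : t - q ≤ S.pos w₀ := by
      obtain ⟨v₁, e1, v₂, e2, e3⟩ := (hw₀ S.dom).2
      have e4 := S.pos_min' e3
      have e1' : t ≤ S.pos v₁ := e1
      have e2' : t ≤ S.pos v₂ := e2
      rcases min_le_iff.1 e4 with h7 | h7 <;> linarith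
    have h7 : r < X.sig m x w₀ := by
      by_contra h
      have := hB w₀ (not_lt.1 h)
      linarith
    have hne : {t | ∃ l : List (X.Piece m), IsCh l ∧ t = val l w₀ - val l x}.Nonempty :=
      ⟨_, [], isCh_nil, rfl⟩
    obtain ⟨_, ⟨d, hd, rfl⟩, h8⟩ := exists_lt_of_lt_csSup hne h7
    rcases trim hm0 (e := e) (by linarith) (by linarith) (revl d) (isCh_revl hm0 hd) w₀ x with
      h9 | ⟨S₂, t₂, d', h9, h10, h11, h12, h13⟩
    · rw [val_revl hm0] at h9
      have t1 := sig_triangle hm z x y
      rw [sig_comm hm z x] at t1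
      have t2 := le_sig hm hl z y
      linarith
    · rw [val_revl hm0] at h13
      have h14 : ∀ w, t ≤ S.pos w → ∀ Q ∈ d', Q.h w = 0 := by
        intro w hw Q hQ
        by_contra h0
        have e1 := h12 w Q hQ (lt_of_le_of_ne (Q.h_nonneg w) (Ne.symm h0))
        have e2 := S₂.pos_min' ((hw₀ S₂.dom).1 w hw)
        rcases min_le_iff.1 e2 with e3 | e3 <;> linarith
      have h15 : IsCh (revl d' ++ l') := by
        refine List.pairwise_append.2 ⟨isCh_revl hm0 h9, h1, ?_⟩
        intro P hP Q hQ w hw
        obtain ⟨P', hP', rfl⟩ := revl_mem hP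
        rw [P'.rev_h hm0, h14 w (h4 w Q hQ hw) P' hP', sub_zero]
        rfl
      have h16 := le_sig hm h15 x y
      rw [val_append, val_append] at h16
      have h17 := val_revl hm0 d' x y
      have h18 : val d' y = 0 := val_eq_zero (h14 y h3)
      have h19 : val l' x = 0 := by
        apply val_eq_zero
        intro Q hQ
        by_contra h0
        have e1 := h4 x Q hQ (lt_of_le_of_ne (Q.h_nonneg x) (Ne.symm h0))
        have e2 := hB x (by rw [sig_self hm]; exact hr)
        linarith
      linarith

end HHG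

end Pool.Agent.H898.HH
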