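import Mathlib

/-!
# Bicombings
-/

set_option autoImplicit false

namespace Pool.Agent.H898.HH

/-- `c` is a consistent, reversible and convex geodesic bicombing of the metric space `Y`: for all
`x` and `y` the path `c x y`, on the interval from `0` to `dist x y`, is a geodesic of unit speed
from `x` to `y`; pieces of the chosen geodesics are chosen geodesics; the chosen geodesic from `y`
to `x` is the reversed one; and the distance between two chosen geodesics, as a function of the
time, is convex. -/
structure IsBicombing {Y : Type} [MetricSpace Y] (c : Y → Y → ℝ → Y) : Prop where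
  start : ∀ x y, c x y 0 = x
  stop : ∀ x y, c x y (dist x y) = y
  geodesic : ∀ x y, ∀ s ∈ Set.Icc 0 (dist x y), ∀ t ∈ Set.Icc 0 (dist x y),
    dist (c x y s) (c x y t) = |s - t|
  consistent : ∀ x y r s t, 0 ≤ r → 0 ≤ s → s + r ≤ t → t ≤ dist x y →
    c (c x y s) (c x y t) r = c x y (s + r)
  reversible : ∀ x y t, 0 ≤ t → t ≤ dist x y → c y x t = c x y (dist x y - t)
  convex : ∀ x y x' y', ConvexOn ℝ (Set.Icc 0 (min (dist x y) (dist x' y')))
    (fun t => dist (c x y t) (c x' y' t))

end Pool.Agent.H898.HH
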