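import Pool.Agent.H898.HH.Straight

/-!
# The injective hull of a pseudometric
-/

set_option autoImplicit false

namespace Pool.Agent.H898.HH

open Filter Topology

/-- a pseudometric -/
structure PM (S : Type) where
  /-- the distance -/
  d : S → S → ℝ
  self : ∀ x, d x x = 0
  comm : ∀ x y, d x y = d y x
  tri : ∀ x y z, d x z ≤ d x y + d y z

namespace PM

variable {S : Type} (D : PM S)

/-- admissible functions -/
def Adm (f : S → ℝ) : Prop := ∀ x y, D.d x y ≤ f x + f y

/-- the conjugate function -/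
noncomputable def st (f : S → ℝ) (x : S) : ℝ := ⨆ y, (D.d x y - f y)

/-- the improvement step -/
noncomputable def q (f : S → ℝ) (x : S) : ℝ := (f x + D.st f x) / 2

/-- the iteration -/
noncomputable def it (f : S → ℝ) (n : ℕ) : S → ℝ := D.q^[n] f

/-- the extremal function below `f` -/
noncomputable def P (f : S → ℝ) (x : S) : ℝ := ⨅ n, D.it f n x

variable {D}

theorem it_succ (f : S → ℝ) (n : ℕ) : D.it f (n + 1) = D.q (D.it f n) :=
  Function.iterate_succ_apply' _ _ _

theorem adm_nonneg {f : S → ℝ} (hf : D.Adm f) (x : S) : 0 ≤ f x := by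
  have := hf x x
  rw [D.self] at this
  linarith

theorem st_bdd {f : S → ℝ} (hf : D.Adm f) (x : S) :
    BddAbove (Set.range fun y => D.d x y - f y) := by
  refine ⟨f x, ?_⟩
  rintro _ ⟨y, rfl⟩
  have := hf x y
  simp only
  linarith

theorem st_le {f : S → ℝ} (hf : D.Adm f) (x : S) : D.st f x ≤ f x := by
  have : Nonempty S := ⟨x⟩
  apply ciSup_le
  intro y
  have := hf x y
  linarith

theorem le_st {f : S → ℝ} (hf : D.Adm f) (x y : S) : D.d x y - f y ≤ D.st f x :=
  le_ciSup (st_bdd hf x) y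

theorem q_adm {f : S → ℝ} (hf : D.Adm f) : D.Adm (D.q f) := by
  intro x y
  unfold q
  have h1 := le_st hf x y
  have h2 := le_st hf y x
  rw [D.comm y x] at h2
  linarith

theorem q_le {f : S → ℝ} (hf : D.Adm f) (x : S) : D.q f x ≤ f x := by
  have := st_le hf x
  unfold q
  linarith

theorem st_anti {f g : S → ℝ} (hf : D.Adm f) (h : ∀ x, f x ≤ g x) (x : S) :
    D.st g x ≤ D.st f x := by
  have : Nonempty S := ⟨x⟩
  apply ciSup_le
  intro y
  have h1 := le_st hf x y
  have h2 := h y
  linarith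

theorem it_adm {f : S → ℝ} (hf : D.Adm f) (n : ℕ) : D.Adm (D.it f n) := by
  induction n with
  | zero => exact hf
  | succ n ih => rw [it_succ]; exact q_adm ih

theorem it_anti {f : S → ℝ} (hf : D.Adm f) (x : S) : Antitone (fun n => D.it f n x) := by
  apply antitone_nat_of_succ_le
  intro n
  rw [it_succ]
  exact q_le (it_adm hf n) x

theorem gap {f : S → ℝ} (hf : D.Adm f) (x : S) (n : ℕ) :
    D.it f n x - D.st (D.it f n) x ≤ (f x - D.st f x) * (1 / 2) ^ n := by
  induction n with
  | zero =>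
    show f x - D.st f x ≤ _
    simp
  | succ n ih =>
    have h1 := st_anti (it_adm hf (n + 1)) (fun y => it_anti hf y (Nat.le_succ n)) x
    have h2 : D.it f (n + 1) x = (D.it f n x + D.st (D.it f n) x) / 2 := by rw [it_succ]; rfl
    rw [h2, pow_succ]
    linarith

theorem P_bdd {f : S → ℝ} (hf : D.Adm f) (x : S) : BddBelow (Set.range fun n => D.it f n x) := by
  refine ⟨0, ?_⟩
  rintro _ ⟨n, rfl⟩
  exact adm_nonneg (it_adm hf n) x

theorem tendsto_P {f : S → ℝ} (hf : D.Adm f) (x : S) :
    Tendsto (fun n => D.it f n x) atTop (𝓝 (D.P f x)) :=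
  tendsto_atTop_ciInf (it_anti hf x) (P_bdd hf x)

theorem P_adm {f : S → ℝ} (hf : D.Adm f) : D.Adm (D.P f) := fun x y =>
  ge_of_tendsto' ((tendsto_P hf x).add (tendsto_P hf y)) (fun n => it_adm hf n x y)

theorem P_le_it {f : S → ℝ} (hf : D.Adm f) (n : ℕ) (x : S) : D.P f x ≤ D.it f n x :=
  ciInf_le (P_bdd hf x) n

theorem P_ext {f : S → ℝ} (hf : D.Adm f) (x : S) {ε : ℝ} (hε : 0 < ε) :
    ∃ y, D.P f x + D.P f y < D.d x y + ε := by
  have : Nonempty S := ⟨x⟩
  have h1 : Tendsto (fun n : ℕ => (f x - D.st f x) * (1 / 2 : ℝ) ^ n) atTop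
      (𝓝 ((f x - D.st f x) * 0)) :=
    (tendsto_pow_atTop_nhds_zero_of_lt_one (by norm_num) (by norm_num)).const_mul _
  rw [mul_zero] at h1
  obtain ⟨n, hn⟩ := (h1.eventually_lt_const (show (0 : ℝ) < ε / 2 by linarith)).exists
  have h2 := gap hf x n
  have h3 : D.it f n x - ε / 2 < D.st (D.it f n) x := by linarith
  obtain ⟨y, hy⟩ := exists_lt_of_lt_ciSup h3
  have h4 := P_le_it hf n x
  have h5 := P_le_it hf n y
  exact ⟨y, by linarith⟩

theorem P_fix {f : S → ℝ} (hf : D.Adm f) (h : ∀ x ε, 0 < ε → ∃ y, f x + f y < D.d x y + ε) :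
    D.P f = f := by
  have h1 : D.st f = f := by
    funext x
    apply le_antisymm (st_le hf x)
    apply le_of_forall_pos_le_add
    intro ε hε
    obtain ⟨y, hy⟩ := h x ε hε
    have := le_st hf x y
    linarith
  have h2 : D.q f = f := by
    funext x
    unfold q
    rw [h1]
    ring
  have h3 : ∀ n, D.it f n = f := by
    intro n
    induction n with
    | zero => rfl
    | succ n ih => rw [it_succ, ih, h2]
  funext x
  unfold P
  simp only [h3]
  exact ciInf_const

theorem st_lip {f g : S → ℝ} (hg : D.Adm g) {c : ℝ} (h : ∀ x, g x ≤ f x + c) (x : S) :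
    D.st f x ≤ D.st g x + c := by
  have : Nonempty S := ⟨x⟩
  apply ciSup_le
  intro y
  have h1 := le_st hg x y
  have h2 := h y
  linarith

theorem it_lip {f g : S → ℝ} (hf : D.Adm f) (hg : D.Adm g) {c : ℝ} (h : ∀ x, f x ≤ g x + c)
    (h' : ∀ x, g x ≤ f x + c) (n : ℕ) :
    (∀ x, D.it f n x ≤ D.it g n x + c) ∧ ∀ x, D.it g n x ≤ D.it f n x + c := by
  induction n with
  | zero => exact ⟨h, h'⟩
  | succ n ih =>
    obtain ⟨h1, h2⟩ := ih
    rw [it_succ, it_succ]
    constructor
    · intro x
      have := st_lip (it_adm hg n) h2 x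
      have := h1 x
      unfold q
      linarith
    · intro x
      have := st_lip (it_adm hf n) h1 x
      have := h2 x
      unfold q
      linarith

theorem P_lip {f g : S → ℝ} (hf : D.Adm f) (hg : D.Adm g) {c : ℝ} (h : ∀ x, f x ≤ g x + c)
    (h' : ∀ x, g x ≤ f x + c) (x : S) : D.P f x ≤ D.P g x + c :=
  le_of_tendsto_of_tendsto' (tendsto_P hf x) ((tendsto_P hg x).add_const c)
    (fun n => (it_lip hf hg h h' n).1 x)

theorem it_comp (φ : S ≃ S) (hφ : ∀ x y, D.d (φ x) (φ y) = D.d x y) (f : S → ℝ) (n : ℕ) :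
    D.it (fun x => f (φ x)) n = fun x => D.it f n (φ x) := by
  have key : ∀ f : S → ℝ, D.q (fun x => f (φ x)) = fun x => D.q f (φ x) := by
    intro f
    funext x
    unfold q st
    have : (⨆ y, (D.d x y - f (φ y))) = ⨆ z, (D.d (φ x) z - f z) := by
      rw [← Equiv.iSup_comp (g := fun z => D.d (φ x) z - f z) φ]
      congr 1
      funext y
      rw [hφ]
    rw [this]
  induction n with
  | zero => rfl
  | succ n ih => rw [it_succ, it_succ, ih, key]

theorem P_comp (φ : S ≃ S) (hφ : ∀ x y, D.d (φ x) (φ y) = D.d x y) (f : S → ℝ) (x : S) :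
    D.P (fun x => f (φ x)) x = D.P f (φ x) := by
  unfold P
  simp only [it_comp φ hφ]

end PM

/-- extremal functions -/
@[ext] structure Ext {S : Type} (D : PM S) where
  /-- the function -/
  f : S → ℝ
  adm : D.Adm f
  tight : ∀ x ε, 0 < ε → ∃ y, f x + f y < D.d x y + ε

namespace Ext

variable {S : Type} {D : PM S}

theorem lip (F : Ext D) (x y : S) : F.f x ≤ F.f y + D.d x y := by
  apply le_of_forall_pos_le_add
  intro ε hε
  obtain ⟨z, hz⟩ := F.tight x ε hε
  have h1 := F.adm y z
  have h2 := D.tri x y z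
  linarith

theorem sub_le (F H : Ext D) (x₀ x : S) : |F.f x - H.f x| ≤ F.f x₀ + H.f x₀ := by
  have h1 := F.lip x x₀
  have h2 := H.lip x x₀
  have h3 := F.adm x x₀
  have h4 := H.adm x x₀
  rw [abs_le]
  constructor <;> linarith

variable [Nonempty S]

theorem bdd (F H : Ext D) : BddAbove (Set.range fun x => |F.f x - H.f x|) := by
  obtain ⟨x₀⟩ := ‹Nonempty S›
  refine ⟨F.f x₀ + H.f x₀, ?_⟩
  rintro _ ⟨x, rfl⟩
  exact F.sub_le H x₀ x

noncomputable instance : Dist (Ext D) := ⟨fun F H => ⨆ x, |F.f x - H.f x|⟩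

theorem le_dist (F H : Ext D) (x : S) : |F.f x - H.f x| ≤ dist F H := le_ciSup (F.bdd H) x

theorem dist_le {F H : Ext D} {c : ℝ} (h : ∀ x, |F.f x - H.f x| ≤ c) : dist F H ≤ c := ciSup_le h

noncomputable instance : MetricSpace (Ext D) where
  dist_self F := by
    show (⨆ x, |F.f x - F.f x|) = 0
    simp
  dist_comm F H := by
    show (⨆ x, |F.f x - H.f x|) = ⨆ x, |H.f x - F.f x|
    simp only [abs_sub_comm]
  dist_triangle F H K := by
    apply dist_le
    intro x
    have h1 := le_dist F H x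
    have h2 := le_dist H K x
    have h3 := abs_sub_le (F.f x) (H.f x) (K.f x)
    linarith
  eq_of_dist_eq_zero := by
    intro F H h
    apply Ext.ext
    funext x
    have := le_dist F H x
    rw [h] at this
    have h2 : |F.f x - H.f x| = 0 := le_antisymm this (abs_nonneg _)
    rw [abs_eq_zero] at h2
    linarith

instance : CompleteSpace (Ext D) := by
  apply Metric.complete_of_cauchySeq_tendsto
  intro u hu
  have hu' := Metric.cauchySeq_iff.1 hu
  have h1 : ∀ x, ∃ l, Tendsto (fun k => (u k).f x) atTop (𝓝 l) := by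
    intro x
    apply cauchySeq_tendsto_of_complete
    rw [Metric.cauchySeq_iff]
    intro ε hε
    obtain ⟨N, hN⟩ := hu' ε hε
    refine ⟨N, fun m hm n hn => ?_⟩
    exact lt_of_le_of_lt (le_dist (u m) (u n) x) (hN m hm n hn)
  choose f hf using h1
  have h2 : ∀ ε > 0, ∃ N, ∀ n ≥ N, ∀ x, |(u n).f x - f x| ≤ ε := by
    intro ε hε
    obtain ⟨N, hN⟩ := hu' ε hε
    refine ⟨N, fun n hn x => ?_⟩
    have h3 : Tendsto (fun k => |(u n).f x - (u k).f x|) atTop (𝓝 |(u n).f x - f x|) :=
      (tendsto_const_nhds.sub (hf x)).abs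
    refine le_of_tendsto h3 ?_
    filter_upwards [eventually_ge_atTop N] with k hk
    exact (le_dist (u n) (u k) x).trans (hN n hn k hk).le
  have hadm : D.Adm f := fun x y =>
    ge_of_tendsto' ((hf x).add (hf y)) (fun k => (u k).adm x y)
  have hext : ∀ x ε, 0 < ε → ∃ y, f x + f y < D.d x y + ε := by
    intro x ε hε
    obtain ⟨N, hN⟩ := h2 (ε / 4) (by linarith)
    obtain ⟨y, hy⟩ := (u N).tight x (ε / 4) (by linarith)
    have h3 := abs_le.1 (hN N le_rfl x)
    have h4 := abs_le.1 (hN N le_rfl y)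
    exact ⟨y, by linarith [h3.1, h4.1]⟩
  refine ⟨⟨f, hadm, hext⟩, ?_⟩
  rw [Metric.tendsto_atTop]
  intro ε hε
  obtain ⟨N, hN⟩ := h2 (ε / 2) (by linarith)
  refine ⟨N, fun n hn => ?_⟩
  exact lt_of_le_of_lt (dist_le (hN n hn)) (by linarith)

theorem avg_adm (F H : Ext D) : D.Adm (fun x => (F.f x + H.f x) / 2) := by
  intro x y
  have h1 := F.adm x y
  have h2 := H.adm x y
  simp only
  linarith

/-- the midpoint -/
noncomputable def mid (F H : Ext D) : Ext D where
  f := D.P (fun x => (F.f x + H.f x) / 2)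
  adm := PM.P_adm (F.avg_adm H)
  tight x _ hε := PM.P_ext (F.avg_adm H) x hε

/-- the conical midpoint map of the injective hull -/
noncomputable def M : Mid (Ext D) where
  mid := mid
  idem F := by
    apply Ext.ext
    show D.P (fun x => (F.f x + F.f x) / 2) = F.f
    have : (fun x => (F.f x + F.f x) / 2) = F.f := by
      funext x
      ring
    rw [this]
    exact PM.P_fix F.adm F.tight
  comm F H := by
    apply Ext.ext
    show D.P (fun x => (F.f x + H.f x) / 2) = D.P (fun x => (H.f x + F.f x) / 2)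
    simp only [add_comm]
  con F H F' H' := by
    apply dist_le
    intro x
    have key : ∀ F H F' H' : Ext D, ∀ x, D.P (fun x => (F.f x + H.f x) / 2) x ≤
        D.P (fun x => (F'.f x + H'.f x) / 2) x + (dist F F' + dist H H') / 2 := by
      intro F H F' H' x
      apply PM.P_lip (F.avg_adm H) (F'.avg_adm H')
      · intro x
        have h1 := abs_le.1 (le_dist F F' x)
        have h2 := abs_le.1 (le_dist H H' x)
        linarith [h1.2, h2.2]
      · intro x
        have h1 := abs_le.1 (le_dist F F' x)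
        have h2 := abs_le.1 (le_dist H H' x)
        linarith [h1.1, h2.1]
    have h1 := key F H F' H' x
    have h2 := key F' H' F H x
    rw [dist_comm F' F, dist_comm H' H] at h2
    show |D.P (fun x => (F.f x + H.f x) / 2) x - D.P (fun x => (F'.f x + H'.f x) / 2) x| ≤ _
    rw [abs_le]
    constructor <;> linarith

/-- the points of `S` -/
def kur (s : S) : Ext D where
  f x := D.d s x
  adm x y := by
    have := D.tri x s y
    rw [D.comm x s] at this
    exact this
  tight x ε hε := ⟨s, by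
    show D.d s x + D.d s s < D.d x s + ε
    rw [D.self, D.comm x s]
    linarith⟩

theorem dist_kur (F : Ext D) (s : S) : dist F (kur s) = F.f s := by
  apply le_antisymm
  · apply dist_le
    intro x
    show |F.f x - D.d s x| ≤ F.f s
    have h1 := F.lip x s
    have h2 := F.adm s x
    rw [D.comm x s] at h1
    rw [abs_le]
    constructor <;> linarith
  · have h1 := le_dist F (kur s) s
    have h2 : (kur s : Ext D).f s = 0 := D.self s
    rw [h2, sub_zero, abs_of_nonneg (PM.adm_nonneg F.adm s)] at h1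
    exact h1

end Ext

/-- left invariant pseudometrics on a group -/
structure GM (G : Type) [Group G] extends PM G where
  inv : ∀ g x y, d (g * x) (g * y) = d x y

namespace GM

variable {G : Type} [Group G] {D : GM G}

instance : MulAction G (Ext D.toPM) where
  smul g F := {
    f := fun x => F.f (g⁻¹ * x)
    adm := fun x y => by
      have := F.adm (g⁻¹ * x) (g⁻¹ * y)
      rw [D.inv] at this
      exact this
    tight := fun x ε hε => by
      obtain ⟨y, hy⟩ := F.tight (g⁻¹ * x) ε hε
      refine ⟨g * y, ?_⟩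
      rw [inv_mul_cancel_left, ← D.inv g⁻¹ x (g * y), inv_mul_cancel_left]
      exact hy }
  one_smul F := by
    apply Ext.ext
    funext x
    show F.f (1⁻¹ * x) = F.f x
    simp
  mul_smul g h F := by
    apply Ext.ext
    funext x
    show F.f ((g * h)⁻¹ * x) = F.f (h⁻¹ * (g⁻¹ * x))
    rw [mul_inv_rev, mul_assoc]

theorem smul_f (g : G) (F : Ext D.toPM) (x : G) : (g • F).f x = F.f (g⁻¹ * x) := rfl

theorem smul_dist_le (g : G) (F H : Ext D.toPM) : dist (g • F) (g • H) ≤ dist F H :=
  Ext.dist_le (fun x => Ext.le_dist F H (g⁻¹ * x))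

instance : IsIsometricSMul G (Ext D.toPM) where
  isometry_smul g := by
    apply Isometry.of_dist_eq
    intro F H
    apply le_antisymm (smul_dist_le g F H)
    have := smul_dist_le g⁻¹ (g • F) (g • H)
    rwa [inv_smul_smul, inv_smul_smul] at this

theorem smul_mid (g : G) (F H : Ext D.toPM) :
    g • (Ext.M (D := D.toPM)).mid F H = (Ext.M (D := D.toPM)).mid (g • F) (g • H) := by
  apply Ext.ext
  funext x
  show D.P (fun x => (F.f x + H.f x) / 2) (g⁻¹ * x) =
    D.P (fun x => (F.f (g⁻¹ * x) + H.f (g⁻¹ * x)) / 2) x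
  exact (PM.P_comp (D := D.toPM) (Equiv.mulLeft g⁻¹) (fun x y => D.inv _ _ _)
    (fun x => (F.f x + H.f x) / 2) x).symm

theorem smul_kur (g s : G) : g • (Ext.kur s : Ext D.toPM) = Ext.kur (g * s) := by
  apply Ext.ext
  funext x
  show D.d s (g⁻¹ * x) = D.d (g * s) x
  rw [← D.inv g s (g⁻¹ * x), mul_inv_cancel_left]

end GM

end Pool.Agent.H898.HH
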