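import Pool.Agent.H898.HH.Orbits

/-!
# Minimal unbounded domains which are quasi-lines
-/

set_option autoImplicit false

namespace Pool.Agent.H898.HH

/-! ## coarse isometries of subsets of the line -/

theorem line_aux {a b A B c : ℝ} (h1 : |(|b| - |a|)| ≤ c) (h2 : |(|B| - |A|)| ≤ c)
    (h3 : |(|B - b| - |A - a|)| ≤ c) (hA : 2 * c < A) (hB : 0 < B) : |b - a| ≤ 2 * c := by
  have hA0 : 0 < A := by
    have : 0 ≤ c := (abs_nonneg _).trans h1
    linarith
  rw [abs_of_pos hB, abs_of_pos hA0] at h2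
  rw [abs_le] at h1 h2 h3 ⊢
  obtain ⟨h1a, h1b⟩ := h1
  obtain ⟨h2a, h2b⟩ := h2
  obtain ⟨h3a, h3b⟩ := h3
  rcases abs_cases a with ⟨ha, ha'⟩ | ⟨ha, ha'⟩ <;> rcases abs_cases b with ⟨hb, hb'⟩ | ⟨hb, hb'⟩ <;>
    rcases abs_cases (A - a) with ⟨h4, h4'⟩ | ⟨h4, h4'⟩ <;>
    rcases abs_cases (B - b) with ⟨h5, h5'⟩ | ⟨h5, h5'⟩ <;>
    rw [ha, hb] at h1a h1b <;> rw [h4, h5] at h3a h3b <;> constructor <;> linarith

/-- a map which coarsely preserves distances in the line is coarsely affine -/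
theorem coarse_affine {S : Type} {φ ψ : S → ℝ} {c : ℝ}
    (h : ∀ x y, |(|ψ x - ψ y| - |φ x - φ y|)| ≤ c) {x0 y0 : S} (h0 : 2 * c < |φ y0 - φ x0|) :
    ∃ ε : ℝ, (ε = 1 ∨ ε = -1) ∧ ∀ x y, |(ψ x - ψ y) - ε * (φ x - φ y)| ≤ 4 * c := by
  have hc : 0 ≤ c := (abs_nonneg _).trans (h x0 x0)
  -- reduction to a positive direction
  have key : ∀ (φ ψ : S → ℝ), (∀ x y, |(|ψ x - ψ y| - |φ x - φ y|)| ≤ c) →
      2 * c < φ y0 - φ x0 → 0 < ψ y0 - ψ x0 → ∀ x, |(ψ x - ψ x0) - (φ x - φ x0)| ≤ 2 * c := by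
    intro φ ψ h h1 h2 x
    refine line_aux (h x x0) (h y0 x0) ?_ h1 h2
    have := h y0 x
    have e1 : ψ y0 - ψ x0 - (ψ x - ψ x0) = ψ y0 - ψ x := by ring
    have e2 : φ y0 - φ x0 - (φ x - φ x0) = φ y0 - φ x := by ring
    rw [e1, e2]
    exact this
  have hψ0 : ψ y0 - ψ x0 ≠ 0 := by
    intro h1
    have := h y0 x0
    rw [h1, abs_zero, zero_sub, abs_neg, abs_abs] at this
    linarith
  have habs : ∀ (u v : ℝ), |(-u) - (-v)| = |u - v| := by
    intro u v
    rw [← abs_neg (u - v)]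
    congr 1
    ring
  rcases lt_or_gt_of_ne (show φ y0 - φ x0 ≠ 0 from by
    intro h1
    rw [h1, abs_zero] at h0
    linarith) with hφ | hφ
  · rw [abs_of_neg hφ] at h0
    rcases lt_or_gt_of_ne hψ0 with hψ | hψ
    · have := key (fun x => -φ x) (fun x => -ψ x) (by
        intro x y
        simp only [habs]
        exact h x y) (by linarith) (by linarith)
      refine ⟨1, Or.inl rfl, fun x y => ?_⟩
      have h1 := abs_le.1 (this x)
      have h2 := abs_le.1 (this y)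
      rw [abs_le]
      constructor <;> linarith [h1.1, h1.2, h2.1, h2.2]
    · have := key (fun x => -φ x) ψ (by
        intro x y
        simp only [habs]
        exact h x y) (by linarith) hψ
      refine ⟨-1, Or.inr rfl, fun x y => ?_⟩
      have h1 := abs_le.1 (this x)
      have h2 := abs_le.1 (this y)
      rw [abs_le]
      constructor <;> linarith [h1.1, h1.2, h2.1, h2.2]
  · rw [abs_of_pos hφ] at h0
    rcases lt_or_gt_of_ne hψ0 with hψ | hψ
    · have := key φ (fun x => -ψ x) (by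
        intro x y
        simp only [habs]
        exact h x y) (by linarith) (by linarith)
      refine ⟨-1, Or.inr rfl, fun x y => ?_⟩
      have h1 := abs_le.1 (this x)
      have h2 := abs_le.1 (this y)
      rw [abs_le]
      constructor <;> linarith [h1.1, h1.2, h2.1, h2.2]
    · have := key φ ψ h (by linarith) hψ
      refine ⟨1, Or.inl rfl, fun x y => ?_⟩
      have h1 := abs_le.1 (this x)
      have h2 := abs_le.1 (this y)
      rw [abs_le]
      constructor <;> linarith [h1.1, h1.2, h2.1, h2.2]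

/-! ## word length -/

theorem wordLen_inv_le {G : Type} [Group G] {T : Set G} (hT : Subgroup.closure T = ⊤) (g : G) :
    wordLen T g⁻¹ ≤ wordLen T g := by
  obtain ⟨l, h1, h2, h3⟩ := wordLen_spec hT g
  rw [← h1]
  have : (l.reverse.map (fun x => x⁻¹)).length = l.length := by simp
  rw [← this]
  apply wordLen_le
  · intro x hx
    obtain ⟨y, hy, rfl⟩ := List.mem_map.1 hx
    have := h2 y (List.mem_reverse.1 hy)
    rw [inv_inv]
    exact this.symm
  · rw [← h3, List.prod_inv_reverse, List.map_reverse]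

theorem wordLen_inv {G : Type} [Group G] {T : Set G} (hT : Subgroup.closure T = ⊤) (g : G) :
    wordLen T g⁻¹ = wordLen T g :=
  le_antisymm (wordLen_inv_le hT g) (by
    have := wordLen_inv_le hT g⁻¹
    rwa [inv_inv] at this)

namespace HHG

variable {G : Type} [Group G] (X : HHG G)

theorem lipA (w : X.hhs.Idx) (x y : G) :
    dist (X.pt w x) (X.pt w y) ≤ |X.hhs.K| * wordLen X.gens (x⁻¹ * y) + |X.hhs.K| := by
  have h1 := X.lip w x y
  have h2 : X.hhs.K * wordDist X.gens x y ≤ |X.hhs.K| * wordDist X.gens x y :=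
    mul_le_mul_of_nonneg_right (le_abs_self _) (wordDist_nonneg _ _ _)
  have h3 := le_abs_self X.hhs.K
  unfold wordDist at h1 h2
  linarith

theorem lipB (w : X.hhs.Idx) (x g : G) {n : ℕ} (h : wordLen X.gens g ≤ n) :
    dist (X.pt w x) (X.pt w (x * g)) ≤ |X.hhs.K| * n + |X.hhs.K| := by
  have h1 := X.lipA w x (x * g)
  rw [inv_mul_cancel_left] at h1
  have h2 : |X.hhs.K| * (wordLen X.gens g : ℝ) ≤ |X.hhs.K| * n :=
    mul_le_mul_of_nonneg_left (by exact_mod_cast h) (abs_nonneg _)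
  linarith

theorem exists_len_bound {F : Set G} (hF : F.Finite) : ∃ n : ℕ, ∀ f ∈ F, wordLen X.gens f ≤ n := by
  obtain ⟨n, hn⟩ := (hF.image (wordLen X.gens)).bddAbove
  exact ⟨n, fun f hf => hn (Set.mem_image_of_mem _ hf)⟩

theorem dist_stab {v : X.hhs.Idx} {h : G} (hh : h ∈ X.stab v) (x y : G) :
    dist (X.pt v (h * x)) (X.pt v (h * y)) ≤ dist (X.pt v x) (X.pt v y) + 2 * X.hhs.ξ := by
  have := X.dist_pt_act h v x y
  rwa [X.mem_stab.1 hh] at this

theorem orth_stab {v w : X.hhs.Idx} {h : G} (hh : h ∈ X.stab v) (hw : X.hhs.orth w v) :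
    X.hhs.orth (X.actI h w) v := by
  have := X.actI_orth h _ _ hw
  rwa [X.mem_stab.1 hh] at this

/-- moving a domain -/
theorem dist_move (w : X.hhs.Idx) (h x y : G) {D : ℝ}
    (hD : dist (X.pt (X.actI h⁻¹ w) x) (X.pt (X.actI h⁻¹ w) y) ≤ D) :
    dist (X.pt w (h * x)) (X.pt w (h * y)) ≤ D + 2 * X.hhs.ξ := by
  have := X.dist_pt_act h (X.actI h⁻¹ w) x y
  rw [actI_self_inv] at this
  linarith

theorem uniqL (c : ℝ) : ∃ n : ℕ, ∀ g : G, (∀ w, dist (X.pt w 1) (X.pt w g) ≤ c) →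
    wordLen X.gens g ≤ n := by
  obtain ⟨θ, hθ⟩ := X.uniq c
  refine ⟨⌈θ⌉₊, fun g hg => ?_⟩
  have h1 := hθ 1 g hg
  unfold wordDist at h1
  rw [inv_one, one_mul] at h1
  have h2 : (wordLen X.gens g : ℝ) ≤ (⌈θ⌉₊ : ℝ) := h1.le.trans (Nat.le_ceil θ)
  exact_mod_cast h2

theorem uniqL' (c : ℝ) : ∃ n : ℕ, ∀ x y : G, (∀ w, dist (X.pt w x) (X.pt w y) ≤ c) →
    wordLen X.gens (x⁻¹ * y) ≤ n := by
  obtain ⟨θ, hθ⟩ := X.uniq c
  refine ⟨⌈θ⌉₊, fun x y hg => ?_⟩
  have h1 := hθ x y hg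
  unfold wordDist at h1
  have h2 : (wordLen X.gens (x⁻¹ * y) : ℝ) ≤ (⌈θ⌉₊ : ℝ) := h1.le.trans (Nat.le_ceil θ)
  exact_mod_cast h2

/-- a subgroup of the stabiliser which acts coboundedly on the product region is finitely
generated -/
theorem fg_of_cobounded (v : X.hhs.Idx) (A : Subgroup G)
    (hA : ∀ c : ℝ, ∃ F : Set G, F.Finite ∧ ∀ x, X.InPc c v x → ∃ h ∈ A, ∃ f ∈ F, x = h * f)
    (hAs : A ≤ X.stab v) :
    ∃ S : Set G, S.Finite ∧ S ⊆ A ∧ A ≤ Subgroup.closure S := by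
  classical
  obtain ⟨θ, hθ0, hθ⟩ := X.prod_region
  obtain ⟨F, hF, hF2⟩ := hA θ
  obtain ⟨M, hM⟩ := X.exists_len_bound hF
  have hgate : ∀ y : G, ∃ g : G, ∃ h ∈ A, ∃ f ∈ F, g = h * f ∧
      (∀ w, (X.hhs.nest w v ∨ X.hhs.orth w v) → dist (X.pt w g) (X.pt w y) ≤ θ) ∧
      X.InPc θ v g := by
    intro y
    obtain ⟨g, h1, h2, h3⟩ := hθ v y y
    obtain ⟨h, hh, f, hf, e⟩ := hF2 g h3
    exact ⟨g, h, hh, f, hf, e, fun w hw => hw.elim (h1 w) (h2 w), h3⟩
  choose g a ha f hf hgaf hg1 hg2 using hgate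
  have cases : ∀ w, (X.hhs.nest w v ∨ X.hhs.orth w v) ∨ X.Rel v w := by
    intro w
    rcases X.rel_cases w v with h | h | h | h
    · exact Or.inl (Or.inl (h ▸ X.hhs.nest_refl _))
    · exact Or.inl (Or.inr h)
    · exact Or.inl (Or.inl h.1)
    · exact Or.inr h
  -- the gate map is coarsely Lipschitz
  obtain ⟨R, hR⟩ := X.uniqL' (2 * θ + (|X.hhs.K| * 1 + |X.hhs.K|))
  have hstep : ∀ y s, wordLen X.gens s ≤ 1 → wordLen X.gens ((g y)⁻¹ * g (y * s)) ≤ R := by
    intro y s hs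
    apply hR
    intro w
    rcases cases w with hw | hw
    · have h1 := hg1 y w hw
      have h2 := hg1 (y * s) w hw
      have h3 := X.lipB w y s hs
      have h4 := dist_triangle (X.pt w (g y)) (X.pt w y) (X.pt w (g (y * s)))
      have h5 := dist_triangle (X.pt w y) (X.pt w (y * s)) (X.pt w (g (y * s)))
      rw [dist_comm (X.pt w (y * s)) (X.pt w (g (y * s)))] at h5
      push_cast at h3
      linarith
    · have h1 := hg2 y w hw
      have h2 := hg2 (y * s) w hw
      have h3 := dist_triangle (X.pt w (g y)) (X.rp v w) (X.pt w (g (y * s)))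
      rw [dist_comm (X.rp v w)] at h3
      have := abs_nonneg X.hhs.K
      linarith
  -- the base point
  obtain ⟨x0, hx0⟩ := X.exists_inP v
  have hx0' : X.InPc X.a1 v x0 := hx0
  have hhx : ∀ h ∈ A, X.InPc (X.a1 + 2 * X.hhs.ξ) v (h * x0) := by
    intro h hh
    have := X.inPc_act hx0' h
    rwa [X.mem_stab.1 (hAs hh)] at this
  obtain ⟨R', hR'⟩ := X.uniqL' (θ + (X.a1 + 2 * X.hhs.ξ))
  have hξ0 : 0 ≤ X.hhs.ξ := X.xi_nonneg v
  have hR'' : ∀ h ∈ A, wordLen X.gens ((g (h * x0))⁻¹ * (h * x0)) ≤ R' := by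
    intro h hh
    apply hR'
    intro w
    rcases cases w with hw | hw
    · have ha1 : 0 ≤ X.a1 + 2 * X.hhs.ξ ∨ X.a1 + 2 * X.hhs.ξ < 0 := le_or_gt 0 _
      have h1 := hg1 (h * x0) w hw
      by_cases hne : 0 ≤ X.a1
      · linarith
      · -- `a1` is nonnegative since distances are
        exfalso
        obtain ⟨z, hz⟩ := X.partial_real {v} (by
          intro u hu v' hv' huv
          rw [Set.mem_singleton_iff] at hu hv'
          exact absurd (hu.trans hv'.symm) huv) (fun w => X.pt w 1) (fun w _ => X.isCoord_pt w 1)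
        exact hne (dist_nonneg.trans (hz v rfl).1)
    · have h1 := hg2 (h * x0) w hw
      have h2 := hhx h hh w hw
      have h3 := dist_triangle (X.pt w (g (h * x0))) (X.rp v w) (X.pt w (h * x0))
      rw [dist_comm (X.rp v w)] at h3
      linarith
  set N := R + R' + 2 * M + wordLen X.gens x0 with hN
  have hS := ball_finite X.gens_finite X.gens_closure N
  refine ⟨{s | s ∈ A ∧ wordLen X.gens s ≤ N}, hS.subset (fun s hs => hs.2), fun s hs => hs.1, ?_⟩
  set S : Set G := {s | s ∈ A ∧ wordLen X.gens s ≤ N} with hSdef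
  have hmul := fun x y : G => wordLen_mul X.gens_closure x y
  have hinv := fun x : G => wordLen_inv X.gens_closure x
  -- steps
  have hstep' : ∀ y s, wordLen X.gens s ≤ 1 → (a y)⁻¹ * a (y * s) ∈ S := by
    intro y s hs
    refine ⟨A.mul_mem (A.inv_mem (ha y)) (ha _), ?_⟩
    have e : (a y)⁻¹ * a (y * s) = f y * ((g y)⁻¹ * g (y * s)) * (f (y * s))⁻¹ := by
      rw [hgaf y, hgaf (y * s)]
      group
    rw [e]
    have h1 := hstep y s hs
    have h2 := hM (f y) (hf y)
    have h3 := hM (f (y * s)) (hf (y * s))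
    have h4 := hmul (f y * ((g y)⁻¹ * g (y * s))) (f (y * s))⁻¹
    have h5 := hmul (f y) ((g y)⁻¹ * g (y * s))
    rw [hinv] at h4
    omega
  have hpath : ∀ l : List G, (∀ s ∈ l, s ∈ X.gens ∨ s⁻¹ ∈ X.gens) → ∀ y,
      a y ∈ Subgroup.closure S → a (y * l.prod) ∈ Subgroup.closure S := by
    intro l
    induction l with
    | nil => intro _ y hy; simpa using hy
    | cons s l ih =>
      intro hl y hy
      have h1 : a (y * s) ∈ Subgroup.closure S := by
        have h2 := hstep' y s (wordLen_gen (hl s List.mem_cons_self))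
        have h3 := (Subgroup.closure S).mul_mem hy (Subgroup.subset_closure h2)
        rwa [mul_inv_cancel_left] at h3
      have h3 := ih (fun s' hs' => hl s' (List.mem_cons_of_mem _ hs')) (y * s) h1
      rwa [List.prod_cons, ← mul_assoc]
  -- the end points
  have hend : ∀ h ∈ A, (a (h * x0))⁻¹ * h ∈ S := by
    intro h hh
    refine ⟨A.mul_mem (A.inv_mem (ha _)) hh, ?_⟩
    have e : (a (h * x0))⁻¹ * h = f (h * x0) * ((g (h * x0))⁻¹ * (h * x0)) * x0⁻¹ := by
      rw [hgaf (h * x0)]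
      group
    rw [e]
    have h1 := hR'' h hh
    have h2 := hM (f (h * x0)) (hf _)
    have h4 := hmul (f (h * x0) * ((g (h * x0))⁻¹ * (h * x0))) x0⁻¹
    have h5 := hmul (f (h * x0)) ((g (h * x0))⁻¹ * (h * x0))
    rw [hinv] at h4
    omega
  intro h hh
  obtain ⟨l, _, h2, h3⟩ := wordLen_spec X.gens_closure (x0⁻¹ * (h * x0))
  have h4 : a x0 ∈ Subgroup.closure S := by
    have h5 := hend 1 A.one_mem
    rw [one_mul, mul_one] at h5
    have h6 := (Subgroup.closure S).inv_mem (Subgroup.subset_closure h5)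
    rwa [inv_inv] at h6
  have h5 := hpath l h2 x0 h4
  rw [h3, mul_inv_cancel_left] at h5
  have h6 := (Subgroup.closure S).mul_mem h5 (Subgroup.subset_closure (hend h hh))
  rwa [mul_inv_cancel_left] at h6

end HHG

end Pool.Agent.H898.HH
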