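import Pool.Agent.H898.HH.Ultra

/-!
# The bicombing of the ultrapower
-/

set_option autoImplicit false

namespace Pool.Agent.H898.HH

open Filter Topology SeparationQuotient

theorem convexOn_of_three {f : ℝ → ℝ} {m : ℝ}
    (h : ∀ p t q, 0 ≤ p → p ≤ t → t < q → q ≤ m → (q - p) * f t ≤ (t - p) * f q + (q - t) * f p) :
    ConvexOn ℝ (Set.Icc 0 m) f := by
  have key : ∀ p q a b : ℝ, 0 ≤ p → p < q → q ≤ m → 0 ≤ a → 0 ≤ b → a + b = 1 →
      f (a * p + b * q) ≤ a * f p + b * f q := by
    intro p q a b hp hpq hq ha hb hab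
    rcases eq_or_lt_of_le ha with rfl | ha'
    · have : b = 1 := by linarith
      subst this
      simp
    · have hb' : b = 1 - a := by linarith
      subst hb'
      have h1 := h p (a * p + (1 - a) * q) q hp (by nlinarith) (by nlinarith) hq
      have h2 : 0 < q - p := by linarith
      have h3 : (q - p) * f (a * p + (1 - a) * q) ≤ (q - p) * (a * f p + (1 - a) * f q) := by
        refine h1.trans (le_of_eq ?_)
        ring
      exact le_of_mul_le_mul_left h3 h2
  refine ⟨convex_Icc _ _, ?_⟩
  intro p hp q hq a b ha hb hab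
  simp only [smul_eq_mul]
  rcases lt_trichotomy p q with h1 | h1 | h1
  · exact key p q a b hp.1 h1 hq.2 ha hb hab
  · subst h1
    rw [← add_mul, ← add_mul, hab, one_mul, one_mul]
  · have := key q p b a hq.1 h1 hp.2 hb ha (by linarith)
    rw [add_comm (a * p), add_comm (a * f p)]
    exact this

section

variable {E : Type} [MetricSpace E]

/-- completeness of the ultrapower -/
instance : CompleteSpace (Bd E) := by
  refine Metric.complete_of_convergent_controlled_sequences (fun n => (1 / 2 : ℝ) ^ n)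
    (fun n => by positivity) (fun u hu => ?_)
  classical
  set A : ℕ → ℕ → Prop := fun k j => ∀ i ≤ j, dist ((u i).seq k) ((u j).seq k) < (1 / 2 : ℝ) ^ i
    with hA
  set J : ℕ → ℕ := fun k => Nat.findGreatest (A k) k with hJ
  have hA0 : ∀ k, A k 0 := by
    intro k i hi
    have : i = 0 := by omega
    subst this
    simp
  have hJA : ∀ k, A k (J k) := fun k => Nat.findGreatest_spec (Nat.zero_le k) (hA0 k)
  have hz : ∃ R, ∀ k, dist ((u (J k)).seq k) ((u (J 0)).seq 0) ≤ R := by
    obtain ⟨R, hR⟩ := (u 0).bdd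
    refine ⟨1 + R + 1, fun k => ?_⟩
    have h1 := hJA k 0 (Nat.zero_le _)
    have h2 := hJA 0 0 (Nat.zero_le _)
    have h3 := hR k
    have h4 := dist_triangle4 ((u (J k)).seq k) ((u 0).seq k) ((u 0).seq 0) ((u (J 0)).seq 0)
    rw [dist_comm ((u (J k)).seq k) ((u 0).seq k)] at h4
    simp only [pow_zero] at h1 h2
    linarith
  refine ⟨⟨fun k => (u (J k)).seq k, hz⟩, ?_⟩
  rw [tendsto_iff_dist_tendsto_zero]
  have hle : ∀ j, dist (u j) (⟨fun k => (u (J k)).seq k, hz⟩ : Bd E) ≤ (1 / 2 : ℝ) ^ j := by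
    intro j
    have hev : ∀ᶠ k in (om : Filter ℕ), dist ((u j).seq k) ((u (J k)).seq k) ≤ (1 / 2 : ℝ) ^ j := by
      have h1 : ∀ᶠ k in (om : Filter ℕ), A k j := by
        have : ∀ i ∈ Finset.range (j + 1), ∀ᶠ k in (om : Filter ℕ),
            dist ((u i).seq k) ((u j).seq k) < (1 / 2 : ℝ) ^ i := by
          intro i hi
          have hij : i ≤ j := by
            have := Finset.mem_range.1 hi
            omega
          exact (tendsto_bd (u i) (u j)).eventually_lt_const (hu i i j le_rfl hij)
        have h2 := (Filter.eventually_all_finset _).2 this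
        filter_upwards [h2] with k hk2
        intro i hi
        exact hk2 i (Finset.mem_range.2 (by omega))
      have h2 : ∀ᶠ k in (om : Filter ℕ), j ≤ k :=
        Nat.hyperfilter_le_atTop (Filter.eventually_ge_atTop j)
      filter_upwards [h1, h2] with k hk1 hk2
      have h3 : j ≤ J k := Nat.le_findGreatest hk2 hk1
      exact (hJA k j h3).le
    exact le_of_tendsto (tendsto_bd (u j) (⟨fun k => (u (J k)).seq k, hz⟩ : Bd E)) hev
  exact squeeze_zero (fun j => dist_nonneg) hle
    (tendsto_pow_atTop_nhds_zero_of_lt_one (by norm_num) (by norm_num))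

theorem mk_eq {x y : Bd E} (h : dist x y = 0) :
    (SeparationQuotient.mk x : SeparationQuotient (Bd E)) = SeparationQuotient.mk y :=
  dist_eq_zero.1 h

/-- representatives -/
noncomputable def rep (x : SeparationQuotient (Bd E)) : Bd E := (surjective_mk x).choose

theorem mk_rep (x : SeparationQuotient (Bd E)) : SeparationQuotient.mk (rep x) = x :=
  (surjective_mk x).choose_spec

theorem dist_rep (x : Bd E) : dist (rep (SeparationQuotient.mk x)) x = 0 := by
  have h1 : (SeparationQuotient.mk (rep (SeparationQuotient.mk x)) : SeparationQuotient (Bd E)) =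
    SeparationQuotient.mk x := mk_rep _
  rw [← SeparationQuotient.dist_mk, h1, dist_self]

variable [CompleteSpace E] (M : Mid E)

/-- the bicombing of the ultrapower -/
noncomputable def uc (x y : SeparationQuotient (Bd E)) (t : ℝ) : SeparationQuotient (Bd E) :=
  SeparationQuotient.mk (bc M (rep x) (rep y) t)

theorem uc_mk (x y : Bd E) (t : ℝ) : uc M (SeparationQuotient.mk x) (SeparationQuotient.mk y) t =
    SeparationQuotient.mk (bc M x y t) := by
  apply mk_eq
  have h1 := bc_lip (M := M) (rep (SeparationQuotient.mk x)) (rep (SeparationQuotient.mk y)) x y t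
  rw [dist_rep, dist_rep, add_zero, mul_zero] at h1
  exact le_antisymm h1 dist_nonneg

theorem bc_three (x y x' y' : Bd E) {a t b : ℝ} (ha : 0 ≤ a) (hat : a ≤ t) (htb : t < b)
    (hb : b ≤ dist x y) (hb' : b ≤ dist x' y') :
    (b - a) * dist (bc M x y t) (bc M x' y' t) ≤
      (t - a) * dist (bc M x y b) (bc M x' y' b) + (b - t) * dist (bc M x y a) (bc M x' y' a) := by
  have h1 : dist (bc M x y a) (bc M x y b) = b - a := by
    rw [bc_geod x y ⟨ha, by linarith⟩ ⟨by linarith, hb⟩, abs_sub_comm, abs_of_nonneg (by linarith)]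
  have h1' : dist (bc M x' y' a) (bc M x' y' b) = b - a := by
    rw [bc_geod x' y' ⟨ha, by linarith⟩ ⟨by linarith, hb'⟩, abs_sub_comm,
      abs_of_nonneg (by linarith)]
  have h2 := bc_conv (M := M) (bc M x y a) (bc M x y b) (bc M x' y' a) (bc M x' y' b)
    (h1.trans h1'.symm) (t := t - a) (by linarith) (by rw [h1]; linarith)
  have h3 := bc_consistent (M := M) x y (r := t - a) (s := a) (t := b) (by linarith) ha
    (by linarith) hb
  have h4 := bc_consistent (M := M) x' y' (r := t - a) (s := a) (t := b) (by linarith) ha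
    (by linarith) hb'
  rw [add_sub_cancel] at h3 h4
  have h5 : dist (bc M x y t) (bc M x' y' t) ≤
      dist (bc M (bc M x y a) (bc M x y b) (t - a)) (bc M (bc M x' y' a) (bc M x' y' b) (t - a)) := by
    have t1 := dist_triangle4 (bc M x y t) (bc M (bc M x y a) (bc M x y b) (t - a))
      (bc M (bc M x' y' a) (bc M x' y' b) (t - a)) (bc M x' y' t)
    rw [dist_comm (bc M x y t) (bc M (bc M x y a) (bc M x y b) (t - a)), h3, h4] at t1
    linarith
  rw [h1] at h2
  have h6 := mul_le_mul_of_nonneg_left h5 (by linarith : 0 ≤ b - a)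
  linarith

theorem uc_bicombing : IsBicombing (uc M) where
  start x y := by
    obtain ⟨x, rfl⟩ := surjective_mk x
    obtain ⟨y, rfl⟩ := surjective_mk y
    rw [uc_mk]
    exact mk_eq (bc_start x y)
  stop x y := by
    obtain ⟨x, rfl⟩ := surjective_mk x
    obtain ⟨y, rfl⟩ := surjective_mk y
    rw [uc_mk]
    exact mk_eq (bc_stop x y)
  geodesic x y s hs t ht := by
    obtain ⟨x, rfl⟩ := surjective_mk x
    obtain ⟨y, rfl⟩ := surjective_mk y
    rw [uc_mk, uc_mk]
    exact bc_geod x y hs ht
  consistent x y r s t hr hs hst ht := by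
    obtain ⟨x, rfl⟩ := surjective_mk x
    obtain ⟨y, rfl⟩ := surjective_mk y
    rw [uc_mk, uc_mk, uc_mk, uc_mk]
    exact mk_eq (bc_consistent x y hr hs hst ht)
  reversible x y t ht ht2 := by
    obtain ⟨x, rfl⟩ := surjective_mk x
    obtain ⟨y, rfl⟩ := surjective_mk y
    rw [uc_mk, uc_mk]
    exact mk_eq (bc_rev x y ht ht2)
  convex x y x' y' := by
    obtain ⟨x, rfl⟩ := surjective_mk x
    obtain ⟨y, rfl⟩ := surjective_mk y
    obtain ⟨x', rfl⟩ := surjective_mk x'
    obtain ⟨y', rfl⟩ := surjective_mk y'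
    apply convexOn_of_three
    intro p t q hp hpt htq hq
    rw [uc_mk, uc_mk, uc_mk, uc_mk, uc_mk, uc_mk]
    exact bc_three M x y x' y' hp hpt htq (hq.trans (min_le_left _ _)) (hq.trans (min_le_right _ _))

end

section

variable {G : Type} [Group G] {E : Type} [MetricSpace E] [MulAction G E] [IsIsometricSMul G E]

instance : MulAction G (Bd E) where
  smul g x := ⟨fun k => g • x.seq k, by
    obtain ⟨R, hR⟩ := x.bdd
    exact ⟨R, fun k => by rw [dist_smul]; exact hR k⟩⟩
  one_smul x := by
    show (⟨fun k => (1 : G) • x.seq k, _⟩ : Bd E) = x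
    cases x
    simp
  mul_smul g h x := by
    show (⟨fun k => (g * h) • x.seq k, _⟩ : Bd E) = ⟨fun k => g • (h • x.seq k), _⟩
    simp only [mul_smul]

instance : IsIsometricSMul G (Bd E) where
  isometry_smul g := by
    apply Isometry.of_dist_eq
    intro x y
    apply bd_dist_eq
    refine (tendsto_bd x y).congr (fun k => ?_)
    exact (dist_smul g _ _).symm

instance : IsIsometricSMul G (SeparationQuotient (Bd E)) where
  isometry_smul g := by
    apply Isometry.of_dist_eq
    intro x y
    obtain ⟨x, rfl⟩ := surjective_mk x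
    obtain ⟨y, rfl⟩ := surjective_mk y
    rw [← mk_smul, ← mk_smul, SeparationQuotient.dist_mk, SeparationQuotient.dist_mk, dist_smul]

theorem uc_smul [CompleteSpace E] {M : Mid E} (hM : ∀ (g : G) x y, g • M.mid x y = M.mid (g • x) (g • y))
    (g : G) (x y : SeparationQuotient (Bd E)) (t : ℝ) : uc M (g • x) (g • y) t = g • uc M x y t := by
  obtain ⟨x, rfl⟩ := surjective_mk x
  obtain ⟨y, rfl⟩ := surjective_mk y
  rw [← mk_smul, ← mk_smul, uc_mk, uc_mk, ← mk_smul]
  congr 1
  show (⟨_, _⟩ : Bd E) = ⟨_, _⟩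
  congr 1
  funext k
  exact Mid.comb_map (hk_pos k) (fun z => g • z) (hM g) (fun a b => dist_smul g a b) _ _ _

/-- constant sequences -/
def cst (e : E) : Bd E := ⟨fun _ => e, 0, fun _ => by rw [dist_self]⟩

theorem cst_dist (e f : E) : dist (cst e) (cst f) = dist e f :=
  bd_dist_eq tendsto_const_nhds

theorem cst_smul (g : G) (e : E) : cst (g • e) = g • cst e := rfl

theorem ultra_cobounded {e₀ : E} {K : ℝ} (hK : ∀ e : E, ∃ g : G, dist e (g • e₀) ≤ K)
    (hp : ∀ R, {g : G | dist e₀ (g • e₀) ≤ R}.Finite) (y : SeparationQuotient (Bd E)) :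
    ∃ g : G, dist y (g • (SeparationQuotient.mk (cst e₀) : SeparationQuotient (Bd E))) ≤ K := by
  obtain ⟨x, rfl⟩ := surjective_mk y
  choose γ hγ using fun k => hK (x.seq k)
  obtain ⟨R, hR⟩ := x.bdd
  have hfin := hp (dist e₀ (x.seq 0) + R + K)
  have hmem : ∀ k, γ k ∈ {g : G | dist e₀ (g • e₀) ≤ dist e₀ (x.seq 0) + R + K} := by
    intro k
    have h1 := dist_triangle4 e₀ (x.seq 0) (x.seq k) (γ k • e₀)
    have h2 := hR k
    have h3 := hγ k
    rw [dist_comm] at h2
    show dist e₀ (γ k • e₀) ≤ _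
    linarith
  have hun : (⋃ g ∈ {g : G | dist e₀ (g • e₀) ≤ dist e₀ (x.seq 0) + R + K}, {k | γ k = g}) ∈ om := by
    apply Filter.univ_mem'
    intro k
    exact Set.mem_biUnion (hmem k) rfl
  rw [Ultrafilter.finite_biUnion_mem_iff hfin] at hun
  obtain ⟨g, _, hg⟩ := hun
  refine ⟨g, ?_⟩
  rw [← mk_smul, SeparationQuotient.dist_mk, ← cst_smul]
  have hev : ∀ᶠ k in (om : Filter ℕ), dist (x.seq k) ((cst (g • e₀)).seq k) ≤ K := by
    filter_upwards [hg] with k hk1
    have hk2 : γ k = g := hk1
    rw [← hk2]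
    exact hγ k
  exact le_of_tendsto (tendsto_bd x (cst (g • e₀))) hev

end

end Pool.Agent.H898.HH
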