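import Pool.Agent.H898.HH.Helly
import Pool.Agent.H898.HH.Line
import Pool.Agent.H898.HH.Hull
import Pool.Agent.H898.HH.Ultra2

/-!
# The bicombing of a hierarchically hyperbolic group
-/

set_option autoImplicit false

namespace Pool.Agent.H898.HH

open SeparationQuotient

namespace HHG

variable {G : Type} [Group G] (X : HHG G)

/-- the chain metric as a left invariant pseudometric -/
noncomputable def sigGM {m : ℝ} (hm : X.e1 < m) : GM G where
  d := X.sig m
  self := sig_self hm
  comm := sig_comm hm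
  tri := sig_triangle hm
  inv := sig_act hm

theorem sig_proper {m : ℝ} (hm : X.e1 < m) (R : ℝ) : {g : G | X.sig m 1 g ≤ R}.Finite := by
  obtain ⟨n, hn⟩ := X.uniqL (max m R)
  refine (ball_finite X.gens_finite X.gens_closure n).subset ?_
  intro g hg
  apply hn
  intro w
  exact (dist_le_sig hm w 1 g).trans (max_le_max le_rfl hg)

include X in
theorem exists_bicombing : ∃ (Y : Type) (_ : MetricSpace Y) (_ : MulAction G Y)
    (c : Y → Y → ℝ → Y), Nonempty Y ∧ CompleteSpace Y ∧
      (∀ (g : G) (x y : Y), dist (g • x) (g • y) = dist x y) ∧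
      (∀ (y : Y) (R : ℝ), {g : G | dist y (g • y) ≤ R}.Finite) ∧
      (∃ K : ℝ, ∀ x y : Y, ∃ g : G, dist x (g • y) ≤ K) ∧
      IsBicombing c ∧ ∀ (g : G) (x y : Y) (t : ℝ), c (g • x) (g • y) t = g • c x y t := by
  obtain ⟨m, K, hm, hK, _, hh⟩ := X.helly_sig
  let D : GM G := X.sigGM hm
  let E := Ext D.toPM
  let e₀ : E := Ext.kur 1
  have hd : ∀ g : G, dist e₀ (g • e₀) = X.sig m 1 g := by
    intro g
    rw [GM.smul_kur, mul_one, Ext.dist_kur]
    rfl
  have hcob : ∀ e : E, ∃ g : G, dist e (g • e₀) ≤ K := by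
    intro e
    obtain ⟨z, hz⟩ := hh e.f e.adm
    refine ⟨z, ?_⟩
    rw [GM.smul_kur, mul_one, Ext.dist_kur]
    apply le_of_forall_pos_le_add
    intro ε hε
    obtain ⟨y, hy⟩ := e.tight z ε hε
    have h1 := hz y
    have h2 : D.d z y = X.sig m y z := D.comm z y
    rw [h2] at hy
    linarith
  have hprop : ∀ R, {g : G | dist e₀ (g • e₀) ≤ R}.Finite := by
    intro R
    simp only [hd]
    exact X.sig_proper hm R
  have hcobY := ultra_cobounded hcob hprop
  have hpropY : ∀ R, {g : G | dist (SeparationQuotient.mk (cst e₀) : SeparationQuotient (Bd E))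
      (g • SeparationQuotient.mk (cst e₀)) ≤ R}.Finite := by
    intro R
    have : ∀ g : G, dist (SeparationQuotient.mk (cst e₀) : SeparationQuotient (Bd E))
        (g • SeparationQuotient.mk (cst e₀)) = dist e₀ (g • e₀) := by
      intro g
      rw [← mk_smul, SeparationQuotient.dist_mk, ← cst_smul, cst_dist]
    simp only [this]
    exact hprop R
  refine ⟨SeparationQuotient (Bd E), inferInstance, inferInstance, uc (Ext.M (D := D.toPM)),
    ⟨SeparationQuotient.mk (cst e₀)⟩, inferInstance, fun g x y => dist_smul g x y, ?_, ?_,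
    uc_bicombing _, fun g x y t => uc_smul (fun g x y => GM.smul_mid g x y) g x y t⟩
  · intro y R
    obtain ⟨g₁, hg₁⟩ := hcobY y
    set o : SeparationQuotient (Bd E) := SeparationQuotient.mk (cst e₀) with ho
    have h1 := hpropY (R + 2 * K)
    refine (h1.image (fun g => g₁ * g * g₁⁻¹)).subset ?_
    intro g hg
    refine ⟨g₁⁻¹ * g * g₁, ?_, by group⟩
    show dist o ((g₁⁻¹ * g * g₁) • o) ≤ R + 2 * K
    have h2 : dist o ((g₁⁻¹ * g * g₁) • o) = dist (g₁ • o) (g • (g₁ • o)) := by
      rw [← dist_smul g₁ o, ← mul_smul, ← mul_smul]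
      congr 2
      group
    rw [h2]
    have h3 := dist_triangle4 (g₁ • o) y (g • y) (g • (g₁ • o))
    rw [dist_smul, dist_comm (g₁ • o) y] at h3
    have h4 : dist y (g • y) ≤ R := hg
    linarith
  · refine ⟨2 * K, fun x y => ?_⟩
    obtain ⟨g₁, hg₁⟩ := hcobY x
    obtain ⟨g₂, hg₂⟩ := hcobY y
    set o : SeparationQuotient (Bd E) := SeparationQuotient.mk (cst e₀) with ho
    refine ⟨g₁ * g₂⁻¹, ?_⟩
    have h1 : dist (g₁ • o) ((g₁ * g₂⁻¹) • y) = dist y (g₂ • o) := by
      rw [mul_smul, dist_smul, ← dist_smul g₂ o, smul_inv_smul, dist_comm]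
    have h2 := dist_triangle x (g₁ • o) ((g₁ * g₂⁻¹) • y)
    linarith

end HHG

end Pool.Agent.H898.HH
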