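import Pool.Agent.H898.HH.Gate

/-!
# The chain metric
-/

set_option autoImplicit false

namespace Pool.Agent.H898.HH

namespace HHG

variable {G : Type} [Group G] (X : HHG G)

/-- the coordinates of `z` and `z'` are `e`-close -/
def Cl (e : ℝ) (z z' : G) : Prop := ∀ w, dist (X.pt w z) (X.pt w z') ≤ e

/-- `z` is between `x` and `y` in all coordinates -/
def Bw (c : ℝ) (x z y : G) : Prop := ∀ w, Bt c (X.pt w x) (X.pt w z) (X.pt w y)

variable {X} in
theorem Bw.symm {c : ℝ} {x z y : G} (h : X.Bw c x z y) : X.Bw c y z x := fun w => (h w).symm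

variable {X} in
theorem Bw.mono {c c' : ℝ} {x z y : G} (h : X.Bw c x z y) (hc : c ≤ c') : X.Bw c' x z y :=
  fun w => (h w).mono hc

theorem bt_act {c : ℝ} {w : X.hhs.Idx} {x z y : G} (g : G)
    (h : Bt c (X.pt w x) (X.pt w z) (X.pt w y)) :
    Bt (c + 6 * X.hhs.ξ) (X.pt (X.actI g w) (g * x)) (X.pt (X.actI g w) (g * z))
      (X.pt (X.actI g w) (g * y)) := by
  have h' : Bt c (X.act g (X.pt w x)) (X.act g (X.pt w z)) (X.act g (X.pt w y)) := by
    unfold Bt at *
    rw [X.dist_act, X.dist_act, X.dist_act]
    exact h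
  refine h'.near ?_ ?_ ?_
  · rw [dist_comm]; exact X.act_pt g w x
  · rw [dist_comm]; exact X.act_pt g w z
  · rw [dist_comm]; exact X.act_pt g w y

theorem bw_act {c : ℝ} {x z y : G} (g : G) (h : X.Bw c x z y) :
    X.Bw (c + 6 * X.hhs.ξ) (g * x) (g * z) (g * y) := by
  intro w
  obtain ⟨w, rfl⟩ := X.surj_act g w
  exact X.bt_act g (h w)

theorem cl_act {e : ℝ} {z z' : G} (g : G) (h : X.Cl e z z') :
    X.Cl (e + 2 * X.hhs.ξ) (g * z) (g * z') := by
  intro w
  obtain ⟨w, rfl⟩ := X.surj_act g w
  exact (X.dist_pt_act g w z z').trans (add_le_add_left (h w) _)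

/-- a piece of a chain: a clamped position function -/
structure Piece (m : ℝ) where
  /-- the domain -/
  w : X.hhs.Idx
  /-- the starting point -/
  a : X.C w
  /-- the end point -/
  b : X.C w
  /-- the translation -/
  g : G
  /-- the threshold -/
  s : ℝ
  /-- the capacity -/
  c : ℝ
  hc : m ≤ c

variable {X} {m : ℝ}

/-- the position -/
noncomputable def Piece.pos (P : X.Piece m) (z : G) : ℝ := gp P.a P.b (X.pt P.w (P.g * z))

/-- the value -/
noncomputable def Piece.h (P : X.Piece m) (z : G) : ℝ := max 0 (min P.c (P.pos z - P.s))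

theorem Piece.h_nonneg (P : X.Piece m) (z : G) : 0 ≤ P.h z := le_max_left _ _

theorem Piece.h_le (hm : 0 < m) (P : X.Piece m) (z : G) : P.h z ≤ P.c :=
  max_le (hm.le.trans P.hc) (min_le_left _ _)

theorem Piece.h_pos_iff (hm : 0 < m) (P : X.Piece m) (z : G) : 0 < P.h z ↔ P.s < P.pos z := by
  have := P.hc
  unfold Piece.h
  rw [lt_max_iff, lt_min_iff]
  constructor
  · rintro (h | h)
    · exact absurd h (lt_irrefl _)
    · linarith [h.2]
  · intro h
    exact Or.inr ⟨by linarith, by linarith⟩

theorem Piece.h_full_iff (hm : 0 < m) (P : X.Piece m) (z : G) :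
    P.h z = P.c ↔ P.s + P.c ≤ P.pos z := by
  have := P.hc
  unfold Piece.h
  constructor
  · intro h
    by_contra h'
    push Not at h'
    rw [min_eq_right (by linarith)] at h
    rcases max_choice 0 (P.pos z - P.s) with h2 | h2 <;> rw [h2] at h <;> linarith
  · intro h
    rw [min_eq_left (by linarith), max_eq_right (by linarith)]

theorem Piece.h_lip (P : X.Piece m) (z z' : G) : P.h z' ≤ P.h z + |P.pos z' - P.pos z| := by
  unfold Piece.h
  have h1 := le_abs_self (P.pos z' - P.pos z)
  have h2 := abs_nonneg (P.pos z' - P.pos z)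
  apply max_le
  · have := le_max_left 0 (min P.c (P.pos z - P.s))
    linarith
  · rcases le_total P.c (P.pos z - P.s) with h | h
    · rw [min_eq_left h]
      have := le_max_right 0 P.c
      have := min_le_left P.c (P.pos z' - P.s)
      linarith
    · rw [min_eq_right h]
      have := le_max_right 0 (P.pos z - P.s)
      have := min_le_right P.c (P.pos z' - P.s)
      linarith

theorem Piece.pos_cl (P : X.Piece m) {e : ℝ} {z z' : G} (h : X.Cl e z z') :
    |P.pos z' - P.pos z| ≤ e + 2 * X.hhs.ξ := by
  rw [abs_sub_comm]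
  exact (gp_lip _ _ _ _).trans (X.cl_act P.g h P.w)

theorem Piece.pos_max (P : X.Piece m) {c : ℝ} {x z y : G} (h : X.Bw c x z y) :
    P.pos z ≤ max (P.pos x) (P.pos y) + (c / 2 + 3 * X.hhs.ξ + X.hhs.δ) := by
  have := gp_max (X.hyp P.w) P.a P.b (X.bw_act P.g h P.w)
  unfold Piece.pos
  linarith

theorem Piece.pos_min (P : X.Piece m) {c : ℝ} {x z y : G} (h : X.Bw c x z y) :
    min (P.pos x) (P.pos y) ≤ P.pos z + (c / 2 + 3 * X.hhs.ξ + X.hhs.δ) := by
  have := gp_min (X.hyp P.w) P.a P.b (X.bw_act P.g h P.w)
  unfold Piece.pos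
  linarith

/-- chains -/
def IsCh (l : List (X.Piece m)) : Prop :=
  l.Pairwise (fun P Q => ∀ z, 0 < Q.h z → P.h z = P.c)

/-- the value of a chain -/
noncomputable def val (l : List (X.Piece m)) (z : G) : ℝ := (l.map (fun P => P.h z)).sum

@[simp] theorem val_nil (z : G) : val ([] : List (X.Piece m)) z = 0 := rfl

@[simp] theorem val_cons (P : X.Piece m) (l : List (X.Piece m)) (z : G) :
    val (P :: l) z = P.h z + val l z := by
  simp [val]

@[simp] theorem val_append (l l' : List (X.Piece m)) (z : G) :
    val (l ++ l') z = val l z + val l' z := by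
  simp [val]

theorem val_nonneg (l : List (X.Piece m)) (z : G) : 0 ≤ val l z := by
  induction l with
  | nil => simp
  | cons P l ih => rw [val_cons]; exact add_nonneg (P.h_nonneg z) ih

theorem val_eq_zero {l : List (X.Piece m)} {z : G} (h : ∀ P ∈ l, P.h z = 0) : val l z = 0 := by
  induction l with
  | nil => simp
  | cons P l ih =>
    rw [val_cons, h P List.mem_cons_self, ih (fun Q hQ => h Q (List.mem_cons_of_mem _ hQ)),
      add_zero]

theorem exists_pos_of_val {l : List (X.Piece m)} {z : G} (h : val l z ≠ 0) :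
    ∃ P ∈ l, 0 < P.h z := by
  by_contra hcon
  push Not at hcon
  exact h (val_eq_zero (fun P hP => le_antisymm (hcon P hP) (P.h_nonneg z)))

theorem val_tail {P : X.Piece m} {l : List (X.Piece m)} (h : IsCh (P :: l)) {z : G}
    (hz : P.h z ≠ P.c) : val l z = 0 := by
  apply val_eq_zero
  intro Q hQ
  by_contra h0
  exact hz ((List.pairwise_cons.1 h).1 Q hQ z (lt_of_le_of_ne (Q.h_nonneg z) (Ne.symm h0)))

/-- if the value vanishes at `z` then it is small nearby -/
theorem val_first {e : ℝ} (he : e < m) (e0 : 0 ≤ e) {l : List (X.Piece m)} (hl : IsCh l) {z z' : G}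
    (h : ∀ P ∈ l, |P.pos z' - P.pos z| ≤ e) (h0 : val l z = 0) : val l z' ≤ e := by
  rcases l with _ | ⟨P, l⟩
  · simpa using e0
  · rw [val_cons] at h0
    have h1 := P.h_nonneg z
    have h2 := val_nonneg l z
    have h3 : P.h z' ≤ e := by
      have := P.h_lip z z'
      have := h P List.mem_cons_self
      linarith
    have h4 : P.h z' ≠ P.c := by
      have := P.hc
      intro h5
      linarith
    rw [val_cons, val_tail hl h4]
    linarith

theorem val_lip {e : ℝ} (he : e < m) (e0 : 0 ≤ e) {l : List (X.Piece m)} (hl : IsCh l) {z z' : G}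
    (h : ∀ P ∈ l, |P.pos z' - P.pos z| ≤ e) : val l z' ≤ val l z + 2 * e := by
  have hm : 0 < m := lt_of_le_of_lt e0 he
  induction l with
  | nil => simpa using e0
  | cons P l ih =>
    have hl' : IsCh l := (List.pairwise_cons.1 hl).2
    have h' : ∀ Q ∈ l, |Q.pos z' - Q.pos z| ≤ e := fun Q hQ => h Q (List.mem_cons_of_mem _ hQ)
    have ih' := ih hl' h'
    have hP := P.h_lip z z'
    have hP' := h P List.mem_cons_self
    rw [val_cons, val_cons]
    by_cases h1 : val l z = 0
    · have := val_first he e0 hl' h' h1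
      linarith
    · obtain ⟨Q, hQ, hQ'⟩ := exists_pos_of_val h1
      have := (List.pairwise_cons.1 hl).1 Q hQ z hQ'
      have := P.h_le hm z'
      linarith

variable (X m) in
/-- the chain metric -/
noncomputable def sig (x y : G) : ℝ :=
  sSup {t | ∃ l : List (X.Piece m), IsCh l ∧ t = val l y - val l x}

variable (X) in
/-- the Lipschitz constant -/
noncomputable def e1 : ℝ := 2 * |X.hhs.K| + 2 * |X.hhs.ξ|

theorem val_word (hm : X.e1 < m) {l : List (X.Piece m)} (hl : IsCh l) (x y : G) :
    val l y - val l x ≤ 2 * X.e1 * wordDist X.gens x y := by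
  have e0 : 0 ≤ X.e1 := by unfold e1; positivity
  obtain ⟨s, h1, h2, h3⟩ := wordLen_spec X.gens_closure (x⁻¹ * y)
  have key : ∀ s : List G, (∀ g ∈ s, g ∈ X.gens ∨ g⁻¹ ∈ X.gens) → ∀ x,
      val l (x * s.prod) - val l x ≤ 2 * X.e1 * s.length := by
    intro s
    induction s with
    | nil => intro _ x; simp
    | cons g s ih =>
      intro hs x
      have h1 := ih (fun g' hg' => hs g' (List.mem_cons_of_mem _ hg')) (x * g)
      have h2 : val l (x * g) ≤ val l x + 2 * X.e1 := by
        apply val_lip hm e0 hl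
        intro P _
        have h3 : X.Cl (2 * |X.hhs.K|) x (x * g) := by
          intro w
          have h4 := X.lip w x (x * g)
          have h5 : wordDist X.gens x (x * g) ≤ 1 := by
            unfold wordDist
            have : x⁻¹ * (x * g) = g := by group
            rw [this]
            exact_mod_cast wordLen_gen (hs g List.mem_cons_self)
          have h6 := wordDist_nonneg X.gens x (x * g)
          have h7 := le_abs_self X.hhs.K
          have h8 : X.hhs.K * wordDist X.gens x (x * g) ≤ |X.hhs.K| * 1 :=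
            mul_le_mul h7 h5 h6 (abs_nonneg _)
          linarith
        have h9 := P.pos_cl h3
        unfold e1
        have := le_abs_self X.hhs.ξ
        linarith
      rw [List.prod_cons, ← mul_assoc, List.length_cons]
      push_cast
      linarith
  have := key s h2 x
  rw [h3, mul_inv_cancel_left] at this
  unfold wordDist
  rw [← h1]
  exact this

theorem sig_bdd (hm : X.e1 < m) (x y : G) :
    BddAbove {t | ∃ l : List (X.Piece m), IsCh l ∧ t = val l y - val l x} :=
  ⟨2 * X.e1 * wordDist X.gens x y, by rintro _ ⟨l, hl, rfl⟩; exact val_word hm hl x y⟩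

theorem le_sig (hm : X.e1 < m) {l : List (X.Piece m)} (hl : IsCh l) (x y : G) :
    val l y - val l x ≤ X.sig m x y := le_csSup (sig_bdd hm x y) ⟨l, hl, rfl⟩

theorem isCh_nil : IsCh ([] : List (X.Piece m)) := List.Pairwise.nil

theorem sig_le {x y : G} {t : ℝ} (h : ∀ l : List (X.Piece m), IsCh l → val l y - val l x ≤ t) :
    X.sig m x y ≤ t :=
  csSup_le ⟨_, [], isCh_nil, rfl⟩ (by rintro _ ⟨l, hl, rfl⟩; exact h l hl)

theorem sig_word (hm : X.e1 < m) (x y : G) : X.sig m x y ≤ 2 * X.e1 * wordDist X.gens x y :=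
  sig_le (fun _ hl => val_word hm hl x y)

theorem sig_nonneg (hm : X.e1 < m) (x y : G) : 0 ≤ X.sig m x y := by
  have := le_sig hm isCh_nil x y
  simpa using this

theorem sig_self (hm : X.e1 < m) (x : G) : X.sig m x x = 0 :=
  le_antisymm (sig_le (fun l _ => by simp)) (sig_nonneg hm x x)

theorem sig_triangle (hm : X.e1 < m) (x y z : G) : X.sig m x z ≤ X.sig m x y + X.sig m y z := by
  apply sig_le
  intro l hl
  have h1 := le_sig hm hl x y
  have h2 := le_sig hm hl y z
  linarith

/-- the reversed piece -/
noncomputable def Piece.rev (P : X.Piece m) : X.Piece m where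
  w := P.w
  a := P.b
  b := P.a
  g := P.g
  s := dist P.a P.b - P.c - P.s
  c := P.c
  hc := P.hc

theorem Piece.rev_pos (P : X.Piece m) (z : G) : P.rev.pos z = dist P.a P.b - P.pos z :=
  gp_swap _ _ _

theorem Piece.rev_h (hm : 0 < m) (P : X.Piece m) (z : G) : P.rev.h z = P.c - P.h z := by
  have hc := P.hc
  have h1 : P.rev.h z = max 0 (min P.c (P.c + P.s - P.pos z)) := by
    unfold Piece.h
    rw [P.rev_pos]
    show max 0 (min P.c (dist P.a P.b - P.pos z - (dist P.a P.b - P.c - P.s))) = _
    congr 2
    ring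
  rw [h1]
  unfold Piece.h
  rcases le_total P.c (P.pos z - P.s) with h | h
  · rw [min_eq_left h, max_eq_right (by linarith : (0:ℝ) ≤ P.c), min_eq_right (by linarith),
      max_eq_left (by linarith)]
    ring
  · rw [min_eq_right h]
    rcases le_total 0 (P.pos z - P.s) with h2 | h2
    · rw [max_eq_right h2, min_eq_right (by linarith), max_eq_right (by linarith)]
      ring
    · rw [max_eq_left h2, min_eq_left (by linarith), max_eq_right (by linarith)]
      ring

/-- the reversed chain -/
noncomputable def revl (l : List (X.Piece m)) : List (X.Piece m) := (l.map Piece.rev).reverse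

theorem isCh_revl (hm : 0 < m) {l : List (X.Piece m)} (hl : IsCh l) : IsCh (revl l) := by
  unfold revl IsCh
  rw [List.pairwise_reverse, List.pairwise_map]
  refine List.Pairwise.imp ?_ hl
  intro P Q h z hz
  rw [P.rev_h hm] at hz
  rw [Q.rev_h hm]
  have hQ : ¬ 0 < Q.h z := by
    intro h0
    rw [h z h0] at hz
    simp at hz
  have := Q.h_nonneg z
  have h0 : Q.h z = 0 := le_antisymm (not_lt.1 hQ) this
  rw [h0, sub_zero]
  rfl

theorem val_revl (hm : 0 < m) (l : List (X.Piece m)) (x y : G) :
    val (revl l) y - val (revl l) x = val l x - val l y := by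
  induction l with
  | nil => simp [revl]
  | cons P l ih =>
    have h1 : revl (P :: l) = revl l ++ [P.rev] := by simp [revl]
    rw [h1, val_append, val_append, val_cons, val_cons, val_cons, val_cons, P.rev_h hm, P.rev_h hm]
    simp only [val_nil]
    linarith

theorem sig_comm (hm : X.e1 < m) (x y : G) : X.sig m x y = X.sig m y x := by
  have hm0 : 0 < m := lt_of_le_of_lt (by unfold e1; positivity) hm
  have key : ∀ x y : G, X.sig m x y ≤ X.sig m y x := by
    intro x y
    apply sig_le
    intro l hl
    rw [← val_revl hm0 l y x]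
    exact le_sig hm (isCh_revl hm0 hl) y x
  exact le_antisymm (key x y) (key y x)

theorem dist_le_sig (hm : X.e1 < m) (w : X.hhs.Idx) (x y : G) :
    dist (X.pt w x) (X.pt w y) ≤ max m (X.sig m x y) := by
  have hm0 : 0 < m := lt_of_le_of_lt (by unfold e1; positivity) hm
  rcases le_total (dist (X.pt w x) (X.pt w y)) m with h | h
  · exact h.trans (le_max_left _ _)
  · refine le_trans ?_ (le_max_right _ _)
    let P : X.Piece m := ⟨w, X.pt w x, X.pt w y, 1, 0, dist (X.pt w x) (X.pt w y), h⟩
    have hP : IsCh [P] := List.pairwise_singleton _ _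
    have h1 := le_sig hm hP x y
    have hx : P.h x = 0 := by
      have : ¬ 0 < P.h x := by
        rw [P.h_pos_iff hm0]
        show ¬ (0 < gp (X.pt w x) (X.pt w y) (X.pt w (1 * x)))
        rw [one_mul, gp_left]
        exact lt_irrefl _
      exact le_antisymm (not_lt.1 this) (P.h_nonneg x)
    have hy : P.h y = dist (X.pt w x) (X.pt w y) := by
      refine (P.h_full_iff hm0 y).2 ?_
      show 0 + dist (X.pt w x) (X.pt w y) ≤ gp (X.pt w x) (X.pt w y) (X.pt w (1 * y))
      rw [one_mul, gp_right, zero_add]
    rw [val_cons, val_cons, hx, hy] at h1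
    simpa using h1

/-- translation of a piece -/
def Piece.tr (g : G) (P : X.Piece m) : X.Piece m := { P with g := P.g * g }

theorem Piece.tr_h (g : G) (P : X.Piece m) (z : G) : (P.tr g).h z = P.h (g * z) := by
  unfold Piece.h Piece.pos Piece.tr
  simp only [mul_assoc]

theorem sig_act (hm : X.e1 < m) (g x y : G) : X.sig m (g * x) (g * y) = X.sig m x y := by
  have key : ∀ g x y : G, X.sig m (g * x) (g * y) ≤ X.sig m x y := by
    intro g x y
    apply sig_le
    intro l hl
    have h1 : ∀ z, val (l.map (Piece.tr g)) z = val l (g * z) := by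
      intro z
      unfold val
      rw [List.map_map]
      congr 1
      apply List.map_congr_left
      intro P _
      exact P.tr_h g z
    rw [← h1, ← h1]
    apply le_sig hm
    unfold IsCh
    rw [List.pairwise_map]
    refine List.Pairwise.imp ?_ hl
    intro P Q h z hz
    rw [Piece.tr_h] at hz ⊢
    exact h _ hz
  apply le_antisymm (key g x y)
  have := key g⁻¹ (g * x) (g * y)
  rwa [inv_mul_cancel_left, inv_mul_cancel_left] at this

end HHG

end Pool.Agent.H898.HH
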