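import Pool.Agent.H898.HH.WrHHG

/-!
# Colourability of hierarchically hyperbolic groups
-/

set_option autoImplicit false

namespace Pool.Agent.H898.HH

variable {G : Type} [Group G] (X : HHG G)

theorem actI_self_inv (g : G) (u : X.hhs.Idx) : X.actI g (X.actI g⁻¹ u) = u := by
  rw [← X.actI_mul, mul_inv_cancel, X.actI_one]

theorem nest_pow {g : G} {u : X.hhs.Idx} (h : X.hhs.nest (X.actI g u) u) (k : ℕ) :
    X.hhs.nest (X.actI (g ^ k) u) u := by
  induction k with
  | zero => rw [pow_zero, X.actI_one]; exact X.hhs.nest_refl u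
  | succ k ih =>
    rw [pow_succ, X.actI_mul]
    exact X.hhs.nest_trans _ _ _ (X.actI_nest _ _ _ h) ih

/-- a translate of `u` which is nested in `u` is equal to `u` -/
theorem eq_of_nest_self {g : G} {u : X.hhs.Idx} (h : X.hhs.nest (X.actI g u) u) :
    X.actI g u = u := by
  by_contra hne
  obtain ⟨n, hn⟩ := X.hhs.complexity
  have key : ∀ i j : ℕ, i ≤ j → X.hhs.nest (X.actI (g ^ j) u) (X.actI (g ^ i) u) := by
    intro i j hij
    obtain ⟨k, rfl⟩ := Nat.exists_eq_add_of_le hij
    rw [pow_add, X.actI_mul]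
    exact X.actI_nest _ _ _ (nest_pow X h k)
  have hinj : Function.Injective (fun i : Fin (n + 1) => X.actI (g ^ (i : ℕ)) u) := by
    have h1 : ∀ i j : ℕ, i < j → X.actI (g ^ i) u ≠ X.actI (g ^ j) u := by
      intro i j hij heq
      obtain ⟨k, rfl⟩ := Nat.exists_eq_add_of_lt hij
      have h2 : u = X.actI (g ^ (k + 1)) u := by
        apply actI_inj X (g := g ^ i)
        rw [heq, ← X.actI_mul, ← pow_add, add_assoc]
      have h3 : X.hhs.nest u (X.actI g u) := by
        have h4 : X.hhs.nest (X.actI (g ^ (k + 1)) u) (X.actI g u) := by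
          rw [pow_succ', X.actI_mul]
          exact X.actI_nest _ _ _ (nest_pow X h k)
        rwa [← h2] at h4
      exact hne (X.hhs.nest_antisymm _ _ h h3)
    intro i j hij
    rcases lt_trichotomy i j with h2 | h2 | h2
    · exact absurd hij (h1 _ _ h2)
    · exact h2
    · exact absurd hij.symm (h1 _ _ h2)
  classical
  let F : Finset X.hhs.Idx := Finset.univ.image (fun i : Fin (n + 1) => X.actI (g ^ (i : ℕ)) u)
  have hF : F.card = n + 1 := by
    rw [Finset.card_image_of_injective _ hinj, Finset.card_univ, Fintype.card_fin]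
  have := hn F (by
    intro a ha b hb
    obtain ⟨i, _, rfl⟩ := Finset.mem_image.1 ha
    obtain ⟨j, _, rfl⟩ := Finset.mem_image.1 hb
    rcases le_total (i : ℕ) (j : ℕ) with h2 | h2
    · exact Or.inr (key _ _ h2)
    · exact Or.inl (key _ _ h2))
  omega

theorem exists_normal_inf {F : Set X.hhs.Idx} (hF : F.Finite) (P : X.hhs.Idx → Subgroup G → Prop)
    (hP : ∀ u ∈ F, ∃ N : Subgroup G, N.Normal ∧ N.FiniteIndex ∧ P u N)
    (hmono : ∀ u (N N' : Subgroup G), N' ≤ N → P u N → P u N') :
    ∃ N : Subgroup G, N.Normal ∧ N.FiniteIndex ∧ ∀ u ∈ F, P u N := by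
  induction F, hF using Set.Finite.induction_on with
  | empty => exact ⟨⊤, inferInstance, inferInstance, by simp⟩
  | @insert a s _ _ ih =>
    obtain ⟨N, h1, h2, h3⟩ := ih (fun u hu => hP u (Set.mem_insert_of_mem _ hu))
    obtain ⟨M, h4, h5, h6⟩ := hP a (Set.mem_insert _ _)
    refine ⟨N ⊓ M, inferInstance, inferInstance, ?_⟩
    intro u hu
    rcases Set.mem_insert_iff.1 hu with rfl | hu
    · exact hmono _ _ _ inf_le_right h6
    · exact hmono _ _ _ inf_le_left (h3 u hu)

/-- An HHG is colourable iff each index is separated from its orthogonal translates by a normal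
subgroup of finite index. -/
theorem colorable_of_sep (h : ∀ u, ∃ N : Subgroup G, N.Normal ∧ N.FiniteIndex ∧
    ∀ n ∈ N, ¬ X.hhs.orth (X.actI n u) u) : X.Colorable := by
  classical
  obtain ⟨F, hF, hF'⟩ := X.actI_cofinite
  obtain ⟨N, hN, hN', hN2⟩ := exists_normal_inf X hF
    (fun u N => ∀ n ∈ N, ¬ X.hhs.orth (X.actI n u) u) (fun u _ => h u)
    (fun u N N' hle hP n hn => hP n (hle hn))
  have hall : ∀ u, ∀ n ∈ N, ¬ X.hhs.orth (X.actI n u) u := by
    intro u n hn ho
    obtain ⟨g, v, hv, rfl⟩ := hF' u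
    have h1 := X.actI_orth g⁻¹ _ _ ho
    rw [actI_inv, ← X.actI_mul, ← X.actI_mul] at h1
    exact hN2 v hv _ (by simpa using hN.conj_mem n hn g⁻¹) h1
  -- the orbit relation of `N`
  let r : Setoid X.hhs.Idx :=
    { r := fun u v => ∃ n ∈ N, X.actI n u = v
      iseqv :=
        { refl := fun u => ⟨1, N.one_mem, X.actI_one u⟩
          symm := by
            rintro u v ⟨n, hn, rfl⟩
            exact ⟨n⁻¹, N.inv_mem hn, actI_inv X n u⟩
          trans := by
            rintro u v w ⟨n, hn, rfl⟩ ⟨m, hm, rfl⟩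
            exact ⟨m * n, N.mul_mem hm hn, X.actI_mul m n u⟩ } }
  have hfin : Finite (Quotient r) := by
    have : Finite (G ⧸ N) := inferInstance
    have : Finite F := hF
    let φ : (G ⧸ N) × F → Quotient r := fun x =>
      Quotient.mk r (X.actI (Quotient.out x.1) x.2.1)
    apply Finite.of_surjective φ
    intro q
    obtain ⟨u, rfl⟩ := Quotient.exists_rep q
    obtain ⟨g, v, hv, rfl⟩ := hF' u
    refine ⟨((g : G ⧸ N), ⟨v, hv⟩), ?_⟩
    apply Quotient.sound
    show ∃ n ∈ N, X.actI n (X.actI (Quotient.out (g : G ⧸ N)) v) = X.actI g v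
    obtain ⟨⟨m, hm⟩, hm'⟩ := QuotientGroup.mk_out_eq_mul N g
    refine ⟨g * m⁻¹ * g⁻¹, hN.conj_mem _ (N.inv_mem hm) g, ?_⟩
    rw [← X.actI_mul, hm']
    congr 1
    simp
  obtain ⟨k, ⟨e⟩⟩ := Finite.exists_equiv_fin (Quotient r)
  refine ⟨k, fun u => e (Quotient.mk r u), ?_, ?_⟩
  · intro u v huv hc
    obtain ⟨n, hn, rfl⟩ : ∃ n ∈ N, X.actI n u = v := Quotient.exact (e.injective hc)
    refine ⟨fun ho => hall u n hn (X.hhs.orth_symm _ _ ho), ?_, ?_⟩
    · intro hnest
      have h1 : X.hhs.nest (X.actI n⁻¹ u) u := by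
        have := X.actI_nest n⁻¹ _ _ hnest
        rwa [actI_inv] at this
      have h2 := eq_of_nest_self X h1
      apply huv
      conv_rhs => rw [← h2]
      exact (actI_self_inv X n u).symm
    · intro hnest
      exact huv (eq_of_nest_self X hnest).symm
  · intro g u v hc
    obtain ⟨n, hn, rfl⟩ : ∃ n ∈ N, X.actI n u = v := Quotient.exact (e.injective hc)
    show e (Quotient.mk r (X.actI g u)) = e (Quotient.mk r (X.actI g (X.actI n u)))
    congr 1
    apply Quotient.sound
    refine ⟨g * n * g⁻¹, hN.conj_mem n hn g, ?_⟩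
    rw [← X.actI_mul, ← X.actI_mul]
    congr 1
    group

/-- the converse -/
theorem sep_of_colorable (h : X.Colorable) : ∃ N : Subgroup G, N.Normal ∧ N.FiniteIndex ∧
    ∀ u, ∀ n ∈ N, ¬ X.hhs.orth (X.actI n u) u := by
  classical
  obtain ⟨k, c, h1, h2⟩ := h
  -- the action on the colours which occur
  let D := {i : Fin k // ∃ u, c u = i}
  have hact : ∀ (g : G) (i : D), ∃ j : D, ∀ u, c u = i.1 → c (X.actI g u) = j.1 := by
    intro g i
    obtain ⟨u0, hu0⟩ := i.2
    refine ⟨⟨c (X.actI g u0), _, rfl⟩, ?_⟩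
    intro u hu
    exact h2 g u u0 (hu.trans hu0.symm)
  choose f hf using hact
  have hf1 : ∀ i, f 1 i = i := by
    intro i
    obtain ⟨u0, hu0⟩ := i.2
    apply Subtype.ext
    rw [← hf 1 i u0 hu0, X.actI_one, hu0]
  have hfm : ∀ g g' i, f (g * g') i = f g (f g' i) := by
    intro g g' i
    obtain ⟨u0, hu0⟩ := i.2
    apply Subtype.ext
    rw [← hf (g * g') i u0 hu0, X.actI_mul]
    exact hf g _ _ (hf g' i u0 hu0)
  let φ : G →* Equiv.Perm D :=
    { toFun := fun g => ⟨f g, f g⁻¹,
        fun i => by rw [← hfm, inv_mul_cancel, hf1],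
        fun i => by rw [← hfm, mul_inv_cancel, hf1]⟩
      map_one' := by ext i; exact congrArg Subtype.val (hf1 i) ▸ rfl
      map_mul' := fun g g' => by
        apply Equiv.ext
        intro i
        exact hfm g g' i }
  refine ⟨φ.ker, inferInstance, ?_, ?_⟩
  · have : Finite (Equiv.Perm D) := inferInstance
    exact Subgroup.finiteIndex_ker φ
  · intro u n hn ho
    have h3 : φ n = 1 := hn
    have h4 : f n ⟨c u, u, rfl⟩ = ⟨c u, u, rfl⟩ := by
      have := congrArg (fun p : Equiv.Perm D => p ⟨c u, u, rfl⟩) h3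
      exact this
    have h5 : c (X.actI n u) = c u := by
      rw [hf n ⟨c u, u, rfl⟩ u rfl, h4]
    have h6 : X.actI n u ≠ u := by
      intro h7
      rw [h7] at ho
      exact X.hhs.orth_irrefl u ho
    exact (h1 _ _ h6 h5).1 ho

end Pool.Agent.H898.HH
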