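import Pool.Agent.H898.HH.Line2

/-!
# Criteria for the existence of a colourable structure
-/

set_option autoImplicit false

namespace Pool.Agent.H898.HH

namespace HHG

variable {G : Type} [Group G] (X : HHG G)

theorem inRes_mul {r s : G} (hr : InRes r) (hs : InRes s) : InRes (r * s) :=
  fun H hH => H.mul_mem (hr H hH) (hs H hH)

/-- minimal unbounded quasi-lines are detected if the finite residual moves their points by a bounded
amount -/
theorem detected_of_lin {v : X.hhs.Idx} (hv : X.MinUnb v) (hl : X.Lin v)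
    (hR : X.ResBdd v) : X.Detected v := by
  obtain ⟨C, hC⟩ := X.lin_displacement hv hl
  obtain ⟨L, hL⟩ := hR
  obtain ⟨z, hz, h1, y, hy⟩ := hC (C + 2 * X.hhs.ξ + L)
  refine ⟨z, C + 2 * X.hhs.ξ, hz, ?_, ?_⟩
  · intro u hu y p hp q hq
    have bp := X.hhs.proj_base _ _ _ hp
    have bq := X.hhs.proj_base _ _ _ hq
    have h2 : dist (⟨p, bp⟩ : X.C u) (X.pt u y) ≤ X.hhs.ξ := X.hhs.proj_diam _ _ _ hp _ (X.pt_mem u y)
    have h3 : dist (X.pt u (z * y)) (⟨q, bq⟩ : X.C u) ≤ X.hhs.ξ :=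
      X.hhs.proj_diam _ _ _ (X.pt_mem u _) _ hq
    have h4 := dist_triangle (⟨p, bp⟩ : X.C u) (X.pt u y) (⟨q, bq⟩ : X.C u)
    have h5 := dist_triangle (X.pt u y) (X.pt u (z * y)) (⟨q, bq⟩ : X.C u)
    have h6 := h1 u hu y
    have h7 : dist (⟨p, bp⟩ : X.C u) (⟨q, bq⟩ : X.C u) = X.hhs.dist p q := rfl
    linarith
  · intro r hr
    refine ⟨y, _, X.pt_mem v y, _, X.pt_mem v (r * z * y), ?_⟩
    have h3 : dist (X.pt v (z * y)) (X.pt v (r * z * y)) ≤ L := by
      rw [mul_assoc]
      exact hL r hr (z * y) _ (X.pt_mem v _) _ (X.pt_mem v _)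
    have h4 := dist_triangle (X.pt v y) (X.pt v (r * z * y)) (X.pt v (z * y))
    rw [dist_comm (X.pt v (r * z * y)) (X.pt v (z * y))] at h4
    have h5 : dist (X.pt v y) (X.pt v (r * z * y)) =
      X.hhs.dist (X.pt v y).val (X.pt v (r * z * y)).val := rfl
    linarith

/-- a finite residual which is finite moves all coordinates by a bounded amount -/
theorem resBdd_of_finite (v : X.hhs.Idx) (hR : {r : G | InRes r}.Finite) : X.ResBdd v := by
  obtain ⟨L, hL⟩ := X.exists_len_bound hR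
  refine ⟨|X.hhs.K| * L + |X.hhs.K|, fun r hr y p hp q hq => ?_⟩
  have h2 : InRes (y⁻¹ * r * y) := by
    have := inRes_conj hr y⁻¹
    rwa [inv_inv] at this
  have h3 := X.hhs.proj_lipschitz v y (r * y) p hp q hq
  have h4 : (wordLen X.gens (y⁻¹ * (r * y)) : ℝ) ≤ L := by
    rw [← mul_assoc]
    exact_mod_cast hL _ h2
  have h5 : wordDist X.gens y (r * y) ≤ L := h4
  have h6 := wordDist_nonneg X.gens y (r * y)
  have h7 : X.hhs.K * wordDist X.gens y (r * y) ≤ |X.hhs.K| * L :=
    mul_le_mul (le_abs_self _) h5 h6 (abs_nonneg _)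
  have h8 := le_abs_self X.hhs.K
  linarith

/-- the main criterion -/
theorem exists_colorable_of_criteria (h : ∀ v, X.MinUnb v → X.OrthSep v ∨ X.Detected v ∨
    (X.Lin v ∧ X.ResBdd v)) : ∃ Y : HHG G, Y.Colorable := by
  apply exists_colorable X
  intro v hv
  rcases h v hv with h1 | h1 | ⟨h1, h2⟩
  · exact X.sep_of_orthSep hv h1
  · exact sep_of_detected X hv.2 h1
  · exact sep_of_detected X hv.2 (X.detected_of_lin hv h1 h2)

/-- the exact criterion for the restricted structure -/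
theorem colorable_iff : (resHHG X).Colorable ↔ ∀ v, X.MinUnb v → X.OrthSep v := by
  constructor
  · intro h v hv
    exact X.orthSep_of_colorable hv.1 h
  · intro h
    apply colorable_of_sep
    rintro ⟨u, v, hvu, hv⟩
    obtain ⟨w, hwv, hw⟩ := exists_minUnb X hv
    obtain ⟨N, h1, h2, h3⟩ := X.sep_of_orthSep hw (h w hw)
    refine ⟨N, h1, h2, fun n hn ho => h3 n hn ?_⟩
    have hwu := X.hhs.nest_trans _ _ _ hwv hvu
    have ho' : X.hhs.orth (X.actI n u) u := ho
    have h4 : X.hhs.orth (X.actI n w) u := X.hhs.orth_of_nest _ _ _ (X.actI_nest n _ _ hwu) ho'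
    have h5 : X.hhs.orth w (X.actI n w) := X.hhs.orth_of_nest _ _ _ hwu (X.hhs.orth_symm _ _ h4)
    exact X.hhs.orth_symm _ _ h5

end HHG

end Pool.Agent.H898.HH
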