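import Mathlib

/-!
# Hierarchically hyperbolic groups

The definitions of Behrstock, Hagen and Sisto (Hierarchically hyperbolic spaces II, Definition 1.1,
and the definition of a hierarchically hyperbolic group).  The hyperbolic spaces `C U` of a
structure are collected in their disjoint union `Pt`; the space `C U` is the fibre over `U` of the
map `base`.
-/

set_option autoImplicit false

namespace Pool.Agent.H898.HH

/-! ## the word metric -/

/-- the word length with respect to the set `T` -/
noncomputable def wordLen {G : Type} [Group G] (T : Set G) (g : G) : ℕ :=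
  sInf {n | ∃ l : List G, l.length = n ∧ (∀ x ∈ l, x ∈ T ∨ x⁻¹ ∈ T) ∧ l.prod = g}

/-- the word metric: the distance in the Cayley graph -/
noncomputable def wordDist {G : Type} [Group G] (T : Set G) (x y : G) : ℝ := wordLen T (x⁻¹ * y)

/-! ## notions in the hyperbolic spaces -/

/-- the distance of the sets `A` and `B` is at most `r` -/
def Near {P : Type} (dist : P → P → ℝ) (r : ℝ) (A B : Set P) : Prop :=
  ∃ p ∈ A, ∃ q ∈ B, dist p q ≤ r

/-- the diameter of the set `A` is at most `c` -/
def DiamLE {P : Type} (dist : P → P → ℝ) (c : ℝ) (A : Set P) : Prop :=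
  ∀ p ∈ A, ∀ q ∈ A, dist p q ≤ c

/-- `γ`, on the interval from `0` to `L`, is a geodesic in the fibre over `u` of the map `base` -/
def IsGeod {P I : Type} (base : P → I) (dist : P → P → ℝ) (u : I) (L : ℝ) (γ : ℝ → P) : Prop :=
  0 ≤ L ∧ (∀ s ∈ Set.Icc 0 L, base (γ s) = u) ∧
    ∀ s ∈ Set.Icc 0 L, ∀ t ∈ Set.Icc 0 L, dist (γ s) (γ t) = |s - t|

/-- `u` is properly nested in `v` -/
def PNest {I : Type} (nest : I → I → Prop) (u v : I) : Prop := nest u v ∧ u ≠ v

/-- `u` and `v` are transverse: not orthogonal, and neither is nested in the other -/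
def Trans {I : Type} (nest orth : I → I → Prop) (u v : I) : Prop :=
  ¬ orth u v ∧ ¬ nest u v ∧ ¬ nest v u

/-- A hierarchically hyperbolic structure on the set `X` with the metric `d`. -/
structure HHS (X : Type) (d : X → X → ℝ) where
  /-- the index set -/
  Idx : Type
  /-- the disjoint union of the hyperbolic spaces `C U`, `U` in the index set -/
  Pt : Type
  /-- `C U` is the set of the points `p` with `base p = U` -/
  base : Pt → Idx
  /-- the metrics of the spaces `C U`; only the values on pairs of points of the same space `C U`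
  have a meaning -/
  dist : Pt → Pt → ℝ
  δ : ℝ
  ξ : ℝ
  K : ℝ
  κ : ℝ
  E : ℝ
  lam : ℝ
  α : ℝ
  dist_self : ∀ p, dist p p = 0
  eq_of_dist : ∀ p q, base p = base q → dist p q = 0 → p = q
  dist_comm : ∀ p q, base p = base q → dist p q = dist q p
  dist_triangle : ∀ p q r, base p = base q → base q = base r → dist p r ≤ dist p q + dist q r
  /-- the spaces `C U` are geodesic -/
  geodesic : ∀ p q, base p = base q →
    ∃ (L : ℝ) (γ : ℝ → Pt), IsGeod base dist (base p) L γ ∧ γ 0 = p ∧ γ L = q
  /-- the spaces `C U` are hyperbolic, with the same constant -/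
  hyperbolic : ∀ x y z w, base x = base y → base y = base z → base z = base w →
    dist x y + dist z w ≤ max (dist x z + dist y w) (dist x w + dist y z) + 2 * δ
  /-- (1) the projections `π_U` from `X` to subsets of `C U` -/
  proj : Idx → X → Set Pt
  proj_base : ∀ u x, ∀ p ∈ proj u x, base p = u
  proj_nonempty : ∀ u x, (proj u x).Nonempty
  proj_diam : ∀ u x, DiamLE dist ξ (proj u x)
  proj_lipschitz : ∀ u x y, ∀ p ∈ proj u x, ∀ q ∈ proj u y, dist p q ≤ K * d x y + K
  proj_quasiconvex : ∀ u x y, ∀ p ∈ proj u x, ∀ q ∈ proj u y, ∀ (L : ℝ) (γ : ℝ → Pt),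
    IsGeod base dist u L γ → γ 0 = p → γ L = q →
    ∀ s ∈ Set.Icc 0 L, ∃ z, ∃ r ∈ proj u z, dist (γ s) r ≤ K
  /-- (2) nesting -/
  nest : Idx → Idx → Prop
  nest_refl : ∀ u, nest u u
  nest_trans : ∀ u v w, nest u v → nest v w → nest u w
  nest_antisymm : ∀ u v, nest u v → nest v u → u = v
  nest_top : IsEmpty Idx ∨ ∃ s, ∀ u, nest u s
  /-- (3) orthogonality -/
  orth : Idx → Idx → Prop
  orth_symm : ∀ u v, orth u v → orth v u
  orth_irrefl : ∀ u, ¬ orth u u
  orth_of_nest : ∀ u v w, nest v w → orth w u → orth v u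
  orth_not_nest : ∀ u v, orth u v → ¬ nest u v
  container : ∀ t u, nest u t → (∃ v, nest v t ∧ orth v u) →
    ∃ w, PNest nest w t ∧ ∀ v, orth v u → nest v t → nest v w
  /-- the sets `ρ^u_v` in `C v`, which are relevant when `u` is properly nested in `v` or transverse
  to `v` -/
  rho : Idx → Idx → Set Pt
  rho_base : ∀ u v, PNest nest u v ∨ Trans nest orth u v → ∀ p ∈ rho u v, base p = v
  rho_nonempty : ∀ u v, PNest nest u v ∨ Trans nest orth u v → (rho u v).Nonempty
  rho_diam : ∀ u v, PNest nest u v ∨ Trans nest orth u v → DiamLE dist ξ (rho u v)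
  /-- the maps `ρ^w_v` from `C w` to the subsets of `C v`, relevant when `v` is properly nested in
  `w`; here `w = base p` -/
  rhoDown : Idx → Pt → Set Pt
  rhoDown_base : ∀ v p, PNest nest v (base p) → ∀ q ∈ rhoDown v p, base q = v
  rhoDown_nonempty : ∀ v p, PNest nest v (base p) → (rhoDown v p).Nonempty
  /-- (4) transversality and consistency -/
  consistency_trans : ∀ u v, Trans nest orth u v → ∀ x,
    Near dist κ (proj v x) (rho u v) ∨ Near dist κ (proj u x) (rho v u)
  consistency_nest : ∀ v w, PNest nest v w → ∀ x,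
    Near dist κ (proj w x) (rho v w) ∨
      DiamLE dist κ (proj v x ∪ {q | ∃ p ∈ proj w x, q ∈ rhoDown v p})
  consistency_rho : ∀ u v w, nest u v → PNest nest v w ∨ (Trans nest orth v w ∧ ¬ orth w u) →
    Near dist κ (rho u w) (rho v w)
  /-- (5) finite complexity -/
  complexity : ∃ n : ℕ, ∀ F : Finset Idx, (∀ u ∈ F, ∀ v ∈ F, nest u v ∨ nest v u) → F.card ≤ n
  lam_ge : 1 ≤ lam
  E_ge : max ξ κ ≤ E
  /-- (6) large links -/
  large_links : ∀ w x y, ∀ p ∈ proj w x, ∀ q ∈ proj w y, ∃ F : Finset Idx,
    (F.card : ℝ) ≤ lam * dist p q + lam ∧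
    (∀ t ∈ F, PNest nest t w ∧ Near dist (lam * dist p q + lam) (proj w x) (rho t w)) ∧
    ∀ v, PNest nest v w → (∃ t ∈ F, nest v t) ∨ ∃ p' ∈ proj v x, ∃ q' ∈ proj v y, dist p' q' < E
  /-- (7) bounded geodesic image -/
  bounded_geodesic_image : ∀ v w, PNest nest v w → ∀ (L : ℝ) (γ : ℝ → Pt),
    IsGeod base dist w L γ →
    DiamLE dist E {q | ∃ s ∈ Set.Icc 0 L, q ∈ rhoDown v (γ s)} ∨
      ∃ s ∈ Set.Icc 0 L, ∃ q ∈ rho v w, dist (γ s) q ≤ E
  /-- (8) partial realization -/
  partial_realization : ∀ (J : Set Idx), (∀ u ∈ J, ∀ v ∈ J, u ≠ v → orth u v) →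
    ∀ p : Idx → Pt, (∀ u ∈ J, ∃ y, p u ∈ proj u y) →
    ∃ x, ∀ u ∈ J, Near dist α (proj u x) {p u} ∧
      ∀ v, PNest nest u v ∨ Trans nest orth u v → Near dist α (proj v x) (rho u v)
  /-- (9) uniqueness -/
  uniqueness : ∀ c : ℝ, ∃ θ : ℝ, ∀ x y, θ ≤ d x y →
    ∃ u, ∀ p ∈ proj u x, ∀ q ∈ proj u y, c ≤ dist p q

/-- A hierarchically hyperbolic group: a finitely generated group `G` with a hierarchically
hyperbolic structure on its Cayley graph (the vertex set `G` with the word metric) and an action of
`G` on the index set with finitely many orbits, and by isometries between the hyperbolic spaces,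
compatible with the relations and with the projections. -/
structure HHG (G : Type) [Group G] where
  /-- a finite generating set -/
  gens : Set G
  gens_finite : gens.Finite
  gens_closure : Subgroup.closure gens = ⊤
  hhs : HHS G (wordDist gens)
  /-- the action on the index set -/
  actI : G → hhs.Idx → hhs.Idx
  actI_one : ∀ u, actI 1 u = u
  actI_mul : ∀ g h u, actI (g * h) u = actI g (actI h u)
  actI_nest : ∀ g u v, hhs.nest u v → hhs.nest (actI g u) (actI g v)
  actI_orth : ∀ g u v, hhs.orth u v → hhs.orth (actI g u) (actI g v)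
  actI_cofinite : ∃ F : Set hhs.Idx, F.Finite ∧ ∀ u, ∃ g, ∃ v ∈ F, actI g v = u
  /-- the action on the hyperbolic spaces; `g` maps `C u` to `C (g u)` -/
  actP : G → hhs.Pt → hhs.Pt
  actP_one : ∀ p, actP 1 p = p
  actP_mul : ∀ g h p, actP (g * h) p = actP g (actP h p)
  actP_base : ∀ g p, hhs.base (actP g p) = actI g (hhs.base p)
  actP_dist : ∀ g p q, hhs.base p = hhs.base q → hhs.dist (actP g p) (actP g q) = hhs.dist p q
  proj_equivariant : ∀ g u x, hhs.proj (actI g u) (g * x) = actP g '' hhs.proj u x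
  rho_equivariant : ∀ g u v, PNest hhs.nest u v ∨ Trans hhs.nest hhs.orth u v →
    hhs.rho (actI g u) (actI g v) = actP g '' hhs.rho u v

/-- The structure is colourable: the index set has a partition into finitely many classes of
pairwise transverse elements, and `G` permutes the classes. -/
def HHG.Colorable {G : Type} [Group G] (X : HHG G) : Prop :=
  ∃ (n : ℕ) (c : X.hhs.Idx → Fin n),
    (∀ u v, u ≠ v → c u = c v → Trans X.hhs.nest X.hhs.orth u v) ∧
    ∀ g u v, c u = c v → c (X.actI g u) = c (X.actI g v)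

end Pool.Agent.H898.HH
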