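import Pool.Agent.H898.HH.Restrict

/-!
# Domains which are detected by an element of the group
-/

set_option autoImplicit false

namespace Pool.Agent.H898.HH

variable {G : Type} [Group G] (X : HHG G)

theorem trans_cases (u v : X.hhs.Idx) : u = v ∨ X.hhs.orth u v ∨ PNest X.hhs.nest u v ∨
    PNest X.hhs.nest v u ∨ Trans X.hhs.nest X.hhs.orth v u := by
  by_cases h1 : u = v
  · exact Or.inl h1
  by_cases h2 : X.hhs.orth u v
  · exact Or.inr (Or.inl h2)
  by_cases h3 : X.hhs.nest u v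
  · exact Or.inr (Or.inr (Or.inl ⟨h3, h1⟩))
  by_cases h4 : X.hhs.nest v u
  · exact Or.inr (Or.inr (Or.inr (Or.inl ⟨h4, fun h => h1 h.symm⟩)))
  · exact Or.inr (Or.inr (Or.inr (Or.inr ⟨fun h => h2 (X.hhs.orth_symm _ _ h), h4, h3⟩)))

theorem rel_act {u v : X.hhs.Idx} (g : G)
    (h : PNest X.hhs.nest u v ∨ Trans X.hhs.nest X.hhs.orth u v) :
    PNest X.hhs.nest (X.actI g u) (X.actI g v) ∨
      Trans X.hhs.nest X.hhs.orth (X.actI g u) (X.actI g v) := by
  rcases h with h | h
  · exact Or.inl (actI_pnest X h)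
  · right
    refine ⟨fun h' => h.1 ?_, fun h' => h.2.1 ?_, fun h' => h.2.2 ?_⟩
    · have := X.actI_orth g⁻¹ _ _ h'
      rwa [actI_inv, actI_inv] at this
    · have := X.actI_nest g⁻¹ _ _ h'
      rwa [actI_inv, actI_inv] at this
    · have := X.actI_nest g⁻¹ _ _ h'
      rwa [actI_inv, actI_inv] at this

/-- `x` lies in the product region of `v` -/
def HHG.InP (v : X.hhs.Idx) (x : G) : Prop :=
  ∀ w, PNest X.hhs.nest v w ∨ Trans X.hhs.nest X.hhs.orth v w →
    Near X.hhs.dist X.hhs.α (X.hhs.proj w x) (X.hhs.rho v w)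

/-- an element of the stabiliser of `v` which moves the coordinates in the domains orthogonal to
`v` by at most `C` and the `v`-coordinate of a point `x` in the product region of `v` by at most `m`
moves `x` by a bounded amount -/
theorem disp_bound (C m : ℝ) : ∃ θ : ℝ, ∀ (v : X.hhs.Idx) (z x : G),
    (∀ u, PNest X.hhs.nest u v → ¬ X.Unb u) → X.actI z v = v →
    (∀ u, X.hhs.orth u v → ∀ y, ∀ p ∈ X.hhs.proj u y, ∀ q ∈ X.hhs.proj u (z * y),
      X.hhs.dist p q ≤ C) →
    X.InP v x → (∃ r ∈ X.hhs.proj v x, X.hhs.dist r (X.actP z r) ≤ m) →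
    wordDist X.gens x (z * x) < θ := by
  obtain ⟨B, hB0, hB⟩ := exists_bound X
  obtain ⟨θ, hθ⟩ := X.hhs.uniqueness (max (max B C) (max m (2 * X.hhs.α + X.hhs.ξ)) + 1)
  refine ⟨θ, ?_⟩
  intro v z x hv hz hC hx hm
  by_contra hcon
  obtain ⟨w, hw⟩ := hθ _ _ (not_lt.1 hcon)
  set c := max (max B C) (max m (2 * X.hhs.α + X.hhs.ξ)) with hc
  have hcB : B ≤ c := (le_max_left _ _).trans (le_max_left _ _)
  have hcC : C ≤ c := (le_max_right _ _).trans (le_max_left _ _)
  have hcm : m ≤ c := (le_max_left _ _).trans (le_max_right _ _)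
  have hcα : 2 * X.hhs.α + X.hhs.ξ ≤ c := (le_max_right _ _).trans (le_max_right _ _)
  have key : ∃ p ∈ X.hhs.proj w x, ∃ q ∈ X.hhs.proj w (z * x), X.hhs.dist p q ≤ c := by
    rcases trans_cases X w v with h | h | h | h
    · subst h
      obtain ⟨r, hr, hrm⟩ := hm
      refine ⟨r, hr, X.actP z r, ?_, hrm.trans hcm⟩
      have : X.actP z r ∈ X.hhs.proj (X.actI z w) (z * x) := by
        rw [X.proj_equivariant]
        exact Set.mem_image_of_mem _ hr
      rwa [hz] at this
    · obtain ⟨p, hp⟩ := X.hhs.proj_nonempty w x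
      obtain ⟨q, hq⟩ := X.hhs.proj_nonempty w (z * x)
      exact ⟨p, hp, q, hq, (hC w h x p hp q hq).trans hcC⟩
    · obtain ⟨p, hp⟩ := X.hhs.proj_nonempty w x
      obtain ⟨q, hq⟩ := X.hhs.proj_nonempty w (z * x)
      exact ⟨p, hp, q, hq, (hB w (hv w h) x _ p hp q hq).trans hcB⟩
    · obtain ⟨r, hr, s, hs, hrs⟩ := hx w h
      have hz' : X.actI z⁻¹ v = v := by
        conv_lhs => rw [← hz]
        exact actI_inv X z v
      have h' : PNest X.hhs.nest v (X.actI z⁻¹ w) ∨
          Trans X.hhs.nest X.hhs.orth v (X.actI z⁻¹ w) := by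
        have := rel_act X z⁻¹ h
        rwa [hz'] at this
      obtain ⟨r', hr', s', hs', hrs'⟩ := hx _ h'
      have h1 : X.actP z r' ∈ X.hhs.proj w (z * x) := by
        have : X.actP z r' ∈ X.hhs.proj (X.actI z (X.actI z⁻¹ w)) (z * x) := by
          rw [X.proj_equivariant]
          exact Set.mem_image_of_mem _ hr'
        rwa [actI_self_inv] at this
      have h2 : X.actP z s' ∈ X.hhs.rho v w := by
        have : X.actP z s' ∈ X.hhs.rho (X.actI z v) (X.actI z (X.actI z⁻¹ w)) := by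
          rw [X.rho_equivariant _ _ _ h']
          exact Set.mem_image_of_mem _ hs'
        rwa [actI_self_inv, hz] at this
      refine ⟨r, hr, X.actP z r', h1, ?_⟩
      have b1 := X.hhs.proj_base _ _ _ hr
      have b2 := X.hhs.rho_base _ _ h _ hs
      have b3 := X.hhs.proj_base _ _ _ h1
      have b4 := X.hhs.rho_base _ _ h _ h2
      have h3 : X.hhs.dist (X.actP z r') (X.actP z s') ≤ X.hhs.α := by
        rw [X.actP_dist]
        · exact hrs'
        · rw [X.hhs.proj_base _ _ _ hr', X.hhs.rho_base _ _ h' _ hs']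
      have h4 := X.hhs.rho_diam v w h s hs _ h2
      have h5 := X.hhs.dist_triangle r s (X.actP z r') (b1.trans b2.symm) (b2.trans b3.symm)
      have h6 := X.hhs.dist_triangle s (X.actP z s') (X.actP z r') (b2.trans b4.symm)
        (b4.trans b3.symm)
      rw [X.hhs.dist_comm (X.actP z s') (X.actP z r') (b4.trans b3.symm)] at h6
      linarith
  obtain ⟨p, hp, q, hq, hpq⟩ := key
  have := hw p hp q hq
  linarith

theorem exists_normal_avoid {A : Set G} (hA : A.Finite) : ∃ N : Subgroup G, N.Normal ∧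
    N.FiniteIndex ∧ ∀ a ∈ A, a ∈ N → InRes a := by
  induction A, hA using Set.Finite.induction_on with
  | empty => exact ⟨⊤, inferInstance, inferInstance, by simp⟩
  | @insert a s _ _ ih =>
    obtain ⟨N, h1, h2, h3⟩ := ih
    by_cases ha : InRes a
    · refine ⟨N, h1, h2, ?_⟩
      intro b hb hbN
      rcases Set.mem_insert_iff.1 hb with rfl | hb
      · exact ha
      · exact h3 b hb hbN
    · unfold InRes at ha
      push Not at ha
      obtain ⟨H, hH, haH⟩ := ha
      have : H.normalCore.FiniteIndex := inferInstance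
      refine ⟨N ⊓ H.normalCore, inferInstance, inferInstance, ?_⟩
      intro b hb hbN
      rcases Set.mem_insert_iff.1 hb with rfl | hb
      · exact absurd (H.normalCore_le hbN.2) haH
      · exact h3 b hb hbN.1

theorem inRes_conj {r : G} (h : InRes r) (g : G) : InRes (g * r * g⁻¹) := by
  intro H hH
  have : H.normalCore.FiniteIndex := inferInstance
  have h1 : r ∈ H.normalCore := h _ inferInstance
  exact H.normalCore_le ((inferInstance : H.normalCore.Normal).conj_mem r h1 g)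

/-- a detected minimal unbounded domain is separated from its orthogonal translates -/
theorem sep_of_detected {v : X.hhs.Idx} (hv : ∀ u, PNest X.hhs.nest u v → ¬ X.Unb u)
    (hd : X.Detected v) : X.Sep v := by
  obtain ⟨z, C, hz, hC, hres⟩ := hd
  obtain ⟨p0, hp0⟩ := X.hhs.proj_nonempty v 1
  have bp0 := X.hhs.proj_base _ _ _ hp0
  set m := X.hhs.dist p0 (X.actP z p0) with hm
  obtain ⟨θ, hθ⟩ := disp_bound X C (2 * X.hhs.α + m)
  have hball := ball_finite X.gens_finite X.gens_closure ⌈θ⌉₊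
  obtain ⟨N, hN, hNf, hN2⟩ := exists_normal_avoid (hball.image2 (fun a b : G => a * b⁻¹) hball)
  refine ⟨N, hN, hNf, ?_⟩
  intro n hn ho
  have hne : X.actI n v ≠ v := by
    intro h
    rw [h] at ho
    exact X.hhs.orth_irrefl _ ho
  -- the point
  classical
  obtain ⟨x, hx⟩ := X.hhs.partial_realization {v, X.actI n v} (by
      intro a ha b hb hab
      rcases ha with rfl | ha
      · rcases hb with rfl | hb
        · exact absurd rfl hab
        · rw [Set.mem_singleton_iff.1 hb]; exact X.hhs.orth_symm _ _ ho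
      · rw [Set.mem_singleton_iff] at ha
        subst ha
        rcases hb with rfl | hb
        · exact ho
        · exact absurd (Set.mem_singleton_iff.1 hb).symm hab)
    (fun w => if w = v then p0 else X.actP n p0) (by
      intro a ha
      by_cases h : a = v
      · subst h
        exact ⟨1, by rw [if_pos rfl]; exact hp0⟩
      · rcases ha with rfl | ha
        · exact absurd rfl h
        · rw [Set.mem_singleton_iff] at ha
          subst ha
          refine ⟨n * 1, ?_⟩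
          rw [if_neg h, X.proj_equivariant]
          exact Set.mem_image_of_mem _ hp0)
  have hx1 := hx v (Set.mem_insert _ _)
  have hx2 := hx (X.actI n v) (Set.mem_insert_of_mem _ rfl)
  simp only [if_pos, if_neg hne] at hx1 hx2
  -- first element
  have gen : ∀ (w : X.hhs.Idx) (y : G) (p : X.hhs.Pt), X.hhs.base p = w → X.actI y w = w →
      X.hhs.dist p (X.actP y p) ≤ m → Near X.hhs.dist X.hhs.α (X.hhs.proj w x) {p} →
      ∃ r ∈ X.hhs.proj w x, X.hhs.dist r (X.actP y r) ≤ 2 * X.hhs.α + m := by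
    intro w y p bp hy hm' hnear
    obtain ⟨r, hr, s, hs, hrs⟩ := hnear
    rw [Set.mem_singleton_iff] at hs
    subst hs
    have br := X.hhs.proj_base _ _ _ hr
    have b1 : X.hhs.base (X.actP y s) = w := by rw [X.actP_base, bp, hy]
    have b2 : X.hhs.base (X.actP y r) = w := by rw [X.actP_base, br, hy]
    refine ⟨r, hr, ?_⟩
    have h1 := X.hhs.dist_triangle r s (X.actP y r) (br.trans bp.symm) (bp.trans b2.symm)
    have h2 := X.hhs.dist_triangle s (X.actP y s) (X.actP y r) (bp.trans b1.symm)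
      (b1.trans b2.symm)
    rw [X.actP_dist _ _ _ (bp.trans br.symm), X.hhs.dist_comm s r (bp.trans br.symm)] at h2
    linarith
  have e1 := hθ v z x hv hz hC hx1.2 (gen v z p0 bp0 hz le_rfl hx1.1)
  -- second element
  have hC' : ∀ u, X.hhs.orth u (X.actI n v) → ∀ y, ∀ p ∈ X.hhs.proj u y,
      ∀ q ∈ X.hhs.proj u (n * z * n⁻¹ * y), X.hhs.dist p q ≤ C := by
    intro u hu y p hp q hq
    have h1 : X.hhs.orth (X.actI n⁻¹ u) v := by
      have := X.actI_orth n⁻¹ _ _ hu
      rwa [actI_inv] at this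
    have h2 : X.actP n⁻¹ p ∈ X.hhs.proj (X.actI n⁻¹ u) (n⁻¹ * y) := by
      rw [X.proj_equivariant]; exact Set.mem_image_of_mem _ hp
    have h3 : X.actP n⁻¹ q ∈ X.hhs.proj (X.actI n⁻¹ u) (z * (n⁻¹ * y)) := by
      have : X.actP n⁻¹ q ∈ X.hhs.proj (X.actI n⁻¹ u) (n⁻¹ * (n * z * n⁻¹ * y)) := by
        rw [X.proj_equivariant]; exact Set.mem_image_of_mem _ hq
      have e : n⁻¹ * (n * z * n⁻¹ * y) = z * (n⁻¹ * y) := by group
      rwa [e] at this
    have h4 := hC _ h1 _ _ h2 _ h3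
    rwa [X.actP_dist _ _ _ ((X.hhs.proj_base _ _ _ hp).trans (X.hhs.proj_base _ _ _ hq).symm)]
      at h4
  have hz' : X.actI (n * z * n⁻¹) (X.actI n v) = X.actI n v := by
    rw [← X.actI_mul, inv_mul_cancel_right, X.actI_mul, hz]
  have hv' : ∀ u, PNest X.hhs.nest u (X.actI n v) → ¬ X.Unb u := by
    intro u hu hun
    have h1 := actI_pnest X (g := n⁻¹) hu
    rw [actI_inv] at h1
    exact hv _ h1 (unb_act X n⁻¹ hun)
  have bnp : X.hhs.base (X.actP n p0) = X.actI n v := by rw [X.actP_base, bp0]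
  have e2 := hθ (X.actI n v) (n * z * n⁻¹) x hv' hz' hC' hx2.2
    (gen (X.actI n v) (n * z * n⁻¹) (X.actP n p0) bnp hz' (by
      rw [← X.actP_mul, inv_mul_cancel_right, X.actP_mul, X.actP_dist _ _ _ (by
        rw [X.actP_base, bp0, hz])]) hx2.1)
  -- the group theory
  have w1 : x⁻¹ * (z * x) ∈ {g : G | wordLen X.gens g ≤ ⌈θ⌉₊} := by
    have h1 : (wordLen X.gens (x⁻¹ * (z * x)) : ℝ) < θ := e1
    have h2 : (wordLen X.gens (x⁻¹ * (z * x)) : ℝ) ≤ (⌈θ⌉₊ : ℝ) := h1.le.trans (Nat.le_ceil θ)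
    exact_mod_cast h2
  have w2 : x⁻¹ * (n * z * n⁻¹ * x) ∈ {g : G | wordLen X.gens g ≤ ⌈θ⌉₊} := by
    have h1 : (wordLen X.gens (x⁻¹ * (n * z * n⁻¹ * x)) : ℝ) < θ := e2
    have h2 : (wordLen X.gens (x⁻¹ * (n * z * n⁻¹ * x)) : ℝ) ≤ (⌈θ⌉₊ : ℝ) :=
      h1.le.trans (Nat.le_ceil θ)
    exact_mod_cast h2
  have hmem : x⁻¹ * (n * z * n⁻¹ * x) * (x⁻¹ * (z * x))⁻¹ ∈ N := by
    have e : x⁻¹ * (n * z * n⁻¹ * x) * (x⁻¹ * (z * x))⁻¹ =
        x⁻¹ * (n * (z * n⁻¹ * z⁻¹)) * x⁻¹⁻¹ := by group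
    rw [e]
    apply hN.conj_mem
    exact N.mul_mem hn (hN.conj_mem _ (N.inv_mem hn) z)
  have hR := hN2 _ (Set.mem_image2_of_mem w2 w1) hmem
  have hR' : InRes (n * z * n⁻¹ * z⁻¹) := by
    have := inRes_conj hR x
    have e : x * (x⁻¹ * (n * z * n⁻¹ * x) * (x⁻¹ * (z * x))⁻¹) * x⁻¹ = n * z * n⁻¹ * z⁻¹ := by
      group
    rwa [e] at this
  obtain ⟨y, p, hp, q, hq, hpq⟩ := hres _ hR'
  have e : n * z * n⁻¹ * z⁻¹ * z * y = n * z * n⁻¹ * y := by group
  rw [e] at hq
  exact absurd (hC' v (X.hhs.orth_symm _ _ ho) y p hp q hq) (not_le.2 hpq)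

end Pool.Agent.H898.HH
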