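import Pool.Agent.H898.HH.Criterion

/-!
# Colourability is a separability property
-/

set_option autoImplicit false

namespace Pool.Agent.H898.HH

namespace HHG

variable {G : Type} [Group G] (X : HHG G)

/-- If an unbounded domain is nested in each domain then the structure is colourable iff no orthogonal
translate of a minimal unbounded domain is reached from the closure of its stabiliser in the profinite
topology. -/
theorem colorable_iff' (hX : ∀ u, ∃ v, X.hhs.nest v u ∧ X.Unb v) :
    X.Colorable ↔ ∀ v, X.MinUnb v → X.OrthSep v := by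
  constructor
  · intro h v hv
    obtain ⟨N, hN, hNf, hN2⟩ := sep_of_colorable _ h
    intro g hg
    refine ⟨N ⊔ X.stab v, Subgroup.finiteIndex_of_le le_sup_left, ?_, ?_⟩
    · intro h hh
      exact (le_sup_right : X.stab v ≤ N ⊔ X.stab v) hh
    · intro hmem
      rw [← SetLike.mem_coe, Subgroup.normal_mul N (X.stab v)] at hmem
      obtain ⟨n, hn, s, hs, rfl⟩ := hmem
      have hs' : X.actI s v = v := hs
      refine hN2 v n hn ?_
      rwa [X.actI_mul, hs'] at hg
  · intro h
    apply colorable_of_sep
    intro u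
    obtain ⟨v, hvu, hv⟩ := hX u
    obtain ⟨w, hwv, hw⟩ := exists_minUnb X hv
    obtain ⟨N, h1, h2, h3⟩ := X.sep_of_orthSep hw (h w hw)
    refine ⟨N, h1, h2, fun n hn ho => h3 n hn ?_⟩
    have hwu := X.hhs.nest_trans _ _ _ hwv hvu
    have h4 : X.hhs.orth (X.actI n w) u := X.hhs.orth_of_nest _ _ _ (X.actI_nest n _ _ hwu) ho
    have h5 : X.hhs.orth w (X.actI n w) := X.hhs.orth_of_nest _ _ _ hwu (X.hhs.orth_symm _ _ h4)
    exact X.hhs.orth_symm _ _ h5

end HHG

end Pool.Agent.H898.HH
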