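import Pool.Agent.H898.HH.Straight

/-!
# Combings with a fixed step
-/

set_option autoImplicit false

namespace Pool.Agent.H898.HH

namespace Mid

variable {E : Type} [MetricSpace E] (M : Mid E)

/-- the number of steps -/
noncomputable def num (h : ℝ) (x y : E) : ℕ := ⌈dist x y / h⌉₊

theorem num_comm (h : ℝ) (x y : E) : num h y x = num h x y := by
  unfold num
  rw [dist_comm]

theorem num_self (h : ℝ) (x : E) : num h x x = 0 := by
  unfold num
  rw [dist_self, zero_div, Nat.ceil_zero]

theorem le_num {h : ℝ} (hh : 0 < h) (x y : E) : dist x y ≤ num h x y * h := by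
  have := Nat.le_ceil (dist x y / h)
  rwa [div_le_iff₀ hh] at this

theorem num_lt {h : ℝ} (hh : 0 < h) (x y : E) : num h x y * h < dist x y + h := by
  have := Nat.ceil_lt_add_one (a := dist x y / h) (by positivity)
  have h2 : (num h x y : ℝ) * h < (dist x y / h + 1) * h := mul_lt_mul_of_pos_right this hh
  rw [add_mul, div_mul_cancel₀ _ hh.ne', one_mul] at h2
  exact h2

variable [CompleteSpace E]

theorem seg_ex {h : ℝ} (hh : 0 < h) (x y : E) : ∃ p, M.IsSeg (num h x y) x y p := by
  rcases Nat.eq_zero_or_pos (num h x y) with h0 | h0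
  · have h1 := le_num hh x y
    rw [h0, Nat.cast_zero, zero_mul] at h1
    have h2 : x = y := dist_le_zero.1 h1
    subst h2
    refine ⟨fun _ => x, rfl, fun _ _ => rfl, fun i hi => (M.idem x).symm⟩
  · exact isSeg_exists h0 x y

open Classical in
/-- the combing with steps of length about `h` -/
noncomputable def comb (h : ℝ) (x y : E) : ℕ → E :=
  if hh : 0 < h then (M.seg_ex hh x y).choose else fun _ => x

variable {M} {h : ℝ} (hh : 0 < h)

include hh

theorem comb_seg (x y : E) : M.IsSeg (num h x y) x y (M.comb h x y) := by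
  unfold comb
  rw [dif_pos hh]
  exact (M.seg_ex hh x y).choose_spec

theorem comb_eq {x y : E} {p : ℕ → E} (hp : M.IsSeg (num h x y) x y p) : M.comb h x y = p :=
  (comb_seg hh x y).unique hp

theorem comb_zero (x y : E) : M.comb h x y 0 = x := (comb_seg hh x y).start

theorem comb_end (x y : E) {i : ℕ} (hi : num h x y ≤ i) : M.comb h x y i = y :=
  (comb_seg hh x y).stop i hi

theorem comb_min (x y : E) (i : ℕ) : M.comb h x y (min i (num h x y)) = M.comb h x y i := by
  rcases le_total i (num h x y) with h1 | h1
  · rw [min_eq_left h1]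
  · rw [min_eq_right h1, comb_end hh x y le_rfl, comb_end hh x y h1]

theorem num_sub {x y : E} {i j : ℕ} (hij : i ≤ j) (hj : j ≤ num h x y) :
    num h (M.comb h x y i) (M.comb h x y j) = j - i := by
  rcases Nat.eq_or_lt_of_le hij with rfl | hij'
  · rw [num_self]; omega
  · set N := num h x y with hN
    have hN0 : 0 < N := by omega
    have hN0' : (0 : ℝ) < N := by exact_mod_cast hN0
    have h1 := (comb_seg (M := M) hh x y).dist_eq hij hj
    rw [← hN] at h1
    have h2 := le_num hh x y
    have h3 := num_lt hh x y
    rw [← hN] at h2 h3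
    have hji : (0 : ℝ) < (j : ℝ) - i := by
      have : (i : ℝ) < j := by exact_mod_cast hij'
      linarith
    have hjN : (j : ℝ) - i ≤ N := by
      have : (j : ℝ) ≤ N := by exact_mod_cast hj
      have : (0 : ℝ) ≤ i := by positivity
      linarith
    unfold num
    rw [Nat.ceil_eq_iff (by omega)]
    have e1 : ((j - i - 1 : ℕ) : ℝ) = (j : ℝ) - i - 1 := by
      rw [Nat.cast_sub (by omega), Nat.cast_sub hij]
      simp
    have e2 : ((j - i : ℕ) : ℝ) = (j : ℝ) - i := Nat.cast_sub hij
    rw [e1, e2]
    constructor
    · rw [lt_div_iff₀ hh]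
      -- `(j - i - 1) h < dist`
      have h4 : (N : ℝ) * (((j : ℝ) - i - 1) * h) < N * dist (M.comb h x y i) (M.comb h x y j) := by
        rw [h1]
        have h5 : ((j : ℝ) - i) * (N * h - h) < (j - i) * dist x y :=
          mul_lt_mul_of_pos_left (by linarith) hji
        have h6 : ((j : ℝ) - i) * h ≤ N * h := mul_le_mul_of_nonneg_right hjN hh.le
        nlinarith
      exact lt_of_mul_lt_mul_left h4 hN0'.le
    · rw [div_le_iff₀ hh]
      have h4 : (N : ℝ) * dist (M.comb h x y i) (M.comb h x y j) ≤ N * ((j - i) * h) := by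
        rw [h1]
        have h5 : ((j : ℝ) - i) * dist x y ≤ (j - i) * (N * h) :=
          mul_le_mul_of_nonneg_left h2 hji.le
        nlinarith
      exact le_of_mul_le_mul_left h4 hN0'

/-- consistency -/
theorem comb_sub {x y : E} {i j : ℕ} (hij : i ≤ j) (hj : j ≤ num h x y) (k : ℕ) :
    M.comb h (M.comb h x y i) (M.comb h x y j) k = M.comb h x y (min (i + k) j) := by
  have h1 := (comb_seg (M := M) hh x y).sub hij hj
  have h2 := comb_eq (M := M) hh (x := M.comb h x y i) (y := M.comb h x y j)
    (p := fun k => M.comb h x y (min (i + k) j)) (by rw [num_sub hh hij hj]; exact h1)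
  exact congrFun h2 k

theorem comb_rev (x y : E) (k : ℕ) : M.comb h y x k = M.comb h x y (num h x y - k) := by
  have h1 := (comb_seg (M := M) hh x y).rev
  have h2 := comb_eq (M := M) hh (x := y) (y := x)
    (p := fun k => M.comb h x y (num h x y - k)) (by rw [num_comm]; exact h1)
  exact congrFun h2 k

theorem comb_map (φ : E → E) (hφ : ∀ x y, φ (M.mid x y) = M.mid (φ x) (φ y))
    (hφ2 : ∀ x y, dist (φ x) (φ y) = dist x y) (x y : E) (k : ℕ) :
    M.comb h (φ x) (φ y) k = φ (M.comb h x y k) := by
  have h1 := (comb_seg (M := M) hh x y).map φ hφ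
  have h3 : num h (φ x) (φ y) = num h x y := by
    unfold num
    rw [hφ2]
  have h2 := comb_eq (M := M) hh (x := φ x) (y := φ y)
    (p := fun k => φ (M.comb h x y k)) (by rw [h3]; exact h1)
  exact congrFun h2 k

theorem comb_dist_le {x y : E} {i j : ℕ} (hij : i ≤ j) (hj : j ≤ num h x y) :
    dist (M.comb h x y i) (M.comb h x y j) ≤ (j - i) * h ∧
      (j - i) * h - h ≤ dist (M.comb h x y i) (M.comb h x y j) := by
  have h1 := num_sub (M := M) hh hij hj
  have h2 := le_num hh (M.comb h x y i) (M.comb h x y j)
  have h3 := num_lt hh (M.comb h x y i) (M.comb h x y j)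
  rw [h1, Nat.cast_sub hij] at h2 h3
  exact ⟨h2, by linarith⟩

theorem comb_dist_abs (x y : E) (i j : ℕ) :
    abs (dist (M.comb h x y i) (M.comb h x y j) -
      abs (((min i (num h x y) : ℕ) : ℝ) * h - ((min j (num h x y) : ℕ) : ℝ) * h)) ≤ h := by
  rw [← comb_min hh x y i, ← comb_min hh x y j]
  generalize hi : min i (num h x y) = a
  generalize hj : min j (num h x y) = b
  have ha : a ≤ num h x y := by omega
  have hb : b ≤ num h x y := by omega
  rw [← sub_mul, abs_mul, abs_of_pos hh]
  rcases le_total a b with hab | hab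
  · obtain ⟨h1, h2⟩ := comb_dist_le (M := M) hh hab hb
    have : (a : ℝ) ≤ b := by exact_mod_cast hab
    rw [abs_sub_comm (a : ℝ), abs_of_nonneg (by linarith : (0 : ℝ) ≤ (b : ℝ) - a), abs_le]
    constructor <;> linarith
  · obtain ⟨h1, h2⟩ := comb_dist_le (M := M) hh hab ha
    have : (b : ℝ) ≤ a := by exact_mod_cast hab
    rw [dist_comm, abs_of_nonneg (by linarith : (0 : ℝ) ≤ (a : ℝ) - b), abs_le]
    constructor <;> linarith

theorem comb_dist_lip (x y : E) (i j : ℕ) :
    dist (M.comb h x y i) (M.comb h x y j) ≤ |(i : ℝ) * h - j * h| := by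
  have key : ∀ i j : ℕ, i ≤ j → dist (M.comb h x y i) (M.comb h x y j) ≤ (j - i) * h := by
    intro i j hij
    rw [← comb_min hh x y i, ← comb_min hh x y j]
    have h1 := (comb_dist_le (M := M) hh (x := x) (y := y) (i := min i (num h x y))
      (j := min j (num h x y)) (by omega) (by omega)).1
    refine h1.trans (mul_le_mul_of_nonneg_right ?_ hh.le)
    have h2 : min j (num h x y) + i ≤ j + min i (num h x y) := by omega
    have h3 : ((min j (num h x y) : ℕ) : ℝ) + i ≤ j + (min i (num h x y) : ℕ) := by
      exact_mod_cast h2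
    linarith
  rcases le_total i j with hij | hij
  · have h1 := key i j hij
    rw [abs_sub_comm, ← sub_mul]
    exact h1.trans (le_abs_self _)
  · have h1 := key j i hij
    rw [dist_comm, ← sub_mul]
    exact h1.trans (le_abs_self _)

theorem comb_far {x y x' y' : E} {i : ℕ} (hi : min (num h x y) (num h x' y') ≤ i) :
    dist (M.comb h x y i) (M.comb h x' y' i) ≤ dist y y' + |dist x y - dist x' y'| + h := by
  have key : ∀ x y x' y' : E, num h x y ≤ num h x' y' → num h x y ≤ i →
      dist (M.comb h x y i) (M.comb h x' y' i) ≤ dist y y' + |dist x y - dist x' y'| + h := by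
    intro x y x' y' h1 h2
    rw [comb_end hh x y h2]
    have h0 := abs_nonneg (dist x y - dist x' y')
    rcases le_total (num h x' y') i with h3 | h3
    · rw [comb_end hh x' y' h3]
      linarith
    · have h4 := (comb_dist_le (M := M) hh (x := x') (y := y') h3 le_rfl).1
      rw [comb_end hh x' y' le_rfl] at h4
      have h5 := num_lt hh x' y'
      have h6 := le_num hh x y
      have h7 : (num h x y : ℝ) ≤ i := by exact_mod_cast h2
      have h8 : (num h x y : ℝ) * h ≤ i * h := mul_le_mul_of_nonneg_right h7 hh.le
      have h9 := neg_abs_le (dist x y - dist x' y')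
      have h10 := dist_triangle y y' (M.comb h x' y' i)
      rw [dist_comm y' (M.comb h x' y' i)] at h10
      linarith
  rcases le_total (num h x y) (num h x' y') with h1 | h1
  · exact key x y x' y' h1 (by omega)
  · rw [dist_comm, dist_comm y y', abs_sub_comm]
    exact key x' y' x y h1 (by omega)

theorem comb_conv (x y x' y' : E) {i : ℕ} (hi : i ≤ min (num h x y) (num h x' y')) :
    ((min (num h x y) (num h x' y') : ℕ) : ℝ) * dist (M.comb h x y i) (M.comb h x' y' i) ≤
      i * (dist y y' + |dist x y - dist x' y'| + h) +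
        ((min (num h x y) (num h x' y') : ℕ) - i) * dist x x' := by
  have h1 := dconv (a := fun i => dist (M.comb h x y i) (M.comb h x' y' i))
    ((comb_seg (M := M) hh x y).str.conv (comb_seg (M := M) hh x' y').str
      (m := min (num h x y) (num h x' y')) (by omega) (by omega)) hi le_rfl
  have h2 := comb_far (M := M) hh (x := x) (y := y) (x' := x') (y' := y')
    (i := min (num h x y) (num h x' y')) le_rfl
  rw [comb_zero hh x y, comb_zero hh x' y'] at h1
  have h3 : (i : ℝ) * dist (M.comb h x y (min (num h x y) (num h x' y')))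
      (M.comb h x' y' (min (num h x y) (num h x' y'))) ≤
      i * (dist y y' + |dist x y - dist x' y'| + h) :=
    mul_le_mul_of_nonneg_left h2 (by positivity)
  linarith

theorem comb_lip (x y x' y' : E) (i : ℕ) : dist (M.comb h x y i) (M.comb h x' y' i) ≤
    2 * (dist x x' + dist y y') + h := by
  have h0 : |dist x y - dist x' y'| ≤ dist x x' + dist y y' := by
    have t1 := dist_triangle4 x x' y' y
    have t2 := dist_triangle4 x' x y y'
    rw [dist_comm y' y] at t1
    rw [dist_comm x' x] at t2
    rw [abs_le]
    constructor <;> linarith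
  have hx := dist_nonneg (x := x) (y := x')
  have hy := dist_nonneg (x := y) (y := y')
  rcases le_total (min (num h x y) (num h x' y')) i with hi | hi
  · have := comb_far (M := M) hh hi
    linarith
  · have h1 := comb_conv (M := M) hh x y x' y' hi
    generalize hm : min (num h x y) (num h x' y') = m at *
    rcases Nat.eq_zero_or_pos m with h2 | h2
    · have : i = 0 := by omega
      subst this
      rw [comb_zero hh, comb_zero hh]
      linarith
    · have h2' : (0 : ℝ) < m := by exact_mod_cast h2
      have h3 : (i : ℝ) ≤ m := by exact_mod_cast hi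
      have h4 : (m : ℝ) * dist (M.comb h x y i) (M.comb h x' y' i) ≤
          m * (2 * (dist x x' + dist y y') + h) := by
        refine h1.trans ?_
        have h5 : (i : ℝ) * (dist y y' + |dist x y - dist x' y'| + h) ≤
            i * (2 * (dist x x' + dist y y') + h) :=
          mul_le_mul_of_nonneg_left (by linarith) (by positivity)
        have h6 : ((m : ℝ) - i) * dist x x' ≤ (m - i) * (2 * (dist x x' + dist y y') + h) :=
          mul_le_mul_of_nonneg_left (by linarith) (by linarith)
        linarith
      exact le_of_mul_le_mul_left h4 h2'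

end Mid

end Pool.Agent.H898.HH
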