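import Pool.Agent.H898.HH.Hyp

/-!
# Gates to hulls of arbitrary sets
-/

set_option autoImplicit false

namespace Pool.Agent.H898.HH

namespace HHG

variable {G : Type} [Group G] (X : HHG G)

theorem hyp (w : X.hhs.Idx) : Hyp (X.C w) X.hhs.δ := by
  intro x y z t
  exact X.hhs.hyperbolic _ _ _ _ (x.2.trans y.2.symm) (y.2.trans z.2.symm) (z.2.trans t.2.symm)

theorem delta_nonneg (w : X.hhs.Idx) : 0 ≤ X.hhs.δ := by
  have := X.hyp w (X.pt w 1) (X.pt w 1) (X.pt w 1) (X.pt w 1)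
  rw [dist_self, max_self] at this
  linarith

/-- points of geodesics are close to coordinates -/
theorem geo_coord (w : X.hhs.Idx) (x y : G) (t : ℝ) (h0 : 0 ≤ t)
    (h1 : t ≤ dist (X.pt w x) (X.pt w y)) : ∃ b : X.C w,
      (∃ z, dist b (X.pt w z) ≤ |X.hhs.K| + X.hhs.ξ) ∧ dist (X.pt w x) b = t ∧
      dist b (X.pt w y) = dist (X.pt w x) (X.pt w y) - t := by
  obtain ⟨L, γ, hγ, g0, gL⟩ := X.hhs.geodesic (X.pt w x).1 (X.pt w y).1
    ((X.pt w x).2.trans (X.pt w y).2.symm)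
  rw [(X.pt w x).2] at hγ
  have hL : dist (X.pt w x) (X.pt w y) = L := by
    have := hγ.2.2 0 ⟨le_rfl, hγ.1⟩ L ⟨hγ.1, le_rfl⟩
    rw [g0, gL, zero_sub, abs_neg, abs_of_nonneg hγ.1] at this
    exact this
  have ht : t ∈ Set.Icc 0 L := ⟨h0, by linarith⟩
  have b1 := hγ.2.1 t ht
  refine ⟨⟨γ t, b1⟩, ?_, ?_, ?_⟩
  · obtain ⟨z, r, hr, hd⟩ := X.hhs.proj_quasiconvex w x y _ (X.pt_mem w x) _ (X.pt_mem w y) L γ hγ
      g0 gL t ht
    have b2 := X.hhs.proj_base _ _ _ hr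
    refine ⟨z, ?_⟩
    have e1 : dist (⟨γ t, b1⟩ : X.C w) (⟨r, b2⟩ : X.C w) ≤ X.hhs.K := hd
    have e2 : dist (⟨r, b2⟩ : X.C w) (X.pt w z) ≤ X.hhs.ξ :=
      X.hhs.proj_diam _ _ _ hr _ (X.pt_mem w z)
    have e3 := dist_triangle (⟨γ t, b1⟩ : X.C w) (⟨r, b2⟩ : X.C w) (X.pt w z)
    have := le_abs_self X.hhs.K
    linarith
  · have := hγ.2.2 0 ⟨le_rfl, hγ.1⟩ t ht
    rw [g0, zero_sub, abs_neg, abs_of_nonneg h0] at this
    exact this
  · have := hγ.2.2 t ht L ⟨hγ.1, le_rfl⟩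
    rw [gL, abs_sub_comm, abs_of_nonneg (by linarith [ht.2])] at this
    rw [hL]
    exact this

/-- bounded geodesic image -/
theorem bgi_bt {v w : X.hhs.Idx} (h : PNest X.hhs.nest v w) (p q : X.C w) :
    dist (X.dn v w p) (X.dn v w q) ≤ X.hhs.E ∨ Bt (2 * (X.hhs.E + X.hhs.ξ)) p (X.rp v w) q := by
  obtain ⟨L, γ, hγ, h0, hL⟩ := X.hhs.geodesic p.1 q.1 (p.2.trans q.2.symm)
  rw [p.2] at hγ
  have hLd : dist p q = L := by
    have := hγ.2.2 0 ⟨le_rfl, hγ.1⟩ L ⟨hγ.1, le_rfl⟩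
    rw [h0, hL, zero_sub, abs_neg, abs_of_nonneg hγ.1] at this
    exact this
  rcases X.hhs.bounded_geodesic_image v w h L γ hγ with h1 | ⟨s, hs, r, hr, h1⟩
  · left
    refine h1 _ ⟨0, ⟨le_rfl, hγ.1⟩, ?_⟩ _ ⟨L, ⟨hγ.1, le_rfl⟩, ?_⟩
    · rw [h0]; exact X.dn_mem h p
    · rw [hL]; exact X.dn_mem h q
  · right
    have b1 := hγ.2.1 s hs
    obtain ⟨b2, h2⟩ := X.rho_near (Or.inl h) r hr
    have h3 : dist (⟨γ s, b1⟩ : X.C w) (⟨r, b2⟩ : X.C w) ≤ X.hhs.E := h1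
    have h4 : dist p (⟨γ s, b1⟩ : X.C w) = s := by
      have := hγ.2.2 0 ⟨le_rfl, hγ.1⟩ s hs
      rw [h0, zero_sub, abs_neg, abs_of_nonneg hs.1] at this
      exact this
    have h5 : dist (⟨γ s, b1⟩ : X.C w) q = L - s := by
      have := hγ.2.2 s hs L ⟨hγ.1, le_rfl⟩
      rw [hL, abs_sub_comm, abs_of_nonneg (by linarith [hs.2])] at this
      exact this
    have h6 := dist_triangle (⟨γ s, b1⟩ : X.C w) (⟨r, b2⟩ : X.C w) (X.rp v w)
    have h7 := dist_triangle p (⟨γ s, b1⟩ : X.C w) (X.rp v w)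
    have h8 := dist_triangle (X.rp v w) (⟨γ s, b1⟩ : X.C w) q
    have h9 := dist_comm (X.rp v w) (⟨γ s, b1⟩ : X.C w)
    unfold Bt
    linarith

/-- `g` is a gate of `x` to the set `Y` -/
def Gate (c : ℝ) (x : G) (Y : Set G) (g : G) : Prop := ∀ w,
  (∀ y ∈ Y, Bt c (X.pt w x) (X.pt w g) (X.pt w y)) ∧
    ∃ y₁ ∈ Y, ∃ y₂ ∈ Y, Bt c (X.pt w y₁) (X.pt w g) (X.pt w y₂)

/-- the coordinates of gates -/
theorem exists_gate_coord (w : X.hhs.Idx) (x : G) {Y : Set G} (hY : Y.Nonempty) : ∃ z,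
    (∀ y ∈ Y, Bt (2 + 2 * X.hhs.δ + 2 * (|X.hhs.K| + X.hhs.ξ)) (X.pt w x) (X.pt w z) (X.pt w y)) ∧
    ∃ y₁ ∈ Y, ∃ y₂ ∈ Y, Bt (2 + 2 * X.hhs.δ + 2 * (|X.hhs.K| + X.hhs.ξ))
      (X.pt w y₁) (X.pt w z) (X.pt w y₂) := by
  obtain ⟨y, hy⟩ := hY
  have : Nonempty Y := ⟨⟨y, hy⟩⟩
  obtain ⟨b, ⟨z, hz⟩, h1, i, j, h2⟩ := exists_proj (X.hyp w) (fun y : Y => X.pt w y) (X.pt w x)
    (fun b => ∃ z, dist b (X.pt w z) ≤ |X.hhs.K| + X.hhs.ξ)
    (fun i t h0 h1 => X.geo_coord w x i t h0 h1)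
  exact ⟨z, fun y hy => (h1 ⟨y, hy⟩).near_mid hz, i, i.2, j, j.2, h2.near_mid hz⟩

/-- the coordinates do not jump away from `ρ` -/
theorem dn_of_not_bt {v w : X.hhs.Idx} (h : PNest X.hhs.nest v w) {k : ℝ} (hk : X.BigK k)
    (b : X.C w) (x : G) (hb : ¬ Bt (10 * k) b (X.rp v w) (X.pt w x)) :
    dist (X.pt v x) (X.dn v w b) ≤ 2 * k := by
  have h1 : dist (X.dn v w b) (X.dn v w (X.pt w x)) ≤ X.hhs.E := by
    rcases X.bgi_bt h b (X.pt w x) with h1 | h1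
    · exact h1
    · refine absurd (h1.mono ?_) hb
      have := hk.hE; have := hk.hξ; have := hk.k0
      linarith
  have h2 : dist (X.pt v x) (X.dn v w (X.pt w x)) ≤ X.hhs.κ := by
    rcases X.cons_nest h x with h2 | h2
    · refine absurd ((bt_of_close (e := k) (by
        rw [dist_comm]; exact h2.trans hk.hk1)).mono ?_) hb
      have := hk.k0
      linarith
    · exact h2
  have h3 := dist_triangle (X.pt v x) (X.dn v w (X.pt w x)) (X.dn v w b)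
  rw [dist_comm (X.dn v w (X.pt w x)) (X.dn v w b)] at h3
  have := hk.hE; have := hk.hκ
  linarith

/-- existence of gates -/
theorem exists_gate : ∃ c : ℝ, ∀ (x : G) (Y : Set G), Y.Nonempty → ∃ g, X.Gate c x Y g := by
  classical
  -- constants
  set c₀ : ℝ := |2 + 2 * X.hhs.δ + 2 * (|X.hhs.K| + X.hhs.ξ)| with hc₀
  have hc0 : 0 ≤ c₀ := abs_nonneg _
  have he0 : 0 ≤ X.e0 := by
    unfold e0; positivity
  set k := 30 * (X.e0 + c₀) with hk
  have hbk : X.BigK k := X.bigK_e0 (by linarith)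
  have hbe : X.BigK X.e0 := X.bigK_e0 le_rfl
  obtain ⟨θ, hθ⟩ := realization hbk
  refine ⟨c₀ + 2 * |θ|, fun x Y hY => ?_⟩
  have hz : ∀ w, ∃ z, (∀ y ∈ Y, Bt c₀ (X.pt w x) (X.pt w z) (X.pt w y)) ∧
      ∃ y₁ ∈ Y, ∃ y₂ ∈ Y, Bt c₀ (X.pt w y₁) (X.pt w z) (X.pt w y₂) := by
    intro w
    obtain ⟨z, h1, y₁, hy₁, y₂, hy₂, h2⟩ := X.exists_gate_coord w x hY
    exact ⟨z, fun y hy => (h1 y hy).mono (le_abs_self _), y₁, hy₁, y₂, hy₂,
      h2.mono (le_abs_self _)⟩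
  choose z hz1 hz2 using hz
  have hcons : X.Cons (fun w => X.pt w (z w)) k := by
    refine ⟨?_, ?_, fun w => X.isCoord_pt _ _⟩
    · intro u w huw
      have key : ∀ u w, Trans X.hhs.nest X.hhs.orth u w → dist (X.pt w x) (X.rp u w) ≤ X.k1 →
          k < dist (X.pt w (z w)) (X.rp u w) → dist (X.pt u (z u)) (X.rp w u) ≤ k := by
        intro u w huw hx hfar
        by_contra hcon
        push Not at hcon
        have hk1 := hbe.hk1
        obtain ⟨y₁, hy₁, y₂, hy₂, hb⟩ := hz2 u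
        have hfar' : ∀ y ∈ Y, ¬ dist (X.pt w y) (X.rp u w) ≤ X.k1 := by
          intro y hy h'
          have := (hz1 w y hy).close (hx.trans hk1) (h'.trans hk1)
          linarith
        have hnear : ∀ y ∈ Y, dist (X.pt u y) (X.rp w u) ≤ X.e0 := by
          intro y hy
          rcases X.cons_trans huw y with h' | h'
          · exact absurd h' (hfar' y hy)
          · exact h'.trans hk1
        have := hb.close (hnear y₁ hy₁) (hnear y₂ hy₂)
        linarith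
      by_contra hcon
      push Not at hcon
      rcases X.cons_trans huw x with hx | hx
      · exact absurd (key u w huw hx hcon.1) (not_le.2 hcon.2)
      · exact absurd (key w u (X.trans_symm huw) hx hcon.2) (not_le.2 hcon.1)
    · intro v w hvw
      by_contra hcon
      push Not at hcon
      obtain ⟨hfar, hbad⟩ := hcon
      -- no point of the branch of `ρ` on both sides
      have hboth : ∀ a y : X.C w, Bt c₀ a (X.pt w (z w)) y →
          ¬ (Bt (10 * X.e0) (X.pt w (z w)) (X.rp v w) a ∧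
            Bt (10 * X.e0) (X.pt w (z w)) (X.rp v w) y) := by
        rintro a y h ⟨h1, h2⟩
        have := h.both h1 h2
        linarith
      have hdn : ∀ y, ¬ Bt (10 * X.e0) (X.pt w (z w)) (X.rp v w) (X.pt w y) →
          dist (X.pt v y) (X.dn v w (X.pt w (z w))) ≤ 2 * X.e0 := fun y hy =>
        X.dn_of_not_bt hvw hbe _ y hy
      by_cases hx : Bt (10 * X.e0) (X.pt w (z w)) (X.rp v w) (X.pt w x)
      · have hy : ∀ y ∈ Y, dist (X.pt v y) (X.dn v w (X.pt w (z w))) ≤ 2 * X.e0 := by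
          intro y hy
          apply hdn
          intro h'
          exact hboth _ _ (hz1 w y hy) ⟨hx, h'⟩
        obtain ⟨y₁, hy₁, y₂, hy₂, hb⟩ := hz2 v
        have := hb.close (hy y₁ hy₁) (hy y₂ hy₂)
        linarith
      · have h1 := hdn x hx
        obtain ⟨y₁, hy₁, y₂, hy₂, hb⟩ := hz2 w
        have : ∃ y ∈ Y, dist (X.pt v y) (X.dn v w (X.pt w (z w))) ≤ 2 * X.e0 := by
          by_cases h2 : Bt (10 * X.e0) (X.pt w (z w)) (X.rp v w) (X.pt w y₁)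
          · refine ⟨y₂, hy₂, hdn _ ?_⟩
            intro h3
            exact hboth _ _ hb ⟨h2, h3⟩
          · exact ⟨y₁, hy₁, hdn _ h2⟩
        obtain ⟨y, hy, h2⟩ := this
        have := (hz1 v y hy).close h1 h2
        linarith
  obtain ⟨g, hg⟩ := hθ _ hcons
  have hg' : ∀ w, dist (X.pt w (z w)) (X.pt w g) ≤ |θ| := fun w => by
    rw [dist_comm]
    exact (hg w).trans (le_abs_self _)
  refine ⟨g, fun w => ⟨fun y hy => (hz1 w y hy).near_mid (hg' w), ?_⟩⟩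
  obtain ⟨y₁, hy₁, y₂, hy₂, hb⟩ := hz2 w
  exact ⟨y₁, hy₁, y₂, hy₂, hb.near_mid (hg' w)⟩

end HHG

end Pool.Agent.H898.HH
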