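import Pool.Agent.H898.HH.Ball

/-!
# The coarse Helly property
-/

set_option autoImplicit false

namespace Pool.Agent.H898.HH

/-- a point between `v₁` and `v₂` is between one of them and `v` -/
theorem bt_or {P : Type} [MetricSpace P] {δ : ℝ} (hδ : Hyp P δ) {c : ℝ} {v₁ g v₂ : P} (v : P)
    (h : Bt c v₁ g v₂) : Bt (c + 2 * δ) v₁ g v ∨ Bt (c + 2 * δ) v₂ g v := by
  have h4 := hδ g v v₁ v₂
  unfold Bt at *
  rw [dist_comm g v₁, dist_comm v v₁, dist_comm v v₂] at h4
  rcases le_total (dist v₁ g + dist v₂ v) (dist g v₂ + dist v₁ v) with h5 | h5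
  · rw [max_eq_right h5] at h4
    left
    linarith
  · rw [max_eq_left h5] at h4
    right
    rw [dist_comm v₂ g]
    linarith

namespace HHG

variable {G : Type} [Group G] (X : HHG G)

/-- the coarse Helly property for hulls -/
theorem helly : ∃ c : ℝ, ∀ (I : Type) (B : I → Set G), Nonempty I →
    (∀ i j, (B i ∩ B j).Nonempty) →
    (∃ i R, ∀ v ∈ B i, ∀ w, dist (X.pt w 1) (X.pt w v) ≤ R) →
    ∃ z, ∀ i w, ∃ v₁ ∈ B i, ∃ v₂ ∈ B i, Bt c (X.pt w v₁) (X.pt w z) (X.pt w v₂) := by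
  classical
  obtain ⟨cg, hgate⟩ := X.exists_gate
  set c₁ : ℝ := |cg| with hc₁
  have hc1 : 0 ≤ c₁ := abs_nonneg _
  set c₂ : ℝ := 3 * c₁ + 4 * |X.hhs.δ| + 2 with hc₂
  have hδ0 : 0 ≤ |X.hhs.δ| := abs_nonneg _
  have hδ1 := le_abs_self X.hhs.δ
  have hc2 : 0 ≤ c₂ := by linarith
  have he0 : 0 ≤ X.e0 := by
    unfold e0; positivity
  set k := 30 * (X.e0 + c₂) with hk
  have hbk : X.BigK k := X.bigK_e0 (by linarith)
  have hbe : X.BigK X.e0 := X.bigK_e0 le_rfl
  obtain ⟨θ, hθ⟩ := realization hbk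
  refine ⟨c₂ + 2 * |θ|, fun I B _ hB hR => ?_⟩
  obtain ⟨i₀, R, hR⟩ := hR
  -- the gates of `1`
  have hne : ∀ i, (B i).Nonempty := fun i => (hB i i).mono Set.inter_subset_left
  choose g hg using fun i => hgate 1 (B i) (hne i)
  have hg1 : ∀ i w, ∀ v ∈ B i, Bt c₁ (X.pt w 1) (X.pt w (g i)) (X.pt w v) := fun i w v hv =>
    ((hg i w).1 v hv).mono (le_abs_self _)
  have hg2 : ∀ i w, ∃ v₁ ∈ B i, ∃ v₂ ∈ B i, Bt c₁ (X.pt w v₁) (X.pt w (g i)) (X.pt w v₂) := by
    intro i w
    obtain ⟨v₁, h1, v₂, h2, h3⟩ := (hg i w).2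
    exact ⟨v₁, h1, v₂, h2, h3.mono (le_abs_self _)⟩
  -- the farthest gates
  have hj : ∀ w, ∃ j, ∀ i, dist (X.pt w 1) (X.pt w (g i)) ≤ dist (X.pt w 1) (X.pt w (g j)) + 1 := by
    intro w
    have hbdd : BddAbove (Set.range fun i => dist (X.pt w 1) (X.pt w (g i))) := by
      refine ⟨R + c₁, ?_⟩
      rintro _ ⟨i, rfl⟩
      obtain ⟨v, hv1, hv2⟩ := hB i i₀
      have h1 := hg1 i w v hv1
      have h2 := hR v hv2 w
      unfold Bt at h1
      have := dist_nonneg (x := X.pt w (g i)) (y := X.pt w v)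
      simp only
      linarith
    obtain ⟨_, ⟨j, rfl⟩, hj⟩ := exists_lt_of_lt_csSup (Set.range_nonempty _)
      (sub_one_lt (sSup (Set.range fun i => dist (X.pt w 1) (X.pt w (g i)))))
    refine ⟨j, fun i => ?_⟩
    have := le_csSup hbdd ⟨i, rfl⟩
    simp only at this hj
    linarith
  choose j hj using hj
  -- the two properties of the coordinates
  have F2 : ∀ w, ∀ v ∈ B (j w), Bt c₁ (X.pt w 1) (X.pt w (g (j w))) (X.pt w v) := fun w v hv =>
    hg1 _ w v hv
  have F1 : ∀ i w, ∃ v₁ ∈ B i, ∃ v₂ ∈ B i,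
      Bt c₂ (X.pt w v₁) (X.pt w (g (j w))) (X.pt w v₂) := by
    intro i w
    obtain ⟨v, hv1, hv2⟩ := hB i (j w)
    have h1 := hg1 i w v hv1
    have h2 := hg1 (j w) w v hv2
    have h3 := bt_of_le (X.hyp w) zero_le_one h1 h2 (hj w i)
    obtain ⟨v₁, a1, v₂, a2, a3⟩ := hg2 i w
    rcases bt_or (X.hyp w) (X.pt w v) a3 with a4 | a4
    · exact ⟨v₁, a1, v, hv1, (a4.trans_right h3).mono (by linarith)⟩
    · exact ⟨v₂, a2, v, hv1, (a4.trans_right h3).mono (by linarith)⟩
  -- consistency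
  have hcons : X.Cons (fun w => X.pt w (g (j w))) k := by
    refine ⟨?_, ?_, fun w => X.isCoord_pt _ _⟩
    · intro u w huw
      have key : ∀ u w, Trans X.hhs.nest X.hhs.orth u w → dist (X.pt w 1) (X.rp u w) ≤ X.k1 →
          k < dist (X.pt w (g (j w))) (X.rp u w) → dist (X.pt u (g (j u))) (X.rp w u) ≤ k := by
        intro u w huw hx hfar
        by_contra hcon
        push Not at hcon
        have hk1 := hbe.hk1
        obtain ⟨y₁, hy₁, y₂, hy₂, hb⟩ := F1 (j w) u
        have hfar' : ∀ y ∈ B (j w), ¬ dist (X.pt w y) (X.rp u w) ≤ X.k1 := by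
          intro y hy h'
          have := (F2 w y hy).close (hx.trans hk1) (h'.trans hk1)
          linarith
        have hnear : ∀ y ∈ B (j w), dist (X.pt u y) (X.rp w u) ≤ X.e0 := by
          intro y hy
          rcases X.cons_trans huw y with h' | h'
          · exact absurd h' (hfar' y hy)
          · exact h'.trans hk1
        have := hb.close (hnear y₁ hy₁) (hnear y₂ hy₂)
        linarith
      by_contra hcon
      push Not at hcon
      rcases X.cons_trans huw 1 with hx | hx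
      · exact absurd (key u w huw hx hcon.1) (not_le.2 hcon.2)
      · exact absurd (key w u (X.trans_symm huw) hx hcon.2) (not_le.2 hcon.1)
    · intro v w hvw
      by_contra hcon
      push Not at hcon
      obtain ⟨hfar, hbad⟩ := hcon
      -- no point of the branch of `ρ` on both sides
      have hboth : ∀ a y : X.C w, Bt c₂ a (X.pt w (g (j w))) y →
          ¬ (Bt (10 * X.e0) (X.pt w (g (j w))) (X.rp v w) a ∧
            Bt (10 * X.e0) (X.pt w (g (j w))) (X.rp v w) y) := by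
        rintro a y h ⟨h1, h2⟩
        have := h.both h1 h2
        linarith
      have hdn : ∀ y, ¬ Bt (10 * X.e0) (X.pt w (g (j w))) (X.rp v w) (X.pt w y) →
          dist (X.pt v y) (X.dn v w (X.pt w (g (j w)))) ≤ 2 * X.e0 := fun y hy =>
        X.dn_of_not_bt hvw hbe _ y hy
      by_cases hx : Bt (10 * X.e0) (X.pt w (g (j w))) (X.rp v w) (X.pt w 1)
      · have hy : ∀ y ∈ B (j w), dist (X.pt v y) (X.dn v w (X.pt w (g (j w)))) ≤ 2 * X.e0 := by
          intro y hy
          apply hdn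
          intro h'
          exact hboth _ _ ((F2 w y hy).mono (by linarith)) ⟨hx, h'⟩
        obtain ⟨y₁, hy₁, y₂, hy₂, hb⟩ := F1 (j w) v
        have := hb.close (hy y₁ hy₁) (hy y₂ hy₂)
        linarith
      · have h1 := hdn 1 hx
        obtain ⟨y₁, hy₁, y₂, hy₂, hb⟩ := F1 (j v) w
        have : ∃ y ∈ B (j v), dist (X.pt v y) (X.dn v w (X.pt w (g (j w)))) ≤ 2 * X.e0 := by
          by_cases h2 : Bt (10 * X.e0) (X.pt w (g (j w))) (X.rp v w) (X.pt w y₁)
          · refine ⟨y₂, hy₂, hdn _ ?_⟩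
            intro h3
            exact hboth _ _ hb ⟨h2, h3⟩
          · exact ⟨y₁, hy₁, hdn _ h2⟩
        obtain ⟨y, hy, h2⟩ := this
        have := (F2 v y hy).close h1 h2
        linarith
  obtain ⟨z, hz⟩ := hθ _ hcons
  have hz' : ∀ w, dist (X.pt w (g (j w))) (X.pt w z) ≤ |θ| := fun w => by
    rw [dist_comm]
    exact (hz w).trans (le_abs_self _)
  refine ⟨z, fun i w => ?_⟩
  obtain ⟨y₁, hy₁, y₂, hy₂, hb⟩ := F1 i w
  exact ⟨y₁, hy₁, y₂, hy₂, hb.near_mid (hz' w)⟩

/-- the coarse Helly property of the chain metric, in terms of functions -/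
theorem helly_sig : ∃ m K : ℝ, X.e1 < m ∧ 0 ≤ K ∧
    (∀ x y : G, ∀ r : ℝ, 0 ≤ r → r ≤ X.sig m x y → ∃ z, X.sig m x z ≤ r + K ∧
      X.sig m z y ≤ X.sig m x y - r + K) ∧
    ∀ f : G → ℝ, (∀ x y, X.sig m x y ≤ f x + f y) → ∃ z, ∀ x, X.sig m x z ≤ f x + K := by
  obtain ⟨cg, hgate⟩ := X.exists_gate
  obtain ⟨ch, hh⟩ := X.helly
  have q1 := X.qe_nonneg cg
  have q2 := X.qe_nonneg ch
  have e0 : 0 ≤ X.e1 := by unfold e1; positivity
  set m : ℝ := X.e1 + 3 * X.qe cg + X.qe ch + 2 with hm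
  have hm1 : X.e1 < m := by linarith
  have hm2 : 3 * X.qe cg + 1 < m := by linarith
  have hm3 : X.qe ch < m := by linarith
  have hm0 : 0 < m := by linarith
  have hrough : ∀ x y : G, ∀ r : ℝ, 0 ≤ r → r ≤ X.sig m x y → ∃ z, X.sig m x z ≤ r + 10 * m ∧
      X.sig m z y ≤ X.sig m x y - r + 10 * m := fun x y r h1 h2 =>
    rough hgate hm1 hm2 h1 h2
  refine ⟨m, 12 * m, hm1, by linarith, ?_, ?_⟩
  · intro x y r h1 h2
    obtain ⟨z, h3, h4⟩ := hrough x y r h1 h2
    exact ⟨z, by linarith, by linarith⟩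
  · intro f hf
    have hf0 : ∀ x, 0 ≤ f x := by
      intro x
      have := hf x x
      rw [sig_self hm1] at this
      linarith
    obtain ⟨z, hz⟩ := hh G (fun x => {v | X.sig m x v ≤ f x + 10 * m}) ⟨1⟩ (by
      intro x y
      rcases le_total (f x) (X.sig m x y) with h1 | h1
      · obtain ⟨z, h3, h4⟩ := hrough x y (f x) (hf0 x) h1
        refine ⟨z, h3, ?_⟩
        show X.sig m y z ≤ _
        rw [sig_comm hm1]
        have := hf x y
        linarith
      · refine ⟨y, ?_, ?_⟩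
        · show X.sig m x y ≤ _
          linarith
        · show X.sig m y y ≤ _
          rw [sig_self hm1]
          have := hf0 y
          linarith) ⟨1, max m (f 1 + 10 * m), by
      intro v hv w
      refine (dist_le_sig hm1 w 1 v).trans ?_
      exact max_le_max le_rfl hv⟩
    refine ⟨z, fun x => ?_⟩
    have := ball_hull hm1 (x := x) (z := z) (r := f x + 10 * m) hm3 (by
      intro w
      obtain ⟨v₁, h1, v₂, h2, h3⟩ := hz x w
      exact ⟨v₁, v₂, h1, h2, h3⟩) (by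
      have := hf0 x
      linarith)
    linarith

end HHG

end Pool.Agent.H898.HH
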