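import Pool.Agent.H898.HH.Orbits

/-!
# Coarse betweenness in hyperbolic spaces
-/

set_option autoImplicit false

namespace Pool.Agent.H898.HH

/-- the four point condition -/
def Hyp (P : Type) [MetricSpace P] (δ : ℝ) : Prop := ∀ x y z w : P,
  dist x y + dist z w ≤ max (dist x z + dist y w) (dist x w + dist y z) + 2 * δ

/-- `x` is between `a` and `b`, up to `c` -/
def Bt {P : Type} [MetricSpace P] (c : ℝ) (a x b : P) : Prop :=
  dist a x + dist x b ≤ dist a b + c

/-- the position of `x` on the way from `a` to `b` -/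
noncomputable def gp {P : Type} [MetricSpace P] (a b x : P) : ℝ :=
  (dist a x + dist a b - dist b x) / 2

section

variable {P : Type} [MetricSpace P] {δ : ℝ}

theorem Bt.symm {c : ℝ} {a x b : P} (h : Bt c a x b) : Bt c b x a := by
  unfold Bt at *
  rw [dist_comm b x, dist_comm x a, dist_comm b a]
  linarith

theorem Bt.mono {c c' : ℝ} {a x b : P} (h : Bt c a x b) (hc : c ≤ c') : Bt c' a x b := by
  unfold Bt at *
  linarith

theorem Bt.near {c e : ℝ} {a x b a' x' b' : P} (h : Bt c a x b) (h1 : dist a a' ≤ e)
    (h2 : dist x x' ≤ e) (h3 : dist b b' ≤ e) : Bt (c + 6 * e) a' x' b' := by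
  unfold Bt at *
  have t1 := dist_triangle4 a' a x x'
  have t2 := dist_triangle4 x' x b b'
  have t3 := dist_triangle4 a a' b' b
  rw [dist_comm a' a] at t1
  rw [dist_comm x' x] at t2
  rw [dist_comm b' b] at t3
  linarith

theorem Bt.near_mid {c e : ℝ} {a x b x' : P} (h : Bt c a x b) (h2 : dist x x' ≤ e) :
    Bt (c + 2 * e) a x' b := by
  unfold Bt at *
  have t1 := dist_triangle a x x'
  have t2 := dist_triangle x' x b
  rw [dist_comm x' x] at t2
  linarith

theorem Bt.trans_right {c c' : ℝ} {a r g y : P} (h : Bt c a r y) (h' : Bt c' r g y) :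
    Bt (c + c') a g y := by
  unfold Bt at *
  have t1 := dist_triangle a r g
  linarith

theorem Bt.trans_mid {c c' : ℝ} {a r g y : P} (h : Bt c a r y) (h' : Bt c' r g y) :
    Bt (c + c') a r g := by
  unfold Bt at *
  have t1 := dist_triangle a g y
  linarith

/-- a point between two points close to `r` is close to `r` -/
theorem Bt.close {c e : ℝ} {a x b r : P} (h : Bt c a x b) (ha : dist a r ≤ e)
    (hb : dist b r ≤ e) : dist x r ≤ 2 * e + c / 2 := by
  unfold Bt at h
  have t1 := dist_triangle x a r
  have t2 := dist_triangle x b r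
  have t3 := dist_triangle a r b
  rw [dist_comm r b] at t3
  rw [dist_comm x a] at t1
  linarith

/-- the centre is close to a point which lies on both branches -/
theorem Bt.both {c c' : ℝ} {a b r y : P} (h : Bt c a b y) (h1 : Bt c' b r a) (h2 : Bt c' b r y) :
    dist b r ≤ c / 2 + c' := by
  unfold Bt at *
  have t := dist_triangle a r y
  rw [dist_comm r a] at h1
  rw [dist_comm b a] at h1
  linarith

theorem bt_of_close {e : ℝ} {a x b : P} (h : dist x b ≤ e) : Bt (2 * e) a x b := by
  unfold Bt
  have t := dist_triangle a b x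
  rw [dist_comm b x] at t
  linarith

theorem gp_lip (a b x y : P) : |gp a b x - gp a b y| ≤ dist x y := by
  unfold gp
  have t1 := dist_triangle a y x
  have t2 := dist_triangle a x y
  have t3 := dist_triangle b y x
  have t4 := dist_triangle b x y
  rw [dist_comm y x] at t1 t3
  rw [abs_le]
  constructor <;> linarith

theorem gp_nonneg (a b x : P) : 0 ≤ gp a b x := by
  unfold gp
  have := dist_triangle b a x
  rw [dist_comm b a] at this
  linarith

theorem gp_swap (a b x : P) : gp b a x = dist a b - gp a b x := by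
  unfold gp
  rw [dist_comm b a]
  ring

theorem gp_le (a b x : P) : gp a b x ≤ dist a b := by
  have := gp_nonneg b a x
  rw [gp_swap] at this
  linarith

theorem gp_left (a b : P) : gp a b a = 0 := by
  unfold gp
  rw [dist_self, dist_comm b a]
  ring

theorem gp_right (a b : P) : gp a b b = dist a b := by
  unfold gp
  rw [dist_self]
  ring

variable (hδ : Hyp P δ)
include hδ

/-- the position is quasiconvex -/
theorem gp_max {c : ℝ} {y z w : P} (a b : P) (h : Bt c y z w) :
    gp a b z ≤ max (gp a b y) (gp a b w) + (c / 2 + δ) := by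
  have h4 := hδ a z y w
  unfold Bt at h
  rcases le_total (dist a y + dist z w) (dist a w + dist z y) with h5 | h5
  · rw [max_eq_right h5] at h4
    refine le_trans ?_ (add_le_add_left (le_max_right _ _) _)
    unfold gp
    have t := dist_triangle b z w
    rw [dist_comm z y] at h4
    linarith
  · rw [max_eq_left h5] at h4
    refine le_trans ?_ (add_le_add_left (le_max_left _ _) _)
    unfold gp
    have t := dist_triangle b z y
    rw [dist_comm z y] at t
    linarith

theorem gp_min {c : ℝ} {y z w : P} (a b : P) (h : Bt c y z w) :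
    min (gp a b y) (gp a b w) ≤ gp a b z + (c / 2 + δ) := by
  have h1 := gp_max hδ b a h
  simp only [gp_swap a b] at h1
  rcases le_total (gp a b y) (gp a b w) with h2 | h2
  · rw [min_eq_left h2]
    rw [max_eq_left (by linarith)] at h1
    linarith
  · rw [min_eq_right h2]
    rw [max_eq_right (by linarith)] at h1
    linarith

/-- two points between `a` and `y` at about the same distance of `a` are close -/
theorem close_of_bt {c e : ℝ} {a b b' y : P} (h : Bt c a b y) (h' : Bt c a b' y)
    (hd : |dist a b - dist a b'| ≤ e) : dist b b' ≤ e + c + 2 * δ := by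
  have h4 := hδ b b' a y
  unfold Bt at h h'
  rw [abs_le] at hd
  rw [dist_comm b a, dist_comm b' a] at h4
  rcases le_total (dist a b + dist b' y) (dist b y + dist a b') with h5 | h5
  · rw [max_eq_right h5] at h4
    linarith [hd.1, hd.2]
  · rw [max_eq_left h5] at h4
    linarith [hd.1, hd.2]

/-- if `b` is at most as far from `a` as `b'`, and both are between `a` and `y`, then `b'` is
between `b` and `y` -/
theorem bt_of_le {c e : ℝ} (he : 0 ≤ e) {a b b' y : P} (h : Bt c a b y) (h' : Bt c a b' y)
    (hd : dist a b ≤ dist a b' + e) : Bt (2 * e + 2 * c + 2 * δ) b b' y := by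
  have h4 := hδ b b' a y
  unfold Bt at *
  rw [dist_comm b a, dist_comm b' a] at h4
  have tc : 0 ≤ c := by
    have := dist_triangle a b y
    linarith
  rcases le_total (dist a b + dist b' y) (dist b y + dist a b') with h5 | h5
  · rw [max_eq_right h5] at h4
    linarith
  · rw [max_eq_left h5] at h4
    have t := dist_triangle a b y
    linarith

/-- the projection to a set, for the betweenness relation -/
theorem exists_proj {I : Type} [Nonempty I] (f : I → P) (a : P) (Q : P → Prop)
    (hg : ∀ i, ∀ t : ℝ, 0 ≤ t → t ≤ dist a (f i) → ∃ b : P, Q b ∧ dist a b = t ∧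
    dist b (f i) = dist a (f i) - t) :
    ∃ b : P, Q b ∧ (∀ i, Bt (2 + 2 * δ) a b (f i)) ∧
      ∃ i j, Bt (2 + 2 * δ) (f i) b (f j) := by
  have hne : (Set.range (fun p : I × I => gp a (f p.1) (f p.2))).Nonempty :=
    ⟨_, ⟨(Classical.arbitrary I, Classical.arbitrary I), rfl⟩⟩
  obtain ⟨_, ⟨⟨i, j⟩, rfl⟩, hij⟩ := exists_lt_of_csInf_lt hne
    (lt_add_one (sInf (Set.range (fun p : I × I => gp a (f p.1) (f p.2)))))
  have hbdd : BddBelow (Set.range (fun p : I × I => gp a (f p.1) (f p.2))) :=
    ⟨0, by rintro _ ⟨p, rfl⟩; exact gp_nonneg _ _ _⟩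
  simp only at hij
  set t := gp a (f i) (f j) with ht
  have hall : ∀ k, t - 1 ≤ gp a (f i) (f k) := by
    intro k
    have := csInf_le hbdd ⟨(i, k), rfl⟩
    simp only at this
    linarith
  obtain ⟨b, hQ, hb1, hb2⟩ := hg i t (gp_nonneg _ _ _) (gp_le _ _ _)
  have δ0 : 0 ≤ δ := by
    have := hδ a a a a
    rw [dist_self, max_self] at this
    linarith
  have h1 : ∀ k, Bt (2 + 2 * δ) a b (f k) := by
    intro k
    have h4 := hδ b (f k) a (f i)
    have h5 := hall k
    unfold Bt
    unfold gp at h5
    rw [dist_comm b a, dist_comm (f k) a, dist_comm (f k) (f i)] at h4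
    rcases le_total (dist a b + dist (f i) (f k)) (dist b (f i) + dist a (f k)) with h6 | h6
    · rw [max_eq_right h6] at h4
      linarith
    · rw [max_eq_left h6] at h4
      linarith
  refine ⟨b, hQ, h1, i, j, ?_⟩
  have h2 := h1 j
  unfold Bt at *
  rw [dist_comm (f i) b]
  have h3 : t = (dist a (f j) + dist a (f i) - dist (f i) (f j)) / 2 := rfl
  linarith

/-- uniqueness of projections -/
theorem proj_unique {c : ℝ} {I : Type} {f : I → P} {a b b' : P} (h1 : ∀ i, Bt c a b (f i))
    (h2 : ∃ i j, Bt c (f i) b (f j)) (h1' : ∀ i, Bt c a b' (f i))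
    (h2' : ∃ i j, Bt c (f i) b' (f j)) : dist b b' ≤ 5 * c / 2 + 2 * δ := by
  have key : ∀ b b' : P, (∃ i j, Bt c (f i) b (f j)) → (∀ i, Bt c a b' (f i)) →
      dist a b' ≤ dist a b + 3 * c / 2 := by
    rintro b b' ⟨i, j, h⟩ h'
    have e1 := h' i
    have e2 := h' j
    unfold Bt at h e1 e2
    have t1 := dist_triangle (f i) b' (f j)
    have t2 := dist_triangle a b (f i)
    have t3 := dist_triangle a b (f j)
    rw [dist_comm (f i) b'] at t1
    rw [dist_comm (f i) b] at h
    linarith
  have k1 := key b b' h2 h1'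
  have k2 := key b' b h2' h1
  obtain ⟨i, _⟩ := h2
  have := close_of_bt hδ (h1 i) (h1' i) (e := 3 * c / 2) (by rw [abs_le]; constructor <;> linarith)
  linarith

end

end Pool.Agent.H898.HH
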