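import Pool.Agent.H898.HH.Point

/-!
# Levels of domains
-/

set_option autoImplicit false

namespace Pool.Agent.H898.HH

namespace HHG

variable {G : Type} [Group G] (X : HHG G)

/-- chains below `u` have at most `n` elements -/
def LevLE (u : X.hhs.Idx) (n : ℕ) : Prop :=
  ∀ F : Finset X.hhs.Idx, (∀ a ∈ F, X.hhs.nest a u) →
    (∀ a ∈ F, ∀ b ∈ F, X.hhs.nest a b ∨ X.hhs.nest b a) → F.card ≤ n

theorem not_levLE_zero (u : X.hhs.Idx) : ¬ X.LevLE u 0 := by
  intro h
  have := h {u} (by simp [X.hhs.nest_refl]) (by simp [X.hhs.nest_refl])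
  simp at this

theorem levLE_of_pnest {u v : X.hhs.Idx} {n : ℕ} (h : PNest X.hhs.nest u v)
    (hv : X.LevLE v (n + 1)) : X.LevLE u n := by
  classical
  intro F h1 h2
  have hvF : v ∉ F := fun hF => h.2 (X.hhs.nest_antisymm _ _ h.1 (h1 v hF))
  have := hv (insert v F) (by
      intro a ha
      rcases Finset.mem_insert.1 ha with rfl | ha
      · exact X.hhs.nest_refl _
      · exact X.hhs.nest_trans _ _ _ (h1 a ha) h.1) (by
      intro a ha b hb
      rcases Finset.mem_insert.1 ha with ha | ha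
      · rcases Finset.mem_insert.1 hb with hb | hb
        · rw [ha, hb]; exact Or.inl (X.hhs.nest_refl _)
        · rw [ha]; exact Or.inr (X.hhs.nest_trans _ _ _ (h1 b hb) h.1)
      · rcases Finset.mem_insert.1 hb with hb | hb
        · rw [hb]; exact Or.inl (X.hhs.nest_trans _ _ _ (h1 a ha) h.1)
        · exact h2 a ha b hb)
  rw [Finset.card_insert_of_notMem hvF] at this
  omega

/-- the complexity -/
noncomputable def cpl : ℕ := X.hhs.complexity.choose

theorem cpl_spec (F : Finset X.hhs.Idx) (h : ∀ a ∈ F, ∀ b ∈ F, X.hhs.nest a b ∨ X.hhs.nest b a) :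
    F.card ≤ X.cpl := X.hhs.complexity.choose_spec F h

theorem levLE_cpl (u : X.hhs.Idx) : X.LevLE u X.cpl := fun F _ h => X.cpl_spec F h

open Classical in
/-- the level -/
noncomputable def lev (u : X.hhs.Idx) : ℕ := Nat.find (⟨_, X.levLE_cpl u⟩ : ∃ n, X.LevLE u n)

theorem lev_spec (u : X.hhs.Idx) : X.LevLE u (X.lev u) := by
  classical
  exact Nat.find_spec (⟨_, X.levLE_cpl u⟩ : ∃ n, X.LevLE u n)

theorem lev_le {u : X.hhs.Idx} {n : ℕ} (h : X.LevLE u n) : X.lev u ≤ n := by
  classical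
  exact Nat.find_min' _ h

theorem lev_le_cpl (u : X.hhs.Idx) : X.lev u ≤ X.cpl := X.lev_le (X.levLE_cpl u)

theorem lev_pos (u : X.hhs.Idx) : 0 < X.lev u := by
  rcases Nat.eq_zero_or_pos (X.lev u) with h | h
  · have := X.lev_spec u
    rw [h] at this
    exact absurd this (X.not_levLE_zero u)
  · exact h

theorem lev_lt {u v : X.hhs.Idx} (h : PNest X.hhs.nest u v) : X.lev u < X.lev v := by
  have h1 := X.lev_spec v
  obtain ⟨m, hm⟩ := Nat.exists_eq_succ_of_ne_zero (X.lev_pos v).ne'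
  rw [hm] at h1
  have := X.lev_le (X.levLE_of_pnest h h1)
  omega

/-- pairwise orthogonal families are bounded by the level -/
theorem card_orth : ∀ (n : ℕ) (R : X.hhs.Idx), X.LevLE R n → ∀ J : Finset X.hhs.Idx,
    (∀ u ∈ J, X.hhs.nest u R) → (∀ u ∈ J, ∀ v ∈ J, u ≠ v → X.hhs.orth u v) → J.card ≤ n := by
  classical
  intro n
  induction n with
  | zero => intro R hR; exact absurd hR (X.not_levLE_zero R)
  | succ n ih =>
    intro R hR J hJ hJ2
    rcases J.eq_empty_or_nonempty with rfl | ⟨u, hu⟩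
    · simp
    rcases (J.erase u).eq_empty_or_nonempty with he | ⟨v, hv⟩
    · have := Finset.card_erase_add_one hu
      rw [he] at this
      simp at this
      omega
    · have hv' := Finset.mem_erase.1 hv
      obtain ⟨w, hw, hw2⟩ := X.hhs.container R u (hJ u hu)
        ⟨v, hJ v hv'.2, hJ2 v hv'.2 u hu hv'.1⟩
      have h1 := ih w (X.levLE_of_pnest hw hR) (J.erase u) (by
        intro a ha
        have ha' := Finset.mem_erase.1 ha
        exact hw2 a (hJ2 a ha'.2 u hu ha'.1) (hJ a ha'.2)) (by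
        intro a ha b hb hab
        exact hJ2 a (Finset.mem_of_mem_erase ha) b (Finset.mem_of_mem_erase hb) hab)
      have := Finset.card_erase_add_one hu
      omega

theorem card_orth' (J : Finset X.hhs.Idx) (h : ∀ u ∈ J, ∀ v ∈ J, u ≠ v → X.hhs.orth u v) :
    J.card ≤ X.cpl := by
  rcases J.eq_empty_or_nonempty with rfl | ⟨u, hu⟩
  · simp
  rcases X.hhs.nest_top with h1 | ⟨s, hs⟩
  · exact (h1.false u).elim
  · exact X.card_orth _ s (X.levLE_cpl s) J (fun v _ => hs v) h

/-- maximal elements above elements of a set -/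
theorem exists_max (P : X.hhs.Idx → Prop) {u : X.hhs.Idx} (hu : P u) :
    ∃ v, X.hhs.nest u v ∧ P v ∧ ∀ w, PNest X.hhs.nest v w → ¬ P w := by
  by_contra hcon
  push Not at hcon
  have key : ∀ k : ℕ, ∃ v, X.hhs.nest u v ∧ P v ∧ k ≤ X.lev v := by
    intro k
    induction k with
    | zero => exact ⟨u, X.hhs.nest_refl u, hu, Nat.zero_le _⟩
    | succ k ih =>
      obtain ⟨v, h1, h2, h3⟩ := ih
      obtain ⟨w, hw, hw2⟩ := hcon v h1 h2
      have := X.lev_lt hw
      exact ⟨w, X.hhs.nest_trans _ _ _ h1 hw.1, hw2, by omega⟩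
  obtain ⟨v, _, _, h3⟩ := key (X.cpl + 1)
  have := X.lev_le_cpl v
  omega

end HHG

end Pool.Agent.H898.HH
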