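import Pool.Agent.H898.HH.Line

/-!
# Minimal unbounded quasi-lines are detected
-/

set_option autoImplicit false

namespace Pool.Agent.H898.HH

namespace HHG

variable {G : Type} [Group G] (X : HHG G)

theorem lin_displacement {v : X.hhs.Idx} (hv : X.MinUnb v) (hl : X.Lin v) :
    ∃ C : ℝ, ∀ D : ℝ, ∃ z ∈ X.stab v,
      (∀ u, X.hhs.orth u v → ∀ y, dist (X.pt u y) (X.pt u (z * y)) ≤ C) ∧
      ∃ y, D < dist (X.pt v y) (X.pt v (z * y)) := by
  classical
  obtain ⟨φ, c, hφ'⟩ := hl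
  have hφ : ∀ x y, abs (dist (X.pt v x) (X.pt v y) - |φ x - φ y|) ≤ c := fun x y =>
    hφ' x y _ (X.pt_mem v x) _ (X.pt_mem v y)
  have hφ1 : ∀ x y, dist (X.pt v x) (X.pt v y) ≤ |φ x - φ y| + c := fun x y => by
    linarith [(abs_le.1 (hφ x y)).2]
  have hφ2 : ∀ x y, |φ x - φ y| ≤ dist (X.pt v x) (X.pt v y) + c := fun x y => by
    linarith [(abs_le.1 (hφ x y)).1]
  have hc0 : 0 ≤ c := (abs_nonneg _).trans (hφ 1 1)
  have hξ0 : 0 ≤ X.hhs.ξ := X.xi_nonneg v
  have hK0 : 0 ≤ |X.hhs.K| := abs_nonneg _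
  obtain ⟨B, hB0, hB⟩ := exists_bound X
  obtain ⟨θ, hθ0, hθ⟩ := X.prod_region
  obtain ⟨x0, hx0⟩ := X.exists_inP v
  have ha10 : 0 ≤ X.a1 := by
    obtain ⟨z, hz⟩ := X.partial_real {v} (by
      intro u hu v' hv' huv
      rw [Set.mem_singleton_iff] at hu hv'
      exact absurd (hu.trans hv'.symm) huv) (fun w => X.pt w 1) (fun w _ => X.isCoord_pt w 1)
    exact dist_nonneg.trans (hz v rfl).1
  -- the signs
  set c3 := 2 * c + 2 * X.hhs.ξ with hc3
  set c4 := 4 * c3 with hc4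
  have hc30 : 0 ≤ c3 := by linarith
  have hiso : ∀ h ∈ X.stab v, ∀ x y, |(|φ (h * x) - φ (h * y)| - |φ x - φ y|)| ≤ c3 := by
    intro h hh x y
    have h1 := X.dist_stab hh x y
    have h2 := X.dist_stab ((X.stab v).inv_mem hh) (h * x) (h * y)
    rw [inv_mul_cancel_left, inv_mul_cancel_left] at h2
    have h3 := hφ1 x y
    have h4 := hφ2 x y
    have h5 := hφ1 (h * x) (h * y)
    have h6 := hφ2 (h * x) (h * y)
    rw [abs_le]
    constructor <;> linarith
  have hφunb : ∀ D : ℝ, ∃ y, D < |φ y - φ 1| := by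
    intro D
    obtain ⟨y, hy, _⟩ := X.exists_step hv.1 1 (max D 0 + c) (by
      have := le_max_right D 0
      linarith)
    refine ⟨y, ?_⟩
    have h1 := hφ1 1 y
    rw [abs_sub_comm] at h1
    have := le_max_left D 0
    linarith
  obtain ⟨y0, hy0⟩ := hφunb (10 * c4 + 2 * c3)
  let Sg : ℝ → G → Prop := fun ε h => ∀ x y, |(φ (h * x) - φ (h * y)) - ε * (φ x - φ y)| ≤ c4
  have sg_ex : ∀ h ∈ X.stab v, ∃ ε : ℝ, (ε = 1 ∨ ε = -1) ∧ Sg ε h := by
    intro h hh
    exact coarse_affine (φ := φ) (ψ := fun x => φ (h * x)) (hiso h hh) (x0 := 1) (y0 := y0)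
      (by linarith)
  have sg_uniq : ∀ (t : ℝ) (ε ε' : ℝ), (ε = 1 ∨ ε = -1) → (ε' = 1 ∨ ε' = -1) →
      |t - ε * (φ y0 - φ 1)| ≤ 2 * c4 → |t - ε' * (φ y0 - φ 1)| ≤ 2 * c4 → ε = ε' := by
    intro t ε ε' hε hε' h1 h2
    have h3 : |(ε - ε') * (φ y0 - φ 1)| ≤ 4 * c4 := by
      have e : (ε - ε') * (φ y0 - φ 1) = (t - ε' * (φ y0 - φ 1)) - (t - ε * (φ y0 - φ 1)) := by
        ring
      rw [e]
      exact (abs_sub _ _).trans (by linarith)
    rw [abs_mul] at h3
    rcases hε with rfl | rfl <;> rcases hε' with rfl | rfl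
    · rfl
    · exfalso
      have : |(1 : ℝ) - -1| = 2 := by norm_num
      rw [this] at h3
      linarith
    · exfalso
      have : |(-1 : ℝ) - 1| = 2 := by norm_num
      rw [this] at h3
      linarith
    · rfl
  have abs_one : ∀ ε : ℝ, (ε = 1 ∨ ε = -1) → ε * ε = 1 ∧ |ε| = 1 := by
    intro ε hε
    rcases hε with rfl | rfl <;> norm_num
  have sg_mul : ∀ h h' : G, h ∈ X.stab v → h' ∈ X.stab v → ∀ ε ε' : ℝ, (ε = 1 ∨ ε = -1) →
      (ε' = 1 ∨ ε' = -1) → Sg ε h → Sg ε' h' → Sg (ε * ε') (h * h') := by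
    intro h h' hh hh' ε ε' hε hε' h1 h2
    obtain ⟨η, hη, h3⟩ := sg_ex (h * h') ((X.stab v).mul_mem hh hh')
    have h4 := h3 y0 1
    have h5 := h1 (h' * y0) (h' * 1)
    have h6 := h2 y0 1
    have h7 : |φ (h * h' * y0) - φ (h * h' * 1) - (ε * ε') * (φ y0 - φ 1)| ≤ 2 * c4 := by
      have e : φ (h * h' * y0) - φ (h * h' * 1) - (ε * ε') * (φ y0 - φ 1) =
          (φ (h * (h' * y0)) - φ (h * (h' * 1)) - ε * (φ (h' * y0) - φ (h' * 1))) +
          ε * (φ (h' * y0) - φ (h' * 1) - ε' * (φ y0 - φ 1)) := by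
        rw [mul_assoc h h' y0, mul_assoc h h' 1]
        ring
      rw [e]
      refine (abs_add_le _ _).trans ?_
      rw [abs_mul, (abs_one ε hε).2, one_mul]
      linarith
    have h8 : η = ε * ε' := by
      refine sg_uniq _ η (ε * ε') hη ?_ (h4.trans (by linarith)) h7
      rcases hε with rfl | rfl <;> rcases hε' with rfl | rfl <;> norm_num
    rw [← h8]
    exact h3
  have sg_inv : ∀ h : G, ∀ ε : ℝ, (ε = 1 ∨ ε = -1) → Sg ε h → Sg ε h⁻¹ := by
    intro h ε hε h1 x y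
    have h2 := h1 (h⁻¹ * x) (h⁻¹ * y)
    rw [mul_inv_cancel_left, mul_inv_cancel_left] at h2
    have e : φ (h⁻¹ * x) - φ (h⁻¹ * y) - ε * (φ x - φ y) =
        -(ε * (φ x - φ y - ε * (φ (h⁻¹ * x) - φ (h⁻¹ * y)))) := by
      have := (abs_one ε hε).1
      linear_combination (-(φ (h⁻¹ * x) - φ (h⁻¹ * y))) * this
    rw [e, abs_neg, abs_mul, (abs_one ε hε).2, one_mul]
    exact h2
  -- the orientation preserving subgroup
  let A : Subgroup G :=
    { carrier := {h | h ∈ X.stab v ∧ Sg 1 h}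
      one_mem' := ⟨(X.stab v).one_mem, fun x y => by
        rw [one_mul, one_mul, one_mul, sub_self, abs_zero]; linarith⟩
      mul_mem' := by
        rintro a b ⟨ha, ha'⟩ ⟨hb, hb'⟩
        refine ⟨(X.stab v).mul_mem ha hb, ?_⟩
        have := sg_mul a b ha hb 1 1 (Or.inl rfl) (Or.inl rfl) ha' hb'
        rwa [one_mul] at this
      inv_mem' := by
        rintro a ⟨ha, ha'⟩
        exact ⟨(X.stab v).inv_mem ha, sg_inv a 1 (Or.inl rfl) ha'⟩ }
  have memA : ∀ h, h ∈ A ↔ h ∈ X.stab v ∧ Sg 1 h := fun h => Iff.rfl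
  have hAs : A ≤ X.stab v := fun h hh => hh.1
  -- a reflection, if there is one
  obtain ⟨s0, hs0, hs0'⟩ : ∃ s0 ∈ X.stab v, ∀ h ∈ X.stab v, h ∉ A → Sg (-1) s0 := by
    by_cases hex : ∃ s ∈ X.stab v, s ∉ A
    · obtain ⟨s, hs, hsA⟩ := hex
      refine ⟨s, hs, fun _ _ _ => ?_⟩
      obtain ⟨ε, hε, h1⟩ := sg_ex s hs
      rcases hε with rfl | rfl
      · exact absurd ⟨hs, h1⟩ hsA
      · exact h1
    · push Not at hex
      exact ⟨1, (X.stab v).one_mem, fun h hh hA => absurd (hex h hh) hA⟩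
  have sg_neg : ∀ h ∈ X.stab v, h ∉ A → Sg (-1) h := by
    intro h hh hA
    obtain ⟨ε, hε, h1⟩ := sg_ex h hh
    rcases hε with rfl | rfl
    · exact absurd ⟨hh, h1⟩ hA
    · exact h1
  have negneg : ∀ h h' : G, h ∈ X.stab v → h' ∈ X.stab v → Sg (-1) h → Sg (-1) h' → h * h' ∈ A := by
    intro h h' hh hh' h1 h2
    refine ⟨(X.stab v).mul_mem hh hh', ?_⟩
    have := sg_mul h h' hh hh' (-1) (-1) (Or.inr rfl) (Or.inr rfl) h1 h2
    norm_num at this
    simpa using this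
  -- coboundedness
  have hAc : ∀ c : ℝ, ∃ F : Set G, F.Finite ∧ ∀ x, X.InPc c v x → ∃ h ∈ A, ∃ f ∈ F, x = h * f := by
    intro c'
    obtain ⟨F, hF, hF2⟩ := X.cobounded hv c'
    refine ⟨F ∪ (fun f => s0 * f) '' F, hF.union (hF.image _), ?_⟩
    intro x hx
    obtain ⟨h, hh, f, hf, rfl⟩ := hF2 x hx
    by_cases hhA : h ∈ A
    · exact ⟨h, hhA, f, Or.inl hf, rfl⟩
    · refine ⟨h * s0⁻¹, ?_, s0 * f, Or.inr ⟨f, hf, rfl⟩, by group⟩
      exact negneg h s0⁻¹ hh ((X.stab v).inv_mem hs0) (sg_neg h hh hhA)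
        (sg_inv s0 (-1) (Or.inr rfl) (hs0' h hh hhA))
  obtain ⟨S, hSf, hSA, hSgen⟩ := X.fg_of_cobounded v A hAc hAs
  obtain ⟨Ms, hMs⟩ := X.exists_len_bound hSf
  obtain ⟨F1, hF1, hF1'⟩ := X.cobounded hv θ
  obtain ⟨M1, hM1⟩ := X.exists_len_bound hF1
  set L1 := |X.hhs.K| * M1 + |X.hhs.K| with hL1
  have hL10 : 0 ≤ L1 := by positivity
  set C1 := L1 + θ with hC1
  -- elements which move `1` little in the orthogonal directions
  have hfar : ∀ t : ℝ, ∃ h ∈ X.stab v, (∀ u, X.hhs.orth u v → dist (X.pt u 1) (X.pt u h) ≤ C1) ∧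
      t < |φ h - φ 1| := by
    intro t
    obtain ⟨y, hy⟩ := hφunb (t + L1 + θ + c)
    obtain ⟨x, h1, h2, h3⟩ := hθ v 1 y
    obtain ⟨h, hh, f, hf, rfl⟩ := hF1' x h3
    refine ⟨h, hh, ?_, ?_⟩
    · intro u hu
      have h4 := h2 u hu
      have h5 := X.lipB u h f (hM1 f hf)
      have h6 := dist_triangle (X.pt u 1) (X.pt u (h * f)) (X.pt u h)
      rw [dist_comm (X.pt u 1) (X.pt u (h * f)), dist_comm (X.pt u (h * f)) (X.pt u h)] at h6
      linarith
    · have h4 := h1 v (X.hhs.nest_refl v)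
      have h5 := X.lipB v h f (hM1 f hf)
      have h6 := dist_triangle (X.pt v h) (X.pt v (h * f)) (X.pt v y)
      have h7 := hφ2 h y
      have h8 : |φ y - φ 1| ≤ |φ h - φ y| + |φ h - φ 1| := by
        have e : φ y - φ 1 = -(φ h - φ y) + (φ h - φ 1) := by ring
        rw [e]
        refine (abs_add_le _ _).trans ?_
        rw [abs_neg]
      linarith
  -- conjugates of the generators are bounded
  set Ls := |X.hhs.K| * Ms + |X.hhs.K| with hLs
  have hLs0 : 0 ≤ Ls := by positivity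
  set Lx := |X.hhs.K| * (wordLen X.gens x0 : ℝ) + |X.hhs.K| with hLx
  have hLx0 : 0 ≤ Lx := by positivity
  have hInP : ∀ h ∈ X.stab v, ∀ w, X.Rel v w →
      dist (X.pt w h) (X.rp v w) ≤ Lx + (X.a1 + 2 * X.hhs.ξ) := by
    intro h hh w hw
    have h1 := X.inPc_act (c := X.a1) (x := x0) hx0 h
    rw [X.mem_stab.1 hh] at h1
    have h2 := h1 w hw
    have h3 := X.lipB w h x0 (n := wordLen X.gens x0) le_rfl
    have h4 := dist_triangle (X.pt w h) (X.pt w (h * x0)) (X.rp v w)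
    linarith
  obtain ⟨R5, hR5⟩ := X.uniqL ((C1 + Ls + (C1 + 2 * X.hhs.ξ)) + (c4 + (Ls + c) + c) + B +
    2 * (Lx + (X.a1 + 2 * X.hhs.ξ)) + 2 * X.hhs.ξ)
  have hconj : ∀ h ∈ X.stab v, (∀ u, X.hhs.orth u v → dist (X.pt u 1) (X.pt u h) ≤ C1) →
      ∀ s ∈ S, wordLen X.gens (h⁻¹ * (s * h)) ≤ R5 := by
    intro h hh hE s hs
    obtain ⟨hsv, hsg⟩ := hSA hs
    apply hR5
    intro w
    have key : ∀ w', dist (X.pt w' h) (X.pt w' (s * h)) ≤
        (C1 + Ls + (C1 + 2 * X.hhs.ξ)) + (c4 + (Ls + c) + c) + B +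
          2 * (Lx + (X.a1 + 2 * X.hhs.ξ)) := by
      intro w'
      have n1 : 0 ≤ C1 + Ls + (C1 + 2 * X.hhs.ξ) := by
        have : 0 ≤ C1 := add_nonneg hL10 hθ0
        linarith
      have n2 : 0 ≤ c4 + (Ls + c) + c := by linarith
      have n3 : 0 ≤ 2 * (Lx + (X.a1 + 2 * X.hhs.ξ)) := by linarith
      rcases X.rel_cases w' v with h1 | h1 | h1 | h1
      · subst h1
        have h2 := hφ1 h (s * h)
        have h3 := hsg h 1
        rw [one_mul, mul_one] at h3
        have h4 := X.lipB w' 1 s (hMs s hs)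
        rw [one_mul] at h4
        have h5 := hφ2 1 s
        have h6 : |φ h - φ (s * h)| ≤ c4 + |φ 1 - φ s| := by
          have e : φ h - φ (s * h) = -(φ (s * h) - φ s - (φ h - φ 1)) + (φ 1 - φ s) := by ring
          rw [e]
          refine (abs_add_le _ _).trans ?_
          rw [abs_neg]
          linarith
        linarith
      · have h2 := hE w' h1
        have h3 := X.lipB w' 1 s (hMs s hs)
        rw [one_mul] at h3
        have h4 := X.dist_move w' s 1 h (D := C1)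
          (hE _ (X.orth_stab ((X.stab v).inv_mem hsv) h1))
        rw [mul_one] at h4
        have h5 := dist_triangle (X.pt w' h) (X.pt w' 1) (X.pt w' (s * h))
        have h6 := dist_triangle (X.pt w' 1) (X.pt w' s) (X.pt w' (s * h))
        rw [dist_comm (X.pt w' h) (X.pt w' 1)] at h5
        linarith
      · have : dist (X.pt w' h) (X.pt w' (s * h)) ≤ B :=
          hB w' (hv.2 w' h1) _ _ _ (X.pt_mem _ _) _ (X.pt_mem _ _)
        linarith
      · have h2 := hInP h hh w' h1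
        have h3 := hInP (s * h) ((X.stab v).mul_mem hsv hh) w' h1
        have h4 := dist_triangle (X.pt w' h) (X.rp v w') (X.pt w' (s * h))
        rw [dist_comm (X.rp v w')] at h4
        linarith
    have h1 := X.dist_move w h⁻¹ h (s * h) (key _)
    rwa [inv_mul_cancel] at h1
  -- the constant
  set Ms0 := wordLen X.gens s0 with hMs0
  set L0 := |X.hhs.K| * (Ms0 : ℝ) + |X.hhs.K| with hL0
  have hL00 : 0 ≤ L0 := by positivity
  refine ⟨2 * θ + 2 * L1 + 2 * L0 + 2 * C1 + 4 * X.hhs.ξ, fun D => ?_⟩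
  -- separated elements
  have hsep : ∀ n : ℕ, ∃ 𝒮 : Finset G, 𝒮.card = n ∧ (∀ h ∈ 𝒮, h ∈ X.stab v ∧
      ∀ u, X.hhs.orth u v → dist (X.pt u 1) (X.pt u h) ≤ C1) ∧
      ∀ h ∈ 𝒮, ∀ h' ∈ 𝒮, h ≠ h' → |D| + c < |φ h - φ h'| := by
    intro n
    induction n with
    | zero => exact ⟨∅, by simp, by simp, by simp⟩
    | succ n ih =>
      obtain ⟨𝒮, h1, h2, h3⟩ := ih
      obtain ⟨b, hb⟩ : ∃ b : ℝ, ∀ h ∈ 𝒮, |φ h - φ 1| ≤ b := by
        obtain ⟨b, hb⟩ := (𝒮.finite_toSet.image (fun h => |φ h - φ 1|)).bddAbove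
        exact ⟨b, fun h hh => hb (Set.mem_image_of_mem _ hh)⟩
      obtain ⟨k, hk1, hk2, hk3⟩ := hfar (b + |D| + c)
      have hfk : ∀ h ∈ 𝒮, |D| + c < |φ k - φ h| := by
        intro h hh
        have h4 := hb h hh
        have h5 : |φ k - φ 1| ≤ |φ k - φ h| + |φ h - φ 1| := by
          have e : φ k - φ 1 = (φ k - φ h) + (φ h - φ 1) := by ring
          rw [e]
          exact abs_add_le _ _
        linarith
      have hkS : k ∉ 𝒮 := by
        intro h
        have := hfk k h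
        rw [sub_self, abs_zero] at this
        have := abs_nonneg D
        linarith
      refine ⟨insert k 𝒮, by rw [Finset.card_insert_of_notMem hkS, h1], ?_, ?_⟩
      · intro h hh
        rcases Finset.mem_insert.1 hh with rfl | hh
        · exact ⟨hk1, hk2⟩
        · exact h2 h hh
      · intro h hh h' hh' hne
        rcases Finset.mem_insert.1 hh with e | hh
        · rcases Finset.mem_insert.1 hh' with e' | hh'
          · exact absurd (e.trans e'.symm) hne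
          · rw [e]; exact hfk h' hh'
        · rcases Finset.mem_insert.1 hh' with e' | hh'
          · rw [e', abs_sub_comm]; exact hfk h hh
          · exact h3 h hh h' hh' hne
  -- pigeonhole
  have hSfin : Finite S := hSf
  have hball := ball_finite X.gens_finite X.gens_closure R5
  have hpi : {f : S → G | ∀ i, f i ∈ {g : G | wordLen X.gens g ≤ R5}}.Finite :=
    Set.Finite.pi' (fun _ : S => hball)
  obtain ⟨𝒮, h1, h2, h3⟩ := hsep (hpi.toFinset.card + 1)
  obtain ⟨h, hh, h', hh', hne, heq⟩ := Finset.exists_ne_map_eq_of_card_lt_of_maps_to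
    (s := 𝒮) (t := hpi.toFinset) (f := fun h (s : S) => h⁻¹ * (s.1 * h)) (by omega) (by
      intro h hh
      rw [Finset.mem_coe, Set.Finite.mem_toFinset]
      intro s
      exact hconj h (h2 h hh).1 (h2 h hh).2 s.1 s.2)
  have heq' : ∀ s ∈ S, h⁻¹ * (s * h) = h'⁻¹ * (s * h') := fun s hs => congrFun heq ⟨s, hs⟩
  obtain ⟨hhv, hhE⟩ := h2 h hh
  obtain ⟨hh'v, hh'E⟩ := h2 h' hh'
  set z := h' * h⁻¹ with hz
  have hzv : z ∈ X.stab v := (X.stab v).mul_mem hh'v ((X.stab v).inv_mem hhv)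
  have hzh : z * h = h' := by rw [hz]; group
  have hcomm : ∀ k ∈ A, z * k = k * z := by
    have hle : A ≤ Subgroup.centralizer {z} := by
      refine hSgen.trans ?_
      rw [Subgroup.closure_le]
      intro s hs
      rw [SetLike.mem_coe, Subgroup.mem_centralizer_singleton_iff]
      have h4 := heq' s hs
      rw [hz]
      calc s * (h' * h⁻¹) = h' * (h'⁻¹ * (s * h')) * h⁻¹ := by group
        _ = h' * (h⁻¹ * (s * h)) * h⁻¹ := by rw [h4]
        _ = h' * h⁻¹ * s := by group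
    intro k hk
    exact (Subgroup.mem_centralizer_singleton_iff.1 (hle hk)).symm
  refine ⟨z, hzv, ?_, h, ?_⟩
  · -- displacement in the orthogonal directions
    intro u hu y
    obtain ⟨g, g1, g2, g3⟩ := hθ v y y
    obtain ⟨k1, hk1, f, hf, rfl⟩ := hF1' g g3
    have hf' := hM1 f hf
    -- write `k1 = k h e`
    obtain ⟨k, hk, e, he, hke⟩ : ∃ k ∈ A, ∃ e : G, wordLen X.gens e ≤ Ms0 ∧ k1 = k * h * e := by
      by_cases hA1 : k1 * h⁻¹ ∈ A
      · exact ⟨k1 * h⁻¹, hA1, 1, by rw [wordLen_one]; exact Nat.zero_le _, by group⟩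
      · have hst : k1 * h⁻¹ ∈ X.stab v := (X.stab v).mul_mem hk1 ((X.stab v).inv_mem hhv)
        have hn := sg_neg _ hst hA1
        have hs0n := hs0' _ hst hA1
        refine ⟨k1 * s0⁻¹ * h⁻¹, ?_, s0, le_rfl, by group⟩
        -- the sign of a conjugate
        obtain ⟨ε, hε, hεh⟩ := sg_ex h hhv
        have hinv := sg_inv h ε hε hεh
        have hs0i := sg_inv s0 (-1) (Or.inr rfl) hs0n
        have hc1 : Sg (ε * (-1)) (h * s0⁻¹) :=
          sg_mul h s0⁻¹ hhv ((X.stab v).inv_mem hs0) ε (-1) hε (Or.inr rfl) hεh hs0i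
        have hε1 : ε * (-1) = 1 ∨ ε * (-1) = -1 := by
          rcases hε with rfl | rfl <;> norm_num
        have hc2 : Sg (ε * (-1) * ε) (h * s0⁻¹ * h⁻¹) :=
          sg_mul (h * s0⁻¹) h⁻¹ ((X.stab v).mul_mem hhv ((X.stab v).inv_mem hs0))
            ((X.stab v).inv_mem hhv) (ε * (-1)) ε hε1 hε hc1 hinv
        have hε2 : ε * (-1) * ε = -1 := by
          rcases hε with rfl | rfl <;> norm_num
        rw [hε2] at hc2
        have h5 := negneg (k1 * h⁻¹) (h * s0⁻¹ * h⁻¹) hst ((X.stab v).mul_mem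
          ((X.stab v).mul_mem hhv ((X.stab v).inv_mem hs0)) ((X.stab v).inv_mem hhv)) hn hc2
        have e5 : k1 * h⁻¹ * (h * s0⁻¹ * h⁻¹) = k1 * s0⁻¹ * h⁻¹ := by group
        rwa [e5] at h5
    have hkv := hAs hk
    -- the point `k h`
    have d1 : dist (X.pt u (k * h)) (X.pt u (z * (k * h))) ≤ 2 * C1 + 2 * X.hhs.ξ := by
      have e1 : z * (k * h) = k * h' := by
        rw [← mul_assoc, hcomm k hk, mul_assoc, hzh]
      rw [e1]
      have hu' := X.orth_stab ((X.stab v).inv_mem hkv) hu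
      refine X.dist_move u k h h' ?_
      have h4 := hhE _ hu'
      have h5 := hh'E _ hu'
      have h6 := dist_triangle (X.pt (X.actI k⁻¹ u) h) (X.pt (X.actI k⁻¹ u) 1)
        (X.pt (X.actI k⁻¹ u) h')
      rw [dist_comm (X.pt (X.actI k⁻¹ u) h) (X.pt (X.actI k⁻¹ u) 1)] at h6
      linarith
    have d2 : dist (X.pt u (k * h)) (X.pt u k1) ≤ L0 := by
      rw [hke]; exact X.lipB u (k * h) e he
    have d3 : dist (X.pt u (z * (k * h))) (X.pt u (z * k1)) ≤ L0 := by
      have e1 : z * k1 = z * (k * h) * e := by rw [hke]; group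
      rw [e1]; exact X.lipB u _ e he
    have d4 : dist (X.pt u k1) (X.pt u (k1 * f)) ≤ L1 := X.lipB u k1 f hf'
    have d5 : dist (X.pt u (z * k1)) (X.pt u (z * (k1 * f))) ≤ L1 := by
      rw [← mul_assoc]; exact X.lipB u _ f hf'
    have d6 := g2 u hu
    have d7 : dist (X.pt u (z * (k1 * f))) (X.pt u (z * y)) ≤ θ + 2 * X.hhs.ξ :=
      X.dist_move u z (k1 * f) y (g2 _ (X.orth_stab ((X.stab v).inv_mem hzv) hu))
    have t1 := dist_triangle (X.pt u y) (X.pt u (k1 * f)) (X.pt u (z * y))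
    have t2 := dist_triangle (X.pt u (k1 * f)) (X.pt u k1) (X.pt u (z * y))
    have t3 := dist_triangle (X.pt u k1) (X.pt u (k * h)) (X.pt u (z * y))
    have t4 := dist_triangle (X.pt u (k * h)) (X.pt u (z * (k * h))) (X.pt u (z * y))
    have t5 := dist_triangle (X.pt u (z * (k * h))) (X.pt u (z * k1)) (X.pt u (z * y))
    have t6 := dist_triangle (X.pt u (z * k1)) (X.pt u (z * (k1 * f))) (X.pt u (z * y))
    rw [dist_comm (X.pt u y) (X.pt u (k1 * f))] at t1
    rw [dist_comm (X.pt u (k1 * f)) (X.pt u k1)] at t2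
    rw [dist_comm (X.pt u k1) (X.pt u (k * h))] at t3
    linarith
  · rw [hzh]
    have h4 := h3 h hh h' hh' hne
    have h5 := hφ2 h h'
    have h6 := le_abs_self D
    linarith

end HHG

end Pool.Agent.H898.HH
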