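import Pool.Agent.H898.HH.Defs

/-!
# Minimal unbounded domains, and conditions on them
-/

set_option autoImplicit false

namespace Pool.Agent.H898.HH

variable {G : Type} [Group G] (X : HHG G)

/-- the domain `v` is unbounded: the projection of `G` to `C v` is unbounded -/
def HHG.Unb (v : X.hhs.Idx) : Prop :=
  ∀ D : ℝ, ∃ x y : G, ∃ p ∈ X.hhs.proj v x, ∃ q ∈ X.hhs.proj v y, D < X.hhs.dist p q

/-- the domain `v` is minimal among the unbounded domains -/
def HHG.MinUnb (v : X.hhs.Idx) : Prop :=
  X.Unb v ∧ ∀ u, PNest X.hhs.nest u v → ¬ X.Unb u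

/-- `r` lies in every subgroup of finite index, that is in the finite residual -/
def InRes (r : G) : Prop := ∀ H : Subgroup G, H.FiniteIndex → r ∈ H

/-- The domain `v` is detected: for some `C` there is an element `z` of the stabiliser of `v` which
moves the coordinates in the domains orthogonal to `v` by at most `C`, such that no element of the
coset of `z` of the finite residual does so with the `v`-coordinates. -/
def HHG.Detected (v : X.hhs.Idx) : Prop :=
  ∃ (z : G) (C : ℝ), X.actI z v = v ∧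
    (∀ u, X.hhs.orth u v → ∀ y, ∀ p ∈ X.hhs.proj u y, ∀ q ∈ X.hhs.proj u (z * y),
      X.hhs.dist p q ≤ C) ∧
    ∀ r, InRes r → ∃ y, ∃ p ∈ X.hhs.proj v y, ∃ q ∈ X.hhs.proj v (r * z * y),
      C < X.hhs.dist p q

/-- no element `g` with `g v` orthogonal to `v` lies in the closure of the stabiliser of `v` for the
profinite topology -/
def HHG.OrthSep (v : X.hhs.Idx) : Prop :=
  ∀ g, X.hhs.orth (X.actI g v) v →
    ∃ M : Subgroup G, M.FiniteIndex ∧ (∀ h, X.actI h v = v → h ∈ M) ∧ g ∉ M

/-- the elements of the finite residual move the coordinates in `C v` by a bounded amount -/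
def HHG.ResBdd (v : X.hhs.Idx) : Prop :=
  ∃ L : ℝ, ∀ r, InRes r → ∀ y, ∀ p ∈ X.hhs.proj v y, ∀ q ∈ X.hhs.proj v (r * y),
    X.hhs.dist p q ≤ L

/-- the coordinates in `C v` are, up to a bounded error, those of points of a line -/
def HHG.Lin (v : X.hhs.Idx) : Prop :=
  ∃ (φ : G → ℝ) (c : ℝ), ∀ x y, ∀ p ∈ X.hhs.proj v x, ∀ q ∈ X.hhs.proj v y,
    abs (X.hhs.dist p q - |φ x - φ y|) ≤ c

end Pool.Agent.H898.HH
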