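import Pool.Agent.H898.HH.Prod

/-!
# Stabilisers of minimal unbounded domains
-/

set_option autoImplicit false

namespace Pool.Agent.H898.HH

namespace HHG

variable {G : Type} [Group G] (X : HHG G)

/-- the action on points -/
def act (g : G) {v : X.hhs.Idx} (p : X.C v) : X.C (X.actI g v) :=
  ⟨X.actP g p.1, by rw [X.actP_base, p.2]⟩

theorem dist_act (g : G) {v : X.hhs.Idx} (p q : X.C v) : dist (X.act g p) (X.act g q) = dist p q :=
  X.actP_dist _ _ _ (p.2.trans q.2.symm)

theorem act_pt (g : G) (v : X.hhs.Idx) (x : G) :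
    dist (X.pt (X.actI g v) (g * x)) (X.act g (X.pt v x)) ≤ X.hhs.ξ := by
  refine X.hhs.proj_diam _ _ _ (X.pt_mem _ _) _ ?_
  rw [X.proj_equivariant]
  exact Set.mem_image_of_mem _ (X.pt_mem v x)

theorem act_rp (g : G) {u v : X.hhs.Idx} (h : X.Rel u v) :
    dist (X.rp (X.actI g u) (X.actI g v)) (X.act g (X.rp u v)) ≤ X.hhs.ξ := by
  refine X.hhs.rho_diam _ _ (rel_act X g h) _ (X.rp_mem (rel_act X g h)) _ ?_
  rw [X.rho_equivariant _ _ _ h]
  exact Set.mem_image_of_mem _ (X.rp_mem h)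

theorem dist_pt_act (g : G) (v : X.hhs.Idx) (x y : G) :
    dist (X.pt (X.actI g v) (g * x)) (X.pt (X.actI g v) (g * y)) ≤
      dist (X.pt v x) (X.pt v y) + 2 * X.hhs.ξ := by
  have h1 := X.act_pt g v x
  have h2 := X.act_pt g v y
  have h3 := dist_triangle (X.pt (X.actI g v) (g * x)) (X.act g (X.pt v x))
    (X.pt (X.actI g v) (g * y))
  have h4 := dist_triangle (X.act g (X.pt v x)) (X.act g (X.pt v y))
    (X.pt (X.actI g v) (g * y))
  rw [X.dist_act, dist_comm (X.act g (X.pt v y))] at h4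
  linarith

theorem surj_act (g : G) (w : X.hhs.Idx) : ∃ w', X.actI g w' = w :=
  ⟨X.actI g⁻¹ w, actI_self_inv X g w⟩

theorem rel_of_act {g : G} {u v : X.hhs.Idx} (h : X.Rel (X.actI g u) (X.actI g v)) :
    X.Rel u v := by
  have := rel_act X g⁻¹ h
  rwa [actI_inv, actI_inv] at this

theorem inPc_act {c : ℝ} {v : X.hhs.Idx} {x : G} (h : X.InPc c v x) (g : G) :
    X.InPc (c + 2 * X.hhs.ξ) (X.actI g v) (g * x) := by
  intro w hw
  obtain ⟨w, rfl⟩ := X.surj_act g w
  have hr := X.rel_of_act hw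
  have h1 := X.act_pt g w x
  have h2 := X.act_rp g hr
  have h3 := h w hr
  have h4 := dist_triangle (X.pt (X.actI g w) (g * x)) (X.act g (X.pt w x))
    (X.rp (X.actI g v) (X.actI g w))
  have h5 := dist_triangle (X.act g (X.pt w x)) (X.act g (X.rp v w))
    (X.rp (X.actI g v) (X.actI g w))
  rw [X.dist_act, dist_comm (X.act g (X.rp v w))] at h5
  linarith

theorem minUnb_act {v : X.hhs.Idx} (h : X.MinUnb v) (g : G) : X.MinUnb (X.actI g v) := by
  refine ⟨unb_act X g h.1, ?_⟩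
  intro u hu hun
  have h1 := actI_pnest X (g := g⁻¹) hu
  rw [actI_inv] at h1
  exact h.2 _ h1 (unb_act X g⁻¹ hun)

/-- the stabiliser of a domain -/
def stab (v : X.hhs.Idx) : Subgroup G where
  carrier := {g | X.actI g v = v}
  one_mem' := X.actI_one v
  mul_mem' := by
    intro a b ha hb
    show X.actI (a * b) v = v
    rw [X.actI_mul, show X.actI b v = v from hb, show X.actI a v = v from ha]
  inv_mem' := by
    intro a ha
    show X.actI a⁻¹ v = v
    conv_lhs => rw [← show X.actI a v = v from ha]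
    exact actI_inv X a v

theorem mem_stab {v : X.hhs.Idx} {g : G} : g ∈ X.stab v ↔ X.actI g v = v := Iff.rfl

/-- the stabiliser of a minimal unbounded domain acts coboundedly on the product region -/
theorem cobounded {v : X.hhs.Idx} (hv : X.MinUnb v) (c : ℝ) : ∃ F : Set G, F.Finite ∧
    ∀ x, X.InPc c v x → ∃ h ∈ X.stab v, ∃ f ∈ F, x = h * f := by
  classical
  have hfin := X.finite_near (c + 2 * X.hhs.ξ)
  let γ : X.hhs.Idx → G := fun u => if h : ∃ g, X.actI g v = u then h.choose else 1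
  have hγ : ∀ u, (∃ g, X.actI g v = u) → X.actI (γ u) v = u := by
    intro u h
    simp only [γ, dif_pos h]
    exact h.choose_spec
  refine ⟨_, hfin.image (fun u => (γ u)⁻¹), ?_⟩
  intro x hx
  have h1 := X.inPc_act hx x⁻¹
  rw [inv_mul_cancel] at h1
  have h2 : X.actI (γ (X.actI x⁻¹ v)) v = X.actI x⁻¹ v := hγ _ ⟨x⁻¹, rfl⟩
  refine ⟨x * γ (X.actI x⁻¹ v), ?_, _, ⟨X.actI x⁻¹ v, ⟨X.minUnb_act hv _, h1⟩, rfl⟩, ?_⟩
  · show X.actI _ v = v
    rw [X.actI_mul, h2]
    exact actI_self_inv X x v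
  · group

/-- the translates of a minimal unbounded domain which are orthogonal to it form finitely many
double cosets of the stabiliser -/
theorem finite_double {v : X.hhs.Idx} (hv : X.MinUnb v) : ∃ T : Set G, T.Finite ∧
    ∀ g, X.hhs.orth (X.actI g v) v → ∃ t ∈ T, X.hhs.orth (X.actI t v) v ∧
      ∃ h ∈ X.stab v, ∃ h' ∈ X.stab v, g = h * t * h' := by
  classical
  have hfin := X.finite_near (X.a1 + 2 * X.hhs.ξ)
  have hx : ∀ g : G, ∃ x : G, X.hhs.orth (X.actI g v) v → X.InPc X.a1 v x ∧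
      X.InPc X.a1 (X.actI g v) x := by
    intro g
    by_cases ho : X.hhs.orth (X.actI g v) v
    · obtain ⟨x, hx⟩ := X.partial_real {v, X.actI g v} (by
        intro a ha b hb hab
        rcases ha with rfl | ha
        · rcases hb with rfl | hb
          · exact absurd rfl hab
          · rw [Set.mem_singleton_iff.1 hb]; exact X.hhs.orth_symm _ _ ho
        · rw [Set.mem_singleton_iff] at ha
          subst ha
          rcases hb with rfl | hb
          · exact ho
          · exact absurd (Set.mem_singleton_iff.1 hb).symm hab)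
        (fun w => X.pt w 1) (fun w _ => X.isCoord_pt w 1)
      exact ⟨x, fun _ => ⟨(hx v (Set.mem_insert _ _)).2,
        (hx (X.actI g v) (Set.mem_insert_of_mem _ rfl)).2⟩⟩
    · exact ⟨1, fun h => absurd h ho⟩
  choose x hx using hx
  let key : G → X.hhs.Idx × X.hhs.Idx := fun g => (X.actI (x g)⁻¹ v, X.actI (x g)⁻¹ (X.actI g v))
  let O : Set G := {g | X.hhs.orth (X.actI g v) v}
  have hkey : ∀ g ∈ O, key g ∈ {v | X.MinUnb v ∧ X.InPc (X.a1 + 2 * X.hhs.ξ) v 1} ×ˢ
      {v | X.MinUnb v ∧ X.InPc (X.a1 + 2 * X.hhs.ξ) v 1} := by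
    intro g hg
    obtain ⟨h1, h2⟩ := hx g hg
    have h3 := X.inPc_act h1 (x g)⁻¹
    have h4 := X.inPc_act h2 (x g)⁻¹
    rw [inv_mul_cancel] at h3 h4
    exact ⟨⟨X.minUnb_act hv _, h3⟩, ⟨X.minUnb_act (X.minUnb_act hv _) _, h4⟩⟩
  have hK : (key '' O).Finite := (hfin.prod hfin).subset (by
    rintro _ ⟨g, hg, rfl⟩
    exact hkey g hg)
  let rep : X.hhs.Idx × X.hhs.Idx → G := fun κ => if h : ∃ g ∈ O, key g = κ then h.choose else 1
  have hrep : ∀ κ, (∃ g ∈ O, key g = κ) → rep κ ∈ O ∧ key (rep κ) = κ := by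
    intro κ h
    simp only [rep, dif_pos h]
    exact h.choose_spec
  refine ⟨rep '' (key '' O), hK.image _, ?_⟩
  intro g hg
  obtain ⟨h1, h2⟩ := hrep (key g) ⟨g, hg, rfl⟩
  refine ⟨rep (key g), ⟨_, ⟨g, hg, rfl⟩, rfl⟩, h1, ?_⟩
  set t := rep (key g) with ht
  have e1 : X.actI (x t)⁻¹ v = X.actI (x g)⁻¹ v := congrArg Prod.fst h2
  have e2 : X.actI (x t)⁻¹ (X.actI t v) = X.actI (x g)⁻¹ (X.actI g v) := congrArg Prod.snd h2
  have e3 : X.actI (x g * (x t)⁻¹) v = v := by
    rw [X.actI_mul, e1]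
    exact actI_self_inv X (x g) v
  have e4 : X.actI (x g * (x t)⁻¹ * t) v = X.actI g v := by
    rw [X.actI_mul, X.actI_mul, e2]
    exact actI_self_inv X (x g) _
  refine ⟨x g * (x t)⁻¹, e3, (x g * (x t)⁻¹ * t)⁻¹ * g, ?_, by group⟩
  show X.actI _ v = v
  rw [X.actI_mul, ← e4]
  exact actI_inv X _ v

theorem exists_normal_of_finite {T : Set G} (hT : T.Finite) (M : G → Subgroup G)
    (hM : ∀ t ∈ T, (M t).FiniteIndex) : ∃ N : Subgroup G, N.Normal ∧ N.FiniteIndex ∧
      ∀ t ∈ T, N ≤ M t := by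
  induction T, hT using Set.Finite.induction_on with
  | empty => exact ⟨⊤, inferInstance, inferInstance, by simp⟩
  | @insert a s _ _ ih =>
    obtain ⟨N, h1, h2, h3⟩ := ih (fun t ht => hM t (Set.mem_insert_of_mem _ ht))
    have := hM a (Set.mem_insert _ _)
    refine ⟨N ⊓ (M a).normalCore, inferInstance, inferInstance, ?_⟩
    intro t ht
    rcases Set.mem_insert_iff.1 ht with rfl | ht
    · exact inf_le_right.trans (M t).normalCore_le
    · exact inf_le_left.trans (h3 t ht)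

theorem sep_of_orthSep {v : X.hhs.Idx} (hv : X.MinUnb v) (h : X.OrthSep v) : X.Sep v := by
  classical
  obtain ⟨T, hT, hT2⟩ := X.finite_double hv
  let M : G → Subgroup G := fun t => if ho : X.hhs.orth (X.actI t v) v then (h t ho).choose else ⊤
  have hM : ∀ t (ho : X.hhs.orth (X.actI t v) v), (M t).FiniteIndex ∧
      (∀ h, X.actI h v = v → h ∈ M t) ∧ t ∉ M t := by
    intro t ho
    simp only [M, dif_pos ho]
    exact (h t ho).choose_spec
  obtain ⟨N, hN, hNf, hN2⟩ := exists_normal_of_finite hT M (by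
    intro t _
    by_cases ho : X.hhs.orth (X.actI t v) v
    · exact (hM t ho).1
    · simp only [M, dif_neg ho]
      infer_instance)
  refine ⟨N, hN, hNf, fun n hn ho => ?_⟩
  obtain ⟨t, ht, hto, a, ha, b, hb, rfl⟩ := hT2 n ho
  obtain ⟨_, h2, h3⟩ := hM t hto
  apply h3
  have e : a⁻¹ * (a * t * b) * b⁻¹ = t := by group
  have h5 : a⁻¹ * (a * t * b) * b⁻¹ ∈ M t :=
    (M t).mul_mem ((M t).mul_mem ((M t).inv_mem (h2 a ha)) (hN2 t ht hn))
      ((M t).inv_mem (h2 b hb))
  rwa [e] at h5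

/-- conversely, if the restricted structure is colourable then the stabilisers are separated from
the orthogonal translates -/
theorem orthSep_of_colorable {v : X.hhs.Idx} (hv : X.Unb v) (h : (resHHG X).Colorable) :
    X.OrthSep v := by
  obtain ⟨N, hN, hNf, hN2⟩ := sep_of_colorable _ h
  intro g hg
  refine ⟨N ⊔ X.stab v, ?_, ?_, ?_⟩
  · exact Subgroup.finiteIndex_of_le le_sup_left
  · intro h hh
    exact (le_sup_right : X.stab v ≤ N ⊔ X.stab v) hh
  · intro hmem
    rw [← SetLike.mem_coe, Subgroup.normal_mul N (X.stab v)] at hmem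
    obtain ⟨n, hn, s, hs, rfl⟩ := hmem
    have hs' : X.actI s v = v := hs
    refine hN2 ⟨v, v, X.hhs.nest_refl v, hv⟩ n hn ?_
    show X.hhs.orth (X.actI n v) v
    rwa [X.actI_mul, hs'] at hg

end HHG

end Pool.Agent.H898.HH
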