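import Pool.Agent.H898.HH.Detect

/-!
# Point-valued coordinates
-/

set_option autoImplicit false

namespace Pool.Agent.H898.HH

namespace HHG

variable {G : Type} [Group G] (X : HHG G)

/-- the hyperbolic space `C w` as a type -/
@[ext] structure C (w : X.hhs.Idx) where
  /-- the point -/
  val : X.hhs.Pt
  prop : X.hhs.base val = w

noncomputable instance (w : X.hhs.Idx) : MetricSpace (X.C w) where
  dist p q := X.hhs.dist p.1 q.1
  dist_self p := X.hhs.dist_self _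
  dist_comm p q := X.hhs.dist_comm _ _ (p.2.trans q.2.symm)
  dist_triangle p q r := X.hhs.dist_triangle _ _ _ (p.2.trans q.2.symm) (q.2.trans r.2.symm)
  eq_of_dist_eq_zero := by
    intro p q h
    exact C.ext (X.hhs.eq_of_dist _ _ (p.2.trans q.2.symm) h)

theorem dist_def {w : X.hhs.Idx} (p q : X.C w) : dist p q = X.hhs.dist p.1 q.1 := rfl

/-- `u` is properly nested in `v` or transverse to `v` -/
def Rel (u v : X.hhs.Idx) : Prop :=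
  PNest X.hhs.nest u v ∨ Trans X.hhs.nest X.hhs.orth u v

/-- a point of the projection -/
noncomputable def pt (w : X.hhs.Idx) (x : G) : X.C w :=
  ⟨(X.hhs.proj_nonempty w x).some, X.hhs.proj_base _ _ _ (X.hhs.proj_nonempty w x).some_mem⟩

theorem pt_mem (w : X.hhs.Idx) (x : G) : (X.pt w x).1 ∈ X.hhs.proj w x :=
  (X.hhs.proj_nonempty w x).some_mem

open Classical in
/-- a point of `ρ` -/
noncomputable def rp (u w : X.hhs.Idx) : X.C w :=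
  if h : X.Rel u w then
    ⟨(X.hhs.rho_nonempty u w h).some, X.hhs.rho_base _ _ h _ (X.hhs.rho_nonempty u w h).some_mem⟩
  else X.pt w 1

theorem rp_mem {u w : X.hhs.Idx} (h : X.Rel u w) : (X.rp u w).1 ∈ X.hhs.rho u w := by
  unfold rp
  rw [dif_pos h]
  exact (X.hhs.rho_nonempty u w h).some_mem

open Classical in
/-- a point of `ρ^w_v(p)` -/
noncomputable def dn (v w : X.hhs.Idx) (p : X.C w) : X.C v :=
  if h : PNest X.hhs.nest v w then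
    ⟨(X.hhs.rhoDown_nonempty v p.1 (by rw [p.2]; exact h)).some,
      X.hhs.rhoDown_base _ _ (by rw [p.2]; exact h) _
        (X.hhs.rhoDown_nonempty v p.1 (by rw [p.2]; exact h)).some_mem⟩
  else X.pt v 1

theorem dn_mem {v w : X.hhs.Idx} (h : PNest X.hhs.nest v w) (p : X.C w) :
    (X.dn v w p).1 ∈ X.hhs.rhoDown v p.1 := by
  unfold dn
  rw [dif_pos h]
  exact (X.hhs.rhoDown_nonempty v p.1 (by rw [p.2]; exact h)).some_mem

theorem near_pt {w : X.hhs.Idx} {x : G} {c : ℝ} {A : Set X.hhs.Pt} {a : X.C w}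
    (hA : ∀ s ∈ A, ∃ h : X.hhs.base s = w, dist (⟨s, h⟩ : X.C w) a ≤ X.hhs.ξ)
    (h : Near X.hhs.dist c (X.hhs.proj w x) A) : dist (X.pt w x) a ≤ c + 2 * X.hhs.ξ := by
  obtain ⟨r, hr, s, hs, hrs⟩ := h
  obtain ⟨hb, hs'⟩ := hA s hs
  have b1 := X.hhs.proj_base _ _ _ hr
  have h1 : dist (X.pt w x) (⟨r, b1⟩ : X.C w) ≤ X.hhs.ξ :=
    X.hhs.proj_diam w x _ (X.pt_mem w x) _ hr
  have h2 : dist (⟨r, b1⟩ : X.C w) (⟨s, hb⟩ : X.C w) ≤ c := hrs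
  have h3 := dist_triangle (X.pt w x) (⟨r, b1⟩ : X.C w) (⟨s, hb⟩ : X.C w)
  have h4 := dist_triangle (X.pt w x) (⟨s, hb⟩ : X.C w) a
  linarith

theorem rho_near {u w : X.hhs.Idx} (h : X.Rel u w) : ∀ s ∈ X.hhs.rho u w,
    ∃ h : X.hhs.base s = w, dist (⟨s, h⟩ : X.C w) (X.rp u w) ≤ X.hhs.ξ := fun s hs =>
  ⟨X.hhs.rho_base _ _ h _ hs, X.hhs.rho_diam _ _ h _ hs _ (X.rp_mem h)⟩

theorem xi_nonneg (w : X.hhs.Idx) : 0 ≤ X.hhs.ξ :=
  (dist_self (X.pt w 1)).symm.le.trans (X.hhs.proj_diam w 1 _ (X.pt_mem w 1) _ (X.pt_mem w 1))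

/-- the constant for consistency -/
noncomputable def k1 : ℝ := X.hhs.κ + 2 * X.hhs.ξ

/-- the constant for partial realization -/
noncomputable def a1 : ℝ := X.hhs.α + 2 * X.hhs.ξ

theorem trans_symm {u w : X.hhs.Idx} (h : Trans X.hhs.nest X.hhs.orth u w) :
    Trans X.hhs.nest X.hhs.orth w u :=
  ⟨fun h' => h.1 (X.hhs.orth_symm _ _ h'), h.2.2, h.2.1⟩

theorem cons_trans {u w : X.hhs.Idx} (h : Trans X.hhs.nest X.hhs.orth u w) (x : G) :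
    dist (X.pt w x) (X.rp u w) ≤ X.k1 ∨ dist (X.pt u x) (X.rp w u) ≤ X.k1 := by
  rcases X.hhs.consistency_trans u w h x with h1 | h1
  · exact Or.inl (X.near_pt (X.rho_near (Or.inr h)) h1)
  · exact Or.inr (X.near_pt (X.rho_near (Or.inr (X.trans_symm h))) h1)

theorem cons_nest {v w : X.hhs.Idx} (h : PNest X.hhs.nest v w) (x : G) :
    dist (X.pt w x) (X.rp v w) ≤ X.k1 ∨ dist (X.pt v x) (X.dn v w (X.pt w x)) ≤ X.hhs.κ := by
  rcases X.hhs.consistency_nest v w h x with h1 | h1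
  · exact Or.inl (X.near_pt (X.rho_near (Or.inl h)) h1)
  · right
    exact h1 _ (Or.inl (X.pt_mem v x)) _ (Or.inr ⟨_, X.pt_mem w x, X.dn_mem h _⟩)

theorem cons_rho {u v w : X.hhs.Idx} (h : X.hhs.nest u v) (h' : PNest X.hhs.nest v w ∨
    (Trans X.hhs.nest X.hhs.orth v w ∧ ¬ X.hhs.orth w u)) (huw : X.Rel u w) :
    dist (X.rp u w) (X.rp v w) ≤ X.k1 := by
  have hvw : X.Rel v w := h'.imp id And.left
  obtain ⟨p, hp, q, hq, hpq⟩ := X.hhs.consistency_rho u v w h h'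
  obtain ⟨b1, h1⟩ := X.rho_near huw p hp
  obtain ⟨b2, h2⟩ := X.rho_near hvw q hq
  have h3 : dist (⟨p, b1⟩ : X.C w) (⟨q, b2⟩ : X.C w) ≤ X.hhs.κ := hpq
  have h4 := dist_triangle (X.rp u w) (⟨p, b1⟩ : X.C w) (⟨q, b2⟩ : X.C w)
  have h5 := dist_triangle (X.rp u w) (⟨q, b2⟩ : X.C w) (X.rp v w)
  rw [dist_comm] at h1
  unfold k1
  linarith

theorem links (w : X.hhs.Idx) (x y : G) : ∃ F : Finset X.hhs.Idx,
    (F.card : ℝ) ≤ X.hhs.lam * dist (X.pt w x) (X.pt w y) + X.hhs.lam ∧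
    (∀ t ∈ F, PNest X.hhs.nest t w) ∧
    ∀ v, PNest X.hhs.nest v w → (∃ t ∈ F, X.hhs.nest v t) ∨
      dist (X.pt v x) (X.pt v y) < X.hhs.E + 2 * X.hhs.ξ := by
  obtain ⟨F, h1, h2, h3⟩ := X.hhs.large_links w x y _ (X.pt_mem w x) _ (X.pt_mem w y)
  refine ⟨F, h1, fun t ht => (h2 t ht).1, fun v hv => ?_⟩
  rcases h3 v hv with h | ⟨p, hp, q, hq, h⟩
  · exact Or.inl h
  · right
    have b1 := X.hhs.proj_base _ _ _ hp
    have b2 := X.hhs.proj_base _ _ _ hq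
    have h4 : dist (X.pt v x) (⟨p, b1⟩ : X.C v) ≤ X.hhs.ξ :=
      X.hhs.proj_diam _ _ _ (X.pt_mem v x) _ hp
    have h5 : dist (⟨q, b2⟩ : X.C v) (X.pt v y) ≤ X.hhs.ξ :=
      X.hhs.proj_diam _ _ _ hq _ (X.pt_mem v y)
    have h6 : dist (⟨p, b1⟩ : X.C v) (⟨q, b2⟩ : X.C v) < X.hhs.E := h
    have h7 := dist_triangle (X.pt v x) (⟨p, b1⟩ : X.C v) (⟨q, b2⟩ : X.C v)
    have h8 := dist_triangle (X.pt v x) (⟨q, b2⟩ : X.C v) (X.pt v y)
    linarith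

theorem bgi {v w : X.hhs.Idx} (h : PNest X.hhs.nest v w) (p q : X.C w) (c : ℝ)
    (hpq : dist p q ≤ c) (hp : c + X.hhs.E + X.hhs.ξ < dist p (X.rp v w)) :
    dist (X.dn v w p) (X.dn v w q) ≤ X.hhs.E := by
  obtain ⟨L, γ, hγ, h0, hL⟩ := X.hhs.geodesic p.1 q.1 (p.2.trans q.2.symm)
  rw [p.2] at hγ
  have hLc : L ≤ c := by
    have := hγ.2.2 0 ⟨le_rfl, hγ.1⟩ L ⟨hγ.1, le_rfl⟩
    rw [h0, hL, zero_sub, abs_neg, abs_of_nonneg hγ.1] at this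
    rw [← this]
    exact hpq
  rcases X.hhs.bounded_geodesic_image v w h L γ hγ with h1 | ⟨s, hs, r, hr, h1⟩
  · refine h1 _ ⟨0, ⟨le_rfl, hγ.1⟩, ?_⟩ _ ⟨L, ⟨hγ.1, le_rfl⟩, ?_⟩
    · rw [h0]; exact X.dn_mem h p
    · rw [hL]; exact X.dn_mem h q
  · exfalso
    have b1 := hγ.2.1 s hs
    obtain ⟨b2, h2⟩ := X.rho_near (Or.inl h) r hr
    have h3 : dist (⟨γ s, b1⟩ : X.C w) (⟨r, b2⟩ : X.C w) ≤ X.hhs.E := h1
    have h4 : dist p (⟨γ s, b1⟩ : X.C w) ≤ c := by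
      have := hγ.2.2 0 ⟨le_rfl, hγ.1⟩ s hs
      rw [h0, zero_sub, abs_neg, abs_of_nonneg hs.1] at this
      show X.hhs.dist p.1 (γ s) ≤ c
      rw [this]
      exact hs.2.trans hLc
    have h5 := dist_triangle p (⟨γ s, b1⟩ : X.C w) (⟨r, b2⟩ : X.C w)
    have h6 := dist_triangle p (⟨r, b2⟩ : X.C w) (X.rp v w)
    linarith

/-- the points of `C w` which are coordinates of elements of `G` -/
def IsCoord {w : X.hhs.Idx} (p : X.C w) : Prop := ∃ y, p.1 ∈ X.hhs.proj w y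

theorem isCoord_pt (w : X.hhs.Idx) (x : G) : X.IsCoord (X.pt w x) := ⟨x, X.pt_mem w x⟩

theorem partial_real (J : Set X.hhs.Idx) (hJ : ∀ u ∈ J, ∀ v ∈ J, u ≠ v → X.hhs.orth u v)
    (b : ∀ w, X.C w) (hb : ∀ w ∈ J, X.IsCoord (b w)) :
    ∃ x, ∀ u ∈ J, dist (X.pt u x) (b u) ≤ X.a1 ∧
      ∀ w, X.Rel u w → dist (X.pt w x) (X.rp u w) ≤ X.a1 := by
  obtain ⟨x, hx⟩ := X.hhs.partial_realization J hJ (fun w => (b w).1) hb
  refine ⟨x, fun u hu => ⟨?_, fun w hw => ?_⟩⟩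
  · refine X.near_pt ?_ (hx u hu).1
    intro s hs
    rw [Set.mem_singleton_iff] at hs
    subst hs
    exact ⟨(b u).2, by rw [dist_self]; exact X.xi_nonneg u⟩
  · exact X.near_pt (X.rho_near hw) ((hx u hu).2 w hw)

theorem uniq (c : ℝ) : ∃ θ : ℝ, ∀ x y, (∀ w, dist (X.pt w x) (X.pt w y) ≤ c) →
    wordDist X.gens x y < θ := by
  obtain ⟨θ, hθ⟩ := X.hhs.uniqueness (c + 1)
  refine ⟨θ, fun x y h => ?_⟩
  by_contra hcon
  obtain ⟨u, hu⟩ := hθ x y (not_lt.1 hcon)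
  have h1 := hu _ (X.pt_mem u x) _ (X.pt_mem u y)
  have h2 := h u
  rw [dist_def] at h2
  linarith

theorem lip (w : X.hhs.Idx) (x y : G) :
    dist (X.pt w x) (X.pt w y) ≤ X.hhs.K * wordDist X.gens x y + X.hhs.K :=
  X.hhs.proj_lipschitz w x y _ (X.pt_mem w x) _ (X.pt_mem w y)

/-- the trichotomy of relations -/
theorem rel_cases (u v : X.hhs.Idx) : u = v ∨ X.hhs.orth u v ∨ PNest X.hhs.nest u v ∨
    PNest X.hhs.nest v u ∨ Trans X.hhs.nest X.hhs.orth v u := trans_cases X u v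

end HHG

end Pool.Agent.H898.HH
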