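import Pool.Agent.H898.HH.Defs

/-!
# Finite powers of a hierarchically hyperbolic structure

The index set of the power consists of the nonempty partial families of indices.
-/

set_option autoImplicit false

namespace Pool.Agent.H898.HH

open Classical

variable {Q : Type} {d : Q → Q → ℝ} (X : HHS Q d) (I : Type)

/-- the index set of the power: partial families of indices which are not empty -/
def PIdx : Type := {t : I → Option X.Idx // ∃ i u, t i = some u}

variable {I}

/-- the family with just one member -/
noncomputable def single (i : I) (u : X.Idx) : PIdx X I :=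
  ⟨fun j => if j = i then some u else none, i, u, by simp⟩

theorem single_self (i : I) (u : X.Idx) : (single X i u).1 i = some u := by simp [single]

theorem single_some {i j : I} {u v : X.Idx} (h : (single X i u).1 j = some v) : j = i ∧ u = v := by
  unfold single at h
  by_cases hj : j = i
  · simp [hj] at h; exact ⟨hj, h⟩
  · simp [hj] at h

theorem single_inj {i j : I} {u v : X.Idx} (h : single X i u = single X j v) : i = j ∧ u = v := by
  have h1 : (single X j v).1 i = some u := by rw [← h]; exact single_self X i u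
  obtain ⟨h2, h3⟩ := single_some X h1
  exact ⟨h2, h3.symm⟩

def IsSingle (t : PIdx X I) : Prop := ∃ i u, t = single X i u

variable (I)

/-- the disjoint union of the spaces of the power: a copy of the space `C U` for each family with
the only member `U`, and one point for each other family -/
inductive PPt : Type
  | one (i : I) (p : X.Pt) : PPt
  | pt (t : PIdx X I) (h : ¬ IsSingle X t) : PPt

variable {I}

noncomputable def pbase : PPt X I → PIdx X I
  | .one i p => single X i (X.base p)
  | .pt t _ => t

def pdist : PPt X I → PPt X I → ℝ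
  | .one _ p, .one _ q => X.dist p q
  | _, _ => 0

def pnest (s t : PIdx X I) : Prop := ∀ i u, s.1 i = some u → ∃ v, t.1 i = some v ∧ X.nest u v

def porth (s t : PIdx X I) : Prop := ∀ i u v, s.1 i = some u → t.1 i = some v → X.orth u v

def pproj (t : PIdx X I) (x : I → Q) : Set (PPt X I) :=
  {p' | pbase X p' = t ∧ ∀ i p, p' = .one i p → p ∈ X.proj (X.base p) (x i)}

def prho (s t : PIdx X I) : Set (PPt X I) :=
  {q' | pbase X q' = t ∧ ∀ i q, q' = .one i q → ∃ v, s.1 i = some v ∧ q ∈ X.rho v (X.base q)}

def prhoDown (t : PIdx X I) (q' : PPt X I) : Set (PPt X I) :=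
  {p' | pbase X p' = t ∧ ∀ i p j q, p' = .one i p → q' = .one j q → p ∈ X.rhoDown (X.base p) q}

variable {X}

theorem base_single {p' : PPt X I} {i : I} {u : X.Idx} (h : pbase X p' = single X i u) :
    ∃ p, p' = .one i p ∧ X.base p = u := by
  cases p' with
  | one j p =>
    obtain ⟨h1, h2⟩ := single_inj X h
    subst h1
    exact ⟨p, rfl, h2⟩
  | pt t ht => exact absurd ⟨i, u, h⟩ ht

theorem base_not {p' : PPt X I} {t : PIdx X I} (ht : ¬ IsSingle X t) (h : pbase X p' = t) :
    p' = .pt t ht := by
  cases p' with
  | one j p => exact absurd ⟨j, X.base p, h.symm⟩ ht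
  | pt s hs =>
    have : s = t := h
    subst this
    rfl

theorem one_inj {i j : I} {p q : X.Pt} (h : (PPt.one i p : PPt X I) = .one j q) : i = j ∧ p = q := by
  cases h
  exact ⟨rfl, rfl⟩

/-! ### nesting and orthogonality -/

theorem pnest_refl (s : PIdx X I) : pnest X s s := fun _ u h => ⟨u, h, X.nest_refl u⟩

theorem pnest_trans (r s t : PIdx X I) (h1 : pnest X r s) (h2 : pnest X s t) : pnest X r t := by
  intro i u hu
  obtain ⟨v, hv, huv⟩ := h1 i u hu
  obtain ⟨w, hw, hvw⟩ := h2 i v hv
  exact ⟨w, hw, X.nest_trans u v w huv hvw⟩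

theorem pnest_antisymm (s t : PIdx X I) (h1 : pnest X s t) (h2 : pnest X t s) : s = t := by
  apply Subtype.ext
  funext i
  cases hs : s.1 i with
  | none =>
    cases ht : t.1 i with
    | none => rfl
    | some v =>
      obtain ⟨w, hw, _⟩ := h2 i v ht
      rw [hs] at hw
      cases hw
  | some u =>
    obtain ⟨v, hv, huv⟩ := h1 i u hs
    obtain ⟨w, hw, hvw⟩ := h2 i v hv
    rw [hs] at hw
    cases hw
    rw [hv, X.nest_antisymm u v huv hvw]

theorem porth_symm (s t : PIdx X I) (h : porth X s t) : porth X t s :=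
  fun i u v hu hv => X.orth_symm v u (h i v u hv hu)

theorem porth_irrefl (s : PIdx X I) : ¬ porth X s s := by
  intro h
  obtain ⟨i, u, hu⟩ := s.2
  exact X.orth_irrefl u (h i u u hu hu)

theorem porth_of_nest (u v w : PIdx X I) (h1 : pnest X v w) (h2 : porth X w u) : porth X v u := by
  intro i a b ha hb
  obtain ⟨c, hc, hac⟩ := h1 i a ha
  exact X.orth_of_nest b a c hac (h2 i c b hc hb)

theorem porth_not_nest (u v : PIdx X I) (h : porth X u v) : ¬ pnest X u v := by
  intro h2
  obtain ⟨i, a, ha⟩ := u.2
  obtain ⟨c, hc, hac⟩ := h2 i a ha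
  exact X.orth_not_nest a c (h i a c ha hc) hac

theorem pcontainer (t u : PIdx X I) (h : pnest X u t) (hv : ∃ v, pnest X v t ∧ porth X v u) :
    ∃ w, PNest (pnest X) w t ∧ ∀ v, porth X v u → pnest X v t → pnest X v w := by
  have key : ∀ a b : X.Idx, X.nest a b → (∃ v, X.nest v b ∧ X.orth v a) →
    ∃ w, PNest X.nest w b ∧ ∀ v, X.orth v a → X.nest v b → X.nest v w := fun a b => X.container b a
  let f : I → Option X.Idx := fun i =>
    match t.1 i, u.1 i with
    | none, _ => none
    | some b, none => some b
    | some b, some a => if h : X.nest a b ∧ ∃ v, X.nest v b ∧ X.orth v a then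
        some (Classical.choose (key a b h.1 h.2)) else none
  obtain ⟨v0, hv0, hv0'⟩ := hv
  have hmain : ∀ v : PIdx X I, porth X v u → pnest X v t →
      ∀ i c, v.1 i = some c → ∃ e, f i = some e ∧ X.nest c e := by
    intro v h1 h2 i c hc
    obtain ⟨b, hb, hcb⟩ := h2 i c hc
    cases ha : u.1 i with
    | none => exact ⟨b, by simp [f, hb, ha], hcb⟩
    | some a =>
      obtain ⟨b', hb', hab⟩ := h i a ha
      rw [hb] at hb'
      cases hb'
      have hca : X.orth c a := h1 i c a hc ha
      have hh : X.nest a b ∧ ∃ v, X.nest v b ∧ X.orth v a := ⟨hab, c, hcb, hca⟩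
      refine ⟨Classical.choose (key a b hh.1 hh.2), by simp [f, hb, ha, hh], ?_⟩
      exact (Classical.choose_spec (key a b hh.1 hh.2)).2 c hca hcb
  obtain ⟨i0, c0, hc0⟩ := v0.2
  obtain ⟨e0, he0, _⟩ := hmain v0 hv0' hv0 i0 c0 hc0
  refine ⟨⟨f, i0, e0, he0⟩, ⟨?_, ?_⟩, ?_⟩
  · intro i e he
    replace he : f i = some e := he
    cases hb : t.1 i with
    | none => simp [f, hb] at he
    | some b =>
      cases ha : u.1 i with
      | none =>
        simp [f, hb, ha] at he
        exact ⟨b, rfl, by rw [he]; exact X.nest_refl _⟩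
      | some a =>
        by_cases hh : X.nest a b ∧ ∃ v, X.nest v b ∧ X.orth v a
        · simp only [f, hb, ha, dif_pos hh] at he
          cases he
          exact ⟨b, rfl, (Classical.choose_spec (key a b hh.1 hh.2)).1.1⟩
        · simp [f, hb, ha, hh] at he
  · intro heq
    obtain ⟨i, a, ha⟩ := u.2
    obtain ⟨b, hb, hab⟩ := h i a ha
    have h1 : f i = some b := by
      have := congrArg (fun s : PIdx X I => s.1 i) heq
      rw [← hb]; exact this
    by_cases hh : X.nest a b ∧ ∃ v, X.nest v b ∧ X.orth v a
    · simp only [f, hb, ha, dif_pos hh] at h1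
      exact (Classical.choose_spec (key a b hh.1 hh.2)).1.2 (Option.some.inj h1)
    · simp [f, hb, ha, hh] at h1
  · intro v h1 h2 i c hc
    exact hmain v h1 h2 i c hc

theorem nest_single {s : PIdx X I} {j : I} {w : X.Idx} (h : pnest X s (single X j w)) :
    ∃ v, s = single X j v ∧ X.nest v w := by
  obtain ⟨i, u, hu⟩ := s.2
  obtain ⟨v, hv, huv⟩ := h i u hu
  obtain ⟨h1, h2⟩ := single_some X hv
  subst h1; subst h2
  refine ⟨u, ?_, huv⟩
  apply Subtype.ext
  funext k
  by_cases hk : k = i
  · subst hk
    rw [hu, single_self]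
  · cases hs : s.1 k with
    | none => simp [single, hk]
    | some a =>
      obtain ⟨b, hb, _⟩ := h k a hs
      exact absurd (single_some X hb).1 hk

theorem single_nest {j : I} {v : X.Idx} {t : PIdx X I} :
    pnest X (single X j v) t ↔ ∃ w, t.1 j = some w ∧ X.nest v w := by
  constructor
  · intro h
    exact h j v (single_self X j v)
  · rintro ⟨w, hw, hvw⟩ i u hu
    obtain ⟨h1, h2⟩ := single_some X hu
    subst h1; subst h2
    exact ⟨w, hw, hvw⟩

theorem single_nest_single {j : I} {v w : X.Idx} :
    pnest X (single X j v) (single X j w) ↔ X.nest v w := by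
  rw [single_nest]
  constructor
  · rintro ⟨w', hw', h⟩
    rw [single_self] at hw'
    cases hw'
    exact h
  · intro h
    exact ⟨w, single_self X j w, h⟩

theorem pnest_single_single {s : PIdx X I} {j : I} {w : X.Idx}
    (h : PNest (pnest X) s (single X j w)) : ∃ v, s = single X j v ∧ PNest X.nest v w := by
  obtain ⟨v, hv, hvw⟩ := nest_single h.1
  refine ⟨v, hv, hvw, ?_⟩
  rintro rfl
  exact h.2 hv

/-- a family which is transverse to or properly nested in `single j w` has a member at `j` which is
transverse to or properly nested in `w` -/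
theorem rel_single {s : PIdx X I} {j : I} {w : X.Idx}
    (h : PNest (pnest X) s (single X j w) ∨ Trans (pnest X) (porth X) s (single X j w)) :
    ∃ v, s.1 j = some v ∧ (PNest X.nest v w ∨ Trans X.nest X.orth v w) := by
  rcases h with h | ⟨h1, h2, h3⟩
  · obtain ⟨v, rfl, hv⟩ := pnest_single_single h
    exact ⟨v, single_self X j v, Or.inl hv⟩
  · unfold porth at h1
    push Not at h1
    obtain ⟨i, u, v, hu, hv, huv⟩ := h1
    obtain ⟨h4, h5⟩ := single_some X hv
    subst h4; subst h5
    refine ⟨u, hu, ?_⟩
    have h6 : ¬ X.nest w u := fun h => h3 (single_nest.2 ⟨u, hu, h⟩)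
    by_cases h7 : X.nest u w
    · left
      refine ⟨h7, ?_⟩
      rintro rfl
      exact h6 h7
    · right
      exact ⟨huv, h7, h6⟩

theorem ptop [Nonempty I] : IsEmpty (PIdx X I) ∨ ∃ s : PIdx X I, ∀ u, pnest X u s := by
  rcases X.nest_top with h | ⟨s, hs⟩
  · left
    constructor
    rintro ⟨t, i, u, hu⟩
    exact h.elim u
  · right
    refine ⟨⟨fun _ => some s, Classical.arbitrary I, s, rfl⟩, ?_⟩
    intro u i v _
    exact ⟨s, rfl, hs v⟩

theorem pcomplexity [Fintype I] : ∃ n : ℕ, ∀ F : Finset (PIdx X I),
    (∀ u ∈ F, ∀ v ∈ F, pnest X u v ∨ pnest X v u) → F.card ≤ n := by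
  obtain ⟨n, hn⟩ := X.complexity
  refine ⟨∏ _i : I, (n + 1), ?_⟩
  intro F hF
  let Fi : I → Finset (Option X.Idx) := fun i => F.image fun t => t.1 i
  have hFi : ∀ i, (Fi i).card ≤ n + 1 := by
    intro i
    have h1 : (Finset.eraseNone (Fi i)).card ≤ n := by
      apply hn
      intro u hu v hv
      rw [Finset.mem_eraseNone] at hu hv
      obtain ⟨s, hs, hsu⟩ := Finset.mem_image.1 hu
      obtain ⟨t, ht, htv⟩ := Finset.mem_image.1 hv
      rcases hF s hs t ht with h | h
      · left
        obtain ⟨w, hw, huw⟩ := h i u hsu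
        rw [htv] at hw
        cases hw
        exact huw
      · right
        obtain ⟨w, hw, huw⟩ := h i v htv
        rw [hsu] at hw
        cases hw
        exact huw
    have h2 : Fi i ⊆ Finset.insertNone (Finset.eraseNone (Fi i)) := by
      rw [Finset.insertNone_eraseNone]
      exact Finset.subset_insert _ _
    calc (Fi i).card ≤ (Finset.insertNone (Finset.eraseNone (Fi i))).card := Finset.card_le_card h2
      _ = (Finset.eraseNone (Fi i)).card + 1 := Finset.card_insertNone _
      _ ≤ n + 1 := by omega
  have h3 : F.card ≤ (Fintype.piFinset Fi).card := by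
    apply Finset.card_le_card_of_injOn (fun t => t.1)
    · intro t ht
      rw [Finset.mem_coe, Fintype.mem_piFinset]
      intro i
      exact Finset.mem_image_of_mem _ ht
    · intro s _ t _ h
      exact Subtype.ext h
  rw [Fintype.card_piFinset] at h3
  exact h3.trans (Finset.prod_le_prod' fun i _ => hFi i)

end Pool.Agent.H898.HH
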