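import Pool.Agent.H898.HH.Pow

/-!
# Finite powers of a hierarchically hyperbolic structure: the axioms
-/

set_option autoImplicit false

namespace Pool.Agent.H898.HH

open Classical

variable {Q : Type} {d : Q → Q → ℝ} {X : HHS Q d} {I : Type}

theorem geod_one {u : X.Idx} {L : ℝ} {γ : ℝ → X.Pt} (i : I) (h : IsGeod X.base X.dist u L γ) :
    IsGeod (pbase X) (pdist X) (single X i u) L (fun s => .one i (γ s)) := by
  refine ⟨h.1, ?_, ?_⟩
  · intro s hs
    show single X i (X.base (γ s)) = single X i u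
    rw [h.2.1 s hs]
  · intro s hs t ht
    exact h.2.2 s hs t ht

theorem geod_single {i : I} {u : X.Idx} {L : ℝ} {γ' : ℝ → PPt X I}
    (h : IsGeod (pbase X) (pdist X) (single X i u) L γ') :
    ∃ γ : ℝ → X.Pt, IsGeod X.base X.dist u L γ ∧ ∀ s ∈ Set.Icc 0 L, γ' s = .one i (γ s) := by
  have h1 : ∀ s ∈ Set.Icc 0 L, ∃ p, γ' s = .one i p ∧ X.base p = u :=
    fun s hs => base_single (h.2.1 s hs)
  obtain ⟨p0, _, _⟩ := h1 0 ⟨le_refl 0, h.1⟩
  let γ : ℝ → X.Pt := fun s => if hs : s ∈ Set.Icc 0 L then Classical.choose (h1 s hs) else p0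
  have h2 : ∀ s ∈ Set.Icc 0 L, γ' s = .one i (γ s) ∧ X.base (γ s) = u := by
    intro s hs
    have : γ s = Classical.choose (h1 s hs) := by simp only [γ, dif_pos hs]
    rw [this]
    exact Classical.choose_spec (h1 s hs)
  refine ⟨γ, ⟨h.1, fun s hs => (h2 s hs).2, ?_⟩, fun s hs => (h2 s hs).1⟩
  intro s hs t ht
  have h3 := h.2.2 s hs t ht
  rw [(h2 s hs).1, (h2 t ht).1] at h3
  exact h3

theorem pdist_self (p : PPt X I) : pdist X p p = 0 := by
  cases p with
  | one i p => exact X.dist_self p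
  | pt t h => rfl

theorem pbase_eq_cases {p q : PPt X I} (h : pbase X p = pbase X q) :
    (∃ i a b, p = .one i a ∧ q = .one i b ∧ X.base a = X.base b) ∨
    (p = q ∧ ∃ t ht, p = .pt t ht) := by
  cases p with
  | one i a =>
    left
    obtain ⟨b, hb, hb'⟩ := base_single (p' := q) (i := i) (u := X.base a) h.symm
    exact ⟨i, a, b, rfl, hb, hb'.symm⟩
  | pt t ht =>
    right
    have := base_not ht (p' := q) h.symm
    exact ⟨this.symm, t, ht, rfl⟩

theorem peq_of_dist (p q : PPt X I) (h : pbase X p = pbase X q) (h0 : pdist X p q = 0) : p = q := by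
  rcases pbase_eq_cases h with ⟨i, a, b, rfl, rfl, hab⟩ | ⟨h, _⟩
  · rw [X.eq_of_dist a b hab h0]
  · exact h

theorem pdist_comm (p q : PPt X I) (h : pbase X p = pbase X q) : pdist X p q = pdist X q p := by
  rcases pbase_eq_cases h with ⟨i, a, b, rfl, rfl, hab⟩ | ⟨h, _⟩
  · exact X.dist_comm a b hab
  · rw [h]

theorem pdist_triangle (p q r : PPt X I) (h : pbase X p = pbase X q) (h' : pbase X q = pbase X r) :
    pdist X p r ≤ pdist X p q + pdist X q r := by
  rcases pbase_eq_cases h with ⟨i, a, b, rfl, rfl, hab⟩ | ⟨h1, t, ht, h2⟩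
  · obtain ⟨c, rfl, hc⟩ := base_single (p' := r) (i := i) (u := X.base b) h'.symm
    exact X.dist_triangle a b c hab hc.symm
  · subst h2
    subst h1
    have := base_not ht (p' := r) h'.symm
    subst this
    simp [pdist]

theorem pgeodesic (p q : PPt X I) (h : pbase X p = pbase X q) :
    ∃ (L : ℝ) (γ : ℝ → PPt X I), IsGeod (pbase X) (pdist X) (pbase X p) L γ ∧ γ 0 = p ∧ γ L = q := by
  rcases pbase_eq_cases h with ⟨i, a, b, rfl, rfl, hab⟩ | ⟨h1, t, ht, h2⟩
  · obtain ⟨L, γ, h1, h2, h3⟩ := X.geodesic a b hab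
    refine ⟨L, fun s => .one i (γ s), geod_one i h1, ?_, ?_⟩
    · simp only [h2]
    · simp only [h3]
  · subst h1
    refine ⟨0, fun _ => p, ⟨le_refl 0, fun _ _ => rfl, ?_⟩, rfl, rfl⟩
    intro s hs t ht
    have h3 : s = 0 := le_antisymm hs.2 hs.1
    have h4 : t = 0 := le_antisymm ht.2 ht.1
    rw [h3, h4, pdist_self]
    simp

theorem phyperbolic (x y z w : PPt X I) (h1 : pbase X x = pbase X y) (h2 : pbase X y = pbase X z)
    (h3 : pbase X z = pbase X w) : pdist X x y + pdist X z w ≤
      max (pdist X x z + pdist X y w) (pdist X x w + pdist X y z) + 2 * max X.δ 0 := by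
  cases x with
  | one i a =>
    obtain ⟨b, rfl, hb⟩ := base_single (p' := y) (i := i) (u := X.base a) h1.symm
    obtain ⟨c, rfl, hc⟩ := base_single (p' := z) (i := i) (u := X.base b) h2.symm
    obtain ⟨e, rfl, he⟩ := base_single (p' := w) (i := i) (u := X.base c) h3.symm
    have := X.hyperbolic a b c e hb.symm hc.symm he.symm
    have h4 : X.δ ≤ max X.δ 0 := le_max_left _ _
    calc X.dist a b + X.dist c e ≤ max (X.dist a c + X.dist b e) (X.dist a e + X.dist b c)
          + 2 * X.δ := this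
      _ ≤ _ := by
        show _ ≤ max (X.dist a c + X.dist b e) (X.dist a e + X.dist b c) + 2 * max X.δ 0
        linarith
  | pt t ht =>
    have e1 := base_not ht (p' := y) h1.symm
    subst e1
    have e2 := base_not ht (p' := z) h2.symm
    subst e2
    have e3 := base_not ht (p' := w) h3.symm
    subst e3
    have h4 : 0 ≤ max X.δ 0 := le_max_right _ _
    simp only [pdist, add_zero, max_self]
    linarith

/-! ### projections -/

theorem pproj_base (u : PIdx X I) (x : I → Q) : ∀ p ∈ pproj X u x, pbase X p = u := fun _ h => h.1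

theorem one_mem_pproj {i : I} {u : X.Idx} {x : I → Q} {p : X.Pt} :
    PPt.one i p ∈ pproj X (single X i u) x ↔ p ∈ X.proj u (x i) := by
  constructor
  · rintro ⟨h1, h2⟩
    have h3 : X.base p = u := (single_inj X h1).2
    have := h2 i p rfl
    rwa [h3] at this
  · intro h
    have h3 := X.proj_base u (x i) p h
    refine ⟨?_, ?_⟩
    · show single X i (X.base p) = _
      rw [h3]
    · intro j q hq
      obtain ⟨h4, h5⟩ := one_inj hq
      subst h4; subst h5
      rw [h3]; exact h

theorem pt_mem_pproj {t : PIdx X I} (ht : ¬ IsSingle X t) (x : I → Q) :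
    PPt.pt t ht ∈ pproj X t x :=
  ⟨rfl, fun _ _ h => by cases h⟩

theorem mem_pproj_single {i : I} {u : X.Idx} {x : I → Q} {p' : PPt X I}
    (h : p' ∈ pproj X (single X i u) x) : ∃ p, p' = .one i p ∧ p ∈ X.proj u (x i) := by
  obtain ⟨p, rfl, hp⟩ := base_single h.1
  exact ⟨p, rfl, one_mem_pproj.1 h⟩

theorem pproj_nonempty (t : PIdx X I) (x : I → Q) : (pproj X t x).Nonempty := by
  by_cases ht : IsSingle X t
  · obtain ⟨i, u, rfl⟩ := ht
    obtain ⟨p, hp⟩ := X.proj_nonempty u (x i)
    exact ⟨.one i p, one_mem_pproj.2 hp⟩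
  · exact ⟨.pt t ht, pt_mem_pproj ht x⟩

theorem pproj_diam (t : PIdx X I) (x : I → Q) : DiamLE (pdist X) (max X.ξ 0) (pproj X t x) := by
  intro p hp q hq
  by_cases ht : IsSingle X t
  · obtain ⟨i, u, rfl⟩ := ht
    obtain ⟨a, rfl, ha⟩ := mem_pproj_single hp
    obtain ⟨b, rfl, hb⟩ := mem_pproj_single hq
    exact (X.proj_diam u (x i) a ha b hb).trans (le_max_left _ _)
  · have e1 := base_not ht hp.1
    have e2 := base_not ht hq.1
    subst e1; subst e2
    exact le_max_right _ _

theorem pproj_lipschitz [Fintype I] (hd : ∀ x y, 0 ≤ d x y) (t : PIdx X I) (x y : I → Q) :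
    ∀ p ∈ pproj X t x, ∀ q ∈ pproj X t y,
      pdist X p q ≤ max X.K 0 * (∑ i, d (x i) (y i)) + max X.K 0 := by
  intro p hp q hq
  have hK : 0 ≤ max X.K 0 := le_max_right _ _
  have hs : 0 ≤ ∑ i, d (x i) (y i) := Finset.sum_nonneg fun i _ => hd _ _
  by_cases ht : IsSingle X t
  · obtain ⟨i, u, rfl⟩ := ht
    obtain ⟨a, rfl, ha⟩ := mem_pproj_single hp
    obtain ⟨b, rfl, hb⟩ := mem_pproj_single hq
    have h1 := X.proj_lipschitz u (x i) (y i) a ha b hb
    have h2 : d (x i) (y i) ≤ ∑ i, d (x i) (y i) :=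
      Finset.single_le_sum (fun i _ => hd (x i) (y i)) (Finset.mem_univ i)
    have h3 : X.K ≤ max X.K 0 := le_max_left _ _
    calc X.dist a b ≤ X.K * d (x i) (y i) + X.K := h1
      _ ≤ max X.K 0 * d (x i) (y i) + max X.K 0 := by
        have := mul_le_mul_of_nonneg_right h3 (hd (x i) (y i))
        linarith
      _ ≤ _ := by
        have := mul_le_mul_of_nonneg_left h2 hK
        linarith
  · have e1 := base_not ht hp.1
    have e2 := base_not ht hq.1
    subst e1; subst e2
    show (0 : ℝ) ≤ _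
    positivity

theorem pproj_quasiconvex (t : PIdx X I) (x y : I → Q) : ∀ p ∈ pproj X t x, ∀ q ∈ pproj X t y,
    ∀ (L : ℝ) (γ : ℝ → PPt X I), IsGeod (pbase X) (pdist X) t L γ → γ 0 = p → γ L = q →
    ∀ s ∈ Set.Icc 0 L, ∃ z, ∃ r ∈ pproj X t z, pdist X (γ s) r ≤ max X.K 0 := by
  intro p hp q hq L γ hγ h0 h1 s hs
  by_cases ht : IsSingle X t
  · obtain ⟨i, u, rfl⟩ := ht
    obtain ⟨a, rfl, ha⟩ := mem_pproj_single hp
    obtain ⟨b, rfl, hb⟩ := mem_pproj_single hq
    obtain ⟨γ0, hg, hγ0⟩ := geod_single hγ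
    have e0 : γ0 0 = a := by
      have := hγ0 0 ⟨le_refl 0, hγ.1⟩
      rw [h0] at this
      exact (one_inj this).2.symm
    have e1 : γ0 L = b := by
      have := hγ0 L ⟨hγ.1, le_refl L⟩
      rw [h1] at this
      exact (one_inj this).2.symm
    obtain ⟨z, r, hr, hzr⟩ := X.proj_quasiconvex u (x i) (y i) a ha b hb L γ0 hg e0 e1 s hs
    refine ⟨fun _ => z, .one i r, one_mem_pproj.2 hr, ?_⟩
    rw [hγ0 s hs]
    exact hzr.trans (le_max_left _ _)
  · have e1 := base_not ht (hγ.2.1 s hs)
    refine ⟨x, .pt t ht, pt_mem_pproj ht x, ?_⟩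
    rw [e1]
    exact le_max_right _ _

/-! ### the sets `ρ` -/

theorem one_mem_prho {s : PIdx X I} {j : I} {v w : X.Idx} {q : X.Pt} (hv : s.1 j = some v)
    (hw : X.base q = w) (h : q ∈ X.rho v w) : PPt.one j q ∈ prho X s (single X j w) := by
  refine ⟨?_, ?_⟩
  · show single X j (X.base q) = _
    rw [hw]
  · intro i q' hq'
    obtain ⟨h1, h2⟩ := one_inj hq'
    subst h1; subst h2
    exact ⟨v, hv, by rw [hw]; exact h⟩

theorem pt_mem_prho (s : PIdx X I) {t : PIdx X I} (ht : ¬ IsSingle X t) :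
    PPt.pt t ht ∈ prho X s t :=
  ⟨rfl, fun _ _ h => by cases h⟩

theorem mem_prho_single {s : PIdx X I} {j : I} {v w : X.Idx} (hv : s.1 j = some v) {q' : PPt X I}
    (h : q' ∈ prho X s (single X j w)) : ∃ q, q' = .one j q ∧ q ∈ X.rho v w := by
  obtain ⟨q, rfl, hq⟩ := base_single h.1
  obtain ⟨v', hv', h'⟩ := h.2 j q rfl
  rw [hv] at hv'
  cases hv'
  rw [hq] at h'
  exact ⟨q, rfl, h'⟩

theorem prho_nonempty (s t : PIdx X I)
    (h : PNest (pnest X) s t ∨ Trans (pnest X) (porth X) s t) : (prho X s t).Nonempty := by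
  by_cases ht : IsSingle X t
  · obtain ⟨j, w, rfl⟩ := ht
    obtain ⟨v, hv, hvw⟩ := rel_single h
    obtain ⟨q, hq⟩ := X.rho_nonempty v w hvw
    exact ⟨.one j q, one_mem_prho hv (X.rho_base v w hvw q hq) hq⟩
  · exact ⟨.pt t ht, pt_mem_prho s ht⟩

theorem prho_diam (s t : PIdx X I)
    (h : PNest (pnest X) s t ∨ Trans (pnest X) (porth X) s t) :
    DiamLE (pdist X) (max X.ξ 0) (prho X s t) := by
  intro p hp q hq
  by_cases ht : IsSingle X t
  · obtain ⟨j, w, rfl⟩ := ht
    obtain ⟨v, hv, hvw⟩ := rel_single h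
    obtain ⟨a, rfl, ha⟩ := mem_prho_single hv hp
    obtain ⟨b, rfl, hb⟩ := mem_prho_single hv hq
    exact (X.rho_diam v w hvw a ha b hb).trans (le_max_left _ _)
  · have e1 := base_not ht hp.1
    have e2 := base_not ht hq.1
    subst e1; subst e2
    exact le_max_right _ _

theorem prhoDown_nonempty [Nonempty Q] (v : PIdx X I) (p : PPt X I)
    (h : PNest (pnest X) v (pbase X p)) : (prhoDown X v p).Nonempty := by
  cases p with
  | one j q =>
    obtain ⟨a, rfl, ha⟩ := pnest_single_single h
    obtain ⟨r, hr⟩ := X.rhoDown_nonempty a q ha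
    refine ⟨.one j r, ?_, ?_⟩
    · show single X j (X.base r) = _
      rw [X.rhoDown_base a q ha r hr]
    · intro i p k q' h1 h2
      obtain ⟨e1, e2⟩ := one_inj h1
      obtain ⟨e3, e4⟩ := one_inj h2
      subst e1; subst e2; subst e3; subst e4
      rw [X.rhoDown_base a q ha r hr]
      exact hr
  | pt t ht =>
    obtain ⟨r, hr⟩ := pproj_nonempty v (fun _ => Classical.arbitrary Q)
    exact ⟨r, hr.1, fun _ _ _ _ _ h2 => by cases h2⟩

theorem mem_prhoDown_one {j : I} {a : X.Idx} {q : X.Pt} {p' : PPt X I}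
    (h : p' ∈ prhoDown X (single X j a) (.one j q)) :
    ∃ p, p' = .one j p ∧ p ∈ X.rhoDown a q := by
  obtain ⟨p, rfl, hp⟩ := base_single h.1
  have := h.2 j p j q rfl rfl
  rw [hp] at this
  exact ⟨p, rfl, this⟩

/-! ### consistency -/

theorem near_pt {r : ℝ} (hr : 0 ≤ r) {t : PIdx X I} (ht : ¬ IsSingle X t) {A B : Set (PPt X I)}
    (hA : PPt.pt t ht ∈ A) (hB : PPt.pt t ht ∈ B) : Near (pdist X) r A B :=
  ⟨_, hA, _, hB, by rw [pdist_self]; exact hr⟩

theorem single_trans_single {i j : I} {v w : X.Idx}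
    (h : Trans (pnest X) (porth X) (single X i v) (single X j w)) :
    i = j ∧ Trans X.nest X.orth v w := by
  obtain ⟨h1, h2, h3⟩ := h
  unfold porth at h1
  push Not at h1
  obtain ⟨k, a, b, ha, hb, hab⟩ := h1
  obtain ⟨e1, e2⟩ := single_some X ha
  obtain ⟨e3, e4⟩ := single_some X hb
  subst e1; subst e2; subst e4
  subst e3
  exact ⟨rfl, hab, fun h => h2 (single_nest_single.2 h), fun h => h3 (single_nest_single.2 h)⟩

theorem near_one {r r' : ℝ} (hr : r ≤ r') {j : I} {A B : Set X.Pt} {A' B' : Set (PPt X I)}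
    (hA : ∀ p ∈ A, PPt.one j p ∈ A') (hB : ∀ p ∈ B, PPt.one j p ∈ B')
    (h : Near X.dist r A B) : Near (pdist X) r' A' B' := by
  obtain ⟨p, hp, q, hq, hpq⟩ := h
  exact ⟨_, hA p hp, _, hB q hq, le_trans hpq hr⟩

theorem pconsistency_trans (u v : PIdx X I) (h : Trans (pnest X) (porth X) u v) (x : I → Q) :
    Near (pdist X) (max X.κ 0) (pproj X v x) (prho X u v) ∨
      Near (pdist X) (max X.κ 0) (pproj X u x) (prho X v u) := by
  by_cases hv : IsSingle X v
  · by_cases hu : IsSingle X u
    · obtain ⟨i, a, rfl⟩ := hu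
      obtain ⟨j, b, rfl⟩ := hv
      obtain ⟨rfl, hab⟩ := single_trans_single h
      have hba : Trans X.nest X.orth b a := ⟨fun h => hab.1 (X.orth_symm _ _ h), hab.2.2, hab.2.1⟩
      rcases X.consistency_trans a b hab (x i) with h1 | h1
      · left
        exact near_one (le_max_left _ _) (fun p hp => one_mem_pproj.2 hp)
          (fun p hp => one_mem_prho (single_self X i a) (X.rho_base a b (Or.inr hab) p hp) hp) h1
      · right
        exact near_one (le_max_left _ _) (fun p hp => one_mem_pproj.2 hp)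
          (fun p hp => one_mem_prho (single_self X i b) (X.rho_base b a (Or.inr hba) p hp) hp) h1
    · right
      exact near_pt (le_max_right _ _) hu (pt_mem_pproj hu x) (pt_mem_prho v hu)
  · left
    exact near_pt (le_max_right _ _) hv (pt_mem_pproj hv x) (pt_mem_prho u hv)

theorem pconsistency_nest (v w : PIdx X I) (h : PNest (pnest X) v w) (x : I → Q) :
    Near (pdist X) (max X.κ 0) (pproj X w x) (prho X v w) ∨
      DiamLE (pdist X) (max X.κ 0)
        (pproj X v x ∪ {q | ∃ p ∈ pproj X w x, q ∈ prhoDown X v p}) := by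
  by_cases hw : IsSingle X w
  · obtain ⟨j, b, rfl⟩ := hw
    obtain ⟨a, rfl, hab⟩ := pnest_single_single h
    rcases X.consistency_nest a b hab (x j) with h1 | h1
    · left
      exact near_one (le_max_left _ _) (fun p hp => one_mem_pproj.2 hp)
        (fun p hp => one_mem_prho (single_self X j a) (X.rho_base a b (Or.inl hab) p hp) hp) h1
    · right
      have key : ∀ p' ∈ (pproj X (single X j a) x ∪
          {q | ∃ p ∈ pproj X (single X j b) x, q ∈ prhoDown X (single X j a) p}),
          ∃ p, p' = .one j p ∧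
            p ∈ (X.proj a (x j) ∪ {q | ∃ p ∈ X.proj b (x j), q ∈ X.rhoDown a p}) := by
        rintro p' (hp | ⟨q', hq', hp⟩)
        · obtain ⟨p, rfl, hp'⟩ := mem_pproj_single hp
          exact ⟨p, rfl, Or.inl hp'⟩
        · obtain ⟨q, rfl, hq⟩ := mem_pproj_single hq'
          obtain ⟨p, rfl, hp'⟩ := mem_prhoDown_one hp
          exact ⟨p, rfl, Or.inr ⟨q, hq, hp'⟩⟩
      intro p hp q hq
      obtain ⟨a', rfl, ha'⟩ := key p hp
      obtain ⟨b', rfl, hb'⟩ := key q hq
      exact (h1 a' ha' b' hb').trans (le_max_left _ _)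
  · left
    exact near_pt (le_max_right _ _) hw (pt_mem_pproj hw x) (pt_mem_prho v hw)

theorem pconsistency_rho (u v w : PIdx X I) (huv : pnest X u v)
    (h : PNest (pnest X) v w ∨ (Trans (pnest X) (porth X) v w ∧ ¬ porth X w u)) :
    Near (pdist X) (max X.κ 0) (prho X u w) (prho X v w) := by
  by_cases hw : IsSingle X w
  · obtain ⟨j, c, rfl⟩ := hw
    rcases h with h | ⟨h1, h2⟩
    · obtain ⟨b, rfl, hbc⟩ := pnest_single_single h
      obtain ⟨a, rfl, hab⟩ := nest_single huv
      have hac : PNest X.nest a c := by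
        refine ⟨X.nest_trans a b c hab hbc.1, ?_⟩
        rintro rfl
        exact hbc.2 (X.nest_antisymm _ _ hbc.1 hab)
      exact near_one (le_max_left _ _)
        (fun p hp => one_mem_prho (single_self X j a) (X.rho_base a c (Or.inl hac) p hp) hp)
        (fun p hp => one_mem_prho (single_self X j b) (X.rho_base b c (Or.inl hbc) p hp) hp)
        (X.consistency_rho a b c hab (Or.inl hbc))
    · unfold porth at h2
      push Not at h2
      obtain ⟨k, c', a, hc', ha, hca⟩ := h2
      obtain ⟨e1, e2⟩ := single_some X hc'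
      subst e1; subst e2
      obtain ⟨b, hb, hab⟩ := huv k a ha
      obtain ⟨b', hb', hbc⟩ := rel_single (Or.inr h1)
      rw [hb] at hb'
      cases hb'
      have hcb : ¬ X.nest c b := by
        intro h3
        exact h1.2.2 (single_nest.2 ⟨b, hb, h3⟩)
      have hac : PNest X.nest a c ∨ Trans X.nest X.orth a c := by
        by_cases h3 : X.nest a c
        · left
          refine ⟨h3, ?_⟩
          rintro rfl
          exact hcb hab
        · right
          refine ⟨fun h4 => hca (X.orth_symm _ _ h4), h3, ?_⟩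
          intro h4
          exact hcb (X.nest_trans _ _ _ h4 hab)
      have h3 : Near X.dist X.κ (X.rho a c) (X.rho b c) := by
        apply X.consistency_rho a b c hab
        rcases hbc with h4 | h4
        · exact Or.inl h4
        · exact Or.inr ⟨h4, hca⟩
      exact near_one (le_max_left _ _)
        (fun p hp => one_mem_prho ha (X.rho_base a c hac p hp) hp)
        (fun p hp => one_mem_prho hb (X.rho_base b c hbc p hp) hp) h3
  · exact near_pt (le_max_right _ _) hw (pt_mem_prho u hw) (pt_mem_prho v hw)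

/-! ### large links -/

theorem plarge_links [Fintype I] (w : PIdx X I) (x y : I → Q) :
    ∀ p ∈ pproj X w x, ∀ q ∈ pproj X w y, ∃ F : Finset (PIdx X I),
    (F.card : ℝ) ≤ max X.lam (Fintype.card I) * pdist X p q + max X.lam (Fintype.card I) ∧
    (∀ t ∈ F, PNest (pnest X) t w ∧
      Near (pdist X) (max X.lam (Fintype.card I) * pdist X p q + max X.lam (Fintype.card I))
        (pproj X w x) (prho X t w)) ∧
    ∀ v, PNest (pnest X) v w → (∃ t ∈ F, pnest X v t) ∨
      ∃ p' ∈ pproj X v x, ∃ q' ∈ pproj X v y, pdist X p' q' < max X.E 1 := by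
  intro p hp q hq
  by_cases hw : IsSingle X w
  · obtain ⟨j, c, rfl⟩ := hw
    obtain ⟨a, rfl, ha⟩ := mem_pproj_single hp
    obtain ⟨b, rfl, hb⟩ := mem_pproj_single hq
    obtain ⟨F, h1, h2, h3⟩ := X.large_links c (x j) (y j) a ha b hb
    have hab : 0 ≤ X.dist a b := by
      have e := (X.proj_base c _ a ha).trans (X.proj_base c _ b hb).symm
      have := X.dist_triangle a b a e e.symm
      rw [X.dist_self, X.dist_comm b a e.symm] at this
      linarith
    have hle : X.lam * X.dist a b + X.lam ≤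
        max X.lam (Fintype.card I) * X.dist a b + max X.lam (Fintype.card I) := by
      have h4 : X.lam ≤ max X.lam (Fintype.card I) := le_max_left _ _
      have := mul_le_mul_of_nonneg_right h4 hab
      linarith
    refine ⟨F.image (single X j), ?_, ?_, ?_⟩
    · refine le_trans ?_ (le_trans h1 hle)
      exact_mod_cast Finset.card_image_le
    · intro t ht
      obtain ⟨t0, ht0, rfl⟩ := Finset.mem_image.1 ht
      obtain ⟨h4, h5⟩ := h2 t0 ht0
      refine ⟨⟨single_nest_single.2 h4.1, fun h => h4.2 (single_inj X h).2⟩, ?_⟩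
      exact near_one hle (fun p hp => one_mem_pproj.2 hp)
        (fun p hp => one_mem_prho (single_self X j t0) (X.rho_base t0 c (Or.inl h4) p hp) hp) h5
    · intro v hv
      obtain ⟨v0, rfl, hv0⟩ := pnest_single_single hv
      rcases h3 v0 hv0 with ⟨t, ht, h4⟩ | ⟨p', hp', q', hq', h4⟩
      · left
        exact ⟨single X j t, Finset.mem_image_of_mem _ ht, single_nest_single.2 h4⟩
      · right
        exact ⟨.one j p', one_mem_pproj.2 hp', .one j q', one_mem_pproj.2 hq',
          lt_of_lt_of_le h4 (le_max_left _ _)⟩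
  · have e1 := base_not hw hp.1
    have e2 := base_not hw hq.1
    subst e1; subst e2
    have hN : (Fintype.card I : ℝ) ≤ max X.lam (Fintype.card I) := le_max_right _ _
    have h0 : (0 : ℝ) ≤ max X.lam (Fintype.card I) := le_trans (by positivity) hN
    let g : I → Option (PIdx X I) := fun i =>
      match w.1 i with
      | none => none
      | some u => some (single X i u)
    let F : Finset (PIdx X I) := Finset.eraseNone (Finset.univ.image g)
    have hmem : ∀ t, t ∈ F ↔ ∃ i u, w.1 i = some u ∧ t = single X i u := by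
      intro t
      simp only [F, Finset.mem_eraseNone, Finset.mem_image, Finset.mem_univ, true_and]
      constructor
      · rintro ⟨i, hi⟩
        cases hu : w.1 i with
        | none => simp [g, hu] at hi
        | some u =>
          simp only [g, hu, Option.some.injEq] at hi
          exact ⟨i, u, hu, hi.symm⟩
      · rintro ⟨i, u, hu, rfl⟩
        exact ⟨i, by simp [g, hu]⟩
    refine ⟨F, ?_, ?_, ?_⟩
    · have h1 : F.card ≤ Fintype.card I := by
        have h2 : F.card ≤ (Finset.univ.image g).card := by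
          apply Finset.card_le_card_of_injOn (fun t => some t)
          · intro t ht
            exact Finset.mem_eraseNone.1 ht
          · intro s _ t _ h
            exact Option.some.inj h
        exact h2.trans Finset.card_image_le
      have h2 : (F.card : ℝ) ≤ Fintype.card I := by exact_mod_cast h1
      simp only [pdist, mul_zero, zero_add]
      exact h2.trans hN
    · intro t ht
      obtain ⟨i, u, hu, rfl⟩ := (hmem t).1 ht
      refine ⟨⟨single_nest.2 ⟨u, hu, X.nest_refl u⟩, ?_⟩, ?_⟩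
      · intro h
        exact hw ⟨i, u, h.symm⟩
      · apply near_pt _ hw (pt_mem_pproj hw x) (pt_mem_prho _ hw)
        simp only [pdist, mul_zero, zero_add]
        exact h0
    · intro v hv
      by_cases hvs : IsSingle X v
      · obtain ⟨i, u, rfl⟩ := hvs
        obtain ⟨u', hu', huu⟩ := single_nest.1 hv.1
        left
        exact ⟨single X i u', (hmem _).2 ⟨i, u', hu', rfl⟩, single_nest_single.2 huu⟩
      · right
        refine ⟨_, pt_mem_pproj hvs x, _, pt_mem_pproj hvs y, ?_⟩
        rw [pdist_self]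
        exact lt_of_lt_of_le one_pos (le_max_right _ _)

theorem pbgi (v w : PIdx X I) (h : PNest (pnest X) v w) (L : ℝ) (γ : ℝ → PPt X I)
    (hγ : IsGeod (pbase X) (pdist X) w L γ) :
    DiamLE (pdist X) (max X.E 1) {q | ∃ s ∈ Set.Icc 0 L, q ∈ prhoDown X v (γ s)} ∨
      ∃ s ∈ Set.Icc 0 L, ∃ q ∈ prho X v w, pdist X (γ s) q ≤ max X.E 1 := by
  by_cases hw : IsSingle X w
  · obtain ⟨j, c, rfl⟩ := hw
    obtain ⟨a, rfl, hac⟩ := pnest_single_single h
    obtain ⟨γ0, hg, hγ0⟩ := geod_single hγ
    rcases X.bounded_geodesic_image a c hac L γ0 hg with h1 | ⟨s, hs, q, hq, h1⟩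
    · left
      have key : ∀ p' ∈ {q | ∃ s ∈ Set.Icc 0 L, q ∈ prhoDown X (single X j a) (γ s)},
          ∃ p, p' = .one j p ∧ p ∈ {q | ∃ s ∈ Set.Icc 0 L, q ∈ X.rhoDown a (γ0 s)} := by
        rintro p' ⟨s, hs, hp⟩
        rw [hγ0 s hs] at hp
        obtain ⟨p, rfl, hp'⟩ := mem_prhoDown_one hp
        exact ⟨p, rfl, s, hs, hp'⟩
      intro p hp q hq
      obtain ⟨a', rfl, ha'⟩ := key p hp
      obtain ⟨b', rfl, hb'⟩ := key q hq
      exact (h1 a' ha' b' hb').trans (le_max_left _ _)
    · right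
      refine ⟨s, hs, .one j q, one_mem_prho (single_self X j a)
        (X.rho_base a c (Or.inl hac) q hq) hq, ?_⟩
      rw [hγ0 s hs]
      exact h1.trans (le_max_left _ _)
  · right
    refine ⟨0, ⟨le_refl 0, hγ.1⟩, .pt w hw, pt_mem_prho v hw, ?_⟩
    rw [base_not hw (hγ.2.1 0 ⟨le_refl 0, hγ.1⟩), pdist_self]
    exact le_trans zero_le_one (le_max_right _ _)

/-! ### partial realization and uniqueness -/

theorem ppartial_realization [Nonempty Q] (J : Set (PIdx X I))
    (hJ : ∀ u ∈ J, ∀ v ∈ J, u ≠ v → porth X u v)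
    (p : PIdx X I → PPt X I) (hp : ∀ u ∈ J, ∃ y, p u ∈ pproj X u y) :
    ∃ x, ∀ u ∈ J, Near (pdist X) (max X.α 0) (pproj X u x) {p u} ∧
      ∀ v, PNest (pnest X) u v ∨ Trans (pnest X) (porth X) u v →
        Near (pdist X) (max X.α 0) (pproj X v x) (prho X u v) := by
  have key : ∀ i : I, ∃ x : Q, ∀ u ∈ J, ∀ a, u.1 i = some a →
      (∀ b, p u = .one i b → u = single X i a → Near X.dist X.α (X.proj a x) {b}) ∧
      ∀ c, PNest X.nest a c ∨ Trans X.nest X.orth a c →
        Near X.dist X.α (X.proj c x) (X.rho a c) := by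
    intro i
    let Ji : Set X.Idx := {a | ∃ u ∈ J, u.1 i = some a}
    have hJi : ∀ a ∈ Ji, ∀ b ∈ Ji, a ≠ b → X.orth a b := by
      rintro a ⟨u, hu, hua⟩ b ⟨v, hv, hvb⟩ hab
      have huv : u ≠ v := by
        rintro rfl
        rw [hua] at hvb
        exact hab (Option.some.inj hvb)
      exact hJ u hu v hv huv i a b hua hvb
    have huniq : ∀ a, ∀ u ∈ J, ∀ v ∈ J, u.1 i = some a → v.1 i = some a → u = v := by
      intro a u hu v hv hua hva
      by_contra huv
      exact X.orth_irrefl a (hJ u hu v hv huv i a a hua hva)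
    -- the points in the spaces of the factor
    have hpt : ∀ a : X.Idx, ∃ b : X.Pt, (∃ y, b ∈ X.proj a y) ∧
        ∀ u ∈ J, u.1 i = some a → ∀ b', p u = .one i b' → u = single X i a → b = b' := by
      intro a
      by_cases h : ∃ u ∈ J, u.1 i = some a ∧ ∃ b', p u = .one i b' ∧ u = single X i a
      · obtain ⟨u, hu, hua, b', hb', hsing⟩ := h
        refine ⟨b', ?_, ?_⟩
        · obtain ⟨y, hy⟩ := hp u hu
          rw [hb', hsing] at hy
          exact ⟨y i, one_mem_pproj.1 hy⟩
        · intro v hv hva b'' hb'' _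
          have := huniq a u hu v hv hua hva
          subst this
          rw [hb'] at hb''
          exact (one_inj hb'').2
      · obtain ⟨b, hb⟩ := X.proj_nonempty a (Classical.arbitrary Q)
        refine ⟨b, ⟨_, hb⟩, ?_⟩
        intro u hu hua b' hb' hs
        exact absurd ⟨u, hu, hua, b', hb', hs⟩ h
    choose f hf1 hf2 using hpt
    obtain ⟨x, hx⟩ := X.partial_realization Ji hJi f (fun a _ => hf1 a)
    refine ⟨x, ?_⟩
    intro u hu a hua
    obtain ⟨h1, h2⟩ := hx a ⟨u, hu, hua⟩
    refine ⟨?_, h2⟩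
    intro b hb hs
    rw [← hf2 a u hu hua b hb hs]
    exact h1
  choose x hx using key
  refine ⟨x, ?_⟩
  intro u hu
  refine ⟨?_, ?_⟩
  · by_cases hs : IsSingle X u
    · obtain ⟨i, a, rfl⟩ := hs
      obtain ⟨y, hy⟩ := hp _ hu
      obtain ⟨b, hb, hb'⟩ := mem_pproj_single hy
      have h1 := (hx i _ hu a (single_self X i a)).1 b hb rfl
      rw [hb]
      refine near_one (le_max_left _ _) (fun p hp => one_mem_pproj.2 hp) ?_ h1
      intro q hq
      rw [Set.mem_singleton_iff] at hq ⊢
      rw [hq]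
    · obtain ⟨y, hy⟩ := hp _ hu
      have e1 := base_not hs hy.1
      rw [e1]
      exact near_pt (le_max_right _ _) hs (pt_mem_pproj hs x) (Set.mem_singleton _)
  · intro v hv
    by_cases hs : IsSingle X v
    · obtain ⟨j, c, rfl⟩ := hs
      obtain ⟨a, ha, hac⟩ := rel_single hv
      exact near_one (le_max_left _ _) (fun p hp => one_mem_pproj.2 hp)
        (fun p hp => one_mem_prho ha (X.rho_base a c hac p hp) hp) ((hx j u hu a ha).2 c hac)
    · exact near_pt (le_max_right _ _) hs (pt_mem_pproj hs x) (pt_mem_prho u hs)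

theorem puniqueness [Fintype I] [Nonempty I] (c : ℝ) :
    ∃ θ : ℝ, ∀ x y : I → Q, θ ≤ ∑ i, d (x i) (y i) →
      ∃ u : PIdx X I, ∀ p ∈ pproj X u x, ∀ q ∈ pproj X u y, c ≤ pdist X p q := by
  obtain ⟨θ, hθ⟩ := X.uniqueness c
  refine ⟨Fintype.card I * θ, ?_⟩
  intro x y hxy
  have h1 : ∃ i, θ ≤ d (x i) (y i) := by
    by_contra h
    push Not at h
    have h2 : ∑ i, d (x i) (y i) < ∑ _i : I, θ :=
      Finset.sum_lt_sum_of_nonempty Finset.univ_nonempty fun i _ => h i
    simp only [Finset.sum_const, Finset.card_univ, nsmul_eq_mul] at h2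
    linarith
  obtain ⟨i, hi⟩ := h1
  obtain ⟨u, hu⟩ := hθ (x i) (y i) hi
  refine ⟨single X i u, ?_⟩
  intro p hp q hq
  obtain ⟨a, rfl, ha⟩ := mem_pproj_single hp
  obtain ⟨b, rfl, hb⟩ := mem_pproj_single hq
  exact hu a ha b hb

/-- The power of a hierarchically hyperbolic structure. -/
noncomputable def HHS.pow [Fintype I] [Nonempty I] [Nonempty Q] (X : HHS Q d)
    (hd : ∀ x y, 0 ≤ d x y) : HHS (I → Q) (fun x y => ∑ i, d (x i) (y i)) where
  Idx := PIdx X I
  Pt := PPt X I
  base := pbase X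
  dist := pdist X
  δ := max X.δ 0
  ξ := max X.ξ 0
  K := max X.K 0
  κ := max X.κ 0
  E := max X.E 1
  lam := max X.lam (Fintype.card I)
  α := max X.α 0
  dist_self := pdist_self
  eq_of_dist := peq_of_dist
  dist_comm := pdist_comm
  dist_triangle := pdist_triangle
  geodesic := pgeodesic
  hyperbolic := phyperbolic
  proj := pproj X
  proj_base := pproj_base
  proj_nonempty := pproj_nonempty
  proj_diam := pproj_diam
  proj_lipschitz := pproj_lipschitz hd
  proj_quasiconvex := pproj_quasiconvex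
  nest := pnest X
  nest_refl := pnest_refl
  nest_trans := pnest_trans
  nest_antisymm := pnest_antisymm
  nest_top := ptop
  orth := porth X
  orth_symm := porth_symm
  orth_irrefl := porth_irrefl
  orth_of_nest := porth_of_nest
  orth_not_nest := porth_not_nest
  container := pcontainer
  rho := prho X
  rho_base := fun _ _ _ _ h => h.1
  rho_nonempty := prho_nonempty
  rho_diam := prho_diam
  rhoDown := prhoDown X
  rhoDown_base := fun _ _ _ _ h => h.1
  rhoDown_nonempty := prhoDown_nonempty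
  consistency_trans := pconsistency_trans
  consistency_nest := pconsistency_nest
  consistency_rho := pconsistency_rho
  complexity := pcomplexity
  lam_ge := X.lam_ge.trans (le_max_left _ _)
  E_ge := by
    have h := X.E_ge
    have h1 : X.ξ ≤ X.E := (le_max_left _ _).trans h
    have h2 : X.κ ≤ X.E := (le_max_right _ _).trans h
    refine max_le (max_le ?_ ?_) (max_le ?_ ?_)
    · exact h1.trans (le_max_left _ _)
    · exact zero_le_one.trans (le_max_right _ _)
    · exact h2.trans (le_max_left _ _)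
    · exact zero_le_one.trans (le_max_right _ _)
  large_links := plarge_links
  bounded_geodesic_image := pbgi
  partial_realization := ppartial_realization
  uniqueness := puniqueness

end Pool.Agent.H898.HH
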