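import Pool.Agent.H898.HH.Realize

/-!
# Product regions
-/

set_option autoImplicit false

namespace Pool.Agent.H898.HH

namespace HHG

variable {G : Type} [Group G] (X : HHG G)

theorem not_rel_of_orth {v w : X.hhs.Idx} (h : X.hhs.orth w v) : ¬ X.Rel v w := by
  rintro (h' | h')
  · exact X.hhs.orth_not_nest _ _ (X.hhs.orth_symm _ _ h) h'.1
  · exact h'.1 (X.hhs.orth_symm _ _ h)

theorem not_rel_of_nest {v w : X.hhs.Idx} (h : X.hhs.nest w v) : ¬ X.Rel v w := by
  rintro (h' | h')
  · exact h'.2 (X.hhs.nest_antisymm _ _ h'.1 h)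
  · exact h'.2.2 h

/-- the sets `ρ` of orthogonal domains are close -/
theorem rp_orth {u v w : X.hhs.Idx} (h : X.hhs.orth u v) (hu : X.Rel u w) (hv : X.Rel v w) :
    dist (X.rp v w) (X.rp u w) ≤ 2 * X.a1 := by
  obtain ⟨z, hz⟩ := X.partial_real {u, v} (by
    intro a ha c hc hac
    rcases ha with rfl | ha
    · rcases hc with rfl | hc
      · exact absurd rfl hac
      · rw [Set.mem_singleton_iff.1 hc]; exact h
    · rw [Set.mem_singleton_iff.1 ha]
      rcases hc with rfl | hc
      · exact X.hhs.orth_symm _ _ h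
      · rw [Set.mem_singleton_iff] at ha hc
        exact absurd (ha.trans hc.symm) hac) (fun w => X.pt w 1) (fun w _ => X.isCoord_pt w 1)
  have z1 := (hz u (Set.mem_insert _ _)).2 w hu
  have z2 := (hz v (Set.mem_insert_of_mem _ rfl)).2 w hv
  have z3 := dist_triangle (X.rp v w) (X.pt w z) (X.rp u w)
  rw [dist_comm (X.rp v w) (X.pt w z)] at z3
  linarith

/-- a point of the product region of `v` -/
theorem exists_inP (v : X.hhs.Idx) : ∃ z, ∀ w, X.Rel v w →
    dist (X.pt w z) (X.rp v w) ≤ X.a1 := by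
  obtain ⟨z, hz⟩ := X.partial_real {v} (by
    intro u hu v hv huv
    rw [Set.mem_singleton_iff] at hu hv
    exact absurd (hu.trans hv.symm) huv) (fun w => X.pt w 1) (fun w _ => X.isCoord_pt w 1)
  exact ⟨z, (hz v rfl).2⟩

/-- the product structure of product regions -/
theorem prod_region : ∃ θ : ℝ, 0 ≤ θ ∧ ∀ (v : X.hhs.Idx) (y y' : G), ∃ x,
    (∀ w, X.hhs.nest w v → dist (X.pt w x) (X.pt w y') ≤ θ) ∧
    (∀ w, X.hhs.orth w v → dist (X.pt w x) (X.pt w y) ≤ θ) ∧
    ∀ w, X.Rel v w → dist (X.pt w x) (X.rp v w) ≤ θ := by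
  classical
  set k := 3 * X.e0 with hk
  have he0 : 0 ≤ X.e0 := by
    unfold e0; positivity
  have hbk : X.BigK k := X.bigK_e0 (by linarith)
  have hbe : X.BigK X.e0 := X.bigK_e0 le_rfl
  obtain ⟨θ, hθ⟩ := realization hbk
  refine ⟨max θ 0 + X.e0, add_nonneg (le_max_right _ _) he0, fun v y y' => ?_⟩
  obtain ⟨z, hz⟩ := X.exists_inP v
  have hz' : ∀ w, X.Rel v w → dist (X.pt w z) (X.rp v w) ≤ X.e0 := fun w hw =>
    (hz w hw).trans hbe.ha1
  let b : ∀ w, X.C w := fun w => if X.hhs.nest w v then X.pt w y' else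
    if X.hhs.orth w v then X.pt w y else X.pt w z
  have b1 : ∀ w, X.hhs.nest w v → b w = X.pt w y' := fun w h => if_pos h
  have b2 : ∀ w, X.hhs.orth w v → b w = X.pt w y := fun w h => by
    simp only [b]
    rw [if_neg (X.hhs.orth_not_nest _ _ h), if_pos h]
  have b3 : ∀ w, X.Rel v w → b w = X.pt w z := fun w h => by
    simp only [b]
    rw [if_neg (fun h' => X.not_rel_of_nest h' h), if_neg (fun h' => X.not_rel_of_orth h' h)]
  have cases : ∀ w, X.hhs.nest w v ∨ X.hhs.orth w v ∨ X.Rel v w := by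
    intro w
    rcases X.rel_cases w v with h | h | h | h
    · exact Or.inl (h ▸ X.hhs.nest_refl _)
    · exact Or.inr (Or.inl h)
    · exact Or.inl h.1
    · exact Or.inr (Or.inr h)
  -- the coordinates near `ρ`
  have hA : ∀ u w, (X.hhs.nest u v ∨ X.hhs.orth u v) → X.Rel v w → X.Rel u w →
      dist (b w) (X.rp u w) ≤ k := by
    intro u w hu hw huw
    rw [b3 w hw]
    have h0 := hz' w hw
    have ht := dist_triangle (X.pt w z) (X.rp v w) (X.rp u w)
    rcases hu with hu | hu
    · have h1 : dist (X.rp u w) (X.rp v w) ≤ X.k1 := by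
        rcases hw with hw | hw
        · exact X.cons_rho hu (Or.inl hw) huw
        · refine X.cons_rho hu (Or.inr ⟨hw, ?_⟩) huw
          intro ho
          exact X.not_rel_of_orth ho huw
      rw [dist_comm] at h1
      have := hbe.hk1
      linarith
    · have h1 := X.rp_orth hu huw hw
      have := hbe.ha1
      linarith
  have hcons : X.Cons b k := by
    refine ⟨?_, ?_, ?_⟩
    · intro u w huw
      have hx : ∀ x : G, dist (X.pt w x) (X.rp u w) ≤ k ∨ dist (X.pt u x) (X.rp w u) ≤ k :=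
        fun x => (X.cons_trans huw x).imp (fun h => h.trans hbk.hk1) (fun h => h.trans hbk.hk1)
      rcases cases u with hu | hu | hu
      · rcases cases w with hw | hw | hw
        · rw [b1 u hu, b1 w hw]; exact hx y'
        · exact absurd (X.hhs.orth_of_nest _ _ _ hu (X.hhs.orth_symm _ _ hw)) huw.1
        · exact Or.inl (hA u w (Or.inl hu) hw (Or.inr huw))
      · rcases cases w with hw | hw | hw
        · exact absurd (X.hhs.orth_symm _ _ (X.hhs.orth_of_nest _ _ _ hw
            (X.hhs.orth_symm _ _ hu))) huw.1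
        · rw [b2 u hu, b2 w hw]; exact hx y
        · exact Or.inl (hA u w (Or.inr hu) hw (Or.inr huw))
      · rcases cases w with hw | hw | hw
        · exact Or.inr (hA w u (Or.inl hw) hu (Or.inr (X.trans_symm huw)))
        · exact Or.inr (hA w u (Or.inr hw) hu (Or.inr (X.trans_symm huw)))
        · rw [b3 u hu, b3 w hw]; exact hx z
    · intro u w huw
      have hx : ∀ x : G, dist (X.pt w x) (X.rp u w) ≤ k ∨
          dist (X.pt u x) (X.dn u w (X.pt w x)) ≤ k :=
        fun x => (X.cons_nest huw x).imp (fun h => h.trans hbk.hk1) (fun h => h.trans hbk.hκ)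
      rcases cases w with hw | hw | hw
      · have hu := X.hhs.nest_trans _ _ _ huw.1 hw
        rw [b1 u hu, b1 w hw]; exact hx y'
      · have hu := X.hhs.orth_of_nest _ _ _ huw.1 hw
        rw [b2 u hu, b2 w hw]; exact hx y
      · rcases cases u with hu | hu | hu
        · exact Or.inl (hA u w (Or.inl hu) hw (Or.inl huw))
        · exact Or.inl (hA u w (Or.inr hu) hw (Or.inl huw))
        · rw [b3 u hu, b3 w hw]; exact hx z
    · intro w
      rcases cases w with hw | hw | hw
      · rw [b1 w hw]; exact X.isCoord_pt _ _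
      · rw [b2 w hw]; exact X.isCoord_pt _ _
      · rw [b3 w hw]; exact X.isCoord_pt _ _
  obtain ⟨x, hx⟩ := hθ b hcons
  have hle : θ ≤ max θ 0 := le_max_left _ _
  refine ⟨x, fun w hw => ?_, fun w hw => ?_, fun w hw => ?_⟩
  · have := hx w
    rw [b1 w hw] at this
    linarith
  · have := hx w
    rw [b2 w hw] at this
    linarith
  · have h1 := hx w
    rw [b3 w hw] at h1
    have h2 := hz' w hw
    have h3 := dist_triangle (X.pt w x) (X.pt w z) (X.rp v w)
    linarith

/-- two points have distant coordinates in finitely many domains only -/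
theorem finite_big (x y : G) :
    {v | X.hhs.E + 2 * X.hhs.ξ ≤ dist (X.pt v x) (X.pt v y)}.Finite := by
  have key : ∀ (n : ℕ) (R : X.hhs.Idx), X.LevLE R n →
      {v | X.hhs.nest v R ∧ X.hhs.E + 2 * X.hhs.ξ ≤ dist (X.pt v x) (X.pt v y)}.Finite := by
    intro n
    induction n with
    | zero => intro R hR; exact absurd hR (X.not_levLE_zero R)
    | succ n ih =>
      intro R hR
      obtain ⟨F, _, hF2, hF3⟩ := X.links R x y
      have h1 : (⋃ t ∈ F, {v | X.hhs.nest v t ∧
          X.hhs.E + 2 * X.hhs.ξ ≤ dist (X.pt v x) (X.pt v y)}).Finite :=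
        Set.Finite.biUnion F.finite_toSet
          (fun t ht => ih t (X.levLE_of_pnest (hF2 t ht) hR))
      apply ((Set.finite_singleton R).union h1).subset
      rintro v ⟨hv1, hv2⟩
      by_cases hvR : v = R
      · exact Or.inl hvR
      · right
        rcases hF3 v ⟨hv1, hvR⟩ with ⟨t, ht, hvt⟩ | h
        · exact Set.mem_biUnion ht ⟨hvt, hv2⟩
        · exact absurd hv2 (not_le.2 h)
  rcases X.hhs.nest_top with h | ⟨s, hs⟩
  · exact Set.Finite.subset (Set.finite_empty) (fun v _ => (h.false v).elim)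
  · exact (key _ s (X.levLE_cpl s)).subset (fun v hv => ⟨hs v, hv⟩)

/-- `x` lies in the product region of `v`, with the constant `c` -/
def InPc (c : ℝ) (v : X.hhs.Idx) (x : G) : Prop :=
  ∀ w, X.Rel v w → dist (X.pt w x) (X.rp v w) ≤ c

/-- steps of bounded size -/
theorem exists_step {v : X.hhs.Idx} (hv : X.Unb v) (x : G) (D : ℝ) (hD : 0 ≤ D) :
    ∃ y, D < dist (X.pt v x) (X.pt v y) ∧
      dist (X.pt v x) (X.pt v y) ≤ D + 2 * |X.hhs.K| := by
  by_contra hcon
  push Not at hcon
  -- all points are at distance at most `D`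
  have key : ∀ l : List G, (∀ s ∈ l, s ∈ X.gens ∨ s⁻¹ ∈ X.gens) → ∀ y,
      dist (X.pt v x) (X.pt v y) ≤ D → dist (X.pt v x) (X.pt v (y * l.prod)) ≤ D := by
    intro l
    induction l with
    | nil => intro _ y hy; simpa using hy
    | cons s l ih =>
      intro hl y hy
      have h1 : dist (X.pt v y) (X.pt v (y * s)) ≤ 2 * |X.hhs.K| := by
        have h2 := X.lip v y (y * s)
        have h3 : wordDist X.gens y (y * s) ≤ 1 := by
          unfold wordDist
          have : y⁻¹ * (y * s) = s := by group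
          rw [this]
          exact_mod_cast wordLen_gen (hl s List.mem_cons_self)
        have h4 := wordDist_nonneg X.gens y (y * s)
        have h5 := le_abs_self X.hhs.K
        have h6 : X.hhs.K * wordDist X.gens y (y * s) ≤ |X.hhs.K| * 1 :=
          mul_le_mul h5 h3 h4 (abs_nonneg _)
        linarith
      have h2 : dist (X.pt v x) (X.pt v (y * s)) ≤ D := by
        by_contra h3
        have h4 := hcon (y * s) (not_le.1 h3)
        have h5 := dist_triangle (X.pt v x) (X.pt v y) (X.pt v (y * s))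
        linarith
      have h3 := ih (fun s' hs' => hl s' (List.mem_cons_of_mem _ hs')) (y * s) h2
      rwa [List.prod_cons, ← mul_assoc]
  have hall : ∀ y, dist (X.pt v x) (X.pt v y) ≤ D := by
    intro y
    obtain ⟨l, _, h2, h3⟩ := wordLen_spec X.gens_closure (x⁻¹ * y)
    have := key l h2 x (by rw [dist_self]; exact hD)
    rwa [h3, mul_inv_cancel_left] at this
  obtain ⟨a, c, p, hp, q, hq, hpq⟩ := hv (2 * D + 2 * X.hhs.ξ)
  have bp := X.hhs.proj_base _ _ _ hp
  have bq := X.hhs.proj_base _ _ _ hq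
  have h1 : dist (⟨p, bp⟩ : X.C v) (X.pt v a) ≤ X.hhs.ξ := X.hhs.proj_diam _ _ _ hp _ (X.pt_mem v a)
  have h2 : dist (X.pt v c) (⟨q, bq⟩ : X.C v) ≤ X.hhs.ξ := X.hhs.proj_diam _ _ _ (X.pt_mem v c) _ hq
  have h3 := dist_triangle (⟨p, bp⟩ : X.C v) (X.pt v a) (⟨q, bq⟩ : X.C v)
  have h4 := dist_triangle (X.pt v a) (X.pt v c) (⟨q, bq⟩ : X.C v)
  have h5 := dist_triangle (X.pt v a) (X.pt v x) (X.pt v c)
  rw [dist_comm (X.pt v a) (X.pt v x)] at h5
  have h6 := hall a
  have h7 := hall c
  have h8 : 2 * D + 2 * X.hhs.ξ < dist (⟨p, bp⟩ : X.C v) (⟨q, bq⟩ : X.C v) := hpq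
  linarith

/-- the product regions of only finitely many minimal unbounded domains come near `1` -/
theorem finite_near (c : ℝ) : {v | X.MinUnb v ∧ X.InPc c v 1}.Finite := by
  classical
  obtain ⟨B, hB0, hB⟩ := exists_bound X
  obtain ⟨θ, hθ0, hθ⟩ := X.prod_region
  set D := max (X.hhs.E + 2 * X.hhs.ξ) 0 + θ with hDdef
  have hD0 : 0 ≤ D := add_nonneg (le_max_right _ _) hθ0
  obtain ⟨R, hR⟩ := X.uniq (max (max θ B) (max (θ + c) (θ + D + 2 * |X.hhs.K|)))
  have hball := ball_finite X.gens_finite X.gens_closure ⌈R⌉₊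
  have hfin : (⋃ x ∈ {g : G | wordLen X.gens g ≤ ⌈R⌉₊},
      {v | X.hhs.E + 2 * X.hhs.ξ ≤ dist (X.pt v 1) (X.pt v x)}).Finite :=
    Set.Finite.biUnion hball (fun x _ => X.finite_big 1 x)
  apply hfin.subset
  rintro v ⟨⟨hv1, hv2⟩, hv3⟩
  obtain ⟨y, hy1, hy2⟩ := X.exists_step hv1 1 D hD0
  obtain ⟨x, hx1, hx2, hx3⟩ := hθ v 1 y
  have hxv := hx1 v (X.hhs.nest_refl v)
  have h1 : ∀ w, dist (X.pt w 1) (X.pt w x) ≤
      max (max θ B) (max (θ + c) (θ + D + 2 * |X.hhs.K|)) := by
    intro w
    rcases X.rel_cases w v with h | h | h | h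
    · subst h
      have := dist_triangle (X.pt w 1) (X.pt w y) (X.pt w x)
      rw [dist_comm (X.pt w y) (X.pt w x)] at this
      refine le_trans ?_ (le_trans (le_max_right _ _) (le_max_right _ _))
      linarith
    · have := hx2 w h
      rw [dist_comm] at this
      exact this.trans (le_trans (le_max_left _ _) (le_max_left _ _))
    · have : dist (X.pt w 1) (X.pt w x) ≤ B :=
        hB w (hv2 w h) 1 x _ (X.pt_mem w 1) _ (X.pt_mem w x)
      exact this.trans (le_trans (le_max_right _ _) (le_max_left _ _))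
    · have h4 := hx3 w h
      have h5 := hv3 w h
      have h6 := dist_triangle (X.pt w 1) (X.rp v w) (X.pt w x)
      rw [dist_comm (X.rp v w) (X.pt w x)] at h6
      refine le_trans ?_ (le_trans (le_max_left _ _) (le_max_right _ _))
      linarith
  have h2 := hR 1 x h1
  have h3 : wordLen X.gens x ≤ ⌈R⌉₊ := by
    unfold wordDist at h2
    rw [inv_one, one_mul] at h2
    have h4 : (wordLen X.gens x : ℝ) ≤ (⌈R⌉₊ : ℝ) := h2.le.trans (Nat.le_ceil R)
    exact_mod_cast h4
  refine Set.mem_biUnion h3 ?_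
  have h4 := dist_triangle (X.pt v 1) (X.pt v x) (X.pt v y)
  have h5 : max (X.hhs.E + 2 * X.hhs.ξ) 0 ≤ dist (X.pt v 1) (X.pt v x) := by
    linarith
  exact (le_max_left _ _).trans h5

end HHG

end Pool.Agent.H898.HH
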