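import Pool.Agent.H898.HH.Pow2

/-!
# Pulling back a hierarchically hyperbolic structure, and facts on the word length
-/

set_option autoImplicit false

namespace Pool.Agent.H898.HH

/-- The structure pulled back along a surjective map which is coarsely Lipschitz and uniformly
metrically proper. -/
noncomputable def HHS.pull {X₀ Y : Type} {d₀ : X₀ → X₀ → ℝ} {dY : Y → Y → ℝ} (X : HHS X₀ d₀)
    (o : Y → X₀) (ho : Function.Surjective o) (hd₀ : ∀ x y, 0 ≤ d₀ x y) (hdY : ∀ x y, 0 ≤ dY x y)
    (C : ℝ) (hC0 : 0 ≤ C) (hC : ∀ a b, d₀ (o a) (o b) ≤ C * dY a b + C)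
    (hp : ∀ r : ℝ, ∃ r' : ℝ, ∀ a b, d₀ (o a) (o b) ≤ r → dY a b ≤ r') : HHS Y dY where
  Idx := X.Idx
  Pt := X.Pt
  base := X.base
  dist := X.dist
  δ := X.δ
  ξ := X.ξ
  K := max X.K 0 * C + max X.K 0
  κ := X.κ
  E := X.E
  lam := X.lam
  α := X.α
  dist_self := X.dist_self
  eq_of_dist := X.eq_of_dist
  dist_comm := X.dist_comm
  dist_triangle := X.dist_triangle
  geodesic := X.geodesic
  hyperbolic := X.hyperbolic
  proj := fun u y => X.proj u (o y)
  proj_base := fun u y => X.proj_base u (o y)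
  proj_nonempty := fun u y => X.proj_nonempty u (o y)
  proj_diam := fun u y => X.proj_diam u (o y)
  proj_lipschitz := by
    intro u x y p hp' q hq
    have h1 := X.proj_lipschitz u (o x) (o y) p hp' q hq
    have hK : X.K ≤ max X.K 0 := le_max_left _ _
    have hK0 : 0 ≤ max X.K 0 := le_max_right _ _
    have h2 := mul_le_mul_of_nonneg_right hK (hd₀ (o x) (o y))
    have h3 := mul_le_mul_of_nonneg_left (hC x y) hK0
    have h4 := mul_nonneg hK0 (hdY x y)
    nlinarith
  proj_quasiconvex := by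
    intro u x y p hp' q hq L γ hγ h0 h1 s hs
    obtain ⟨z, r, hr, hz⟩ := X.proj_quasiconvex u (o x) (o y) p hp' q hq L γ hγ h0 h1 s hs
    obtain ⟨z', rfl⟩ := ho z
    refine ⟨z', r, hr, hz.trans ?_⟩
    have hK : X.K ≤ max X.K 0 := le_max_left _ _
    have hK0 : 0 ≤ max X.K 0 := le_max_right _ _
    have := mul_nonneg hK0 hC0
    linarith
  nest := X.nest
  nest_refl := X.nest_refl
  nest_trans := X.nest_trans
  nest_antisymm := X.nest_antisymm
  nest_top := X.nest_top
  orth := X.orth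
  orth_symm := X.orth_symm
  orth_irrefl := X.orth_irrefl
  orth_of_nest := X.orth_of_nest
  orth_not_nest := X.orth_not_nest
  container := X.container
  rho := X.rho
  rho_base := X.rho_base
  rho_nonempty := X.rho_nonempty
  rho_diam := X.rho_diam
  rhoDown := X.rhoDown
  rhoDown_base := X.rhoDown_base
  rhoDown_nonempty := X.rhoDown_nonempty
  consistency_trans := fun u v h x => X.consistency_trans u v h (o x)
  consistency_nest := fun u v h x => X.consistency_nest u v h (o x)
  consistency_rho := X.consistency_rho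
  complexity := X.complexity
  lam_ge := X.lam_ge
  E_ge := X.E_ge
  large_links := fun w x y => X.large_links w (o x) (o y)
  bounded_geodesic_image := X.bounded_geodesic_image
  partial_realization := by
    intro J hJ p hp'
    obtain ⟨x, hx⟩ := X.partial_realization J hJ p (fun u hu => by
      obtain ⟨y, hy⟩ := hp' u hu
      exact ⟨o y, hy⟩)
    obtain ⟨x', rfl⟩ := ho x
    exact ⟨x', hx⟩
  uniqueness := by
    intro c
    obtain ⟨θ, hθ⟩ := X.uniqueness c
    obtain ⟨r', hr'⟩ := hp θ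
    refine ⟨r' + 1, ?_⟩
    intro x y hxy
    apply hθ
    by_contra h
    have := hr' x y (le_of_not_ge h)
    linarith

/-! ## word length -/

variable {G : Type} [Group G] {T : Set G}

theorem wordLen_set_nonempty (hT : Subgroup.closure T = ⊤) (g : G) :
    {n | ∃ l : List G, l.length = n ∧ (∀ x ∈ l, x ∈ T ∨ x⁻¹ ∈ T) ∧ l.prod = g}.Nonempty := by
  have hg : g ∈ (Subgroup.closure T).toSubmonoid := by rw [hT]; trivial
  rw [Subgroup.closure_toSubmonoid] at hg
  obtain ⟨l, hl, hlg⟩ := Submonoid.exists_list_of_mem_closure hg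
  refine ⟨l.length, l, rfl, ?_, hlg⟩
  intro x hx
  rcases hl x hx with h | h
  · exact Or.inl h
  · exact Or.inr (by simpa using h)

theorem wordLen_spec (hT : Subgroup.closure T = ⊤) (g : G) :
    ∃ l : List G, l.length = wordLen T g ∧ (∀ x ∈ l, x ∈ T ∨ x⁻¹ ∈ T) ∧ l.prod = g :=
  Nat.sInf_mem (wordLen_set_nonempty hT g)

theorem wordLen_le {g : G} (l : List G) (hl : ∀ x ∈ l, x ∈ T ∨ x⁻¹ ∈ T) (hg : l.prod = g) :
    wordLen T g ≤ l.length :=
  Nat.sInf_le ⟨l, rfl, hl, hg⟩

theorem wordDist_nonneg (T : Set G) (x y : G) : 0 ≤ wordDist T x y := Nat.cast_nonneg _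

theorem wordLen_one : wordLen T (1 : G) = 0 :=
  Nat.le_zero.1 (wordLen_le [] (by simp) (by simp))

theorem wordLen_gen {g : G} (h : g ∈ T ∨ g⁻¹ ∈ T) : wordLen T g ≤ 1 :=
  wordLen_le [g] (by simpa using h) (by simp)

theorem wordLen_mul (hT : Subgroup.closure T = ⊤) (g h : G) :
    wordLen T (g * h) ≤ wordLen T g + wordLen T h := by
  obtain ⟨l, h1, h2, h3⟩ := wordLen_spec hT g
  obtain ⟨m, h4, h5, h6⟩ := wordLen_spec hT h
  rw [← h1, ← h4, ← List.length_append]
  apply wordLen_le
  · intro x hx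
    rcases List.mem_append.1 hx with h | h
    · exact h2 x h
    · exact h5 x h
  · rw [List.prod_append, h3, h6]

/-- balls are finite -/
theorem ball_finite (hfin : T.Finite) (hT : Subgroup.closure T = ⊤) (n : ℕ) :
    {g : G | wordLen T g ≤ n}.Finite := by
  have hS : {x : G | x ∈ T ∨ x⁻¹ ∈ T}.Finite := by
    have : {x : G | x ∈ T ∨ x⁻¹ ∈ T} = T ∪ (fun x => x⁻¹) '' T := by
      ext x
      constructor
      · rintro (h | h)
        · exact Or.inl h
        · exact Or.inr ⟨x⁻¹, h, inv_inv x⟩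
      · rintro (h | ⟨y, hy, rfl⟩)
        · exact Or.inl h
        · right; simpa using hy
    rw [this]
    exact hfin.union (hfin.image _)
  have hL : {l : List G | l.length ≤ n ∧ ∀ x ∈ l, x ∈ {x : G | x ∈ T ∨ x⁻¹ ∈ T}}.Finite := by
    have hS' : Finite {x : G | x ∈ T ∨ x⁻¹ ∈ T} := hS
    have h2 := List.finite_length_le {x : G | x ∈ T ∨ x⁻¹ ∈ T} n
    have h3 := h2.image (fun l => l.map Subtype.val)
    apply h3.subset
    rintro l ⟨h4, h5⟩
    refine ⟨l.attachWith _ h5, ?_, ?_⟩
    · simpa using h4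
    · exact List.attachWith_map_subtype_val h5
  apply (hL.image List.prod).subset
  intro g hg
  obtain ⟨l, h1, h2, h3⟩ := wordLen_spec hT g
  exact ⟨l, ⟨by rw [h1]; exact hg, h2⟩, h3⟩

end Pool.Agent.H898.HH
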