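import Pool.Agent.H898.HH.Level

/-!
# The realization theorem of Behrstock, Hagen and Sisto
-/

set_option autoImplicit false

namespace Pool.Agent.H898.HH

namespace HHG

variable {G : Type} [Group G] (X : HHG G)

/-- a common upper bound for the constants -/
noncomputable def e0 : ℝ := |X.hhs.κ| + |X.hhs.E| + 4 * |X.hhs.ξ| + |X.hhs.α|

/-- `k` is larger than the constants of the structure -/
structure BigK (k : ℝ) : Prop where
  k0 : 0 ≤ k
  hκ : X.hhs.κ ≤ k
  hk1 : X.k1 ≤ k
  hE : X.hhs.E ≤ k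
  hξ : X.hhs.ξ ≤ k
  ha1 : X.a1 ≤ k
  hE2 : X.hhs.E + 2 * X.hhs.ξ ≤ k

theorem bigK_e0 {k : ℝ} (h : X.e0 ≤ k) : X.BigK k := by
  unfold e0 at h
  have h1 := le_abs_self X.hhs.κ
  have h2 := le_abs_self X.hhs.E
  have h3 := le_abs_self X.hhs.ξ
  have h4 := le_abs_self X.hhs.α
  have h5 := abs_nonneg X.hhs.κ
  have h6 := abs_nonneg X.hhs.E
  have h7 := abs_nonneg X.hhs.ξ
  have h8 := abs_nonneg X.hhs.α
  constructor <;> (try unfold k1) <;> (try unfold a1) <;> linarith

/-- the tuple `b` is `k`-consistent -/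
structure Cons (b : ∀ w, X.C w) (k : ℝ) : Prop where
  tr : ∀ u w, Trans X.hhs.nest X.hhs.orth u w →
    dist (b w) (X.rp u w) ≤ k ∨ dist (b u) (X.rp w u) ≤ k
  ne : ∀ v w, PNest X.hhs.nest v w →
    dist (b w) (X.rp v w) ≤ k ∨ dist (b v) (X.dn v w (b w)) ≤ k
  co : ∀ w, X.IsCoord (b w)

variable {X} {k : ℝ} (hk : X.BigK k) {b : ∀ w, X.C w} (hb : X.Cons b k)

include hk hb

theorem L1 {x : G} {c : ℝ} {T W : X.hhs.Idx} (h : PNest X.hhs.nest T W)
    (h1 : dist (X.pt W x) (b W) ≤ c) (h2 : 3 * k < dist (X.pt T x) (b T)) :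
    dist (b W) (X.rp T W) ≤ c + 3 * k := by
  by_contra h3
  push Not at h3
  have k0 := hk.k0
  have c0 : 0 ≤ c := dist_nonneg.trans h1
  have h4 : dist (b T) (X.dn T W (b W)) ≤ k := by
    rcases hb.ne T W h with h4 | h4
    · linarith
    · exact h4
  have h5 : dist (X.pt T x) (X.dn T W (X.pt W x)) ≤ k := by
    rcases X.cons_nest h x with h5 | h5
    · have h6 := dist_triangle (b W) (X.pt W x) (X.rp T W)
      rw [dist_comm (b W) (X.pt W x)] at h6
      have := hk.hk1
      linarith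
    · exact h5.trans hk.hκ
  have h6 := X.bgi h (b W) (X.pt W x) c (by rw [dist_comm]; exact h1)
    (by have := hk.hE; have := hk.hξ; linarith)
  have h7 := dist_triangle (X.pt T x) (X.dn T W (X.pt W x)) (b T)
  have h8 := dist_triangle (X.dn T W (X.pt W x)) (X.dn T W (b W)) (b T)
  rw [dist_comm (X.dn T W (X.pt W x)) (X.dn T W (b W)), dist_comm (X.dn T W (b W)) (b T)] at h8
  have := hk.hE
  linarith

omit hb in
theorem L2 {x : G} {T W : X.hhs.Idx} (h : Trans X.hhs.nest X.hhs.orth T W)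
    (h1 : dist (b T) (X.rp W T) ≤ k) (h2 : 2 * k < dist (X.pt T x) (b T)) :
    dist (X.pt W x) (X.rp T W) ≤ k := by
  rcases X.cons_trans h x with h3 | h3
  · exact h3.trans hk.hk1
  · exfalso
    have h4 := dist_triangle (X.pt T x) (X.rp W T) (b T)
    rw [dist_comm (X.rp W T)] at h4
    have := hk.hk1
    linarith

/-- improvement of the constant -/
theorem SI {x : G} {T W : X.hhs.Idx} (h : Trans X.hhs.nest X.hhs.orth T W)
    (h1 : dist (b T) (X.rp W T) ≤ 3 * k) (h2 : 4 * k < dist (X.pt T x) (b T))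
    (h3 : 2 * k < dist (X.pt W x) (b W)) : dist (b T) (X.rp W T) ≤ k := by
  have k0 := hk.k0
  rcases hb.tr T W h with h4 | h4
  · exfalso
    have h5 := L2 (b := b) hk (X.trans_symm h) h4 h3
    have h6 := dist_triangle (X.pt T x) (X.rp W T) (b T)
    rw [dist_comm (X.rp W T)] at h6
    linarith
  · exact h4

omit hk hb in
/-- the maximal bad domains -/
def Mx (x : G) (b : ∀ w, X.C w) (c : ℝ) (T : X.hhs.Idx) : Prop :=
  c < dist (X.pt T x) (b T) ∧ ∀ W, PNest X.hhs.nest T W → ¬ c < dist (X.pt W x) (b W)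

omit hk hb in
/-- the order on transverse bad domains -/
def Prec (b : ∀ w, X.C w) (k : ℝ) (T T' : X.hhs.Idx) : Prop :=
  Trans X.hhs.nest X.hhs.orth T T' ∧ dist (b T) (X.rp T' T) ≤ k

theorem prec_trans {x : G} {c : ℝ} (hc : 10 * k ≤ c) {T T' T'' : X.hhs.Idx}
    (m : Mx x b c T) (m' : Mx x b c T') (m'' : Mx x b c T'')
    (h : Prec b k T T') (h' : Prec b k T' T'') : Prec b k T T'' := by
  have k0 := hk.k0
  have a1 := L2 (b := b) (x := x) hk h.1 h.2 (by linarith [m.1])
  have a2 : c - 2 * k < dist (X.rp T T') (X.rp T'' T') := by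
    have h1 := dist_triangle (X.pt T' x) (X.rp T T') (b T')
    have h2 := dist_triangle (X.rp T T') (X.rp T'' T') (b T')
    rw [dist_comm (X.rp T'' T') (b T')] at h2
    linarith [m'.1, h'.2]
  -- realization at `T''`
  obtain ⟨y, hy⟩ := X.partial_real {T''} (by
    intro u hu v hv huv
    rw [Set.mem_singleton_iff] at hu hv
    exact absurd (hu.trans hv.symm) huv) b (fun w _ => hb.co w)
  have hy' := (hy T'' rfl).2
  have ha1 := hk.ha1
  have hk1 := hk.hk1
  have a3 : dist (X.pt T' y) (X.rp T'' T') ≤ k := (hy' T' (Or.inr (X.trans_symm h'.1))).trans ha1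
  have a4 : dist (X.pt T y) (X.rp T' T) ≤ k := by
    rcases X.cons_trans h.1 y with h1 | h1
    · exfalso
      have h2 := dist_triangle (X.rp T T') (X.pt T' y) (X.rp T'' T')
      rw [dist_comm (X.rp T T') (X.pt T' y)] at h2
      linarith
    · exact h1.trans hk1
  have tr : Trans X.hhs.nest X.hhs.orth T T'' := by
    rcases X.rel_cases T T'' with h1 | h1 | h1 | h1 | h1
    · subst h1
      rw [dist_self] at a2
      linarith
    · exfalso
      obtain ⟨z, hz⟩ := X.partial_real {T, T''} (by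
        intro u hu v hv huv
        rcases hu with rfl | hu
        · rcases hv with rfl | hv
          · exact absurd rfl huv
          · rw [Set.mem_singleton_iff.1 hv]; exact h1
        · rw [Set.mem_singleton_iff.1 hu]
          rcases hv with rfl | hv
          · exact X.hhs.orth_symm _ _ h1
          · rw [Set.mem_singleton_iff] at hu hv
            exact absurd (hu.trans hv.symm) huv) b (fun w _ => hb.co w)
      have z1 := (hz T (Set.mem_insert _ _)).2 T' (Or.inr h.1)
      have z2 := (hz T'' (Set.mem_insert_of_mem _ rfl)).2 T' (Or.inr (X.trans_symm h'.1))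
      have z3 := dist_triangle (X.rp T T') (X.pt T' z) (X.rp T'' T')
      rw [dist_comm (X.rp T T') (X.pt T' z)] at z3
      linarith
    · exact absurd m''.1 (m.2 _ h1)
    · exact absurd m.1 (m''.2 _ h1)
    · exact X.trans_symm h1
  refine ⟨tr, ?_⟩
  have a5 : dist (X.pt T y) (X.rp T'' T) ≤ k := (hy' T (Or.inr (X.trans_symm tr))).trans ha1
  refine SI hk hb (x := x) tr ?_ (by linarith [m.1]) (by linarith [m''.1])
  have h1 := dist_triangle (b T) (X.rp T' T) (X.rp T'' T)
  have h2 := dist_triangle (X.rp T' T) (X.pt T y) (X.rp T'' T)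
  rw [dist_comm (X.rp T' T) (X.pt T y)] at h2
  linarith [h.2]

/-- a maximal bad domain is good or has a successor -/
theorem succ_or_good {x : G} {c : ℝ} (hc : 10 * k ≤ c) {T : X.hhs.Idx} (m : Mx x b c T) :
    (∀ W, X.Rel T W → dist (b W) (X.rp T W) ≤ c + 3 * k) ∨ ∃ T', Mx x b c T' ∧ Prec b k T T' := by
  have k0 := hk.k0
  by_contra hcon
  push Not at hcon
  obtain ⟨⟨W, hW, h1⟩, h2⟩ := hcon
  rcases hW with hW | hW
  · have := L1 hk hb hW (not_lt.1 (m.2 W hW)) (by linarith [m.1])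
    linarith
  · have h3 : dist (b T) (X.rp W T) ≤ k := by
      rcases hb.tr T W hW with h3 | h3
      · linarith
      · exact h3
    have h4 := L2 (b := b) (x := x) hk hW h3 (by linarith [m.1])
    have h5 : c < dist (X.pt W x) (b W) := by
      have := dist_triangle (b W) (X.pt W x) (X.rp T W)
      rw [dist_comm (b W) (X.pt W x)] at this
      linarith
    obtain ⟨T', hT1, hT2, hT3⟩ := X.exists_max (fun W => c < dist (X.pt W x) (b W)) h5
    have tr : Trans X.hhs.nest X.hhs.orth T T' := by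
      rcases X.rel_cases T T' with h6 | h6 | h6 | h6 | h6
      · subst h6
        exact absurd hT1 hW.2.2
      · exact absurd (X.hhs.orth_symm _ _ (X.hhs.orth_of_nest _ _ _ hT1 (X.hhs.orth_symm _ _ h6)))
          hW.1
      · exact absurd hT2 (m.2 _ h6)
      · exact absurd (X.hhs.nest_trans _ _ _ hT1 h6.1) hW.2.2
      · exact X.trans_symm h6
    have h7 := X.cons_rho hT1 (Or.inr ⟨X.trans_symm tr, hW.1⟩) (Or.inr (X.trans_symm hW))
    refine h2 T' ⟨hT2, hT3⟩ ⟨tr, SI hk hb (x := x) tr ?_ (by linarith [m.1]) (by linarith)⟩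
    have h8 := dist_triangle (b T) (X.rp W T) (X.rp T' T)
    have := hk.hk1
    linarith

omit hk hb in
/-- the bound for the number of bad domains -/
noncomputable def bnd (X : HHG G) (k c : ℝ) : ℕ → ℕ
  | 0 => 0
  | n + 1 => ⌈X.hhs.lam * (2 * c + 4 * k) + X.hhs.lam⌉₊ * (1 + bnd X k c n)

theorem count {x y : G} {c : ℝ} (hc : 10 * k ≤ c) {Tm : X.hhs.Idx} (m : Mx x b c Tm)
    (hy : ∀ w, X.Rel Tm w → dist (X.pt w y) (X.rp Tm w) ≤ k) :
    ∀ (n : ℕ) (R : X.hhs.Idx), X.LevLE R n → ¬ c < dist (X.pt R x) (b R) →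
    ∀ 𝒯 : Finset X.hhs.Idx, (∀ T ∈ 𝒯, Mx x b c T ∧ Prec b k T Tm ∧ X.hhs.nest T R) →
    𝒯.card ≤ bnd X k c n := by
  classical
  have k0 := hk.k0
  intro n
  induction n with
  | zero => intro R hR; exact absurd hR (X.not_levLE_zero R)
  | succ n ih =>
    intro R hR hRb 𝒯 h𝒯
    rcases 𝒯.eq_empty_or_nonempty with rfl | ⟨T0, hT0⟩
    · simp
    -- the distance in `R`
    have hD : dist (X.pt R x) (X.pt R y) ≤ 2 * c + 4 * k := by
      obtain ⟨m0, p0, n0⟩ := h𝒯 T0 hT0
      have hR' := not_lt.1 hRb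
      rcases X.rel_cases R Tm with h1 | h1 | h1 | h1
      · subst h1
        exact absurd m.1 hRb
      · exact absurd (X.hhs.orth_of_nest _ _ _ n0 h1) p0.1.1
      · exact absurd (X.hhs.nest_trans _ _ _ n0 h1.1) p0.1.2.1
      · have hy1 := hy R h1
        have t1 := dist_triangle (X.pt R x) (X.rp Tm R) (X.pt R y)
        rw [dist_comm (X.rp Tm R) (X.pt R y)] at t1
        have t2 := dist_triangle (X.pt R x) (b R) (X.rp Tm R)
        rcases h1 with h1 | h1
        · have := L1 hk hb h1 hR' (by linarith [m.1])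
          linarith
        · rcases hb.tr Tm R h1 with h2 | h2
          · have c0 : 0 ≤ c := dist_nonneg.trans hR'
            linarith
          · have := L2 (b := b) (x := x) hk h1 h2 (by linarith [m.1])
            have c0 : 0 ≤ c := dist_nonneg.trans hR'
            linarith
    obtain ⟨F, hF1, hF2, hF3⟩ := X.links R x y
    have hFc : F.card ≤ ⌈X.hhs.lam * (2 * c + 4 * k) + X.hhs.lam⌉₊ := by
      have h1 : (F.card : ℝ) ≤ X.hhs.lam * (2 * c + 4 * k) + X.hhs.lam := by
        refine hF1.trans ?_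
        have := mul_le_mul_of_nonneg_left hD (zero_le_one.trans X.hhs.lam_ge)
        linarith
      have h2 := h1.trans (Nat.le_ceil _)
      exact_mod_cast h2
    have hcov : 𝒯 ⊆ F.biUnion (fun t => 𝒯.filter (fun T => X.hhs.nest T t)) := by
      intro T hT
      obtain ⟨mT, pT, nT⟩ := h𝒯 T hT
      have hTR : PNest X.hhs.nest T R := ⟨nT, fun h => hRb (h ▸ mT.1)⟩
      rcases hF3 T hTR with ⟨t, ht, hTt⟩ | h
      · exact Finset.mem_biUnion.2 ⟨t, ht, Finset.mem_filter.2 ⟨hT, hTt⟩⟩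
      · exfalso
        have h1 := hy T (Or.inr (X.trans_symm pT.1))
        have h2 := dist_triangle (X.pt T x) (X.pt T y) (b T)
        have h3 := dist_triangle (X.pt T y) (X.rp Tm T) (b T)
        rw [dist_comm (X.rp Tm T) (b T)] at h3
        have h4 := pT.2
        have h5 := hk.hE2
        have h6 := mT.1
        linarith
    have hcard : ∀ t ∈ F, (𝒯.filter (fun T => X.hhs.nest T t)).card ≤ 1 + bnd X k c n := by
      intro t ht
      by_cases hbt : c < dist (X.pt t x) (b t)
      · refine le_trans ?_ (Nat.le_add_right 1 _)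
        rw [Finset.card_le_one]
        have : ∀ a ∈ 𝒯.filter (fun T => X.hhs.nest T t), a = t := by
          intro a ha
          obtain ⟨ha1, ha2⟩ := Finset.mem_filter.1 ha
          by_contra hat
          exact (h𝒯 a ha1).1.2 t ⟨ha2, hat⟩ hbt
        intro a ha a' ha'
        rw [this a ha, this a' ha']
      · refine le_trans (ih t (X.levLE_of_pnest (hF2 t ht) hR) hbt _ ?_) (Nat.le_add_left _ _)
        intro T hT
        obtain ⟨h1, h2⟩ := Finset.mem_filter.1 hT
        exact ⟨(h𝒯 T h1).1, (h𝒯 T h1).2.1, h2⟩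
    calc 𝒯.card ≤ (F.biUnion (fun t => 𝒯.filter (fun T => X.hhs.nest T t))).card :=
          Finset.card_le_card hcov
      _ ≤ F.card * (1 + bnd X k c n) := Finset.card_biUnion_le_card_mul _ _ _ hcard
      _ ≤ ⌈X.hhs.lam * (2 * c + 4 * k) + X.hhs.lam⌉₊ * (1 + bnd X k c n) :=
          Nat.mul_le_mul_right _ hFc

/-- a good bad domain -/
theorem exists_good {x : G} {c : ℝ} (hc : 10 * k ≤ c) :
    (∀ w, dist (X.pt w x) (b w) ≤ c) ∨ ∃ T, c < dist (X.pt T x) (b T) ∧
      ∀ W, X.Rel T W → dist (b W) (X.rp T W) ≤ c + 3 * k := by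
  classical
  by_contra hcon
  push Not at hcon
  obtain ⟨⟨w, hw⟩, h2⟩ := hcon
  obtain ⟨T0, _, hT1, hT2⟩ := X.exists_max (fun W => c < dist (X.pt W x) (b W)) hw
  have hsucc : ∀ T, Mx x b c T → ∃ T', Mx x b c T' ∧ Prec b k T T' := by
    intro T m
    rcases succ_or_good hk hb hc m with h | h
    · obtain ⟨W, hW, hW'⟩ := h2 T m.1
      exact absurd (h W hW) (not_le.2 hW')
    · exact h
  have key : ∀ n : ℕ, ∃ (Tm : X.hhs.Idx) (𝒯 : Finset X.hhs.Idx), Mx x b c Tm ∧ 𝒯.card = n ∧
      ∀ T ∈ 𝒯, Mx x b c T ∧ Prec b k T Tm := by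
    intro n
    induction n with
    | zero => exact ⟨T0, ∅, ⟨hT1, hT2⟩, by simp, by simp⟩
    | succ n ih =>
      obtain ⟨Tm, 𝒯, h3, h4, h5⟩ := ih
      obtain ⟨T', h6, h7⟩ := hsucc Tm h3
      refine ⟨T', insert Tm 𝒯, h6, ?_, ?_⟩
      · rw [Finset.card_insert_of_notMem, h4]
        intro h
        exact (h5 Tm h).2.1.2.1 (X.hhs.nest_refl _)
      · intro T hT
        rcases Finset.mem_insert.1 hT with rfl | hT
        · exact ⟨h3, h7⟩
        · exact ⟨(h5 T hT).1, prec_trans hk hb hc (h5 T hT).1 h3 h6 (h5 T hT).2 h7⟩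
  obtain ⟨Tm, 𝒯, h3, h4, h5⟩ := key (bnd X k c X.cpl + 1)
  obtain ⟨y, hy⟩ := X.partial_real {Tm} (by
    intro u hu v hv huv
    rw [Set.mem_singleton_iff] at hu hv
    exact absurd (hu.trans hv.symm) huv) b (fun w _ => hb.co w)
  have hy' : ∀ w, X.Rel Tm w → dist (X.pt w y) (X.rp Tm w) ≤ k := fun w hw =>
    ((hy Tm rfl).2 w hw).trans hk.ha1
  rcases X.hhs.nest_top with h6 | ⟨s, hs⟩
  · exact h6.false Tm
  have hsb : ¬ c < dist (X.pt s x) (b s) := by
    intro hsb
    have hTs : Tm = s := by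
      by_contra h
      exact h3.2 s ⟨hs Tm, h⟩ hsb
    obtain ⟨T', _, h8⟩ := hsucc Tm h3
    rw [hTs] at h8
    exact h8.1.2.2 (hs T')
  have := count hk hb hc h3 hy' _ s (X.levLE_cpl s) hsb 𝒯
    (fun T hT => ⟨(h5 T hT).1, (h5 T hT).2, hs T⟩)
  omega

omit hk hb in
/-- the potential of a family of domains -/
noncomputable def pot (X : HHG G) (J : Finset X.hhs.Idx) : ℕ :=
  ∑ u ∈ J, (X.cpl + 1 - X.lev u)

omit hk hb in
theorem pot_le (J : Finset X.hhs.Idx) (hJ : ∀ u ∈ J, ∀ v ∈ J, u ≠ v → X.hhs.orth u v) :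
    pot X J ≤ X.cpl * X.cpl := by
  have h1 := X.card_orth' J hJ
  calc pot X J ≤ ∑ _u ∈ J, X.cpl := by
        apply Finset.sum_le_sum
        intro u _
        have := X.lev_pos u
        omega
    _ = J.card * X.cpl := by rw [Finset.sum_const, smul_eq_mul]
    _ ≤ X.cpl * X.cpl := Nat.mul_le_mul_right _ h1

omit hk hb in
open Classical in
theorem pot_insert (J : Finset X.hhs.Idx) (hJ : ∀ u ∈ J, ∀ v ∈ J, u ≠ v → X.hhs.orth u v)
    {T : X.hhs.Idx} (hT : ∀ u ∈ J, X.hhs.orth T u ∨ PNest X.hhs.nest T u) :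
    pot X J < pot X (insert T (J.filter (fun u => ¬ X.hhs.nest T u))) := by
  have hTJ : T ∉ J.filter (fun u => ¬ X.hhs.nest T u) := by
    intro h
    exact (Finset.mem_filter.1 h).2 (X.hhs.nest_refl T)
  have h1 : pot X J = ∑ u ∈ J.filter (fun u => X.hhs.nest T u), (X.cpl + 1 - X.lev u) +
      ∑ u ∈ J.filter (fun u => ¬ X.hhs.nest T u), (X.cpl + 1 - X.lev u) :=
    (Finset.sum_filter_add_sum_filter_not J _ _).symm
  have h2 : ∑ u ∈ J.filter (fun u => X.hhs.nest T u), (X.cpl + 1 - X.lev u) <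
      X.cpl + 1 - X.lev T := by
    have h3 : (J.filter (fun u => X.hhs.nest T u)).card ≤ 1 := by
      rw [Finset.card_le_one]
      intro a ha c hc
      obtain ⟨ha1, ha2⟩ := Finset.mem_filter.1 ha
      obtain ⟨hc1, hc2⟩ := Finset.mem_filter.1 hc
      by_contra hac
      have h4 := X.hhs.orth_of_nest _ _ _ ha2 (hJ a ha1 c hc1 hac)
      exact X.hhs.orth_not_nest _ _ h4 hc2
    have h5 := X.lev_le_cpl T
    rcases (J.filter (fun u => X.hhs.nest T u)).eq_empty_or_nonempty with he | ⟨u, hu⟩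
    · rw [he, Finset.sum_empty]
      omega
    · have h6 : J.filter (fun u => X.hhs.nest T u) = {u} := by
        ext a
        rw [Finset.mem_singleton]
        exact ⟨fun ha => Finset.card_le_one.1 h3 a ha u hu, fun ha => ha ▸ hu⟩
      rw [h6, Finset.sum_singleton]
      obtain ⟨hu1, hu2⟩ := Finset.mem_filter.1 hu
      have h7 : PNest X.hhs.nest T u := by
        rcases hT u hu1 with h | h
        · exact absurd hu2 (X.hhs.orth_not_nest _ _ h)
        · exact h
      have := X.lev_lt h7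
      have := X.lev_le_cpl u
      omega
  unfold pot at h1 ⊢
  rw [Finset.sum_insert hTJ, h1]
  omega

omit hb in
theorem real_aux : ∀ (j : ℕ) (A : ℝ), ∃ θ : ℝ, ∀ b : ∀ w, X.C w, X.Cons b k →
    ∀ J : Finset X.hhs.Idx, (∀ u ∈ J, ∀ v ∈ J, u ≠ v → X.hhs.orth u v) →
    (∀ u ∈ J, ∀ w, X.Rel u w → dist (b w) (X.rp u w) ≤ A) → X.cpl * X.cpl ≤ pot X J + j →
    ∃ x, ∀ w, dist (X.pt w x) (b w) ≤ θ := by
  classical
  intro j
  have step : ∀ (A : ℝ), ∀ b : ∀ w, X.C w, X.Cons b k →
      ∀ J : Finset X.hhs.Idx, (∀ u ∈ J, ∀ v ∈ J, u ≠ v → X.hhs.orth u v) →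
      (∀ u ∈ J, ∀ w, X.Rel u w → dist (b w) (X.rp u w) ≤ A) →
      (∃ x, ∀ w, dist (X.pt w x) (b w) ≤ max (10 * k) (A + k)) ∨
      ∃ J' : Finset X.hhs.Idx, (∀ u ∈ J', ∀ v ∈ J', u ≠ v → X.hhs.orth u v) ∧
        (∀ u ∈ J', ∀ w, X.Rel u w → dist (b w) (X.rp u w) ≤ max (10 * k) (A + k) + 3 * k) ∧
        pot X J < pot X J' := by
    intro A b hb J hJ hA
    obtain ⟨x, hx⟩ := X.partial_real (J : Set X.hhs.Idx) (fun u hu v hv h => hJ u hu v hv h) b
      (fun w _ => hb.co w)
    have k0 := hk.k0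
    have ha1 := hk.ha1
    have m1 : 10 * k ≤ max (10 * k) (A + k) := le_max_left _ _
    have m2 : A + k ≤ max (10 * k) (A + k) := le_max_right _ _
    rcases exists_good hk hb (x := x) (c := max (10 * k) (A + k)) m1 with h | ⟨T, hT1, hT2⟩
    · exact Or.inl ⟨x, h⟩
    · right
      have hTu : ∀ u ∈ J, X.hhs.orth T u ∨ PNest X.hhs.nest T u := by
        intro u hu
        rcases X.rel_cases T u with h | h | h | h
        · subst h
          have := (hx T hu).1
          linarith
        · exact Or.inl h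
        · exact Or.inr h
        · exfalso
          have h1 := (hx u hu).2 T h
          have h2 := hA u hu T h
          have h3 := dist_triangle (X.pt T x) (X.rp u T) (b T)
          rw [dist_comm (X.rp u T) (b T)] at h3
          linarith
      refine ⟨insert T (J.filter (fun u => ¬ X.hhs.nest T u)), ?_, ?_, pot_insert J hJ hTu⟩
      · have h3 : ∀ u ∈ J.filter (fun u => ¬ X.hhs.nest T u), X.hhs.orth T u := by
          intro u hu
          obtain ⟨h4, h5⟩ := Finset.mem_filter.1 hu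
          rcases hTu u h4 with h | h
          · exact h
          · exact absurd h.1 h5
        intro u hu v hv huv
        rcases Finset.mem_insert.1 hu with hu | hu
        · rcases Finset.mem_insert.1 hv with hv | hv
          · exact absurd (hu.trans hv.symm) huv
          · rw [hu]; exact h3 v hv
        · rcases Finset.mem_insert.1 hv with hv | hv
          · rw [hv]; exact X.hhs.orth_symm _ _ (h3 u hu)
          · exact hJ u (Finset.mem_filter.1 hu).1 v (Finset.mem_filter.1 hv).1 huv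
      · intro u hu w hw
        rcases Finset.mem_insert.1 hu with hu | hu
        · subst hu
          exact hT2 w hw
        · have := hA u (Finset.mem_filter.1 hu).1 w hw
          linarith
  induction j with
  | zero =>
    intro A
    refine ⟨max (10 * k) (A + k), fun b hb J hJ hA hp => ?_⟩
    rcases step A b hb J hJ hA with h | ⟨J', h1, _, h3⟩
    · exact h
    · have := pot_le J' h1
      omega
  | succ j ih =>
    intro A
    obtain ⟨θ, hθ⟩ := ih (max (10 * k) (A + k) + 3 * k)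
    refine ⟨max θ (max (10 * k) (A + k)), fun b hb J hJ hA hp => ?_⟩
    rcases step A b hb J hJ hA with ⟨x, hx⟩ | ⟨J', h1, h2, h3⟩
    · exact ⟨x, fun w => (hx w).trans (le_max_right _ _)⟩
    · obtain ⟨x, hx⟩ := hθ b hb J' h1 h2 (by omega)
      exact ⟨x, fun w => (hx w).trans (le_max_left _ _)⟩

omit hb in
/-- **Realization theorem**: consistent tuples are the coordinates of points, coarsely. -/
theorem realization : ∃ θ : ℝ, ∀ b : ∀ w, X.C w, X.Cons b k →
    ∃ x, ∀ w, dist (X.pt w x) (b w) ≤ θ := by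
  classical
  obtain ⟨θ, hθ⟩ := real_aux hk (X.cpl * X.cpl) 0
  refine ⟨θ, fun b hb => ?_⟩
  rcases X.hhs.nest_top with h6 | ⟨s, hs⟩
  · exact ⟨1, fun w => (h6.false w).elim⟩
  · refine hθ b hb {s} ?_ ?_ (Nat.le_add_left _ _)
    · intro u hu v hv huv
      exact absurd ((Finset.mem_singleton.1 hu).trans (Finset.mem_singleton.1 hv).symm) huv
    · intro u hu w hw
      rw [Finset.mem_singleton] at hu
      subst hu
      exfalso
      rcases hw with h | h
      · exact h.2 (X.hhs.nest_antisymm _ _ h.1 (hs w))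
      · exact h.2.2 (hs w)

end HHG

end Pool.Agent.H898.HH
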