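import Pool.Agent.H898.HH.Colour
import Pool.Agent.H898.HH.Notions

/-!
# Unbounded domains, and the restriction of a structure to them
-/

set_option autoImplicit false

namespace Pool.Agent.H898.HH

variable {G : Type} [Group G] (X : HHG G)

/-- some unbounded domain is nested in `u` -/
def HHG.Big (u : X.hhs.Idx) : Prop := ∃ v, X.hhs.nest v u ∧ X.Unb v

theorem unb_act {v : X.hhs.Idx} (g : G) (h : X.Unb v) : X.Unb (X.actI g v) := by
  intro D
  obtain ⟨x, y, p, hp, q, hq, hD⟩ := h D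
  refine ⟨g * x, g * y, X.actP g p, ?_, X.actP g q, ?_, ?_⟩
  · rw [X.proj_equivariant]; exact Set.mem_image_of_mem _ hp
  · rw [X.proj_equivariant]; exact Set.mem_image_of_mem _ hq
  · rw [X.actP_dist]
    · exact hD
    · rw [X.hhs.proj_base v x p hp, X.hhs.proj_base v y q hq]

theorem big_act {u : X.hhs.Idx} (g : G) (h : X.Big u) : X.Big (X.actI g u) := by
  obtain ⟨v, h1, h2⟩ := h
  exact ⟨_, X.actI_nest g _ _ h1, unb_act X g h2⟩

theorem big_of_act {u : X.hhs.Idx} (g : G) (h : X.Big (X.actI g u)) : X.Big u := by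
  have := big_act X g⁻¹ h
  rwa [actI_inv] at this

theorem big_mono {u v : X.hhs.Idx} (h : X.hhs.nest u v) (hu : X.Big u) : X.Big v := by
  obtain ⟨w, h1, h2⟩ := hu
  exact ⟨w, X.hhs.nest_trans _ _ _ h1 h, h2⟩

/-- the projections to the domains which are not unbounded are uniformly bounded -/
theorem exists_bound : ∃ B : ℝ, 0 ≤ B ∧ ∀ u, ¬ X.Unb u → ∀ x y, ∀ p ∈ X.hhs.proj u x,
    ∀ q ∈ X.hhs.proj u y, X.hhs.dist p q ≤ B := by
  classical
  obtain ⟨F, hF, hF'⟩ := X.actI_cofinite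
  have h1 : ∀ u, ∃ B : ℝ, ¬ X.Unb u → ∀ x y, ∀ p ∈ X.hhs.proj u x,
      ∀ q ∈ X.hhs.proj u y, X.hhs.dist p q ≤ B := by
    intro u
    by_cases h : X.Unb u
    · exact ⟨0, fun h' => absurd h h'⟩
    · unfold HHG.Unb at h
      push Not at h
      obtain ⟨D, hD⟩ := h
      exact ⟨D, fun _ => hD⟩
  choose B hB using h1
  obtain ⟨M, hM⟩ := (hF.image B).bddAbove
  refine ⟨max M 0, le_max_right _ _, ?_⟩
  intro u hu x y p hp q hq
  obtain ⟨g, v, hv, rfl⟩ := hF' u
  have hv' : ¬ X.Unb v := fun h => hu (unb_act X g h)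
  have hx : g * (g⁻¹ * x) = x := by group
  have hy : g * (g⁻¹ * y) = y := by group
  rw [← hx, X.proj_equivariant] at hp
  rw [← hy, X.proj_equivariant] at hq
  obtain ⟨p', hp', rfl⟩ := hp
  obtain ⟨q', hq', rfl⟩ := hq
  rw [X.actP_dist _ _ _ (by rw [X.hhs.proj_base v _ p' hp', X.hhs.proj_base v _ q' hq'])]
  exact (hB v hv' _ _ p' hp' q' hq').trans ((hM (Set.mem_image_of_mem _ hv)).trans (le_max_left _ _))

/-- every unbounded domain has a minimal unbounded domain nested in it -/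
theorem exists_minUnb {u : X.hhs.Idx} (hu : X.Unb u) : ∃ v, X.hhs.nest v u ∧ X.MinUnb v := by
  classical
  obtain ⟨n, hn⟩ := X.hhs.complexity
  by_contra hcon
  push Not at hcon
  have key : ∀ k : ℕ, ∃ (v : X.hhs.Idx) (F : Finset X.hhs.Idx), X.hhs.nest v u ∧ X.Unb v ∧
      F.card = k + 1 ∧ (∀ a ∈ F, ∀ b ∈ F, X.hhs.nest a b ∨ X.hhs.nest b a) ∧
      ∀ a ∈ F, X.hhs.nest v a := by
    intro k
    induction k with
    | zero =>
      exact ⟨u, {u}, X.hhs.nest_refl u, hu, by simp, by simp [X.hhs.nest_refl],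
        by simp [X.hhs.nest_refl]⟩
    | succ k ih =>
      obtain ⟨v, F, h1, h2, h3, h4, h5⟩ := ih
      have h6 := hcon v h1
      have h7 : ∃ w, PNest X.hhs.nest w v ∧ X.Unb w := by
        by_contra h8
        push Not at h8
        exact h6 ⟨h2, h8⟩
      obtain ⟨w, hw, hw'⟩ := h7
      have hwF : w ∉ F := by
        intro hwF
        exact hw.2 (X.hhs.nest_antisymm _ _ hw.1 (h5 w hwF))
      refine ⟨w, insert w F, X.hhs.nest_trans _ _ _ hw.1 h1, hw', ?_, ?_, ?_⟩
      · rw [Finset.card_insert_of_notMem hwF, h3]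
      · intro a ha b hb
        rcases Finset.mem_insert.1 ha with rfl | ha
        · rcases Finset.mem_insert.1 hb with rfl | hb
          · exact Or.inl (X.hhs.nest_refl _)
          · exact Or.inl (X.hhs.nest_trans _ _ _ hw.1 (h5 b hb))
        · rcases Finset.mem_insert.1 hb with hb | hb
          · rw [hb]
            exact Or.inr (X.hhs.nest_trans _ _ _ hw.1 (h5 a ha))
          · exact h4 a ha b hb
      · intro a ha
        rcases Finset.mem_insert.1 ha with rfl | ha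
        · exact X.hhs.nest_refl _
        · exact X.hhs.nest_trans _ _ _ hw.1 (h5 a ha)
  obtain ⟨v, F, _, _, h3, h4, _⟩ := key n
  have := hn F h4
  omega

/-- the restriction of the structure to the domains in which an unbounded domain is nested -/
noncomputable def resHHS : HHS G (wordDist X.gens) where
  Idx := {u : X.hhs.Idx // X.Big u}
  Pt := {p : X.hhs.Pt // X.Big (X.hhs.base p)}
  base p := ⟨X.hhs.base p.1, p.2⟩
  dist p q := X.hhs.dist p.1 q.1
  δ := X.hhs.δ
  ξ := X.hhs.ξ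
  K := X.hhs.K
  κ := X.hhs.κ
  E := X.hhs.E
  lam := X.hhs.lam
  α := X.hhs.α
  dist_self p := X.hhs.dist_self p.1
  eq_of_dist p q h h' := Subtype.ext (X.hhs.eq_of_dist _ _ (Subtype.ext_iff.1 h) h')
  dist_comm p q h := X.hhs.dist_comm _ _ (Subtype.ext_iff.1 h)
  dist_triangle p q r h h' :=
    X.hhs.dist_triangle _ _ _ (Subtype.ext_iff.1 h) (Subtype.ext_iff.1 h')
  geodesic := by
    classical
    rintro ⟨p, hp⟩ ⟨q, hq⟩ h
    obtain ⟨L, γ, ⟨h1, h2, h3⟩, h4, h5⟩ := X.hhs.geodesic p q (Subtype.ext_iff.1 h)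
    let γ' : ℝ → {p : X.hhs.Pt // X.Big (X.hhs.base p)} := fun s =>
      if hs : X.Big (X.hhs.base (γ s)) then ⟨γ s, hs⟩ else ⟨p, hp⟩
    have h6 : ∀ s ∈ Set.Icc 0 L, (γ' s).1 = γ s := by
      intro s hs
      have : X.Big (X.hhs.base (γ s)) := by rw [h2 s hs]; exact hp
      simp only [γ', dif_pos this]
    refine ⟨L, γ', ⟨h1, ?_, ?_⟩, ?_, ?_⟩
    · intro s hs
      apply Subtype.ext
      show X.hhs.base (γ' s).1 = X.hhs.base p
      rw [h6 s hs, h2 s hs]
    · intro s hs t ht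
      show X.hhs.dist (γ' s).1 (γ' t).1 = _
      rw [h6 s hs, h6 t ht, h3 s hs t ht]
    · apply Subtype.ext
      rw [h6 0 ⟨le_refl _, h1⟩, h4]
    · apply Subtype.ext
      rw [h6 L ⟨h1, le_refl _⟩, h5]
  hyperbolic x y z w h1 h2 h3 :=
    X.hhs.hyperbolic _ _ _ _ (Subtype.ext_iff.1 h1) (Subtype.ext_iff.1 h2) (Subtype.ext_iff.1 h3)
  proj u x := {p | p.1 ∈ X.hhs.proj u.1 x}
  proj_base u x p hp := Subtype.ext (X.hhs.proj_base _ _ _ hp)
  proj_nonempty u x := by
    obtain ⟨p, hp⟩ := X.hhs.proj_nonempty u.1 x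
    have := X.hhs.proj_base _ _ _ hp
    exact ⟨⟨p, by rw [this]; exact u.2⟩, hp⟩
  proj_diam u x p hp q hq := X.hhs.proj_diam u.1 x _ hp _ hq
  proj_lipschitz u x y p hp q hq := X.hhs.proj_lipschitz u.1 x y _ hp _ hq
  proj_quasiconvex := by
    intro u x y p hp q hq L γ hγ h0 h1 s hs
    obtain ⟨z, r, hr, hz⟩ := X.hhs.proj_quasiconvex u.1 x y p.1 hp q.1 hq L (fun s => (γ s).1)
      ⟨hγ.1, fun s hs => Subtype.ext_iff.1 (hγ.2.1 s hs), hγ.2.2⟩
      (congrArg Subtype.val h0) (congrArg Subtype.val h1) s hs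
    have := X.hhs.proj_base _ _ _ hr
    exact ⟨z, ⟨r, by rw [this]; exact u.2⟩, hr, hz⟩
  nest u v := X.hhs.nest u.1 v.1
  nest_refl u := X.hhs.nest_refl _
  nest_trans u v w := X.hhs.nest_trans _ _ _
  nest_antisymm u v h h' := Subtype.ext (X.hhs.nest_antisymm _ _ h h')
  nest_top := by
    by_cases h : IsEmpty {u : X.hhs.Idx // X.Big u}
    · exact Or.inl h
    · right
      rw [not_isEmpty_iff] at h
      obtain ⟨u, hu⟩ := h
      rcases X.hhs.nest_top with h1 | ⟨s, hs⟩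
      · exact (h1.false u).elim
      · exact ⟨⟨s, big_mono X (hs u) hu⟩, fun v => hs v.1⟩
  orth u v := X.hhs.orth u.1 v.1
  orth_symm u v := X.hhs.orth_symm _ _
  orth_irrefl u := X.hhs.orth_irrefl _
  orth_of_nest u v w := X.hhs.orth_of_nest _ _ _
  orth_not_nest u v := X.hhs.orth_not_nest _ _
  container := by
    rintro t u hut ⟨v, hvt, hvu⟩
    obtain ⟨w, hw, hw'⟩ := X.hhs.container t.1 u.1 hut ⟨v.1, hvt, hvu⟩
    refine ⟨⟨w, big_mono X (hw' v.1 hvu hvt) v.2⟩, ⟨hw.1, ?_⟩, ?_⟩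
    · intro h
      exact hw.2 (congrArg Subtype.val h)
    · intro v' h1 h2
      exact hw' v'.1 h1 h2
  rho u v := {p | p.1 ∈ X.hhs.rho u.1 v.1}
  rho_base := by
    intro u v h p hp
    apply Subtype.ext
    refine X.hhs.rho_base u.1 v.1 ?_ _ hp
    rcases h with h | h
    · exact Or.inl ⟨h.1, fun h' => h.2 (Subtype.ext h')⟩
    · exact Or.inr h
  rho_nonempty := by
    intro u v h
    have h' : PNest X.hhs.nest u.1 v.1 ∨ Trans X.hhs.nest X.hhs.orth u.1 v.1 := by
      rcases h with h | h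
      · exact Or.inl ⟨h.1, fun h' => h.2 (Subtype.ext h')⟩
      · exact Or.inr h
    obtain ⟨p, hp⟩ := X.hhs.rho_nonempty u.1 v.1 h'
    have := X.hhs.rho_base _ _ h' _ hp
    exact ⟨⟨p, by rw [this]; exact v.2⟩, hp⟩
  rho_diam := by
    intro u v h p hp q hq
    refine X.hhs.rho_diam u.1 v.1 ?_ _ hp _ hq
    rcases h with h | h
    · exact Or.inl ⟨h.1, fun h' => h.2 (Subtype.ext h')⟩
    · exact Or.inr h
  rhoDown u p := {q | q.1 ∈ X.hhs.rhoDown u.1 p.1}
  rhoDown_base := by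
    intro v p h q hq
    apply Subtype.ext
    exact X.hhs.rhoDown_base v.1 p.1 ⟨h.1, fun h' => h.2 (Subtype.ext h')⟩ _ hq
  rhoDown_nonempty := by
    intro v p h
    have h1 : PNest X.hhs.nest v.1 (X.hhs.base p.1) := ⟨h.1, fun h' => h.2 (Subtype.ext h')⟩
    obtain ⟨q, hq⟩ := X.hhs.rhoDown_nonempty v.1 p.1 h1
    have := X.hhs.rhoDown_base v.1 p.1 h1 _ hq
    exact ⟨⟨q, by rw [this]; exact v.2⟩, hq⟩
  consistency_trans := by
    intro u v h x
    rcases X.hhs.consistency_trans u.1 v.1 h x with h1 | h1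
    · left
      obtain ⟨p, hp, q, hq, hpq⟩ := h1
      have h2 := X.hhs.proj_base _ _ _ hp
      have h3 := X.hhs.rho_base _ _ (Or.inr h) _ hq
      exact ⟨⟨p, by rw [h2]; exact v.2⟩, hp, ⟨q, by rw [h3]; exact v.2⟩, hq, hpq⟩
    · right
      obtain ⟨p, hp, q, hq, hpq⟩ := h1
      have h2 := X.hhs.proj_base _ _ _ hp
      have h3 := X.hhs.rho_base _ _ (Or.inr ⟨fun ho => h.1 (X.hhs.orth_symm _ _ ho), h.2.2, h.2.1⟩) _ hq
      exact ⟨⟨p, by rw [h2]; exact u.2⟩, hp, ⟨q, by rw [h3]; exact u.2⟩, hq, hpq⟩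
  consistency_nest := by
    intro v w h x
    have h' : PNest X.hhs.nest v.1 w.1 := ⟨h.1, fun h' => h.2 (Subtype.ext h')⟩
    rcases X.hhs.consistency_nest v.1 w.1 h' x with h1 | h1
    · left
      obtain ⟨p, hp, q, hq, hpq⟩ := h1
      have h2 := X.hhs.proj_base _ _ _ hp
      have h3 := X.hhs.rho_base _ _ (Or.inl h') _ hq
      exact ⟨⟨p, by rw [h2]; exact w.2⟩, hp, ⟨q, by rw [h3]; exact w.2⟩, hq, hpq⟩
    · right
      intro p hp q hq
      apply h1
      · rcases hp with hp | ⟨r, hr, hr'⟩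
        · exact Or.inl hp
        · exact Or.inr ⟨r.1, hr, hr'⟩
      · rcases hq with hq | ⟨r, hr, hr'⟩
        · exact Or.inl hq
        · exact Or.inr ⟨r.1, hr, hr'⟩
  consistency_rho := by
    intro u v w huv h
    have h' : PNest X.hhs.nest v.1 w.1 ∨ (Trans X.hhs.nest X.hhs.orth v.1 w.1 ∧
        ¬ X.hhs.orth w.1 u.1) := by
      rcases h with h | h
      · exact Or.inl ⟨h.1, fun h' => h.2 (Subtype.ext h')⟩
      · exact Or.inr h
    obtain ⟨p, hp, q, hq, hpq⟩ := X.hhs.consistency_rho u.1 v.1 w.1 huv h'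
    have hvw : PNest X.hhs.nest v.1 w.1 ∨ Trans X.hhs.nest X.hhs.orth v.1 w.1 := by
      rcases h' with h | h
      · exact Or.inl h
      · exact Or.inr h.1
    have huw : PNest X.hhs.nest u.1 w.1 ∨ Trans X.hhs.nest X.hhs.orth u.1 w.1 := by
      by_cases hn : X.hhs.nest u.1 w.1
      · left
        refine ⟨hn, ?_⟩
        intro he
        rcases h' with h | h
        · apply h.2
          exact X.hhs.nest_antisymm _ _ h.1 (he ▸ huv)
        · exact h.1.2.2 (he ▸ huv)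
      · right
        refine ⟨?_, hn, ?_⟩
        · intro ho
          rcases h' with h | h
          · exact hn (X.hhs.nest_trans _ _ _ huv h.1)
          · exact h.2 (X.hhs.orth_symm _ _ ho)
        · intro hwu
          rcases h' with h | h
          · exact hn (X.hhs.nest_trans _ _ _ huv h.1)
          · exact h.1.2.2 (X.hhs.nest_trans _ _ _ hwu huv)
    have h2 := X.hhs.rho_base _ _ huw _ hp
    have h3 := X.hhs.rho_base _ _ hvw _ hq
    exact ⟨⟨p, by rw [h2]; exact w.2⟩, hp, ⟨q, by rw [h3]; exact w.2⟩, hq, hpq⟩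
  complexity := by
    classical
    obtain ⟨n, hn⟩ := X.hhs.complexity
    refine ⟨n, fun F hF => ?_⟩
    have h1 := hn (F.map ⟨Subtype.val, Subtype.val_injective⟩) (by
      intro u hu v hv
      obtain ⟨u', hu', rfl⟩ := Finset.mem_map.1 hu
      obtain ⟨v', hv', rfl⟩ := Finset.mem_map.1 hv
      exact hF u' hu' v' hv')
    rwa [Finset.card_map] at h1
  lam_ge := X.hhs.lam_ge
  E_ge := X.hhs.E_ge
  large_links := by
    classical
    intro w x y p hp q hq
    obtain ⟨F, h1, h2, h3⟩ := X.hhs.large_links w.1 x y p.1 hp q.1 hq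
    refine ⟨F.subtype X.Big, ?_, ?_, ?_⟩
    · refine le_trans ?_ h1
      have : (F.subtype X.Big).card ≤ F.card := by
        rw [Finset.card_subtype]
        exact Finset.card_filter_le _ _
      exact_mod_cast this
    · intro t ht
      obtain ⟨h4, h5⟩ := h2 t.1 (Finset.mem_subtype.1 ht)
      refine ⟨⟨h4.1, fun h' => h4.2 (congrArg Subtype.val h')⟩, ?_⟩
      obtain ⟨r, hr, s, hs, hrs⟩ := h5
      have h6 := X.hhs.proj_base _ _ _ hr
      have h7 := X.hhs.rho_base _ _ (Or.inl h4) _ hs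
      exact ⟨⟨r, by rw [h6]; exact w.2⟩, hr, ⟨s, by rw [h7]; exact w.2⟩, hs, hrs⟩
    · intro v hv
      rcases h3 v.1 ⟨hv.1, fun h' => hv.2 (Subtype.ext h')⟩ with ⟨t, ht, hvt⟩ | ⟨p', hp', q', hq', h⟩
      · left
        exact ⟨⟨t, big_mono X hvt v.2⟩, Finset.mem_subtype.2 ht, hvt⟩
      · right
        have h6 := X.hhs.proj_base _ _ _ hp'
        have h7 := X.hhs.proj_base _ _ _ hq'
        exact ⟨⟨p', by rw [h6]; exact v.2⟩, hp', ⟨q', by rw [h7]; exact v.2⟩, hq', h⟩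
  bounded_geodesic_image := by
    intro v w h L γ hγ
    have h' : PNest X.hhs.nest v.1 w.1 := ⟨h.1, fun h' => h.2 (Subtype.ext h')⟩
    rcases X.hhs.bounded_geodesic_image v.1 w.1 h' L (fun s => (γ s).1)
      ⟨hγ.1, fun s hs => Subtype.ext_iff.1 (hγ.2.1 s hs), hγ.2.2⟩ with h1 | ⟨s, hs, q, hq, h1⟩
    · left
      rintro p ⟨s, hs, hp⟩ q ⟨t, ht, hq⟩
      exact h1 _ ⟨s, hs, hp⟩ _ ⟨t, ht, hq⟩
    · right
      have h3 := X.hhs.rho_base _ _ (Or.inl h') _ hq
      exact ⟨s, hs, ⟨q, by rw [h3]; exact w.2⟩, hq, h1⟩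
  partial_realization := by
    classical
    intro J hJ p hp
    let p' : X.hhs.Idx → X.hhs.Pt := fun u =>
      if h : X.Big u then (p ⟨u, h⟩).1 else (X.hhs.proj_nonempty u 1).some
    have hp' : ∀ u (h : X.Big u), p' u = (p ⟨u, h⟩).1 := fun u h => dif_pos h
    obtain ⟨x, hx⟩ := X.hhs.partial_realization (Subtype.val '' J) (by
      rintro _ ⟨u, hu, rfl⟩ _ ⟨v, hv, rfl⟩ huv
      exact hJ u hu v hv (fun h => huv (congrArg Subtype.val h))) p' (by
      rintro _ ⟨u, hu, rfl⟩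
      obtain ⟨y, hy⟩ := hp u hu
      exact ⟨y, by rw [hp' u.1 u.2]; exact hy⟩)
    refine ⟨x, fun u hu => ?_⟩
    obtain ⟨h1, h2⟩ := hx u.1 ⟨u, hu, rfl⟩
    refine ⟨?_, ?_⟩
    · obtain ⟨r, hr, s, hs, hrs⟩ := h1
      have h6 := X.hhs.proj_base _ _ _ hr
      refine ⟨⟨r, by rw [h6]; exact u.2⟩, hr, p u, rfl, ?_⟩
      rw [Set.mem_singleton_iff] at hs
      subst hs
      rw [hp' u.1 u.2] at hrs
      exact hrs
    · intro v h
      have h' : PNest X.hhs.nest u.1 v.1 ∨ Trans X.hhs.nest X.hhs.orth u.1 v.1 := by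
        rcases h with h | h
        · exact Or.inl ⟨h.1, fun h' => h.2 (Subtype.ext h')⟩
        · exact Or.inr h
      obtain ⟨r, hr, s, hs, hrs⟩ := h2 v.1 h'
      have h6 := X.hhs.proj_base _ _ _ hr
      have h7 := X.hhs.rho_base _ _ h' _ hs
      exact ⟨⟨r, by rw [h6]; exact v.2⟩, hr, ⟨s, by rw [h7]; exact v.2⟩, hs, hrs⟩
  uniqueness := by
    intro c
    obtain ⟨B, _, hB⟩ := exists_bound X
    obtain ⟨θ, hθ⟩ := X.hhs.uniqueness (max c (B + 1))
    refine ⟨θ, fun x y h => ?_⟩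
    obtain ⟨u, hu⟩ := hθ x y h
    have hbig : X.Big u := by
      refine ⟨u, X.hhs.nest_refl u, ?_⟩
      by_contra h1
      obtain ⟨p, hp⟩ := X.hhs.proj_nonempty u x
      obtain ⟨q, hq⟩ := X.hhs.proj_nonempty u y
      have h2 := hB u h1 x y p hp q hq
      have h3 := (le_max_right _ _).trans (hu p hp q hq)
      linarith
    exact ⟨⟨u, hbig⟩, fun p hp q hq => (le_max_left _ _).trans (hu p.1 hp q.1 hq)⟩

/-- the restriction as a structure of a hierarchically hyperbolic group -/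
noncomputable def resHHG : HHG G where
  gens := X.gens
  gens_finite := X.gens_finite
  gens_closure := X.gens_closure
  hhs := resHHS X
  actI g u := ⟨X.actI g u.1, big_act X g u.2⟩
  actI_one u := Subtype.ext (X.actI_one _)
  actI_mul g h u := Subtype.ext (X.actI_mul _ _ _)
  actI_nest g u v := X.actI_nest g _ _
  actI_orth g u v := X.actI_orth g _ _
  actI_cofinite := by
    obtain ⟨F, hF, hF'⟩ := X.actI_cofinite
    refine ⟨Subtype.val ⁻¹' F, hF.preimage (Set.injOn_of_injective Subtype.val_injective), ?_⟩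
    rintro ⟨u, hu⟩
    obtain ⟨g, v, hv, rfl⟩ := hF' u
    exact ⟨g, ⟨v, big_of_act X g hu⟩, hv, rfl⟩
  actP g p := ⟨X.actP g p.1, by rw [X.actP_base]; exact big_act X g p.2⟩
  actP_one p := Subtype.ext (X.actP_one _)
  actP_mul g h p := Subtype.ext (X.actP_mul _ _ _)
  actP_base g p := Subtype.ext (X.actP_base _ _)
  actP_dist g p q h := X.actP_dist _ _ _ (Subtype.ext_iff.1 h)
  proj_equivariant := by
    intro g u x
    ext p
    constructor
    · intro hp
      have hp' : p.1 ∈ X.actP g '' X.hhs.proj u.1 x := by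
        rw [← X.proj_equivariant]; exact hp
      obtain ⟨q, hq, hqp⟩ := hp'
      have := X.hhs.proj_base _ _ _ hq
      exact ⟨⟨q, by rw [this]; exact u.2⟩, hq, Subtype.ext hqp⟩
    · rintro ⟨q, hq, rfl⟩
      show X.actP g q.1 ∈ X.hhs.proj (X.actI g u.1) (g * x)
      rw [X.proj_equivariant]
      exact Set.mem_image_of_mem _ hq
  rho_equivariant := by
    intro g u v h
    have h' : PNest X.hhs.nest u.1 v.1 ∨ Trans X.hhs.nest X.hhs.orth u.1 v.1 := by
      rcases h with h | h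
      · exact Or.inl ⟨h.1, fun h' => h.2 (Subtype.ext h')⟩
      · exact Or.inr h
    ext p
    constructor
    · intro hp
      have hp' : p.1 ∈ X.actP g '' X.hhs.rho u.1 v.1 := by
        rw [← X.rho_equivariant _ _ _ h']; exact hp
      obtain ⟨q, hq, hqp⟩ := hp'
      have := X.hhs.rho_base _ _ h' _ hq
      exact ⟨⟨q, by rw [this]; exact v.2⟩, hq, Subtype.ext hqp⟩
    · rintro ⟨q, hq, rfl⟩
      show X.actP g q.1 ∈ X.hhs.rho (X.actI g u.1) (X.actI g v.1)
      rw [X.rho_equivariant _ _ _ h']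
      exact Set.mem_image_of_mem _ hq

/-- the domain `v` is separated from its orthogonal translates by a normal subgroup of finite
index -/
def HHG.Sep (v : X.hhs.Idx) : Prop :=
  ∃ N : Subgroup G, N.Normal ∧ N.FiniteIndex ∧ ∀ n ∈ N, ¬ X.hhs.orth (X.actI n v) v

/-- If the minimal unbounded domains are separated from their orthogonal translates then the group
has a colourable structure. -/
theorem exists_colorable (h : ∀ v, X.MinUnb v → X.Sep v) : ∃ Y : HHG G, Y.Colorable := by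
  refine ⟨resHHG X, colorable_of_sep _ ?_⟩
  rintro ⟨u, v, hvu, hv⟩
  obtain ⟨w, hwv, hw⟩ := exists_minUnb X hv
  obtain ⟨N, h1, h2, h3⟩ := h w hw
  refine ⟨N, h1, h2, fun n hn ho => h3 n hn ?_⟩
  have hwu := X.hhs.nest_trans _ _ _ hwv hvu
  have ho' : X.hhs.orth (X.actI n u) u := ho
  have h4 : X.hhs.orth (X.actI n w) u := X.hhs.orth_of_nest _ _ _ (X.actI_nest n _ _ hwu) ho'
  have h5 : X.hhs.orth w (X.actI n w) := X.hhs.orth_of_nest _ _ _ hwu (X.hhs.orth_symm _ _ h4)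
  exact X.hhs.orth_symm _ _ h5

end Pool.Agent.H898.HH
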