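import Mathlib

/-!
# Straight sequences in spaces with a conical midpoint map
-/

set_option autoImplicit false

namespace Pool.Agent.H898.HH

/-- a conical midpoint map -/
structure Mid (E : Type) [MetricSpace E] where
  /-- the midpoint -/
  mid : E → E → E
  idem : ∀ x, mid x x = x
  comm : ∀ x y, mid x y = mid y x
  con : ∀ x y x' y', dist (mid x y) (mid x' y') ≤ (dist x x' + dist y y') / 2

theorem dconv_aux {n : ℕ} {a : ℕ → ℝ} (h : ∀ i, i + 1 < n → a (i + 1) ≤ (a i + a (i + 2)) / 2)
    (i : ℕ) (hi : i + 1 ≤ n) : ((i : ℝ) + 1) * a i ≤ i * a (i + 1) + a 0 := by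
  induction i with
  | zero => simp
  | succ i ih =>
    have h1 := ih (by omega)
    have h2 := h i (by omega)
    push_cast
    have h3 : ((i : ℝ) + 1) * (2 * a (i + 1)) ≤ (i + 1) * (a i + a (i + 2)) :=
      mul_le_mul_of_nonneg_left (by linarith) (by positivity)
    have h4 : a (i + 1 + 1) = a (i + 2) := rfl
    rw [h4]
    nlinarith

/-- discrete convexity -/
theorem dconv {n : ℕ} {a : ℕ → ℝ} (h : ∀ i, i + 1 < n → a (i + 1) ≤ (a i + a (i + 2)) / 2)
    {i j : ℕ} (hij : i ≤ j) (hj : j ≤ n) : (j : ℝ) * a i ≤ i * a j + (j - i) * a 0 := by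
  induction j, hij using Nat.le_induction with
  | base => simp
  | succ j hij ih =>
    have h1 := ih (by omega)
    have h2 := dconv_aux h j hj
    rcases Nat.eq_zero_or_pos j with rfl | hj0
    · have : i = 0 := by omega
      subst this
      simp
    · have hj0' : (0 : ℝ) < j := by exact_mod_cast hj0
      have h3 : ((j : ℝ) + 1) * (j * a i) ≤ (j + 1) * (i * a j + (j - i) * a 0) :=
        mul_le_mul_of_nonneg_left h1 (by positivity)
      have h4 : (i : ℝ) * (((j : ℝ) + 1) * a j) ≤ i * (j * a (j + 1) + a 0) :=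
        mul_le_mul_of_nonneg_left h2 (by positivity)
      push_cast
      have h5 : (j : ℝ) * (((j : ℝ) + 1) * a i) ≤ j * (i * a (j + 1) + (j + 1 - i) * a 0) := by
        nlinarith
      exact le_of_mul_le_mul_left h5 hj0'

namespace Mid

variable {E : Type} [MetricSpace E] (M : Mid E)

/-- the sequence `p` is straight on `{0, …, n}` -/
def Str (n : ℕ) (p : ℕ → E) : Prop := ∀ i, i + 1 < n → p (i + 1) = M.mid (p i) (p (i + 2))

/-- `p` is a straight sequence with `n` steps from `x` to `y` -/
structure IsSeg (n : ℕ) (x y : E) (p : ℕ → E) : Prop where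
  start : p 0 = x
  stop : ∀ i, n ≤ i → p i = y
  str : M.Str n p

/-- the straightening step -/
def step (n : ℕ) (p : ℕ → E) (i : ℕ) : E :=
  if 0 < i ∧ i < n then M.mid (p (i - 1)) (p (i + 1)) else p i

variable {M}

theorem seq_start (n : ℕ) (p : ℕ → E) (k : ℕ) : ((M.step n)^[k] p) 0 = p 0 := by
  induction k generalizing p with
  | zero => rfl
  | succ k ih => rw [Function.iterate_succ_apply, ih]; simp [step]

theorem seq_stop {n : ℕ} (p : ℕ → E) (k i : ℕ) (hi : n ≤ i) : ((M.step n)^[k] p) i = p i := by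
  induction k generalizing p with
  | zero => rfl
  | succ k ih =>
    rw [Function.iterate_succ_apply, ih]
    unfold step
    rw [if_neg (by omega)]

theorem step_dist {n : ℕ} {p p' : ℕ → E} {c : ℝ} (hc : 0 ≤ c)
    (h : ∀ i, i ≤ n → dist (p i) (p' i) ≤ c * (i * (n - i))) (i : ℕ) (hi : i ≤ n) :
    dist (M.step n p i) (M.step n p' i) ≤ c * (1 - 1 / (n : ℝ) ^ 2) * (i * (n - i)) := by
  unfold step
  by_cases h0 : 0 < i ∧ i < n
  · rw [if_pos h0, if_pos h0]
    obtain ⟨h1, h2⟩ := h0
    obtain ⟨i, rfl⟩ : ∃ i', i = i' + 1 := ⟨i - 1, by omega⟩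
    have h3 := M.con (p i) (p (i + 2)) (p' i) (p' (i + 2))
    have h4 := h i (by omega)
    have h5 := h (i + 2) (by omega)
    have hn : (0 : ℝ) < n := by
      have : 0 < n := by omega
      exact_mod_cast this
    have hin : ((i : ℝ) + 1) ≤ n := by exact_mod_cast hi
    have h6 : ((i : ℝ) + 1) * (n - (i + 1)) ≤ (n : ℝ) ^ 2 := by
      have hi0 : (0 : ℝ) ≤ i := by positivity
      nlinarith
    have h7 : 1 / (n : ℝ) ^ 2 * (((i : ℝ) + 1) * (n - (i + 1))) ≤ 1 := by
      rw [div_mul_eq_mul_div, one_mul, div_le_one (by positivity)]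
      exact h6
    have h8 : i + 1 - 1 = i := rfl
    rw [h8]
    push_cast at *
    have h9 : c * ((i : ℝ) * (n - i)) + c * ((i + 2) * (n - (i + 2))) =
        2 * c * ((i + 1) * (n - (i + 1)) - 1) := by ring
    have h10 : c * ((i + 1) * (n - (i + 1)) - 1) ≤
        c * (1 - 1 / (n : ℝ) ^ 2) * ((i + 1) * (n - (i + 1))) := by
      rw [mul_assoc]
      apply mul_le_mul_of_nonneg_left _ hc
      rw [sub_mul, one_mul]
      linarith
    have h11 : i + 1 + 1 = i + 2 := rfl
    rw [h11]
    linarith
  · rw [if_neg h0, if_neg h0]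
    have h1 : i = 0 ∨ i = n := by omega
    have h2 := h i hi
    rcases h1 with rfl | rfl
    · simpa using h2
    · simpa using h2

theorem isSeg_exists [CompleteSpace E] {n : ℕ} (hn : 0 < n) (x y : E) :
    ∃ p, M.IsSeg n x y p := by
  classical
  set p₀ : ℕ → E := fun i => if i < n then x else y with hp₀
  set P : ℕ → ℕ → E := fun k => (M.step n)^[k] p₀ with hP
  have hn' : (0 : ℝ) < n := by exact_mod_cast hn
  have hn1 : (1 : ℝ) ≤ n := by exact_mod_cast hn
  set r : ℝ := 1 - 1 / (n : ℝ) ^ 2 with hr
  have hr1 : r < 1 := by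
    have : 0 < 1 / (n : ℝ) ^ 2 := by positivity
    linarith
  have hr0 : 0 ≤ r := by
    have : 1 / (n : ℝ) ^ 2 ≤ 1 := by
      rw [div_le_one (by positivity)]
      nlinarith
    linarith
  have hPs : ∀ k, P (k + 1) = M.step n (P k) := fun k => Function.iterate_succ_apply' _ _ _
  have key : ∀ k i, i ≤ n → dist (P k i) (P (k + 1) i) ≤ dist x y * r ^ k * (i * (n - i)) := by
    intro k
    induction k with
    | zero =>
      intro i hi
      have h1 : P 1 i = M.step n p₀ i := rfl
      have h2 : P 0 i = p₀ i := rfl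
      rw [zero_add, h1, h2, pow_zero, mul_one]
      unfold step
      by_cases h0 : 0 < i ∧ i < n
      · rw [if_pos h0]
        have h3 : p₀ i = x := by simp [hp₀, h0.2]
        have h4 : p₀ (i - 1) = x := by simp only [hp₀]; rw [if_pos (by omega)]
        have h5 : dist x (p₀ (i + 1)) ≤ dist x y := by
          simp only [hp₀]
          split_ifs
          · rw [dist_self]; exact dist_nonneg
          · exact le_rfl
        rw [h3, h4]
        have h6 := M.con x x x (p₀ (i + 1))
        rw [M.idem, dist_self, zero_add] at h6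
        have h7 : (1 : ℝ) ≤ i := by exact_mod_cast h0.1
        have h8 : (i : ℝ) + 1 ≤ n := by exact_mod_cast h0.2
        have h9 : (1 : ℝ) ≤ i * (n - i) := by nlinarith
        have h10 := dist_nonneg (x := x) (y := y)
        have h11 : dist x y * 1 ≤ dist x y * (i * (n - i)) := mul_le_mul_of_nonneg_left h9 h10
        linarith
      · rw [if_neg h0, dist_self]
        have h3 : (i : ℝ) ≤ n := by exact_mod_cast hi
        have := dist_nonneg (x := x) (y := y)
        have h4 : (0 : ℝ) ≤ i * (n - i) := mul_nonneg (by positivity) (by linarith)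
        positivity
    | succ k ih =>
      intro i hi
      rw [hPs k, hPs (k + 1)]
      have h1 := step_dist (M := M) (p := P k) (p' := P (k + 1))
        (mul_nonneg dist_nonneg (pow_nonneg hr0 k)) ih i hi
      rw [← hPs k] at h1 ⊢
      calc _ ≤ _ := h1
        _ = _ := by rw [pow_succ, hr]; ring
  have key2 : ∀ i, ∃ l, Filter.Tendsto (fun k => P k i) Filter.atTop (nhds l) := by
    intro i
    by_cases hi : i ≤ n
    · have : CauchySeq (fun k => P k i) := by
        apply cauchySeq_of_le_geometric r (dist x y * (i * (n - i))) hr1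
        intro k
        refine (key k i hi).trans (le_of_eq ?_)
        ring
      exact cauchySeq_tendsto_of_complete this
    · refine ⟨p₀ i, ?_⟩
      have : (fun k => P k i) = fun _ => p₀ i := by
        funext k
        exact seq_stop _ _ _ (by omega)
      rw [this]
      exact tendsto_const_nhds
  choose p hp using key2
  refine ⟨p, ?_, ?_, ?_⟩
  · have h1 := hp 0
    have : (fun k => P k 0) = fun _ => x := by
      funext k
      rw [hP]
      simp only
      rw [seq_start]
      simp [hp₀, hn]
    rw [this] at h1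
    exact tendsto_nhds_unique h1 tendsto_const_nhds
  · intro i hi
    have h1 := hp i
    have : (fun k => P k i) = fun _ => y := by
      funext k
      rw [hP]
      simp only
      rw [seq_stop _ _ _ hi]
      simp only [hp₀]
      rw [if_neg (by omega)]
    rw [this] at h1
    exact tendsto_nhds_unique h1 tendsto_const_nhds
  · intro i hi
    have h1 : Filter.Tendsto (fun k => P (k + 1) (i + 1)) Filter.atTop (nhds (p (i + 1))) :=
      (hp (i + 1)).comp (Filter.tendsto_add_atTop_nat 1)
    have h2 : (fun k => P (k + 1) (i + 1)) = fun k => M.mid (P k i) (P k (i + 2)) := by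
      funext k
      rw [hPs]
      unfold step
      rw [if_pos (by omega)]
      rfl
    rw [h2] at h1
    refine tendsto_nhds_unique h1 ?_
    rw [tendsto_iff_dist_tendsto_zero]
    have h3 := (tendsto_iff_dist_tendsto_zero.1 (hp i))
    have h4 := (tendsto_iff_dist_tendsto_zero.1 (hp (i + 2)))
    have h5 : Filter.Tendsto (fun k => (dist (P k i) (p i) + dist (P k (i + 2)) (p (i + 2))) / 2)
        Filter.atTop (nhds 0) := by
      have := (h3.add h4).div_const 2
      simpa using this
    exact squeeze_zero (fun k => dist_nonneg) (fun k => M.con _ _ _ _) h5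

/-- the distance of two straight sequences is convex -/
theorem Str.conv {n n' m : ℕ} {p p' : ℕ → E} (h : M.Str n p) (h' : M.Str n' p') (hm : m ≤ n)
    (hm' : m ≤ n') (i : ℕ) (hi : i + 1 < m) :
    dist (p (i + 1)) (p' (i + 1)) ≤
      (dist (p i) (p' i) + dist (p (i + 2)) (p' (i + 2))) / 2 := by
  rw [h i (by omega), h' i (by omega)]
  exact M.con _ _ _ _

theorem Str.conv_const {n : ℕ} {p : ℕ → E} (h : M.Str n p) (z : E) (i : ℕ) (hi : i + 1 < n) :
    dist (p (i + 1)) z ≤ (dist (p i) z + dist (p (i + 2)) z) / 2 := by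
  have := M.con (p i) (p (i + 2)) z z
  rw [M.idem] at this
  rw [h i hi]
  exact this

theorem IsSeg.unique {n : ℕ} {x y : E} {p p' : ℕ → E} (h : M.IsSeg n x y p)
    (h' : M.IsSeg n x y p') : p = p' := by
  funext i
  by_cases hi : i ≤ n
  · have h1 := dconv (a := fun i => dist (p i) (p' i)) (h.str.conv h'.str le_rfl le_rfl) hi le_rfl
    rw [h.start, h'.start, h.stop n le_rfl, h'.stop n le_rfl, dist_self, dist_self, mul_zero,
      mul_zero, add_zero] at h1
    rcases Nat.eq_zero_or_pos n with hn | hn
    · rw [h.stop i (by omega), h'.stop i (by omega)]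
    · have hn' : (0 : ℝ) < n := by exact_mod_cast hn
      have h2 : dist (p i) (p' i) ≤ 0 := by
        by_contra h3
        push Not at h3
        have := mul_pos hn' h3
        linarith
      exact dist_le_zero.1 h2
  · rw [h.stop i (by omega), h'.stop i (by omega)]

theorem IsSeg.start_dist {n : ℕ} {x y : E} {p : ℕ → E} (h : M.IsSeg n x y p) {i : ℕ} (hi : i ≤ n) :
    (n : ℝ) * dist x (p i) = i * dist x y := by
  have h1 := dconv (a := fun i => dist (p i) x) (h.str.conv_const x) hi le_rfl
  have h2 := dconv (a := fun i => dist (p i) y) (h.str.conv_const y) hi le_rfl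
  rw [h.start, h.stop n le_rfl] at h1 h2
  rw [dist_self, mul_zero, add_zero, dist_comm (p i) x, dist_comm y x] at h1
  rw [dist_self, mul_zero, zero_add] at h2
  have h3 := dist_triangle x (p i) y
  have h4 : (n : ℝ) * dist x y ≤ n * (dist x (p i) + dist (p i) y) :=
    mul_le_mul_of_nonneg_left h3 (by positivity)
  linarith

/-- subsegments -/
theorem IsSeg.sub {n : ℕ} {x y : E} {p : ℕ → E} (h : M.IsSeg n x y p) {i j : ℕ} (hij : i ≤ j)
    (hj : j ≤ n) : M.IsSeg (j - i) (p i) (p j) (fun k => p (min (i + k) j)) := by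
  refine ⟨?_, ?_, ?_⟩
  · show p (min (i + 0) j) = p i
    congr 1
    omega
  · intro k hk
    show p (min (i + k) j) = p j
    congr 1
    omega
  · intro k hk
    show p (min (i + (k + 1)) j) = M.mid (p (min (i + k) j)) (p (min (i + (k + 2)) j))
    have h1 : min (i + (k + 1)) j = (i + k) + 1 := by omega
    have h2 : min (i + k) j = i + k := by omega
    have h3 : min (i + (k + 2)) j = (i + k) + 2 := by omega
    rw [h1, h2, h3]
    exact h.str _ (by omega)

/-- the reversed segment -/
theorem IsSeg.rev {n : ℕ} {x y : E} {p : ℕ → E} (h : M.IsSeg n x y p) :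
    M.IsSeg n y x (fun k => p (n - k)) := by
  refine ⟨?_, ?_, ?_⟩
  · exact h.stop _ (by omega)
  · intro k hk
    show p (n - k) = x
    rw [← h.start]
    congr 1
    omega
  · intro k hk
    show p (n - (k + 1)) = M.mid (p (n - k)) (p (n - (k + 2)))
    have h1 := h.str (n - (k + 2)) (by omega)
    have h2 : n - (k + 2) + 1 = n - (k + 1) := by omega
    have h3 : n - (k + 2) + 2 = n - k := by omega
    rw [h2, h3] at h1
    rw [h1, M.comm]

theorem IsSeg.map {n : ℕ} {x y : E} {p : ℕ → E} (h : M.IsSeg n x y p) (φ : E → E)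
    (hφ : ∀ x y, φ (M.mid x y) = M.mid (φ x) (φ y)) :
    M.IsSeg n (φ x) (φ y) (fun k => φ (p k)) := by
  refine ⟨?_, ?_, ?_⟩
  · show φ (p 0) = φ x
    rw [h.start]
  · intro i hi
    show φ (p i) = φ y
    rw [h.stop i hi]
  · intro i hi
    show φ (p (i + 1)) = _
    rw [h.str i hi, hφ]

theorem IsSeg.dist_eq {n : ℕ} {x y : E} {p : ℕ → E} (h : M.IsSeg n x y p) {i j : ℕ}
    (hij : i ≤ j) (hj : j ≤ n) : (n : ℝ) * dist (p i) (p j) = (j - i) * dist x y := by
  rcases Nat.eq_zero_or_pos j with rfl | hj0
  · have : i = 0 := by omega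
    subst this
    simp
  · have hj0' : (0 : ℝ) < j := by exact_mod_cast hj0
    have h1 := h.start_dist hj
    -- reverse the segment from `0` to `j`
    have h2 := (h.sub (Nat.zero_le j) hj).rev.start_dist (i := j - i) (by omega)
    have e1 : min (0 + (j - 0 - (j - i))) j = i := by omega
    simp only [e1] at h2
    rw [h.start, dist_comm (p j) (p i), dist_comm (p j) x] at h2
    have e2 : ((j - 0 : ℕ) : ℝ) = j := by simp
    have e3 : ((j - i : ℕ) : ℝ) = (j : ℝ) - i := by push_cast [Nat.cast_sub hij]; ring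
    rw [e2, e3] at h2
    have h3 : (j : ℝ) * (n * dist (p i) (p j)) = j * ((j - i) * dist x y) := by
      calc (j : ℝ) * (n * dist (p i) (p j)) = n * (j * dist (p i) (p j)) := by ring
        _ = (j - i) * (n * dist x (p j)) := by rw [h2]; ring
        _ = _ := by rw [h1]; ring
    exact mul_left_cancel₀ hj0'.ne' h3

end Mid

end Pool.Agent.H898.HH
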