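import Pool.Agent.H898.HH.Fix
import Pool.Agent.H898.HH.Bicomb

/-!
# The ultrapower of a metric space with a conical midpoint map
-/

set_option autoImplicit false

namespace Pool.Agent.H898.HH

open Filter Topology

/-- the ultrafilter -/
noncomputable def om : Ultrafilter ℕ := Filter.hyperfilter ℕ

theorem exists_ulim {u : ℕ → ℝ} {R : ℝ} (h : ∀ k, |u k| ≤ R) :
    ∃ a, Tendsto u (om : Filter ℕ) (𝓝 a) := by
  obtain ⟨a, _, ha⟩ := (isCompact_Icc (a := -R) (b := R)).ultrafilter_le_nhds (om.map u) (by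
    rw [le_principal_iff, Ultrafilter.coe_map, mem_map]
    apply Filter.univ_mem'
    intro k
    exact abs_le.1 (h k))
  exact ⟨a, ha⟩

/-- bounded sequences -/
structure Bd (E : Type) [MetricSpace E] where
  /-- the sequence -/
  seq : ℕ → E
  bdd : ∃ R, ∀ k, dist (seq k) (seq 0) ≤ R

section

variable {E : Type} [MetricSpace E]

theorem Bd.exists_dist (x y : Bd E) :
    ∃ a, Tendsto (fun k => dist (x.seq k) (y.seq k)) (om : Filter ℕ) (𝓝 a) := by
  obtain ⟨R, hR⟩ := x.bdd
  obtain ⟨S, hS⟩ := y.bdd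
  apply exists_ulim (R := R + dist (x.seq 0) (y.seq 0) + S)
  intro k
  rw [abs_of_nonneg dist_nonneg]
  have := dist_triangle4 (x.seq k) (x.seq 0) (y.seq 0) (y.seq k)
  have h1 := hR k
  have h2 := hS k
  rw [dist_comm] at h2
  linarith

theorem tendsto_le {u v : ℕ → ℝ} {a b : ℝ} (hu : Tendsto u (om : Filter ℕ) (𝓝 a))
    (hv : Tendsto v (om : Filter ℕ) (𝓝 b)) (h : ∀ k, u k ≤ v k) : a ≤ b :=
  le_of_tendsto_of_tendsto' hu hv h

noncomputable instance : PseudoMetricSpace (Bd E) where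
  dist x y := (x.exists_dist y).choose
  dist_self x := by
    refine tendsto_nhds_unique (x.exists_dist x).choose_spec ?_
    simp only [dist_self]
    exact tendsto_const_nhds
  dist_comm x y := by
    refine tendsto_nhds_unique (x.exists_dist y).choose_spec ?_
    have := (y.exists_dist x).choose_spec
    simpa only [dist_comm] using this
  dist_triangle x y z := by
    exact tendsto_le (x.exists_dist z).choose_spec
      ((x.exists_dist y).choose_spec.add (y.exists_dist z).choose_spec)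
      (fun k => dist_triangle _ _ _)

theorem tendsto_bd (x y : Bd E) :
    Tendsto (fun k => dist (x.seq k) (y.seq k)) (om : Filter ℕ) (𝓝 (dist x y)) :=
  (x.exists_dist y).choose_spec

theorem bd_dist_eq {x y : Bd E} {a : ℝ}
    (h : Tendsto (fun k => dist (x.seq k) (y.seq k)) (om : Filter ℕ) (𝓝 a)) : dist x y = a :=
  tendsto_nhds_unique (tendsto_bd x y) h

theorem bd_dist_le {x y : Bd E} {v : ℕ → ℝ} {a : ℝ}
    (h : Tendsto v (om : Filter ℕ) (𝓝 a)) (h2 : ∀ k, dist (x.seq k) (y.seq k) ≤ v k) :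
    dist x y ≤ a :=
  tendsto_le (tendsto_bd x y) h h2

/-- the step -/
noncomputable def hk (k : ℕ) : ℝ := 1 / ((k : ℝ) + 1)

theorem hk_pos (k : ℕ) : 0 < hk k := by unfold hk; positivity

theorem hk_tendsto : Tendsto hk (om : Filter ℕ) (𝓝 0) :=
  (tendsto_one_div_add_atTop_nhds_zero_nat (𝕜 := ℝ)).mono_left Nat.hyperfilter_le_atTop

theorem tendsto_squeeze {u v : ℕ → ℝ} {a : ℝ} (hv : Tendsto v (om : Filter ℕ) (𝓝 a))
    (h : ∀ k, |u k - v k| ≤ hk k) : Tendsto u (om : Filter ℕ) (𝓝 a) := by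
  have h1 : Tendsto (fun k => u k - v k) (om : Filter ℕ) (𝓝 0) :=
    squeeze_zero_norm (fun k => by rw [Real.norm_eq_abs]; exact h k) hk_tendsto
  have h2 := h1.add hv
  simpa using h2

theorem floor_tendsto {t : ℝ} (ht : 0 ≤ t) :
    Tendsto (fun k => ((⌊t / hk k⌋₊ : ℕ) : ℝ) * hk k) (om : Filter ℕ) (𝓝 t) := by
  apply tendsto_squeeze (tendsto_const_nhds (x := t))
  intro k
  have h0 := hk_pos k
  have h1 := Nat.floor_le (a := t / hk k) (by positivity)
  have h2 := Nat.lt_floor_add_one (t / hk k)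
  have h3 : t / hk k * hk k = t := div_mul_cancel₀ _ h0.ne'
  have h4 := mul_le_mul_of_nonneg_right h1 h0.le
  have h5 := mul_lt_mul_of_pos_right h2 h0
  rw [h3] at h4 h5
  rw [abs_le]
  constructor <;> linarith

theorem num_tendsto (x y : Bd E) :
    Tendsto (fun k => ((Mid.num (hk k) (x.seq k) (y.seq k) : ℕ) : ℝ) * hk k) (om : Filter ℕ)
      (𝓝 (dist x y)) := by
  apply tendsto_squeeze (tendsto_bd x y)
  intro k
  have h1 := Mid.le_num (hk_pos k) (x.seq k) (y.seq k)
  have h2 := Mid.num_lt (hk_pos k) (x.seq k) (y.seq k)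
  have h3 := hk_pos k
  rw [abs_le]
  constructor <;> linarith

theorem min_tendsto {u v : ℕ → ℕ} {a b : ℝ}
    (hu : Tendsto (fun k => (u k : ℝ) * hk k) (om : Filter ℕ) (𝓝 a))
    (hv : Tendsto (fun k => (v k : ℝ) * hk k) (om : Filter ℕ) (𝓝 b)) :
    Tendsto (fun k => ((min (u k) (v k) : ℕ) : ℝ) * hk k) (om : Filter ℕ) (𝓝 (min a b)) := by
  refine (hu.min hv).congr (fun k => ?_)
  rw [Nat.cast_min, min_mul_of_nonneg _ _ (hk_pos k).le]

theorem add_tendsto {u v : ℕ → ℕ} {a b : ℝ}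
    (hu : Tendsto (fun k => (u k : ℝ) * hk k) (om : Filter ℕ) (𝓝 a))
    (hv : Tendsto (fun k => (v k : ℝ) * hk k) (om : Filter ℕ) (𝓝 b)) :
    Tendsto (fun k => ((u k + v k : ℕ) : ℝ) * hk k) (om : Filter ℕ) (𝓝 (a + b)) := by
  refine (hu.add hv).congr (fun k => ?_)
  rw [Nat.cast_add, add_mul]

theorem sub_tendsto {u v : ℕ → ℕ} {a b : ℝ}
    (hu : Tendsto (fun k => (u k : ℝ) * hk k) (om : Filter ℕ) (𝓝 a))
    (hv : Tendsto (fun k => (v k : ℝ) * hk k) (om : Filter ℕ) (𝓝 b)) :
    Tendsto (fun k => ((u k - v k : ℕ) : ℝ) * hk k) (om : Filter ℕ) (𝓝 (max (a - b) 0)) := by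
  refine ((hu.sub hv).max (tendsto_const_nhds (x := 0))).congr (fun k => ?_)
  have h0 := hk_pos k
  rcases le_total (v k) (u k) with h | h
  · rw [Nat.cast_sub h, sub_mul, max_eq_left]
    have : (v k : ℝ) ≤ u k := by exact_mod_cast h
    nlinarith
  · have h1 : u k - v k = 0 := by omega
    rw [h1, Nat.cast_zero, zero_mul, max_eq_right]
    have : (u k : ℝ) ≤ v k := by exact_mod_cast h
    nlinarith

variable [CompleteSpace E] {M : Mid E}

theorem comb_start_le {h : ℝ} (hh : 0 < h) (x y : E) (i : ℕ) :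
    dist (M.comb h x y i) x ≤ dist x y := by
  rcases le_total i (Mid.num h x y) with h1 | h1
  · have h2 := (Mid.comb_seg (M := M) hh x y).start_dist h1
    rcases Nat.eq_zero_or_pos (Mid.num h x y) with h3 | h3
    · have : i = 0 := by omega
      subst this
      rw [Mid.comb_zero hh, dist_self]
      exact dist_nonneg
    · have h3' : (0 : ℝ) < Mid.num h x y := by exact_mod_cast h3
      have h4 : (i : ℝ) ≤ Mid.num h x y := by exact_mod_cast h1
      have h5 := mul_le_mul_of_nonneg_right h4 (dist_nonneg (x := x) (y := y))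
      rw [← h2] at h5
      rw [dist_comm]
      exact le_of_mul_le_mul_left h5 h3'
  · rw [Mid.comb_end hh x y h1, dist_comm]

variable (M) in
/-- the combing of sequences, with a sequence of indices -/
noncomputable def ic (x y : Bd E) (i : ℕ → ℕ) : Bd E where
  seq k := M.comb (hk k) (x.seq k) (y.seq k) (i k)
  bdd := by
    obtain ⟨R, hR⟩ := x.bdd
    obtain ⟨S, hS⟩ := y.bdd
    refine ⟨(R + dist (x.seq 0) (y.seq 0) + S) + R + dist (x.seq 0) (y.seq 0), fun k => ?_⟩
    have h1 := comb_start_le (M := M) (hk_pos k) (x.seq k) (y.seq k) (i k)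
    have h2 := comb_start_le (M := M) (hk_pos 0) (x.seq 0) (y.seq 0) (i 0)
    have h3 := dist_triangle4 (M.comb (hk k) (x.seq k) (y.seq k) (i k)) (x.seq k) (x.seq 0)
      (M.comb (hk 0) (x.seq 0) (y.seq 0) (i 0))
    rw [dist_comm (x.seq 0) (M.comb (hk 0) (x.seq 0) (y.seq 0) (i 0))] at h3
    have h4 := dist_triangle4 (x.seq k) (x.seq 0) (y.seq 0) (y.seq k)
    have h5 := hR k
    have h6 := hS k
    rw [dist_comm] at h6
    linarith

/-- two points on the same path -/
theorem ic_dist (x y : Bd E) {i j : ℕ → ℕ} {a b : ℝ}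
    (hi : Tendsto (fun k => (i k : ℝ) * hk k) (om : Filter ℕ) (𝓝 a))
    (hj : Tendsto (fun k => (j k : ℝ) * hk k) (om : Filter ℕ) (𝓝 b)) :
    dist (ic M x y i) (ic M x y j) = |min a (dist x y) - min b (dist x y)| := by
  apply bd_dist_eq
  have h1 := ((min_tendsto hi (num_tendsto x y)).sub (min_tendsto hj (num_tendsto x y))).abs
  exact tendsto_squeeze h1 (fun k => Mid.comb_dist_abs (hk_pos k) _ _ _ _)

variable (M) in
/-- the combing of the ultrapower, for representatives -/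
noncomputable def bc (x y : Bd E) (t : ℝ) : Bd E := ic M x y (fun k => ⌊t / hk k⌋₊)

theorem bc_start (x y : Bd E) : dist (bc M x y 0) x = 0 := by
  apply bd_dist_eq
  refine tendsto_const_nhds.congr (fun k => ?_)
  show 0 = dist (M.comb (hk k) (x.seq k) (y.seq k) ⌊0 / hk k⌋₊) (x.seq k)
  rw [zero_div, Nat.floor_zero, Mid.comb_zero (hk_pos k), dist_self]

theorem ic_num (x y : Bd E) :
    dist (ic M x y (fun k => Mid.num (hk k) (x.seq k) (y.seq k))) y = 0 := by
  apply bd_dist_eq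
  refine tendsto_const_nhds.congr (fun k => ?_)
  show 0 = dist (M.comb (hk k) (x.seq k) (y.seq k) _) (y.seq k)
  rw [Mid.comb_end (hk_pos k) _ _ le_rfl, dist_self]

theorem bc_stop (x y : Bd E) : dist (bc M x y (dist x y)) y = 0 := by
  have h1 := ic_num (M := M) x y
  have h2 : dist (bc M x y (dist x y)) (ic M x y (fun k => Mid.num (hk k) (x.seq k) (y.seq k))) =
      0 := by
    unfold bc
    rw [ic_dist x y (floor_tendsto dist_nonneg) (num_tendsto x y), sub_self, abs_zero]
  have := dist_triangle (bc M x y (dist x y))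
    (ic M x y (fun k => Mid.num (hk k) (x.seq k) (y.seq k))) y
  have h3 := dist_nonneg (x := bc M x y (dist x y)) (y := y)
  linarith

theorem bc_geod (x y : Bd E) {s t : ℝ} (hs : s ∈ Set.Icc 0 (dist x y))
    (ht : t ∈ Set.Icc 0 (dist x y)) : dist (bc M x y s) (bc M x y t) = |s - t| := by
  unfold bc
  rw [ic_dist x y (floor_tendsto hs.1) (floor_tendsto ht.1), min_eq_left hs.2, min_eq_left ht.2]

theorem bc_lip (x y x' y' : Bd E) (t : ℝ) :
    dist (bc M x y t) (bc M x' y' t) ≤ 2 * (dist x x' + dist y y') := by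
  have h1 := (((tendsto_bd x x').add (tendsto_bd y y')).const_mul 2).add hk_tendsto
  rw [add_zero] at h1
  exact bd_dist_le h1 (fun k => Mid.comb_lip (hk_pos k) _ _ _ _ _)

theorem bc_consistent (x y : Bd E) {r s t : ℝ} (hr : 0 ≤ r) (hs : 0 ≤ s) (hst : s + r ≤ t)
    (ht : t ≤ dist x y) : dist (bc M (bc M x y s) (bc M x y t) r) (bc M x y (s + r)) = 0 := by
  set i : ℕ → ℕ := fun k => min (min ⌊s / hk k⌋₊ (Mid.num (hk k) (x.seq k) (y.seq k)) +
    ⌊r / hk k⌋₊) (min ⌊t / hk k⌋₊ (Mid.num (hk k) (x.seq k) (y.seq k))) with hi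
  have h1 : dist (bc M (bc M x y s) (bc M x y t) r) (ic M x y i) = 0 := by
    apply bd_dist_eq
    refine tendsto_const_nhds.congr (fun k => ?_)
    symm
    rw [dist_eq_zero]
    show M.comb (hk k) (M.comb (hk k) (x.seq k) (y.seq k) ⌊s / hk k⌋₊)
      (M.comb (hk k) (x.seq k) (y.seq k) ⌊t / hk k⌋₊) ⌊r / hk k⌋₊ =
      M.comb (hk k) (x.seq k) (y.seq k) (i k)
    have h0 := hk_pos k
    have hst' : ⌊s / hk k⌋₊ ≤ ⌊t / hk k⌋₊ := by
      apply Nat.floor_mono
      exact div_le_div_of_nonneg_right (by linarith) h0.le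
    rw [← Mid.comb_min h0 (x.seq k) (y.seq k) ⌊s / hk k⌋₊,
      ← Mid.comb_min h0 (x.seq k) (y.seq k) ⌊t / hk k⌋₊,
      Mid.comb_sub h0 (by omega) (by omega)]
  have h2 : dist (ic M x y i) (bc M x y (s + r)) = 0 := by
    have h3 : Tendsto (fun k => (i k : ℝ) * hk k) (om : Filter ℕ)
        (𝓝 (min (min s (dist x y) + r) (min t (dist x y)))) :=
      min_tendsto (add_tendsto (min_tendsto (floor_tendsto hs) (num_tendsto x y))
        (floor_tendsto hr)) (min_tendsto (floor_tendsto (by linarith)) (num_tendsto x y))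
    have e1 : min (min s (dist x y) + r) (min t (dist x y)) = s + r := by
      rw [min_eq_left (by linarith : s ≤ dist x y), min_eq_left ht, min_eq_left hst]
    rw [e1] at h3
    unfold bc
    rw [ic_dist x y h3 (floor_tendsto (by linarith)), sub_self, abs_zero]
  have h3 := dist_triangle (bc M (bc M x y s) (bc M x y t) r) (ic M x y i) (bc M x y (s + r))
  have h4 := dist_nonneg (x := bc M (bc M x y s) (bc M x y t) r) (y := bc M x y (s + r))
  linarith

theorem bc_rev (x y : Bd E) {t : ℝ} (ht : 0 ≤ t) (ht2 : t ≤ dist x y) :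
    dist (bc M y x t) (bc M x y (dist x y - t)) = 0 := by
  set i : ℕ → ℕ := fun k => Mid.num (hk k) (x.seq k) (y.seq k) - ⌊t / hk k⌋₊ with hi
  have h1 : dist (bc M y x t) (ic M x y i) = 0 := by
    apply bd_dist_eq
    refine tendsto_const_nhds.congr (fun k => ?_)
    symm
    rw [dist_eq_zero]
    exact Mid.comb_rev (hk_pos k) _ _ _
  have h2 : dist (ic M x y i) (bc M x y (dist x y - t)) = 0 := by
    have h3 : Tendsto (fun k => (i k : ℝ) * hk k) (om : Filter ℕ) (𝓝 (max (dist x y - t) 0)) :=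
      sub_tendsto (num_tendsto x y) (floor_tendsto ht)
    rw [max_eq_left (by linarith)] at h3
    unfold bc
    rw [ic_dist x y h3 (floor_tendsto (by linarith)), sub_self, abs_zero]
  have h3 := dist_triangle (bc M y x t) (ic M x y i) (bc M x y (dist x y - t))
  have h4 := dist_nonneg (x := bc M y x t) (y := bc M x y (dist x y - t))
  linarith

theorem bc_conv (x y x' y' : Bd E) (hL : dist x y = dist x' y') {t : ℝ} (ht : 0 ≤ t)
    (ht2 : t < dist x y) : dist x y * dist (bc M x y t) (bc M x' y' t) ≤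
      t * dist y y' + (dist x y - t) * dist x x' := by
  have hi := floor_tendsto ht
  have hm := min_tendsto (num_tendsto x y) (num_tendsto x' y')
  rw [← hL, min_self] at hm
  have hD := tendsto_bd (bc M x y t) (bc M x' y' t)
  have hx := tendsto_bd x x'
  have hy := tendsto_bd y y'
  have hd := ((tendsto_bd x y).sub (tendsto_bd x' y')).abs
  rw [hL, sub_self, abs_zero] at hd
  rw [hL] at hm ht2 ⊢
  have h1 := hm.mul hD
  have h2 := (hi.mul ((hy.add hd).add hk_tendsto)).add ((hm.sub hi).mul hx)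
  rw [add_zero, add_zero] at h2
  refine le_of_tendsto_of_tendsto h1 h2 ?_
  have h3 : ∀ᶠ k in (om : Filter ℕ), ((⌊t / hk k⌋₊ : ℕ) : ℝ) * hk k <
      ((min (Mid.num (hk k) (x.seq k) (y.seq k)) (Mid.num (hk k) (x'.seq k) (y'.seq k)) : ℕ) : ℝ) *
        hk k := hi.eventually_lt hm ht2
  filter_upwards [h3] with k hk1
  have h0 := hk_pos k
  have hk2 : (⌊t / hk k⌋₊ : ℝ) < ((min (Mid.num (hk k) (x.seq k) (y.seq k))
    (Mid.num (hk k) (x'.seq k) (y'.seq k)) : ℕ) : ℝ) := lt_of_mul_lt_mul_right hk1 h0.le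
  have hk3 : ⌊t / hk k⌋₊ ≤ min (Mid.num (hk k) (x.seq k) (y.seq k))
    (Mid.num (hk k) (x'.seq k) (y'.seq k)) := le_of_lt (by exact_mod_cast hk2)
  have h4 := Mid.comb_conv (M := M) h0 (x.seq k) (y.seq k) (x'.seq k) (y'.seq k) hk3
  have h5 := mul_le_mul_of_nonneg_right h4 h0.le
  show _ * dist (M.comb (hk k) (x.seq k) (y.seq k) ⌊t / hk k⌋₊)
    (M.comb (hk k) (x'.seq k) (y'.seq k) ⌊t / hk k⌋₊) ≤ _
  refine le_trans (le_of_eq ?_) (h5.trans (le_of_eq ?_)) <;> ring

end

end Pool.Agent.H898.HH
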