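import Pool.Agent.H898.HH.Pull

/-!
# Wreath products of hierarchically hyperbolic groups with finite groups
-/

set_option autoImplicit false

namespace Pool.Agent.H898.HH

/-- the wreath product of `H` with the group of the permutations of `I` -/
@[ext] structure WrG (I H : Type) where
  s : I → H
  p : Equiv.Perm I

namespace WrG

variable {I H : Type} [Group H]

instance : Mul (WrG I H) := ⟨fun a b => ⟨fun i => a.s i * b.s (a.p⁻¹ i), a.p * b.p⟩⟩
instance : One (WrG I H) := ⟨⟨fun _ => 1, 1⟩⟩
instance : Inv (WrG I H) := ⟨fun a => ⟨fun i => (a.s (a.p i))⁻¹, a.p⁻¹⟩⟩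

@[simp] theorem mul_s (a b : WrG I H) (i : I) : (a * b).s i = a.s i * b.s (a.p⁻¹ i) := rfl
@[simp] theorem mul_p (a b : WrG I H) : (a * b).p = a.p * b.p := rfl
@[simp] theorem one_s (i : I) : (1 : WrG I H).s i = 1 := rfl
@[simp] theorem one_p : (1 : WrG I H).p = 1 := rfl
@[simp] theorem inv_s (a : WrG I H) (i : I) : (a⁻¹).s i = (a.s (a.p i))⁻¹ := rfl
@[simp] theorem inv_p (a : WrG I H) : (a⁻¹).p = a.p⁻¹ := rfl

instance : Group (WrG I H) :=
  Group.ofLeftAxioms
    (fun a b c => by
      ext i
      · simp [mul_assoc]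
      · simp [mul_assoc])
    (fun a => by
      ext i
      · simp
      · simp)
    (fun a => by
      ext i
      · simp
      · simp)

/-- the base group -/
def base (I H : Type) [Group H] : (I → H) →* WrG I H where
  toFun s := ⟨s, 1⟩
  map_one' := rfl
  map_mul' s t := by
    ext i
    · simp
    · simp

/-- the permutations -/
def perm (I H : Type) [Group H] : Equiv.Perm I →* WrG I H where
  toFun p := ⟨fun _ => 1, p⟩
  map_one' := rfl
  map_mul' s t := by
    ext i
    · simp
    · simp

theorem eq_mul (a : WrG I H) : a = base I H a.s * perm I H a.p := by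
  ext i
  · simp [base, perm]
  · simp [base, perm]

end WrG

variable {Q : Type} [Group Q] (X : HHG Q) {H : Type} [Group H] (f : H →* Q) (I : Type)

/-- the generating set of the wreath product -/
def gensW : Set (WrG I H) := {a | ∀ i, f (a.s i) ∈ X.gens ∪ {1}}

theorem fib_finite [Finite f.ker] (b : Q) : (f ⁻¹' {b}).Finite := by
  by_cases h : ∃ h, f h = b
  · obtain ⟨h, rfl⟩ := h
    have h1 : (f ⁻¹' {f h}) = (fun k : f.ker => h * k.1) '' Set.univ := by
      ext x
      simp only [Set.mem_preimage, Set.mem_singleton_iff, Set.image_univ, Set.mem_range]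
      constructor
      · intro hx
        refine ⟨⟨h⁻¹ * x, ?_⟩, by simp⟩
        rw [MonoidHom.mem_ker, map_mul, map_inv, hx]
        simp
      · rintro ⟨k, rfl⟩
        rw [map_mul, MonoidHom.mem_ker.1 k.2, mul_one]
    rw [h1]
    exact (Set.finite_univ).image _
  · convert Set.finite_empty
    ext x
    simp only [Set.mem_preimage, Set.mem_singleton_iff, Set.mem_empty_iff_false, iff_false]
    intro hx
    exact h ⟨x, hx⟩

theorem wr_finite [Finite I] (B : Set H) (hB : B.Finite) :
    {a : WrG I H | ∀ i, a.s i ∈ B}.Finite := by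
  have h1 : {s : I → H | ∀ i, s i ∈ B}.Finite := by
    have := Set.Finite.pi' (fun _ : I => hB)
    exact this
  have h2 : (Set.univ : Set (Equiv.Perm I)).Finite := Set.finite_univ
  apply ((h1.prod h2).image (fun x : (I → H) × Equiv.Perm I => (⟨x.1, x.2⟩ : WrG I H))).subset
  intro a ha
  exact ⟨(a.s, a.p), ⟨ha, trivial⟩, rfl⟩

theorem gensW_finite [Finite I] [Finite f.ker] : (gensW X f I).Finite := by
  have h1 : (f ⁻¹' (X.gens ∪ {1})).Finite :=
    Set.Finite.preimage' (X.gens_finite.union (Set.finite_singleton 1)) fun b _ => fib_finite f b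
  exact wr_finite I _ h1

theorem closure_TH (hf : Function.Surjective f) :
    Subgroup.closure (f ⁻¹' (X.gens ∪ {1})) = ⊤ := by
  rw [eq_top_iff]
  intro h _
  have h1 : f h ∈ (Subgroup.closure (f ⁻¹' (X.gens ∪ {1}))).map f := by
    rw [MonoidHom.map_closure, Set.image_preimage_eq _ hf]
    have : f h ∈ Subgroup.closure X.gens := by rw [X.gens_closure]; trivial
    exact Subgroup.closure_mono Set.subset_union_left this
  obtain ⟨h', hh', e⟩ := h1
  have h2 : h'⁻¹ * h ∈ Subgroup.closure (f ⁻¹' (X.gens ∪ {1})) := by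
    apply Subgroup.subset_closure
    right
    rw [Set.mem_singleton_iff, map_mul, map_inv, ← e]
    simp
  have : h = h' * (h'⁻¹ * h) := by group
  rw [this]
  exact Subgroup.mul_mem _ hh' h2

theorem closure_gensW [Finite I] (hf : Function.Surjective f) :
    Subgroup.closure (gensW X f I) = ⊤ := by
  classical
  rw [eq_top_iff]
  intro a _
  rw [WrG.eq_mul a]
  apply Subgroup.mul_mem
  · have key : ∀ s : I → H, s ∈ (Subgroup.closure (gensW X f I)).comap (WrG.base I H) := by
      intro s
      apply Subgroup.pi_mem_of_mulSingle_mem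
      intro i
      have h1 : Subgroup.closure (f ⁻¹' (X.gens ∪ {1})) ≤
          ((Subgroup.closure (gensW X f I)).comap (WrG.base I H)).comap
            (MonoidHom.mulSingle (fun _ : I => H) i) := by
        rw [Subgroup.closure_le]
        intro h hh
        apply Subgroup.subset_closure
        intro j
        show f ((Pi.mulSingle i h : I → H) j) ∈ _
        by_cases hj : j = i
        · subst hj
          rw [Pi.mulSingle_eq_same]
          exact hh
        · rw [Pi.mulSingle_eq_of_ne hj, map_one]
          right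
          rfl
      have h2 : s i ∈ Subgroup.closure (f ⁻¹' (X.gens ∪ {1})) := by
        rw [closure_TH X f hf]; trivial
      exact h1 h2
    exact key a.s
  · apply Subgroup.subset_closure
    intro i
    right
    show f 1 = 1
    exact map_one f

/-- the orbit map -/
def orb (a : WrG I H) : I → Q := fun i => f (a.s i)

variable {I}

theorem orb_mul (a b : WrG I H) (i : I) : orb f I (a * b) i = f (a.s i) * orb f I b (a.p⁻¹ i) := by
  simp [orb]

theorem orb_surj (hf : Function.Surjective f) : Function.Surjective (orb f I) := by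
  intro x
  choose s hs using fun i => hf (x i)
  exact ⟨⟨s, 1⟩, funext hs⟩

theorem step_le {x : WrG I H} (hx : x ∈ gensW X f I ∨ x⁻¹ ∈ gensW X f I) (i : I) :
    wordLen X.gens (f (x.s i)) ≤ 1 := by
  rcases hx with h | h
  · rcases h i with h1 | h1
    · exact wordLen_gen (Or.inl h1)
    · rw [Set.mem_singleton_iff.1 h1, wordLen_one]
      exact Nat.zero_le _
  · have h2 := h (x.p⁻¹ i)
    have h3 : f ((x⁻¹).s (x.p⁻¹ i)) = (f (x.s i))⁻¹ := by simp
    rw [h3] at h2
    rcases h2 with h1 | h1
    · exact wordLen_gen (Or.inr h1)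
    · rw [Set.mem_singleton_iff, inv_eq_one] at h1
      rw [h1, wordLen_one]
      exact Nat.zero_le _

theorem lip_list (l : List (WrG I H)) (hl : ∀ x ∈ l, x ∈ gensW X f I ∨ x⁻¹ ∈ gensW X f I)
    (a : WrG I H) (i : I) :
    wordLen X.gens ((orb f I a i)⁻¹ * orb f I (a * l.prod) i) ≤ l.length := by
  induction l generalizing a with
  | nil => simp [wordLen_one]
  | cons x l ih =>
    have h1 := ih (fun y hy => hl y (List.mem_cons_of_mem _ hy)) (a * x)
    have h2 : (orb f I a i)⁻¹ * orb f I (a * (x :: l).prod) i =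
        ((orb f I a i)⁻¹ * orb f I (a * x) i) *
          ((orb f I (a * x) i)⁻¹ * orb f I (a * x * l.prod) i) := by
      rw [List.prod_cons, mul_assoc a x l.prod]
      group
    have h3 : (orb f I a i)⁻¹ * orb f I (a * x) i = f (x.s (a.p⁻¹ i)) := by
      rw [orb_mul]
      simp [orb]
    rw [h2]
    refine (wordLen_mul X.gens_closure _ _).trans ?_
    rw [h3, List.length_cons]
    have h4 := step_le X f (hl x List.mem_cons_self) (a.p⁻¹ i)
    omega

theorem orb_lip [Fintype I] (hf : Function.Surjective f) (a b : WrG I H) :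
    ∑ i, wordDist X.gens (orb f I a i) (orb f I b i) ≤
      Fintype.card I * wordDist (gensW X f I) a b + Fintype.card I := by
  obtain ⟨l, h1, h2, h3⟩ := wordLen_spec (closure_gensW X f I hf) (a⁻¹ * b)
  have h4 : ∀ i, wordDist X.gens (orb f I a i) (orb f I b i) ≤ wordDist (gensW X f I) a b := by
    intro i
    have h5 := lip_list X f l h2 a i
    rw [h3, mul_inv_cancel_left, h1] at h5
    unfold wordDist
    exact_mod_cast h5
  calc ∑ i, wordDist X.gens (orb f I a i) (orb f I b i)
      ≤ ∑ _i : I, wordDist (gensW X f I) a b := Finset.sum_le_sum fun i _ => h4 i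
    _ = Fintype.card I * wordDist (gensW X f I) a b := by
      simp [Finset.sum_const, Finset.card_univ]
    _ ≤ _ := by
      have : (0 : ℝ) ≤ Fintype.card I := Nat.cast_nonneg _
      linarith

theorem orb_proper [Fintype I] [Finite f.ker] (r : ℝ) :
    ∃ r' : ℝ, ∀ a b : WrG I H, ∑ i, wordDist X.gens (orb f I a i) (orb f I b i) ≤ r →
      wordDist (gensW X f I) a b ≤ r' := by
  have h1 : (f ⁻¹' {q | wordLen X.gens q ≤ ⌊r⌋₊}).Finite :=
    Set.Finite.preimage' (ball_finite X.gens_finite X.gens_closure _) fun b _ => fib_finite f b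
  have h2 := wr_finite I _ h1
  obtain ⟨M, hM⟩ := (h2.image (wordLen (gensW X f I))).bddAbove
  refine ⟨M, ?_⟩
  intro a b hab
  have h3 : a⁻¹ * b ∈ {a : WrG I H | ∀ i, a.s i ∈ f ⁻¹' {q | wordLen X.gens q ≤ ⌊r⌋₊}} := by
    intro i
    show wordLen X.gens (f ((a⁻¹ * b).s i)) ≤ ⌊r⌋₊
    have h4 : f ((a⁻¹ * b).s i) = (orb f I a (a.p i))⁻¹ * orb f I b (a.p i) := by
      simp [orb]
    rw [h4]
    apply Nat.le_floor
    have h5 : wordDist X.gens (orb f I a (a.p i)) (orb f I b (a.p i)) ≤
        ∑ i, wordDist X.gens (orb f I a i) (orb f I b i) :=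
      Finset.single_le_sum (f := fun i => wordDist X.gens (orb f I a i) (orb f I b i))
        (fun i _ => wordDist_nonneg _ _ _) (Finset.mem_univ (a.p i))
    exact h5.trans hab
  have h6 := hM (Set.mem_image_of_mem _ h3)
  unfold wordDist
  exact_mod_cast h6

end Pool.Agent.H898.HH
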