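import Pool.Agent.H898.HH.Wr

/-!
# Wreath products of hierarchically hyperbolic groups with finite groups: the structure
-/

set_option autoImplicit false

namespace Pool.Agent.H898.HH

variable {Q : Type} [Group Q] (X : HHG Q) {H : Type} [Group H] (f : H →* Q) {I : Type}

theorem actI_inv (g : Q) (u : X.hhs.Idx) : X.actI g⁻¹ (X.actI g u) = u := by
  rw [← X.actI_mul, inv_mul_cancel, X.actI_one]

theorem actI_inj {g : Q} {u v : X.hhs.Idx} (h : X.actI g u = X.actI g v) : u = v := by
  rw [← actI_inv X g u, h, actI_inv]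

theorem actI_pnest {g : Q} {u v : X.hhs.Idx} (h : PNest X.hhs.nest u v) :
    PNest X.hhs.nest (X.actI g u) (X.actI g v) :=
  ⟨X.actI_nest g u v h.1, fun h' => h.2 (actI_inj X h')⟩

/-- action on the index set -/
def wI (a : WrG I H) (t : PIdx X.hhs I) : PIdx X.hhs I :=
  ⟨fun i => (t.1 (a.p⁻¹ i)).map (X.actI (f (a.s i))), by
    obtain ⟨i, u, hu⟩ := t.2
    refine ⟨a.p i, X.actI (f (a.s (a.p i))) u, ?_⟩
    simp [hu]⟩

theorem wI_some {a : WrG I H} {t : PIdx X.hhs I} {i : I} {u : X.hhs.Idx} (h : t.1 i = some u) :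
    (wI X f a t).1 (a.p i) = some (X.actI (f (a.s (a.p i))) u) := by
  simp [wI, h]

theorem wI_some' {a : WrG I H} {t : PIdx X.hhs I} {i : I} {v : X.hhs.Idx}
    (h : (wI X f a t).1 i = some v) :
    ∃ u, t.1 (a.p⁻¹ i) = some u ∧ v = X.actI (f (a.s i)) u := by
  simp only [wI, Option.map_eq_some_iff] at h
  obtain ⟨u, hu, hv⟩ := h
  exact ⟨u, hu, hv.symm⟩

theorem wI_one (t : PIdx X.hhs I) : wI X f 1 t = t := by
  apply Subtype.ext
  funext i
  show (t.1 ((1 : Equiv.Perm I)⁻¹ i)).map (X.actI (f 1)) = t.1 i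
  rw [map_one, inv_one, Equiv.Perm.one_apply]
  cases t.1 i with
  | none => rfl
  | some u => simp [X.actI_one]

theorem wI_mul (a b : WrG I H) (t : PIdx X.hhs I) : wI X f (a * b) t = wI X f a (wI X f b t) := by
  apply Subtype.ext
  funext i
  show (t.1 ((a.p * b.p)⁻¹ i)).map (X.actI (f (a.s i * b.s (a.p⁻¹ i)))) =
    ((t.1 (b.p⁻¹ (a.p⁻¹ i))).map (X.actI (f (b.s (a.p⁻¹ i))))).map (X.actI (f (a.s i)))
  rw [mul_inv_rev, Equiv.Perm.mul_apply, map_mul]
  cases t.1 (b.p⁻¹ (a.p⁻¹ i)) with
  | none => rfl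
  | some u => simp [X.actI_mul]

theorem wI_inv_self (a : WrG I H) (t : PIdx X.hhs I) : wI X f a⁻¹ (wI X f a t) = t := by
  rw [← wI_mul, inv_mul_cancel, wI_one]

theorem wI_self_inv (a : WrG I H) (t : PIdx X.hhs I) : wI X f a (wI X f a⁻¹ t) = t := by
  rw [← wI_mul, mul_inv_cancel, wI_one]

theorem wI_single (a : WrG I H) (j : I) (u : X.hhs.Idx) :
    wI X f a (single X.hhs j u) = single X.hhs (a.p j) (X.actI (f (a.s (a.p j))) u) := by
  classical
  apply Subtype.ext
  funext i
  show ((single X.hhs j u).1 (a.p⁻¹ i)).map (X.actI (f (a.s i))) = _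
  by_cases hi : i = a.p j
  · subst hi
    simp [single]
  · have : (Equiv.symm a.p) i ≠ j := by
      intro h
      apply hi
      rw [← h]
      simp
    simp [single, this, hi]

theorem wI_isSingle {a : WrG I H} {t : PIdx X.hhs I} (h : ¬ IsSingle X.hhs t) :
    ¬ IsSingle X.hhs (wI X f a t) := by
  rintro ⟨i, u, hu⟩
  apply h
  rw [← wI_inv_self X f a t, hu, wI_single]
  exact ⟨_, _, rfl⟩

theorem wI_nest (a : WrG I H) (u v : PIdx X.hhs I) (h : pnest X.hhs u v) :
    pnest X.hhs (wI X f a u) (wI X f a v) := by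
  intro i c hc
  obtain ⟨b, hb, rfl⟩ := wI_some' X f hc
  obtain ⟨e, he, hbe⟩ := h _ b hb
  refine ⟨X.actI (f (a.s i)) e, ?_, X.actI_nest _ _ _ hbe⟩
  have := wI_some X f (a := a) he
  simpa using this

theorem wI_orth (a : WrG I H) (u v : PIdx X.hhs I) (h : porth X.hhs u v) :
    porth X.hhs (wI X f a u) (wI X f a v) := by
  intro i c e hc he
  obtain ⟨c', hc', rfl⟩ := wI_some' X f hc
  obtain ⟨e', he', rfl⟩ := wI_some' X f he
  exact X.actI_orth _ _ _ (h _ c' e' hc' he')

theorem wI_cofinite [Finite I] (hf : Function.Surjective f) :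
    ∃ F : Set (PIdx X.hhs I), F.Finite ∧ ∀ u, ∃ g : WrG I H, ∃ v ∈ F, wI X f g v = u := by
  obtain ⟨F, hF, hF'⟩ := X.actI_cofinite
  have h1 : (insert none (some '' F)).Finite := (hF.image some).insert none
  have h2 : {t : I → Option X.hhs.Idx | ∀ i, t i ∈ insert none (some '' F)}.Finite :=
    Set.Finite.pi' (fun _ : I => h1)
  refine ⟨{t | t.1 ∈ {t : I → Option X.hhs.Idx | ∀ i, t i ∈ insert none (some '' F)}}, ?_, ?_⟩
  · exact h2.preimage (Set.injOn_of_injective Subtype.val_injective)
  · intro u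
    have h3 : ∀ i, ∃ (g : H) (v : Option X.hhs.Idx), v ∈ insert none (some '' F) ∧
        v.map (X.actI (f g)) = u.1 i := by
      intro i
      cases hu : u.1 i with
      | none => exact ⟨1, none, Set.mem_insert _ _, rfl⟩
      | some c =>
        obtain ⟨g, v, hv, hgv⟩ := hF' c
        obtain ⟨h, rfl⟩ := hf g
        exact ⟨h, some v, Set.mem_insert_of_mem _ ⟨v, hv, rfl⟩, by simp [hgv]⟩
    choose g v hv hgv using h3
    refine ⟨⟨g, 1⟩, ⟨v, ?_⟩, hv, ?_⟩
    · obtain ⟨i, c, hc⟩ := u.2
      have h4 := hgv i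
      rw [hc] at h4
      cases hvi : v i with
      | none => rw [hvi] at h4; cases h4
      | some e => exact ⟨i, e, hvi⟩
    · apply Subtype.ext
      funext i
      exact hgv i

/-- action on the spaces -/
def wP (a : WrG I H) : PPt X.hhs I → PPt X.hhs I
  | .one j p => .one (a.p j) (X.actP (f (a.s (a.p j))) p)
  | .pt t h => .pt (wI X f a t) (wI_isSingle X f h)

theorem wP_one (p : PPt X.hhs I) : wP X f 1 p = p := by
  cases p with
  | one j p => simp [wP, X.actP_one]
  | pt t h =>
    simp only [wP]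
    congr 1
    exact wI_one X f t

theorem wP_mul (a b : WrG I H) (p : PPt X.hhs I) : wP X f (a * b) p = wP X f a (wP X f b p) := by
  cases p with
  | one j p =>
    simp only [wP, WrG.mul_p, WrG.mul_s, Equiv.Perm.mul_apply, map_mul, X.actP_mul]
    congr 3
    simp
  | pt t h =>
    simp only [wP]
    congr 1
    exact wI_mul X f a b t

theorem wP_base (a : WrG I H) (p : PPt X.hhs I) :
    pbase X.hhs (wP X f a p) = wI X f a (pbase X.hhs p) := by
  cases p with
  | one j p =>
    show single X.hhs (a.p j) (X.hhs.base (X.actP (f (a.s (a.p j))) p)) = _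
    rw [X.actP_base]
    exact (wI_single X f a j (X.hhs.base p)).symm
  | pt t h => rfl

theorem wP_dist (a : WrG I H) (p q : PPt X.hhs I) (h : pbase X.hhs p = pbase X.hhs q) :
    pdist X.hhs (wP X f a p) (wP X f a q) = pdist X.hhs p q := by
  rcases pbase_eq_cases h with ⟨i, b, c, rfl, rfl, hbc⟩ | ⟨h1, t, ht, h2⟩
  · exact X.actP_dist _ b c hbc
  · subst h1
    rw [pdist_self, pdist_self]

theorem wP_proj_sub (a : WrG I H) (t : PIdx X.hhs I) (x : WrG I H) :
    wP X f a '' pproj X.hhs t (orb f I x) ⊆ pproj X.hhs (wI X f a t) (orb f I (a * x)) := by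
  rintro _ ⟨p, hp, rfl⟩
  refine ⟨?_, ?_⟩
  · rw [wP_base, hp.1]
  · intro i q hq
    cases p with
    | pt t' h => cases hq
    | one j p =>
      obtain ⟨h1, h2⟩ := one_inj hq
      subst h1; subst h2
      have h3 := hp.2 j p rfl
      have e : a.p⁻¹ (a.p j) = j := by simp
      rw [X.actP_base, orb_mul, e, X.proj_equivariant]
      exact Set.mem_image_of_mem _ h3

theorem wP_proj (a : WrG I H) (t : PIdx X.hhs I) (x : WrG I H) :
    pproj X.hhs (wI X f a t) (orb f I (a * x)) = wP X f a '' pproj X.hhs t (orb f I x) := by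
  apply Set.Subset.antisymm
  · intro p hp
    have h1 := wP_proj_sub X f a⁻¹ (wI X f a t) (a * x) (Set.mem_image_of_mem _ hp)
    rw [wI_inv_self, inv_mul_cancel_left] at h1
    refine ⟨_, h1, ?_⟩
    rw [← wP_mul, mul_inv_cancel, wP_one]
  · exact wP_proj_sub X f a t x

theorem wI_rel {a : WrG I H} {s t : PIdx X.hhs I}
    (h : PNest (pnest X.hhs) s t ∨ Trans (pnest X.hhs) (porth X.hhs) s t) :
    PNest (pnest X.hhs) (wI X f a s) (wI X f a t) ∨
      Trans (pnest X.hhs) (porth X.hhs) (wI X f a s) (wI X f a t) := by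
  rcases h with h | h
  · left
    refine ⟨wI_nest X f a _ _ h.1, ?_⟩
    intro h'
    apply h.2
    rw [← wI_inv_self X f a s, h', wI_inv_self]
  · right
    refine ⟨?_, ?_, ?_⟩
    · intro h'
      have := wI_orth X f a⁻¹ _ _ h'
      rw [wI_inv_self, wI_inv_self] at this
      exact h.1 this
    · intro h'
      have := wI_nest X f a⁻¹ _ _ h'
      rw [wI_inv_self, wI_inv_self] at this
      exact h.2.1 this
    · intro h'
      have := wI_nest X f a⁻¹ _ _ h'
      rw [wI_inv_self, wI_inv_self] at this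
      exact h.2.2 this

theorem wP_rho_sub (a : WrG I H) (s t : PIdx X.hhs I)
    (h : PNest (pnest X.hhs) s t ∨ Trans (pnest X.hhs) (porth X.hhs) s t) :
    wP X f a '' prho X.hhs s t ⊆ prho X.hhs (wI X f a s) (wI X f a t) := by
  rintro _ ⟨p, hp, rfl⟩
  refine ⟨?_, ?_⟩
  · rw [wP_base, hp.1]
  · intro i q hq
    cases p with
    | pt t' h => cases hq
    | one j p =>
      obtain ⟨h1, h2⟩ := one_inj hq
      subst h1; subst h2
      have h3 := hp.1
      have h4 : t = single X.hhs j (X.hhs.base p) := h3.symm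
      subst h4
      obtain ⟨v, hv, hvp⟩ := hp.2 j p rfl
      obtain ⟨v', hv', hrel⟩ := rel_single h
      rw [hv] at hv'
      cases hv'
      refine ⟨X.actI (f (a.s (a.p j))) v, wI_some X f hv, ?_⟩
      rw [X.actP_base, X.rho_equivariant _ _ _ hrel]
      exact Set.mem_image_of_mem _ hvp

theorem wP_rho (a : WrG I H) (s t : PIdx X.hhs I)
    (h : PNest (pnest X.hhs) s t ∨ Trans (pnest X.hhs) (porth X.hhs) s t) :
    prho X.hhs (wI X f a s) (wI X f a t) = wP X f a '' prho X.hhs s t := by
  apply Set.Subset.antisymm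
  · intro p hp
    have h1 := wP_rho_sub X f a⁻¹ (wI X f a s) (wI X f a t) (wI_rel X f h)
      (Set.mem_image_of_mem _ hp)
    rw [wI_inv_self, wI_inv_self] at h1
    refine ⟨_, h1, ?_⟩
    rw [← wP_mul, mul_inv_cancel, wP_one]
  · exact wP_rho_sub X f a s t h

/-- If `f : H → Q` is a surjective homomorphism with finite kernel to a hierarchically hyperbolic
group, then the wreath product of `H` with the symmetric group of a finite set is hierarchically
hyperbolic. -/
noncomputable def wrHHG [Fintype I] [Nonempty I] [Finite f.ker] (hf : Function.Surjective f) :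
    HHG (WrG I H) where
  gens := gensW X f I
  gens_finite := gensW_finite X f I
  gens_closure := closure_gensW X f I hf
  hhs := (X.hhs.pow (I := I) (wordDist_nonneg X.gens)).pull (orb f I) (orb_surj f hf)
    (fun _ _ => Finset.sum_nonneg fun _ _ => wordDist_nonneg _ _ _) (wordDist_nonneg _)
    (Fintype.card I) (Nat.cast_nonneg _) (orb_lip X f hf) (orb_proper X f)
  actI := wI X f
  actI_one := wI_one X f
  actI_mul := wI_mul X f
  actI_nest := wI_nest X f
  actI_orth := wI_orth X f
  actI_cofinite := wI_cofinite X f hf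
  actP := wP X f
  actP_one := wP_one X f
  actP_mul := wP_mul X f
  actP_base := wP_base X f
  actP_dist := wP_dist X f
  proj_equivariant := wP_proj X f
  rho_equivariant := wP_rho X f

/-- the structure on the wreath product is colourable if the given one is -/
theorem wrHHG_colorable [Fintype I] [Nonempty I] [Finite f.ker] (hf : Function.Surjective f)
    (hX : X.Colorable) : (wrHHG (I := I) X f hf).Colorable := by
  classical
  obtain ⟨n, c, hc1, hc2⟩ := hX
  let e := Fintype.equivFin (I → Option (Fin n))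
  let C : PIdx X.hhs I → (I → Option (Fin n)) := fun t i => (t.1 i).map c
  refine ⟨_, fun t => e (C t), ?_, ?_⟩
  · intro s t hst h
    have h1 : C s = C t := e.injective h
    have h2 : ∃ i, s.1 i ≠ t.1 i := by
      by_contra h3
      push Not at h3
      exact hst (Subtype.ext (funext h3))
    obtain ⟨i, hi⟩ := h2
    have h3 : (s.1 i).map c = (t.1 i).map c := congrFun h1 i
    have h4 : ∃ u v, s.1 i = some u ∧ t.1 i = some v ∧ c u = c v := by
      cases hs : s.1 i with
      | none =>
        cases ht : t.1 i with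
        | none => rw [hs, ht] at hi; exact absurd rfl hi
        | some v => rw [hs, ht] at h3; cases h3
      | some u =>
        cases ht : t.1 i with
        | none => rw [hs, ht] at h3; cases h3
        | some v =>
          rw [hs, ht] at h3
          exact ⟨u, v, rfl, rfl, Option.some.inj h3⟩
    obtain ⟨u, v, hu, hv, huv⟩ := h4
    have huv' : u ≠ v := by
      rintro rfl
      exact hi (hu.trans hv.symm)
    have h5 := hc1 u v huv' huv
    refine ⟨?_, ?_, ?_⟩
    · intro h6
      exact h5.1 (h6 i u v hu hv)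
    · intro h6
      obtain ⟨v', hv', h7⟩ := h6 i u hu
      rw [hv] at hv'
      cases hv'
      exact h5.2.1 h7
    · intro h6
      obtain ⟨u', hu', h7⟩ := h6 i v hv
      rw [hu] at hu'
      cases hu'
      exact h5.2.2 h7
  · intro a s t h
    have h1 : C s = C t := e.injective h
    have h2 : C (wI X f a s) = C (wI X f a t) := by
      funext i
      have h3 : (s.1 (a.p⁻¹ i)).map c = (t.1 (a.p⁻¹ i)).map c := congrFun h1 (a.p⁻¹ i)
      show ((s.1 (a.p⁻¹ i)).map (X.actI (f (a.s i)))).map c =
        ((t.1 (a.p⁻¹ i)).map (X.actI (f (a.s i)))).map c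
      cases hs : s.1 (a.p⁻¹ i) with
      | none =>
        cases ht : t.1 (a.p⁻¹ i) with
        | none => rfl
        | some v => rw [hs, ht] at h3; cases h3
      | some u =>
        cases ht : t.1 (a.p⁻¹ i) with
        | none => rw [hs, ht] at h3; cases h3
        | some v =>
          rw [hs, ht] at h3
          have := hc2 (f (a.s i)) u v (Option.some.inj h3)
          simp [this]
    show e (C (wI X f a s)) = e (C (wI X f a t))
    rw [h2]

/-! ## overgroups of finite index -/

section embed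

variable {K : Type} [Group K] (H' : Subgroup K)

/-- the embedding of `K` in the wreath product of the subgroup `H'` with the group of permutations
of the cosets -/
noncomputable def emb : K →* WrG (K ⧸ H') H' where
  toFun k := ⟨fun i => ⟨(Quotient.out i)⁻¹ * k * Quotient.out (k⁻¹ • i), by
      have h1 : ((Quotient.out i : K) : K ⧸ H') = i := QuotientGroup.out_eq' i
      have h2 : ((k * Quotient.out (k⁻¹ • i) : K) : K ⧸ H') = i := by
        have h3 : ((Quotient.out (k⁻¹ • i) : K) : K ⧸ H') = k⁻¹ • i := QuotientGroup.out_eq' _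
        calc ((k * Quotient.out (k⁻¹ • i) : K) : K ⧸ H')
            = k • ((Quotient.out (k⁻¹ • i) : K) : K ⧸ H') := rfl
          _ = i := by rw [h3, smul_inv_smul]
      rw [mul_assoc]
      exact QuotientGroup.eq.1 (h1.trans h2.symm)⟩, MulAction.toPerm k⟩
  map_one' := by
    ext i
    · simp
    · simp
  map_mul' k l := by
    ext i
    · simp [mul_assoc, mul_smul]
    · simp [mul_smul]

theorem emb_injective : Function.Injective (emb H') := by
  rw [injective_iff_map_eq_one]
  intro k hk
  have h1 : (emb H' k).p = 1 := by rw [hk]; rfl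
  have h2 : (emb H' k).s ((1 : K) : K ⧸ H') = 1 := by rw [hk]; rfl
  have h3 : k⁻¹ • ((1 : K) : K ⧸ H') = ((1 : K) : K ⧸ H') := by
    have h4 : k • ((1 : K) : K ⧸ H') = ((1 : K) : K ⧸ H') := by
      have := congrArg (fun p : Equiv.Perm (K ⧸ H') => p ((1 : K) : K ⧸ H')) h1
      simpa [emb] using this
    rw [inv_smul_eq_iff, h4]
  have h4 := congrArg Subtype.val h2
  have h5 : (Quotient.out ((1 : K) : K ⧸ H'))⁻¹ * k *
      Quotient.out (k⁻¹ • ((1 : K) : K ⧸ H')) = 1 := h4
  rw [h3] at h5
  have h6 := congrArg (fun x => Quotient.out ((1 : K) : K ⧸ H') * x *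
    (Quotient.out ((1 : K) : K ⧸ H'))⁻¹) h5
  simpa [mul_assoc] using h6

end embed

/-- **Main theorem.** -/
theorem embed_main (K : Type) [Group K] (H' : Subgroup K) [H'.FiniteIndex] (Q : Type) [Group Q]
    (f : H' →* Q) (hf : Function.Surjective f) [Finite f.ker] (X : HHG Q) :
    ∃ (W : Type) (_ : Group W) (Y : HHG W) (i : K →* W), Function.Injective i ∧
      (X.Colorable → Y.Colorable) := by
  have : Fintype (K ⧸ H') := Fintype.ofFinite _
  exact ⟨WrG (K ⧸ H') H', inferInstance, wrHHG X f hf, emb H', emb_injective H',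
    wrHHG_colorable X f hf⟩

end Pool.Agent.H898.HH
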